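import Mathlib
set_option autoImplicit false
open Set Topology

namespace SymCM

/-- covering dimension at most `n`: every finite open cover can be shrunk to one of order at most
`n+1` -/
def DimLE (X : Type) [TopologicalSpace X] (n : ℕ) : Prop :=
  ∀ (k : ℕ) (U : Fin k → Set X), (∀ i, IsOpen (U i)) → (⋃ i, U i) = univ →
    ∃ V : Fin k → Set X, (∀ i, IsOpen (V i)) ∧ (∀ i, V i ⊆ U i) ∧ (⋃ i, V i) = univ ∧
      ∀ x, {i | x ∈ V i}.ncard ≤ n + 1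

/-- `φ`, given on the closed set `A`, has an extension which is nowhere zero on `K`. -/
def Ext {X : Type} [TopologicalSpace X] (A : Set X) (φ : X → ℂ) (K : Set X) : Prop :=
  ∃ g : X → ℂ, Continuous g ∧ (∀ x ∈ A, g x = φ x) ∧ ∀ x ∈ K, g x ≠ 0

/-- closed rectangle -/
def Box (l r b t : ℝ) : Set ℂ := {z | z.re ∈ Icc l r ∧ z.im ∈ Icc b t}

/-- its boundary -/
def BoxBd (l r b t : ℝ) : Set ℂ := {z | z ∈ Box l r b t ∧ (z.re = l ∨ z.re = r ∨ z.im = b ∨ z.im = t)}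

/-- Moebius blow-ups of the strip `[a,b] × [0,1]` at the points `d n` -/
def PiR (a b : ℝ) (d : ℕ → ℂ) : Set (ℂ × (ℕ → ℂ)) :=
  {p | p.1 ∈ Box a b 0 1 ∧ ∀ n, ‖p.2 n‖ = 1 ∧ (p.1 - d n) ^ 2 = ((‖p.1 - d n‖ : ℝ) : ℂ) ^ 2 * p.2 n}

/-- branched double covers over `[a,b] × [0,1]` (plain over the line `re = 2`) -/
def AR (a b : ℝ) (c : ℕ → ℂ) : Set (ℂ × (ℕ → ℂ)) :=
  {p | p.1 ∈ Box a b 0 1 ∧ ∀ n, (p.2 n) ^ 2 = (p.1 - c n) * ((p.1.re - 2 : ℝ) : ℂ)}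

/-- the direction square `Y(x) n = (x - d n)^2 / |x - d n|^2` -/
noncomputable def Yf (d : ℕ → ℂ) (x : ℂ) : ℕ → ℂ :=
  fun n => (x - d n) ^ 2 / ((‖x - d n‖ : ℝ) : ℂ) ^ 2

/-- the total space over `[0,4] × [0,1]` -/
def TT (c d : ℕ → ℂ) : Set (ℂ × (ℕ → ℂ) × (ℕ → ℂ)) :=
  {p | p.1 ∈ Box 0 4 0 1 ∧ ∀ n, (p.2.1 n) ^ 2 = (p.1 - c n) * ((max 0 (p.1.re - 2) : ℝ) : ℂ) ∧
    ‖p.2.2 n‖ = 1 ∧ (p.1 - d n) ^ 2 = ((‖p.1 - d n‖ : ℝ) : ℂ) ^ 2 * p.2.2 n}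

/-- truncation of the coordinates with index at least `N` -/
def trunc (w : ℂ) (N : ℕ) (p : ℂ × (ℕ → ℂ)) : ℂ × (ℕ → ℂ) := (p.1, fun n => if n < N then p.2 n else w)

/-- the closed face of the standard simplex spanned by `τ` -/
def Simp (k : ℕ) (τ : Finset (Fin k)) : Set (Fin k → ℝ) :=
  {b | (∀ i, 0 ≤ b i) ∧ ∑ i, b i = 1 ∧ ∀ i, i ∉ τ → b i = 0}

/-- the 3-skeleton of (n × n grid on the unit square) × (2-skeleton of the simplex) -/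
def Skel (n k : ℕ) : Set (ℂ × (Fin k → ℝ)) :=
  {p | p.1 ∈ Box 0 1 0 1 ∧ (∃ τ : Finset (Fin k), τ.card = 3 ∧ p.2 ∈ Simp k τ) ∧
    ((∃ j : ℕ, j ≤ n ∧ (p.1.re = j / n ∨ p.1.im = j / n)) ∨
      ∃ τ : Finset (Fin k), τ.card = 2 ∧ p.2 ∈ Simp k τ)}

/-- The covering dimension of `X` is at most `n`: every finite open cover has a finite open
refinement such that every point lies in at most `n + 1` of its members. -/
def CovDimLE (X : Type) [TopologicalSpace X] (n : ℤ) : Prop :=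
  ∀ 𝒰 : Set (Set X), 𝒰.Finite → (∀ U ∈ 𝒰, IsOpen U) → ⋃₀ 𝒰 = univ →
    ∃ 𝒱 : Set (Set X), 𝒱.Finite ∧ (∀ V ∈ 𝒱, IsOpen V) ∧ ⋃₀ 𝒱 = univ ∧
      (∀ V ∈ 𝒱, ∃ U ∈ 𝒰, V ⊆ U) ∧ ∀ x, ({V ∈ 𝒱 | x ∈ V}.ncard : ℤ) ≤ n + 1

/-- `X` is a `k`-dimensional Cantor manifold. -/
structure IsCantorManifold (X : Type) [TopologicalSpace X] (k : ℤ) : Prop where
  compact : CompactSpace X
  one_le : 1 ≤ k
  dim_le : CovDimLE X k
  dim_ge : ¬ CovDimLE X (k - 1)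
  conn : ∀ C : Set X, IsClosed C → CovDimLE C (k - 2) → IsConnected Cᶜ

/-- The `m`-th symmetric product: nonempty subsets with at most `m` points, as a subspace of the
space of nonempty compact subsets with the Hausdorff metric. -/
def SymProd (E : Type) [MetricSpace E] (m : ℕ) : Type :=
  {K : TopologicalSpace.NonemptyCompacts E // (K : Set E).encard ≤ m}

noncomputable instance (E : Type) [MetricSpace E] (m : ℕ) : MetricSpace (SymProd E m) :=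
  inferInstanceAs (MetricSpace {K : TopologicalSpace.NonemptyCompacts E // (K : Set E).encard ≤ m})

end SymCM
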