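import Mathlib
import Pool.Agent.SymCM.Defs
set_option autoImplicit false
open Set Topology

namespace SymCM

theorem DimLE.of_isClosedEmbedding {X Y : Type} [TopologicalSpace X] [TopologicalSpace Y] {f : X → Y}
    (hf : IsClosedEmbedding f) {n : ℕ} (h : DimLE Y n) : DimLE X n := by
  classical
  intro k U hU hcov
  choose O hO hOU using fun i => (hf.isInducing.isOpen_iff).1 (hU i)
  obtain ⟨V', hV'o, hV'U, hV'c, hV'n⟩ := h (k + 1)
    (fun i => if hi : (i : ℕ) < k then O ⟨i, hi⟩ else (range f)ᶜ)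
    (fun i => by
      by_cases hi : (i : ℕ) < k
      · simp only [hi, dite_true]; exact hO _
      · simp only [hi, dite_false]; exact hf.isClosed_range.isOpen_compl)
    (by
      rw [eq_univ_iff_forall]
      intro y
      rw [mem_iUnion]
      by_cases hy : y ∈ range f
      · obtain ⟨x, rfl⟩ := hy
        have hx : x ∈ ⋃ i, U i := by rw [hcov]; trivial
        obtain ⟨i, hi⟩ := mem_iUnion.1 hx
        refine ⟨i.castSucc, ?_⟩
        have h1 : ((i.castSucc : Fin (k + 1)) : ℕ) < k := i.2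
        simp only [h1, dite_true]
        rw [← hOU i] at hi
        exact hi
      · refine ⟨Fin.last k, ?_⟩
        have h1 : ¬ ((Fin.last k : Fin (k + 1)) : ℕ) < k := by simp
        simp only [h1, dite_false]
        exact hy)
  have hsub : ∀ i : Fin k, V' i.castSucc ⊆ O i := by
    intro i
    have h2 := hV'U i.castSucc
    have h1 : ((i.castSucc : Fin (k + 1)) : ℕ) < k := i.2
    simp only [h1, dite_true] at h2
    exact h2
  have hlast : V' (Fin.last k) ⊆ (range f)ᶜ := by
    have h2 := hV'U (Fin.last k)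
    have h1 : ¬ ((Fin.last k : Fin (k + 1)) : ℕ) < k := by simp
    simp only [h1, dite_false] at h2
    exact h2
  refine ⟨fun i => f ⁻¹' V' i.castSucc, fun i => (hV'o _).preimage hf.continuous, ?_, ?_, ?_⟩
  · intro i x hx
    rw [← hOU i]
    exact hsub i hx
  · rw [eq_univ_iff_forall]
    intro x
    have hx : f x ∈ ⋃ i, V' i := by rw [hV'c]; trivial
    obtain ⟨j, hj⟩ := mem_iUnion.1 hx
    rw [mem_iUnion]
    rcases Fin.eq_castSucc_or_eq_last j with ⟨i, rfl⟩ | rfl
    · exact ⟨i, hj⟩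
    · exact absurd ⟨x, rfl⟩ (hlast hj)
  · intro x
    refine le_trans ?_ (hV'n (f x))
    exact Set.ncard_le_ncard_of_injOn Fin.castSucc (fun i hi => hi)
      (fun i _ j _ hij => Fin.castSucc_injective k hij) (Set.toFinite _)

theorem DimLE.of_injective {X Y : Type} [TopologicalSpace X] [CompactSpace X] [TopologicalSpace Y]
    [T2Space Y] {f : X → Y} (hf : Continuous f) (hi : Function.Injective f) {n : ℕ}
    (h : DimLE Y n) : DimLE X n := by
  exact DimLE.of_isClosedEmbedding (hf.isClosedEmbedding hi) h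

/-- set version: `S` compact subset of `X`, `f` continuous and injective on `S` with values in `R` -/
theorem DimLE.of_injOn {X Y : Type} [TopologicalSpace X] [TopologicalSpace Y] [T2Space Y]
    {S : Set X} (hS : IsCompact S) {R : Set Y} {f : X → Y} (hf : ContinuousOn f S)
    (hi : InjOn f S) (hR : MapsTo f S R) {n : ℕ} (h : DimLE R n) : DimLE S n := by
  have : CompactSpace S := isCompact_iff_compactSpace.1 hS
  refine DimLE.of_injective (f := fun x : S => (⟨f x, hR x.2⟩ : R)) ?_ ?_ h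
  · exact (continuousOn_iff_continuous_domRestrict.1 hf).subtype_mk _
  · intro x y hxy
    exact Subtype.ext (hi x.2 y.2 (congrArg Subtype.val hxy))

theorem DimLE.mono {X : Type} [TopologicalSpace X] {m n : ℕ} (h : DimLE X m) (hmn : m ≤ n) :
    DimLE X n := by
  intro k U hU hcov
  obtain ⟨V, h1, h2, h3, h4⟩ := h k U hU hcov
  exact ⟨V, h1, h2, h3, fun x => le_trans (h4 x) (by omega)⟩

/-- closed subsets -/
theorem DimLE.of_subset {X : Type} [TopologicalSpace X] {S R : Set X} (hS : IsClosed S)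
    (hSR : S ⊆ R) {n : ℕ} (h : DimLE R n) : DimLE S n := by
  refine DimLE.of_isClosedEmbedding (f := Set.inclusion hSR) ?_ h
  refine ⟨IsEmbedding.inclusion hSR, ?_⟩
  have : range (Set.inclusion hSR) = (Subtype.val : R → X) ⁻¹' S := by
    ext x
    constructor
    · rintro ⟨y, rfl⟩
      exact y.2
    · intro hx
      exact ⟨⟨x.1, hx⟩, rfl⟩
  rw [this]
  exact hS.preimage continuous_subtype_val

theorem A1_claim {X : Type} [TopologicalSpace X] {F : Set X} (hF : IsClosed F) {n : ℕ}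
    (h : DimLE F n) {k : ℕ} (U : Fin k → Set X) (hU : ∀ i, IsOpen (U i))
    (hcov : (⋃ i, U i) = univ) :
    ∃ V : Fin k → Set X, (∀ i, IsOpen (V i)) ∧ (∀ i, V i ⊆ U i) ∧ (⋃ i, V i) = univ ∧
      ∀ x ∈ F, {i | x ∈ V i}.ncard ≤ n + 1 := by
  obtain ⟨V', hV'o, hV'U, hV'c, hV'n⟩ := h k (fun i => (Subtype.val : F → X) ⁻¹' U i)
    (fun i => (hU i).preimage continuous_subtype_val)
    (by rw [← preimage_iUnion, hcov, preimage_univ])
  choose O hO hOV using fun i => isOpen_induced_iff.1 (hV'o i)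
  refine ⟨fun i => (O i ∩ U i) ∪ (U i \ F), fun i => ((hO i).inter (hU i)).union
    ((hU i).sdiff hF), ?_, ?_, ?_⟩
  · rintro i x (hx | hx)
    · exact hx.2
    · exact hx.1
  · rw [eq_univ_iff_forall]
    intro x
    rw [mem_iUnion]
    by_cases hx : x ∈ F
    · have h1 : (⟨x, hx⟩ : F) ∈ ⋃ i, V' i := by rw [hV'c]; trivial
      obtain ⟨i, hi⟩ := mem_iUnion.1 h1
      have h2 : x ∈ U i := hV'U i hi
      rw [← hOV i] at hi
      exact ⟨i, Or.inl ⟨hi, h2⟩⟩
    · have h1 : x ∈ ⋃ i, U i := by rw [hcov]; trivial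
      obtain ⟨i, hi⟩ := mem_iUnion.1 h1
      exact ⟨i, Or.inr ⟨hi, hx⟩⟩
  · intro x hx
    refine le_trans (Set.ncard_le_ncard ?_ (Set.toFinite _)) (hV'n ⟨x, hx⟩)
    rintro i (hi | hi)
    · show (⟨x, hx⟩ : F) ∈ V' i
      rw [← hOV i]
      exact hi.1
    · exact absurd hx hi.2

/-- finite closed sum theorem -/
theorem DimLE.of_iUnion {X : Type} [TopologicalSpace X] {ι : Type} [Finite ι] (S : ι → Set X)
    (hc : ∀ i, IsClosed (S i)) (hu : (⋃ i, S i) = univ) {n : ℕ} (h : ∀ i, DimLE (S i) n) :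
    DimLE X n := by
  classical
  have := Fintype.ofFinite ι
  intro k U hU hcov
  have key : ∀ T : Finset ι, ∃ V : Fin k → Set X, (∀ i, IsOpen (V i)) ∧ (∀ i, V i ⊆ U i) ∧
      (⋃ i, V i) = univ ∧ ∀ j ∈ T, ∀ x ∈ S j, {i | x ∈ V i}.ncard ≤ n + 1 := by
    intro T
    induction T using Finset.induction_on with
    | empty => exact ⟨U, hU, fun i => Subset.rfl, hcov, fun j hj => by simp at hj⟩
    | insert j T hj ih =>
      obtain ⟨V, h1, h2, h3, h4⟩ := ih
      obtain ⟨V2, g1, g2, g3, g4⟩ := A1_claim (hc j) (h j) V h1 h3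
      refine ⟨V2, g1, fun i => (g2 i).trans (h2 i), g3, ?_⟩
      intro j' hj' x hx
      rcases Finset.mem_insert.1 hj' with rfl | hj''
      · exact g4 x hx
      · exact le_trans (Set.ncard_le_ncard (fun i hi => g2 i hi) (Set.toFinite _))
          (h4 j' hj'' x hx)
  obtain ⟨V, h1, h2, h3, h4⟩ := key Finset.univ
  refine ⟨V, h1, h2, h3, fun x => ?_⟩
  have hx : x ∈ ⋃ i, S i := by rw [hu]; trivial
  obtain ⟨j, hj⟩ := mem_iUnion.1 hx
  exact h4 j (Finset.mem_univ j) x hj

/-- finite closed sum theorem for subsets -/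
theorem DimLE.of_biUnion {X : Type} [TopologicalSpace X] {ι : Type} [Finite ι] (S : ι → Set X) {R : Set X}
    (hc : ∀ i, IsClosed (S i)) (hu : R ⊆ ⋃ i, S i) {n : ℕ} (h : ∀ i, DimLE ↥(S i ∩ R) n) :
    DimLE R n := by
  refine DimLE.of_iUnion (fun i => (Subtype.val : R → X) ⁻¹' S i)
    (fun i => (hc i).preimage continuous_subtype_val) ?_ (fun i => ?_)
  · rw [eq_univ_iff_forall]
    intro x
    obtain ⟨i, hi⟩ := mem_iUnion.1 (hu x.2)
    exact mem_iUnion.2 ⟨i, hi⟩
  · refine DimLE.of_isClosedEmbedding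
      (f := fun x : ((Subtype.val : R → X) ⁻¹' S i) => (⟨x.1.1, ⟨x.2, x.1.2⟩⟩ : ↥(S i ∩ R))) ?_ (h i)
    have hcont : Continuous (fun x : ((Subtype.val : R → X) ⁻¹' S i) =>
        (⟨x.1.1, ⟨x.2, x.1.2⟩⟩ : ↥(S i ∩ R))) :=
      (continuous_subtype_val.comp continuous_subtype_val).subtype_mk _
    refine ⟨IsEmbedding.of_comp hcont continuous_subtype_val ?_, ?_⟩
    · have h1 : IsEmbedding ((Subtype.val : R → X) ∘
          (Subtype.val : ((Subtype.val : R → X) ⁻¹' S i) → R)) :=
        IsEmbedding.subtypeVal.comp IsEmbedding.subtypeVal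
      exact h1
    · have : range (fun x : ((Subtype.val : R → X) ⁻¹' S i) =>
          (⟨x.1.1, ⟨x.2, x.1.2⟩⟩ : ↥(S i ∩ R))) = univ := by
        rw [eq_univ_iff_forall]
        rintro ⟨x, hx1, hx2⟩
        exact ⟨⟨⟨x, hx2⟩, hx1⟩, rfl⟩
      rw [this]
      exact isClosed_univ

theorem DimLE.zero_clopen {X : Type} [TopologicalSpace X] (h : DimLE X 0) {U V : Set X}
    (hU : IsOpen U) (hV : IsOpen V) (hUV : U ∪ V = univ) :
    ∃ W : Set X, IsClopen W ∧ W ⊆ U ∧ Wᶜ ⊆ V := by
  obtain ⟨W, h1, h2, h3, h4⟩ := h 2 ![U, V]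
    (fun i => by fin_cases i <;> [exact hU; exact hV])
    (by
      rw [eq_univ_iff_forall]
      intro x
      have hx : x ∈ U ∪ V := by rw [hUV]; trivial
      rcases hx with hx | hx
      · exact mem_iUnion.2 ⟨0, hx⟩
      · exact mem_iUnion.2 ⟨1, hx⟩)
  have hc : (W 0)ᶜ = W 1 := by
    ext x
    constructor
    · intro hx
      have hx' : x ∈ ⋃ i, W i := by rw [h3]; trivial
      obtain ⟨i, hi⟩ := mem_iUnion.1 hx'
      fin_cases i
      · exact absurd hi hx
      · exact hi
    · intro hx hx0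
      have h5 := h4 x
      have h6 : {i | x ∈ W i} = univ := by
        rw [eq_univ_iff_forall]
        intro i
        fin_cases i
        · exact hx0
        · exact hx
      rw [h6, Set.ncard_univ] at h5
      simp at h5
  refine ⟨W 0, ⟨?_, h1 0⟩, h2 0, ?_⟩
  · rw [← isOpen_compl_iff, hc]
    exact h1 1
  · rw [hc]
    exact h2 1

theorem DimLE.of_isEmpty {X : Type} [TopologicalSpace X] [IsEmpty X] (n : ℕ) : DimLE X n := by
  intro k U hU hcov
  exact ⟨U, hU, fun i => Subset.rfl, hcov, fun x => isEmptyElim x⟩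

theorem DimLE.of_subsingleton {X : Type} [TopologicalSpace X] [Subsingleton X] (n : ℕ) :
    DimLE X n := by
  classical
  rcases isEmpty_or_nonempty X with h | ⟨⟨x0⟩⟩
  · exact DimLE.of_isEmpty n
  intro k U hU hcov
  have hx : x0 ∈ ⋃ i, U i := by rw [hcov]; trivial
  obtain ⟨i0, hi0⟩ := mem_iUnion.1 hx
  refine ⟨fun i => if i = i0 then univ else ∅, ?_, ?_, ?_, ?_⟩
  · intro i
    by_cases h : i = i0
    · simp [h]
    · simp [h]
  · intro i x hx
    by_cases h : i = i0
    · rw [h, Subsingleton.elim x x0]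
      exact hi0
    · simp [h] at hx
  · rw [eq_univ_iff_forall]
    intro x
    exact mem_iUnion.2 ⟨i0, by simp⟩
  · intro x
    have h1 : {i | x ∈ (if i = i0 then univ else ∅ : Set X)} ⊆ {i0} := by
      intro i hi
      by_cases h : i = i0
      · exact h
      · have : x ∈ (if i = i0 then univ else ∅ : Set X) := hi
        simp [h] at this
    have h2 := Set.ncard_le_ncard h1 (Set.toFinite _)
    rw [Set.ncard_singleton] at h2
    exact le_trans h2 (by omega)

end SymCM
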