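import Mathlib
import Pool.Agent.SymCM.Defs
set_option autoImplicit false
open Set Topology

namespace SymCM

lemma dimLEsf_ncard_le_of_rel {α β : Type*} {S : Set α} {T : Set β} [Finite T] (R : α → β → Prop)
    (h : ∀ i ∈ S, ∃ a ∈ T, R i a) (inj : ∀ i i' a, R i a → R i' a → i = i') :
    S.ncard ≤ T.ncard := by
  choose f hf hR using h
  rw [← Nat.card_coe_set_eq, ← Nat.card_coe_set_eq]
  refine Nat.card_le_card_of_injective (fun i : S => (⟨f i i.2, hf i i.2⟩ : T)) ?_
  intro i i' hii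
  have h1 : f i i.2 = f i' i'.2 := congrArg Subtype.val hii
  refine Subtype.ext (inj _ _ _ (hR i i.2) ?_)
  rw [h1]
  exact hR i' i'.2

/-- small fibre lemma: if for every finite open cover `U` of the compact space `X` there is a
continuous map to a compact space of dimension at most `n` each of whose fibres is covered by
finitely many pairwise disjoint open sets subordinate to `U`, then `X` has dimension at most `n` -/
theorem dimLE_of_small_fibres {X : Type} [TopologicalSpace X] [CompactSpace X] [T2Space X] (n : ℕ)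
    (h : ∀ (k : ℕ) (U : Fin k → Set X), (∀ i, IsOpen (U i)) → (⋃ i, U i) = univ →
      ∃ (K : Type) (_ : TopologicalSpace K) (_ : CompactSpace K) (_ : T2Space K) (G : X → K),
        DimLE K n ∧ Continuous G ∧
        ∀ y, ∃ (m : ℕ) (W : Fin m → Set X) (c : Fin m → Fin k), (∀ j, IsOpen (W j)) ∧
          (∀ j, W j ⊆ U (c j)) ∧ Pairwise (fun i j => Disjoint (W i) (W j)) ∧
          G ⁻¹' {y} ⊆ ⋃ j, W j) :
    DimLE X n := by
  intro k U hU hUc
  obtain ⟨K, _, _, _, G, hK, hG, hf⟩ := h k U hU hUc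
  choose m W c hWo hWU hWd hWf using hf
  set N : K → Set K := fun y => (G '' (⋃ j, W y j)ᶜ)ᶜ with hN
  have hNo : ∀ y, IsOpen (N y) := fun y =>
    (hG.isClosedMap _ (isOpen_iUnion fun j => hWo y j).isClosed_compl).isOpen_compl
  have hyN : ∀ y, y ∈ N y := by
    rintro y ⟨x, hx, hxy⟩
    exact hx (hWf y hxy)
  have hNsub : ∀ y x, G x ∈ N y → x ∈ ⋃ j, W y j := by
    intro y x hx
    by_contra hcon
    exact hx ⟨x, hcon, rfl⟩
  obtain ⟨t, ht⟩ := (isCompact_univ (X := K)).elim_finite_subcover N hNo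
    (fun y _ => mem_iUnion.2 ⟨y, hyN y⟩)
  set ys : Fin t.card → K := fun a => (t.equivFin.symm a : K) with hys
  have hcov : (⋃ a, N (ys a)) = univ := by
    rw [eq_univ_iff_forall]
    intro y
    obtain ⟨z, hz, hyz⟩ := mem_iUnion₂.1 (ht (mem_univ y))
    refine mem_iUnion.2 ⟨t.equivFin ⟨z, hz⟩, ?_⟩
    simpa [hys] using hyz
  obtain ⟨V, hVo, hVN, hVc, hVn⟩ := hK t.card (fun a => N (ys a)) (fun a => hNo _) hcov
  refine ⟨fun i => ⋃ (a : Fin t.card) (j : Fin (m (ys a))) (_ : c (ys a) j = i),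
    G ⁻¹' (V a) ∩ W (ys a) j, ?_, ?_, ?_, ?_⟩
  · intro i
    exact isOpen_iUnion fun a => isOpen_iUnion fun j => isOpen_iUnion fun _ =>
      ((hVo a).preimage hG).inter (hWo _ _)
  · intro i x hx
    simp only [mem_iUnion] at hx
    obtain ⟨a, j, hj, -, hx⟩ := hx
    rw [← hj]
    exact hWU _ _ hx
  · rw [eq_univ_iff_forall]
    intro x
    obtain ⟨a, ha⟩ := mem_iUnion.1 (hVc.symm ▸ mem_univ (G x) : G x ∈ ⋃ i, V i)
    obtain ⟨j, hj⟩ := mem_iUnion.1 (hNsub _ x (hVN a ha))
    simp only [mem_iUnion]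
    exact ⟨c (ys a) j, a, j, rfl, ha, hj⟩
  · intro x
    refine le_trans ?_ (hVn (G x))
    refine dimLEsf_ncard_le_of_rel (fun i a => ∃ j : Fin (m (ys a)), c (ys a) j = i ∧
      x ∈ W (ys a) j) ?_ ?_
    · intro i hi
      obtain ⟨a, hi⟩ := mem_iUnion.1 hi
      obtain ⟨j, hi⟩ := mem_iUnion.1 hi
      obtain ⟨hj, hx, hx'⟩ := mem_iUnion.1 hi
      exact ⟨a, hx, j, hj, hx'⟩
    · rintro i i' a ⟨j, hj, hx⟩ ⟨j', hj', hx'⟩
      have : j = j' := by
        by_contra hne
        exact Set.disjoint_left.1 (hWd (ys a) hne) hx hx'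
      rw [← hj, ← hj', this]

/-- a compact totally disconnected subset of a compact Hausdorff space covered by `U` is covered by
finitely many pairwise disjoint open sets subordinate to `U` -/
theorem exists_disjoint_of_totallyDisconnected {X : Type} [TopologicalSpace X] [CompactSpace X]
    [T2Space X] {F : Set X} (hF : IsClosed F) (htd : IsTotallyDisconnected F)
    {k : ℕ} (U : Fin k → Set X) (hU : ∀ i, IsOpen (U i)) (hFU : F ⊆ ⋃ i, U i) :
    ∃ (m : ℕ) (W : Fin m → Set X) (c : Fin m → Fin k), (∀ j, IsOpen (W j)) ∧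
      (∀ j, W j ⊆ U (c j)) ∧ Pairwise (fun i j => Disjoint (W i) (W j)) ∧ F ⊆ ⋃ j, W j := by
  have hFc : IsCompact F := hF.isCompact
  have : CompactSpace F := isCompact_iff_compactSpace.1 hFc
  have : TotallyDisconnectedSpace F := totallyDisconnectedSpace_subtype_iff.2 htd
  -- clopen neighbourhoods
  have h1 : ∀ x : F, ∃ (i : Fin k) (Q : Set F), IsClopen Q ∧ x ∈ Q ∧ Q ⊆ Subtype.val ⁻¹' (U i) := by
    intro x
    obtain ⟨i, hi⟩ := mem_iUnion.1 (hFU x.2)
    obtain ⟨Q, hQ, hxQ, hQU⟩ := compact_exists_isClopen_in_isOpen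
      ((hU i).preimage (continuous_subtype_val (p := (· ∈ F)))) hi
    exact ⟨i, Q, hQ, hxQ, hQU⟩
  choose ci Q hQ hxQ hQU using h1
  obtain ⟨t, ht⟩ := (isCompact_univ (X := F)).elim_finite_subcover Q (fun x => (hQ x).2)
    (fun y _ => mem_iUnion.2 ⟨y, hxQ y⟩)
  set ys : Fin t.card → F := fun a => (t.equivFin.symm a : F) with hys
  have hcov : ∀ y : F, ∃ a, y ∈ Q (ys a) := by
    intro y
    obtain ⟨z, hz, hyz⟩ := mem_iUnion₂.1 (ht (mem_univ y))
    refine ⟨t.equivFin ⟨z, hz⟩, ?_⟩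
    simpa [hys] using hyz
  -- disjointify
  set D : Fin t.card → Set F := fun a => Q (ys a) \ ⋃ b ∈ {b | b < a}, Q (ys b) with hD
  have hDcl : ∀ a, IsClosed (D a) := by
    intro a
    refine IsClosed.sdiff (hQ _).1 ?_
    exact isOpen_biUnion fun b _ => (hQ _).2
  have hDcov : ∀ y : F, ∃ a, y ∈ D a := by
    intro y
    obtain ⟨a, ha, hmin⟩ := WellFounded.has_min (wellFounded_lt (α := Fin t.card))
      {a | y ∈ Q (ys a)} (hcov y)
    refine ⟨a, ha, ?_⟩
    simp only [mem_iUnion, not_exists]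
    intro b hb hyb
    exact hmin b hyb hb
  have hDdisj : ∀ a b, a ≠ b → Disjoint (D a) (D b) := by
    have : ∀ a b, a < b → Disjoint (D a) (D b) := by
      intro a b hab
      rw [Set.disjoint_left]
      intro y hya hyb
      exact hyb.2 (mem_iUnion₂.2 ⟨a, hab, hya.1⟩)
    intro a b hab
    rcases lt_or_gt_of_ne hab with h | h
    · exact this a b h
    · exact (this b a h).symm
  set A : Fin t.card → Set X := fun a => Subtype.val '' (D a) with hA
  have hAc : ∀ a, IsCompact (A a) := fun a => (hDcl a).isCompact.image continuous_subtype_val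
  have hAdisj : ∀ a b, a ≠ b → Disjoint (A a) (A b) := by
    intro a b hab
    exact Set.disjoint_image_of_injective Subtype.val_injective (hDdisj a b hab)
  have hsep : ∀ a b, ∃ P : Set X × Set X, a ≠ b → IsOpen P.1 ∧ IsOpen P.2 ∧ A a ⊆ P.1 ∧ A b ⊆ P.2 ∧
      Disjoint P.1 P.2 := by
    intro a b
    by_cases hab : a = b
    · exact ⟨(∅, ∅), fun h => absurd hab h⟩
    · obtain ⟨u, v, hu, hv, h1, h2, h3⟩ :=
        SeparatedNhds.of_isCompact_isCompact (hAc a) (hAc b) (hAdisj a b hab)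
      exact ⟨(u, v), fun _ => ⟨hu, hv, h1, h2, h3⟩⟩
  choose P hP using hsep
  refine ⟨t.card, fun a => (⋂ (b) (_ : a ≠ b), ((P a b).1 ∩ (P b a).2)) ∩ U (ci (ys a)),
    fun a => ci (ys a), ?_, ?_, ?_, ?_⟩
  · intro a
    refine IsOpen.inter ?_ (hU _)
    refine isOpen_iInter_of_finite fun b => isOpen_iInter_of_finite fun hab => ?_
    exact (hP a b hab).1.inter (hP b a hab.symm).2.1
  · intro a
    exact inter_subset_right
  · intro a b hab
    refine Set.disjoint_left.2 ?_
    intro x hxa hxb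
    have h1 := (mem_iInter₂.1 hxa.1 b hab).1
    have h2 := (mem_iInter₂.1 hxb.1 a hab.symm).2
    exact Set.disjoint_left.1 (hP a b hab).2.2.2.2 h1 h2
  · intro x hx
    obtain ⟨a, ha⟩ := hDcov ⟨x, hx⟩
    refine mem_iUnion.2 ⟨a, ?_, ?_⟩
    · refine mem_iInter₂.2 fun b hab => ⟨?_, ?_⟩
      · exact (hP a b hab).2.2.1 ⟨_, ha, rfl⟩
      · exact (hP b a hab.symm).2.2.2.1 ⟨_, ha, rfl⟩
    · exact hQU _ ha.1

/-- light maps do not raise dimension -/
theorem DimLE.of_light {X Y : Type} [TopologicalSpace X] [CompactSpace X] [T2Space X]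
    [TopologicalSpace Y] [CompactSpace Y] [T2Space Y] {f : X → Y} (hf : Continuous f)
    (hl : ∀ y, IsTotallyDisconnected (f ⁻¹' {y})) {n : ℕ} (h : DimLE Y n) : DimLE X n := by
  refine dimLE_of_small_fibres n fun k U hU hUc => ?_
  refine ⟨Y, inferInstance, inferInstance, inferInstance, f, h, hf, fun y => ?_⟩
  exact exists_disjoint_of_totallyDisconnected (isClosed_singleton.preimage hf) (hl y) U hU
    (by rw [hUc]; exact subset_univ _)

end SymCM
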