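import Mathlib
import Pool.Agent.SymCM.Defs
set_option autoImplicit false
open Set Topology

namespace SymCM

theorem a3_ncard_equiv {ι κ : Type} (e : ι ≃ κ) (p : κ → Prop) :
    {i | p (e i)}.ncard = {j | p j}.ncard := by
  have : {j | p j} = e '' {i | p (e i)} := by
    ext j
    constructor
    · intro h
      exact ⟨e.symm j, by simpa using h, by simp⟩
    · rintro ⟨i, h, rfl⟩
      exact h
  rw [this, Set.ncard_image_of_injective _ e.injective]

/-- partition of unity with at most `n+1` nonzero members at each point -/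
theorem DimLE.exists_pou {X : Type} [TopologicalSpace X] [CompactSpace X] [T2Space X] {n : ℕ}
    (h : DimLE X n) (k : ℕ) (U : Fin k → Set X) (hU : ∀ i, IsOpen (U i)) (hc : (⋃ i, U i) = univ) :
    ∃ β : X → Fin k → ℝ, Continuous β ∧ (∀ x i, 0 ≤ β x i) ∧ (∀ x, ∑ i, β x i = 1) ∧
      (∀ x i, β x i ≠ 0 → x ∈ U i) ∧ ∀ x, {i | β x i ≠ 0}.ncard ≤ n + 1 := by
  obtain ⟨V, hV1, hV2, hV3, hV4⟩ := h k U hU hc
  obtain ⟨f, hf⟩ := PartitionOfUnity.exists_isSubordinate (s := (univ : Set X)) isClosed_univ V hV1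
    (by rw [hV3])
  have hsub : ∀ x i, f i x ≠ 0 → x ∈ V i := by
    intro x i hx
    exact hf i (subset_tsupport _ (Function.mem_support.2 hx))
  refine ⟨fun x i => f i x, ?_, ?_, ?_, ?_, ?_⟩
  · exact continuous_pi fun i => (f i).continuous
  · intro x i; exact f.nonneg i x
  · intro x
    have := f.sum_eq_one (mem_univ x)
    rwa [finsum_eq_sum_of_fintype] at this
  · intro x i hx
    exact hV2 i (hsub x i hx)
  · intro x
    refine le_trans (Set.ncard_le_ncard ?_ (Set.toFinite _)) (hV4 x)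
    intro i hi
    exact hsub x i hi

theorem a3_pou {X : Type} [TopologicalSpace X] [CompactSpace X] [T2Space X] {n : ℕ}
    (h : DimLE X n) {ι : Type} [Fintype ι] (U : ι → Set X) (hU : ∀ i, IsOpen (U i))
    (hc : (⋃ i, U i) = univ) :
    ∃ β : X → ι → ℝ, Continuous β ∧ (∀ x i, 0 ≤ β x i) ∧ (∀ x, ∑ i, β x i = 1) ∧
      (∀ x i, β x i ≠ 0 → x ∈ U i) ∧ ∀ x, {i | β x i ≠ 0}.ncard ≤ n + 1 := by
  classical
  let e := Fintype.equivFin ι
  obtain ⟨β, h1, h2, h3, h4, h5⟩ := h.exists_pou (Fintype.card ι) (fun i => U (e.symm i))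
    (fun i => hU _) (by
      rw [eq_univ_iff_forall] at hc ⊢
      intro x
      obtain ⟨i, hi⟩ := mem_iUnion.1 (hc x)
      exact mem_iUnion.2 ⟨e i, by simpa using hi⟩)
  refine ⟨fun x i => β x (e i), ?_, ?_, ?_, ?_, ?_⟩
  · exact continuous_pi fun i => (continuous_apply (e i)).comp h1
  · intro x i; exact h2 x _
  · intro x
    rw [← h3 x]
    exact Equiv.sum_comp e (fun i => β x i)
  · intro x i hx
    have := h4 x _ hx
    simpa using this
  · intro x
    refine le_trans (le_of_eq ?_) (h5 x)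
    exact a3_ncard_equiv e (fun j => β x j ≠ 0)

/-- colouring lemma -/
theorem a3_colour {X : Type} [TopologicalSpace X] [CompactSpace X] [T2Space X] {a : ℕ}
    (h : DimLE X a) {ι : Type} [Fintype ι] [DecidableEq ι] (U : ι → Set X)
    (hU : ∀ i, IsOpen (U i)) (hc : (⋃ i, U i) = univ) (m : ℕ) :
    ∃ V : Fin m → Finset ι → Set X, (∀ j S, IsOpen (V j S)) ∧ (∀ j S i, i ∈ S → V j S ⊆ U i) ∧
      (∀ j S x, x ∈ V j S → S.Nonempty) ∧
      (∀ j S T x, x ∈ V j S → x ∈ V j T → S = T) ∧
      ∀ x, {j | ∀ S, x ∉ V j S}.ncard ≤ a := by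
  classical
  obtain ⟨β, h1, h2, h3, h4, h5⟩ := a3_pou h U hU hc
  have ha : (0:ℝ) < a + 1 := by positivity
  have hm : (0:ℝ) < m + 1 := by positivity
  let w : Fin m → ℝ := fun j => ((j : ℕ) + 1 : ℝ) / ((m + 1) * (a + 1))
  have hw0 : ∀ j, 0 < w j := fun j => by simp only [w]; positivity
  have hw1 : ∀ j, w j < 1 / (a + 1) := by
    intro j
    simp only [w]
    rw [div_lt_div_iff₀ (by positivity) ha]
    have : ((j : ℕ) : ℝ) + 1 ≤ m := by
      have := j.2
      exact_mod_cast this
    nlinarith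
  have hwi : Function.Injective w := by
    intro j j' hj
    simp only [w] at hj
    rw [div_left_inj' (by positivity)] at hj
    have : ((j : ℕ) : ℝ) = (j' : ℕ) := by linarith
    exact Fin.ext (by exact_mod_cast this)
  have hβi : ∀ i, Continuous fun x => β x i := fun i => (continuous_apply i).comp h1
  refine ⟨fun j S => {x | S.Nonempty ∧ (∀ i ∈ S, w j < β x i) ∧ ∀ i ∉ S, β x i < w j}, ?_, ?_, ?_,
    ?_, ?_⟩
  · intro j S
    show IsOpen {x | S.Nonempty ∧ (∀ i ∈ S, w j < β x i) ∧ ∀ i ∉ S, β x i < w j}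
    by_cases hS : S.Nonempty
    · have : {x | S.Nonempty ∧ (∀ i ∈ S, w j < β x i) ∧ ∀ i ∉ S, β x i < w j} =
          (⋂ i ∈ S, {x | w j < β x i}) ∩ ⋂ i ∈ Sᶜ, {x | β x i < w j} := by
        ext x
        simp [hS]
      rw [this]
      apply IsOpen.inter
      · exact isOpen_biInter_finset fun i _ => isOpen_lt continuous_const (hβi i)
      · exact isOpen_biInter_finset fun i _ => isOpen_lt (hβi i) continuous_const
    · have : {x | S.Nonempty ∧ (∀ i ∈ S, w j < β x i) ∧ ∀ i ∉ S, β x i < w j} = ∅ := by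
        ext x; simp [hS]
      rw [this]; exact isOpen_empty
  · intro j S i hi x hx
    exact h4 x i (ne_of_gt (lt_trans (hw0 j) (hx.2.1 i hi)))
  · intro j S x hx; exact hx.1
  · intro j S T x hx hy
    ext i
    constructor
    · intro hi
      by_contra hT
      exact absurd (hx.2.1 i hi) (not_lt.2 (hy.2.2 i hT).le)
    · intro hi
      by_contra hS
      exact absurd (hy.2.1 i hi) (not_lt.2 (hx.2.2 i hS).le)
  · intro x
    -- every missed colour is a value of `β`
    have hmiss : ∀ j : Fin m, (∀ S : Finset ι, x ∉ {x | S.Nonempty ∧ (∀ i ∈ S, w j < β x i) ∧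
        ∀ i ∉ S, β x i < w j}) → ∃ i, β x i = w j := by
      intro j hj
      by_contra hne
      push Not at hne
      apply hj (Finset.univ.filter fun i => w j < β x i)
      refine ⟨?_, ?_, ?_⟩
      · by_contra hemp
        rw [Finset.not_nonempty_iff_eq_empty, Finset.filter_eq_empty_iff] at hemp
        have hle : ∀ i, β x i ≤ w j := fun i => not_lt.1 (hemp (Finset.mem_univ i))
        have hsum := h3 x
        have h6 : ∑ i, β x i = ∑ i ∈ Finset.univ.filter (fun i => β x i ≠ 0), β x i := by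
          rw [Finset.sum_filter_ne_zero]
        have h7 : (Finset.univ.filter (fun i => β x i ≠ 0)).card ≤ a + 1 := by
          have := h5 x
          rwa [Set.ncard_eq_toFinset_card', Set.toFinset_setOf] at this
        have h8 : ∑ i ∈ Finset.univ.filter (fun i => β x i ≠ 0), β x i ≤
            (Finset.univ.filter (fun i => β x i ≠ 0)).card • w j :=
          Finset.sum_le_card_nsmul _ _ _ (fun i _ => hle i)
        rw [nsmul_eq_mul] at h8
        have h9 : ((Finset.univ.filter (fun i => β x i ≠ 0)).card : ℝ) ≤ a + 1 := by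
          exact_mod_cast h7
        have h10 : ((Finset.univ.filter (fun i => β x i ≠ 0)).card : ℝ) * w j ≤ (a + 1) * w j :=
          mul_le_mul_of_nonneg_right h9 (hw0 j).le
        have h11 : (a + 1 : ℝ) * w j < 1 := by
          have := mul_lt_mul_of_pos_left (hw1 j) ha
          rwa [mul_one_div_cancel ha.ne'] at this
        linarith
      · intro i hi
        exact (Finset.mem_filter.1 hi).2
      · intro i hi
        simp only [Finset.mem_filter, Finset.mem_univ, true_and, not_lt] at hi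
        exact lt_of_le_of_ne hi (hne i)
    by_contra hcon
    push Not at hcon
    set M : Finset (Fin m) := Finset.univ.filter (fun j => ∀ S : Finset ι, x ∉
      {x | S.Nonempty ∧ (∀ i ∈ S, w j < β x i) ∧ ∀ i ∉ S, β x i < w j}) with hM
    have hMcard : a < M.card := by
      rw [Set.ncard_eq_toFinset_card', Set.toFinset_setOf] at hcon
      exact hcon
    have hex : ∀ j : Fin m, ∃ i : ι, j ∈ M → β x i = w j := by
      intro j
      by_cases hj : j ∈ M
      · obtain ⟨i, hi⟩ := hmiss j (Finset.mem_filter.1 hj).2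
        exact ⟨i, fun _ => hi⟩
      · have hι : Nonempty ι := by
          by_contra hι
          rw [not_nonempty_iff] at hι
          have := h3 x
          simp at this
        exact ⟨hι.some, fun h => absurd h hj⟩
    choose φ hφ using hex
    have hinj : Set.InjOn φ (M : Set (Fin m)) := by
      intro j hj j' hj' hjj
      apply hwi
      rw [← hφ j hj, ← hφ j' hj', hjj]
    let N : Finset ι := Finset.univ.filter (fun i => β x i ≠ 0)
    have hN : N.card ≤ a + 1 := by
      have := h5 x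
      rwa [Set.ncard_eq_toFinset_card', Set.toFinset_setOf] at this
    have hsubN : M.image φ ⊆ N := by
      intro i hi
      obtain ⟨j, hj, rfl⟩ := Finset.mem_image.1 hi
      simp only [N, Finset.mem_filter, Finset.mem_univ, true_and]
      rw [hφ j hj]; exact (hw0 j).ne'
    have hcard : (M.image φ).card = M.card := Finset.card_image_of_injOn hinj
    have heq : M.image φ = N := Finset.eq_of_subset_of_card_le hsubN (by omega)
    have hsum := h3 x
    have h6 : ∑ i, β x i = ∑ i ∈ N, β x i := by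
      simp only [N]
      rw [Finset.sum_filter_ne_zero]
    have h7 : ∑ i ∈ N, β x i = ∑ j ∈ M, w j := by
      rw [← heq, Finset.sum_image hinj]
      exact Finset.sum_congr rfl fun j hj => hφ j hj
    have hMne : M.Nonempty := Finset.card_pos.1 (by omega)
    have h8 : ∑ j ∈ M, w j < ∑ _j ∈ M, (1 / (a + 1) : ℝ) :=
      Finset.sum_lt_sum_of_nonempty hMne fun j _ => hw1 j
    rw [Finset.sum_const, nsmul_eq_mul] at h8
    have h9 : (M.card : ℝ) ≤ a + 1 := by
      have : M.card ≤ a + 1 := by rw [← hcard, heq]; exact hN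
      exact_mod_cast this
    have h10 : (M.card : ℝ) * (1 / (a + 1)) ≤ 1 := by
      rw [mul_one_div, div_le_one ha]; exact h9
    linarith

/-- an open cover of a product of compact spaces is refined by a product cover -/
theorem a3_boxes {X Y : Type} [TopologicalSpace X] [CompactSpace X] [T2Space X]
    [TopologicalSpace Y] [CompactSpace Y] [T2Space Y] {k : ℕ} (O : Fin k → Set (X × Y))
    (hO : ∀ i, IsOpen (O i)) (hc : (⋃ i, O i) = univ) :
    ∃ (s : Finset X) (t : Finset Y) (A : X → Set X) (B : Y → Set Y) (c : X → Y → Fin k),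
      (∀ x, IsOpen (A x)) ∧ (∀ y, IsOpen (B y)) ∧ (∀ x, ∃ x' ∈ s, x ∈ A x') ∧
      (∀ y, ∃ y' ∈ t, y ∈ B y') ∧ ∀ x y, A x ×ˢ B y ⊆ O (c x y) := by
  letI : UniformSpace X := uniformSpaceOfCompactR1
  letI : UniformSpace Y := uniformSpaceOfCompactR1
  obtain ⟨n, hn, hn'⟩ := lebesgue_number_lemma (isCompact_univ (X := X × Y)) hO (by rw [hc])
  rw [uniformity_prod, Filter.mem_inf_iff] at hn
  obtain ⟨P, hP, Q, hQ, hPQ⟩ := hn
  rw [Filter.mem_comap] at hP hQ
  obtain ⟨P', hP', hPs⟩ := hP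
  obtain ⟨Q', hQ', hQs⟩ := hQ
  obtain ⟨s, -, hs⟩ := (isCompact_univ (X := X)).elim_nhds_subcover
    (fun x => interior (UniformSpace.ball x P'))
    (fun x _ => interior_mem_nhds.2 (UniformSpace.ball_mem_nhds x hP'))
  obtain ⟨t, -, ht⟩ := (isCompact_univ (X := Y)).elim_nhds_subcover
    (fun y => interior (UniformSpace.ball y Q'))
    (fun y _ => interior_mem_nhds.2 (UniformSpace.ball_mem_nhds y hQ'))
  choose c hcc using fun (z : X × Y) => hn' z (mem_univ z)
  refine ⟨s, t, fun x => interior (UniformSpace.ball x P'),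
    fun y => interior (UniformSpace.ball y Q'), fun x y => c (x, y), fun _ => isOpen_interior,
    fun _ => isOpen_interior, ?_, ?_, ?_⟩
  · intro x
    obtain ⟨x', hx', h⟩ := mem_iUnion₂.1 (hs (mem_univ x))
    exact ⟨x', hx', h⟩
  · intro y
    obtain ⟨y', hy', h⟩ := mem_iUnion₂.1 (ht (mem_univ y))
    exact ⟨y', hy', h⟩
  · intro x y z hz
    apply hcc (x, y)
    have h1 : z.1 ∈ UniformSpace.ball x P' := interior_subset hz.1
    have h2 : z.2 ∈ UniformSpace.ball y Q' := interior_subset hz.2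
    show ((x, y), z) ∈ n
    rw [hPQ]
    exact ⟨hPs h1, hQs h2⟩

/-- product theorem -/
theorem DimLE.prod {X Y : Type} [TopologicalSpace X] [CompactSpace X] [T2Space X]
    [TopologicalSpace Y] [CompactSpace Y] [T2Space Y] {a b : ℕ} (hX : DimLE X a) (hY : DimLE Y b) :
    DimLE (X × Y) (a + b) := by
  classical
  intro k O hO hc
  obtain ⟨s, t, A, B, c, hA, hB, hAs, hBt, hAB⟩ := a3_boxes O hO hc
  obtain ⟨V, hV1, hV2, hV3, hV4, hV5⟩ := a3_colour hX (fun i : s => A i.1) (fun i => hA _) (by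
    rw [eq_univ_iff_forall]
    intro x
    obtain ⟨x', hx', h⟩ := hAs x
    exact mem_iUnion.2 ⟨⟨x', hx'⟩, h⟩) (a + b + 1)
  obtain ⟨W, hW1, hW2, hW3, hW4, hW5⟩ := a3_colour hY (fun i : t => B i.1) (fun i => hB _) (by
    rw [eq_univ_iff_forall]
    intro x
    obtain ⟨x', hx', h⟩ := hBt x
    exact mem_iUnion.2 ⟨⟨x', hx'⟩, h⟩) (a + b + 1)
  refine ⟨fun i => {z | ∃ (j : Fin (a + b + 1)) (S : Finset s) (T : Finset t) (hS : S.Nonempty)
    (hT : T.Nonempty), c hS.choose.1 hT.choose.1 = i ∧ z.1 ∈ V j S ∧ z.2 ∈ W j T}, ?_, ?_, ?_, ?_⟩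
  · intro i
    show IsOpen {z : X × Y | ∃ (j : Fin (a + b + 1)) (S : Finset s) (T : Finset t)
        (hS : S.Nonempty)
        (hT : T.Nonempty), c hS.choose.1 hT.choose.1 = i ∧ z.1 ∈ V j S ∧ z.2 ∈ W j T}
    have : {z : X × Y | ∃ (j : Fin (a + b + 1)) (S : Finset s) (T : Finset t) (hS : S.Nonempty)
        (hT : T.Nonempty), c hS.choose.1 hT.choose.1 = i ∧ z.1 ∈ V j S ∧ z.2 ∈ W j T} =
        ⋃ (j : Fin (a + b + 1)) (S : Finset s) (T : Finset t) (hS : S.Nonempty)
        (hT : T.Nonempty) (_ : c hS.choose.1 hT.choose.1 = i), V j S ×ˢ W j T := by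
      ext z
      simp only [mem_setOf_eq, mem_iUnion, mem_prod, exists_prop]
    rw [this]
    refine isOpen_iUnion fun j => isOpen_iUnion fun S => isOpen_iUnion fun T =>
      isOpen_iUnion fun hS => isOpen_iUnion fun hT => isOpen_iUnion fun _ =>
      (hV1 j S).prod (hW1 j T)
  · rintro i z ⟨j, S, T, hS, hT, rfl, hz1, hz2⟩
    apply hAB
    exact ⟨hV2 j S _ hS.choose_spec hz1, hW2 j T _ hT.choose_spec hz2⟩
  · rw [eq_univ_iff_forall]
    intro z
    have h1 := hV5 z.1
    have h2 := hW5 z.2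
    have h3 : ∃ j : Fin (a + b + 1), (∃ S, z.1 ∈ V j S) ∧ ∃ T, z.2 ∈ W j T := by
      by_contra hcon
      push Not at hcon
      have h4 : (univ : Set (Fin (a + b + 1))) ⊆ {j | ∀ S, z.1 ∉ V j S} ∪ {j | ∀ T, z.2 ∉ W j T} := by
        intro j _
        by_cases hj : ∃ S, z.1 ∈ V j S
        · right
          obtain ⟨S, hS⟩ := hj
          exact hcon j ⟨S, hS⟩
        · left
          push Not at hj
          exact hj
      have h5 := Set.ncard_le_ncard h4 (Set.toFinite _)
      have h6 := Set.ncard_union_le {j | ∀ S, z.1 ∉ V j S} {j | ∀ T, z.2 ∉ W j T}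
      rw [Set.ncard_univ, Nat.card_fin] at h5
      omega
    obtain ⟨j, ⟨S, hS⟩, ⟨T, hT⟩⟩ := h3
    exact mem_iUnion.2 ⟨_, j, S, T, hV3 j S _ hS, hW3 j T _ hT, rfl, hS, hT⟩
  · intro z
    have hch' : ∀ i : Fin k, ∃ j : Fin (a + b + 1), (z ∈ {z : X × Y | ∃ (j : Fin (a + b + 1))
        (S : Finset s) (T : Finset t) (hS : S.Nonempty)
        (hT : T.Nonempty), c hS.choose.1 hT.choose.1 = i ∧ z.1 ∈ V j S ∧ z.2 ∈ W j T}) →
        (∃ (S : Finset s) (T : Finset t)
        (hS : S.Nonempty) (hT : T.Nonempty), c hS.choose.1 hT.choose.1 = i ∧ z.1 ∈ V j S ∧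
        z.2 ∈ W j T) := by
      intro i
      by_cases hz : z ∈ {z : X × Y | ∃ (j : Fin (a + b + 1))
        (S : Finset s) (T : Finset t) (hS : S.Nonempty)
        (hT : T.Nonempty), c hS.choose.1 hT.choose.1 = i ∧ z.1 ∈ V j S ∧ z.2 ∈ W j T}
      · obtain ⟨j, h⟩ := hz
        exact ⟨j, fun _ => h⟩
      · exact ⟨0, fun h => absurd h hz⟩
    choose φ hφ using hch'
    have hinj : Set.InjOn φ {i | z ∈ {z : X × Y | ∃ (j : Fin (a + b + 1))
        (S : Finset s) (T : Finset t) (hS : S.Nonempty)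
        (hT : T.Nonempty), c hS.choose.1 hT.choose.1 = i ∧ z.1 ∈ V j S ∧ z.2 ∈ W j T}} := by
      intro i hi i' hi' hii
      obtain ⟨S, T, hS, hT, h1, h2, h3⟩ := hφ i hi
      obtain ⟨S', T', hS', hT', h1', h2', h3'⟩ := hφ i' hi'
      rw [← hii] at h2' h3'
      obtain rfl := hV4 _ S S' _ h2 h2'
      obtain rfl := hW4 _ T T' _ h3 h3'
      rw [← h1, ← h1']
    rw [← Set.ncard_image_of_injOn hinj]
    refine le_trans (Set.ncard_le_ncard (subset_univ _) (Set.toFinite _)) ?_
    rw [Set.ncard_univ, Nat.card_fin]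

end SymCM
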