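import Mathlib
import Pool.Agent.SymCM.Defs
set_option autoImplicit false
open Set Topology

namespace SymCM

/-- coloured grid cube -/
def a4Q (n : ℕ) (d : ℝ) (j : ℕ) (z : Fin n → ℤ) : Set (Fin n → ℝ) :=
  {y | ∀ i, (z i : ℝ) < y i / d - j / (n + 1) ∧ y i / d - j / (n + 1) < z i + 1}

theorem a4Q_isOpen (n : ℕ) (d : ℝ) (j : ℕ) (z : Fin n → ℤ) : IsOpen (a4Q n d j z) := by
  have : a4Q n d j z = ⋂ i, {y : Fin n → ℝ | (z i : ℝ) < y i / d - j / (n + 1) ∧
      y i / d - j / (n + 1) < z i + 1} := by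
    ext y; simp [a4Q]
  rw [this]
  refine isOpen_iInter_of_finite fun i => ?_
  have hc : Continuous fun y : Fin n → ℝ => y i / d - (j : ℝ) / (n + 1) := by
    fun_prop
  exact (isOpen_lt continuous_const hc).inter (isOpen_lt hc continuous_const)

theorem a4Q_dist (n : ℕ) (d : ℝ) (hd : 0 < d) (j : ℕ) (z : Fin n → ℤ) (y y' : Fin n → ℝ)
    (hy : y ∈ a4Q n d j z) (hy' : y' ∈ a4Q n d j z) : dist y' y ≤ d := by
  rw [dist_pi_le_iff hd.le]
  intro i
  obtain ⟨h1, h2⟩ := hy i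
  obtain ⟨h3, h4⟩ := hy' i
  have h5 : |y' i / d - y i / d| ≤ 1 := by
    rw [abs_le]; constructor <;> linarith
  rw [← sub_div, abs_div, abs_of_pos hd, div_le_one hd] at h5
  rw [Real.dist_eq]
  exact h5

theorem a4Q_exists (n : ℕ) (d : ℝ) (y : Fin n → ℝ) :
    ∃ j : Fin (n + 1), y ∈ a4Q n d j (fun i => ⌊y i / d - (j : ℕ) / (n + 1)⌋) := by
  by_contra hcon
  push Not at hcon
  have h1 : ∀ j : Fin (n + 1), ∃ i : Fin n, ∃ m : ℤ, y i / d - (j : ℕ) / (n + 1) = m := by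
    intro j
    by_contra hno
    push Not at hno
    apply hcon j
    intro i
    refine ⟨lt_of_le_of_ne (Int.floor_le _) fun h => hno i _ h.symm, Int.lt_floor_add_one _⟩
  choose g m hm using h1
  obtain ⟨j, j', hne, he⟩ := Fintype.exists_ne_map_eq_of_card_lt g (by simp)
  have e1 := hm j
  have e2 := hm j'
  rw [he] at e1
  have hn : (0 : ℝ) < n + 1 := by positivity
  have e3 : ((j' : ℕ) : ℝ) - ((j : ℕ) : ℝ) = ((m j - m j' : ℤ) : ℝ) * (n + 1) := by
    push_cast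
    have : ((j' : ℕ) : ℝ) / (n + 1) - ((j : ℕ) : ℝ) / (n + 1) = (m j : ℝ) - m j' := by linarith
    rw [← sub_div, div_eq_iff hn.ne'] at this
    exact this
  have e4 : ((j' : ℕ) : ℤ) - ((j : ℕ) : ℤ) = (m j - m j') * ((n : ℤ) + 1) := by
    exact_mod_cast e3
  have hj := j.2
  have hj' := j'.2
  apply hne
  have hm0 : m j - m j' = 0 := by
    by_contra h0
    rcases lt_or_gt_of_ne h0 with h | h
    · have : (m j - m j') * ((n : ℤ) + 1) ≤ -1 * ((n : ℤ) + 1) :=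
        mul_le_mul_of_nonneg_right (by omega) (by omega)
      omega
    · have : 1 * ((n : ℤ) + 1) ≤ (m j - m j') * ((n : ℤ) + 1) :=
        mul_le_mul_of_nonneg_right (by omega) (by omega)
      omega
  rw [hm0, zero_mul] at e4
  apply Fin.ext
  omega

theorem a4Q_floor (n : ℕ) (d : ℝ) (j : ℕ) (z : Fin n → ℤ) (y : Fin n → ℝ)
    (hy : y ∈ a4Q n d j z) : z = fun i => ⌊y i / d - j / (n + 1)⌋ := by
  ext i
  symm
  rw [Int.floor_eq_iff]
  exact ⟨(hy i).1.le, (hy i).2⟩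

/-- compact spaces embeddable in `ℝⁿ` have dimension at most `n` -/
theorem dimLE_of_injective_pi {X : Type} [TopologicalSpace X] [CompactSpace X] {n : ℕ}
    (f : X → Fin n → ℝ) (hf : Continuous f) (hi : Function.Injective f) : DimLE X n := by
  classical
  intro k U hU hcov
  rcases isEmpty_or_nonempty X with hX | ⟨⟨x0⟩⟩
  · exact ⟨U, hU, fun _ => le_rfl, hcov, fun x => hX.elim x⟩
  have hx0 : x0 ∈ ⋃ i, U i := by rw [hcov]; trivial
  obtain ⟨i0, hi0⟩ := mem_iUnion.1 hx0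
  have hcl : IsClosedMap f := (hf.isClosedEmbedding hi).isClosedMap
  obtain ⟨δ, hδ, hleb⟩ := lebesgue_number_lemma_of_metric (s := range f)
    (c := fun i => (f '' (U i)ᶜ)ᶜ) (isCompact_range hf)
    (fun i => (hcl _ (hU i).isClosed_compl).isOpen_compl)
    (by
      rintro _ ⟨x, rfl⟩
      have hx : x ∈ ⋃ i, U i := by rw [hcov]; trivial
      obtain ⟨i, hxi⟩ := mem_iUnion.1 hx
      rw [mem_iUnion]
      refine ⟨i, ?_⟩
      rintro ⟨x', hx', he⟩
      exact hx' (hi he ▸ hxi))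
  have hd : 0 < δ / 2 := by positivity
  have hc : ∀ (j : Fin (n + 1)) (z : Fin n → ℤ), ∃ i : Fin k,
      ∀ x, f x ∈ a4Q n (δ / 2) j z → x ∈ U i := by
    intro j z
    by_cases hne : ∃ x, f x ∈ a4Q n (δ / 2) j z
    · obtain ⟨x, hx⟩ := hne
      obtain ⟨i, hi'⟩ := hleb (f x) (mem_range_self x)
      refine ⟨i, fun x' hx' => ?_⟩
      have h1 := a4Q_dist n (δ / 2) hd j z _ _ hx hx'
      have h2 := hi' (Metric.mem_ball.2 (lt_of_le_of_lt h1 (by linarith)))
      by_contra hcon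
      exact h2 ⟨x', hcon, rfl⟩
    · exact ⟨i0, fun x hx => absurd ⟨x, hx⟩ hne⟩
  choose c hc using hc
  refine ⟨fun i => {x | ∃ j z, c j z = i ∧ f x ∈ a4Q n (δ / 2) (j : Fin (n + 1)) z}, ?_, ?_, ?_, ?_⟩
  · intro i
    have : {x | ∃ j z, c j z = i ∧ f x ∈ a4Q n (δ / 2) (j : Fin (n + 1)) z} =
        ⋃ (j : Fin (n + 1)) (z : Fin n → ℤ) (_ : c j z = i), f ⁻¹' (a4Q n (δ / 2) j z) := by
      ext x; simp
    change IsOpen {x | ∃ j z, c j z = i ∧ f x ∈ a4Q n (δ / 2) (j : Fin (n + 1)) z}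
    rw [this]
    exact isOpen_iUnion fun j => isOpen_iUnion fun z => isOpen_iUnion fun _ =>
      (a4Q_isOpen n (δ / 2) j z).preimage hf
  · rintro i x ⟨j, z, rfl, hx⟩
    exact hc j z x hx
  · rw [eq_univ_iff_forall]
    intro x
    obtain ⟨j, hj⟩ := a4Q_exists n (δ / 2) (f x)
    rw [mem_iUnion]
    exact ⟨_, j, _, rfl, hj⟩
  · intro x
    have hsub : {i | x ∈ (fun i => {x | ∃ j z, c j z = i ∧ f x ∈ a4Q n (δ / 2) (j : Fin (n + 1)) z}) i} ⊆
        (fun j : Fin (n + 1) => c j (fun i => ⌊f x i / (δ / 2) - (j : ℕ) / (n + 1)⌋)) '' univ := by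
      rintro i ⟨j, z, rfl, hx⟩
      refine ⟨j, trivial, ?_⟩
      have := a4Q_floor n (δ / 2) j z (f x) hx
      simp only
      rw [← this]
    refine (Set.ncard_le_ncard hsub (toFinite _)).trans ((Set.ncard_image_le (toFinite _)).trans ?_)
    rw [Set.ncard_univ, Nat.card_fin]

theorem dimLE_of_injOn_pi {X : Type} [TopologicalSpace X] {S : Set X} (hS : IsCompact S) {n : ℕ}
    (f : X → Fin n → ℝ) (hf : ContinuousOn f S) (hi : InjOn f S) : DimLE S n := by
  have : CompactSpace S := isCompact_iff_compactSpace.1 hS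
  exact dimLE_of_injective_pi (S.domRestrict f) (continuousOn_iff_continuous_domRestrict.1 hf)
    (injOn_iff_injective.1 hi)

end SymCM
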