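import Mathlib
import Pool.Agent.SymCM.Defs
import Pool.Agent.SymCM.Kuhn
set_option autoImplicit false
open Set Topology

namespace SymCM

theorem not_dimLE_cube (n : ℕ) : ¬ DimLE (Fin (n + 1) → Icc (0 : ℝ) 1) n := by
  intro hD
  obtain ⟨U, hU⟩ : ∃ U : Fin (n + 2) → Set (Fin (n + 1) → Icc (0 : ℝ) 1),
      U = fun j : Fin (n + 2) => {x : Fin (n + 1) → Icc (0 : ℝ) 1 |
        (∀ h : (j : ℕ) < n + 1, x ⟨j, h⟩ ≠ 0) ∧
        ∀ i : Fin (n + 1), (i : ℕ) < j → x i ≠ 1} := ⟨_, rfl⟩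
  have hUmem : ∀ j x, x ∈ U j ↔ ((∀ h : (j : ℕ) < n + 1, x ⟨j, h⟩ ≠ 0) ∧
        ∀ i : Fin (n + 1), (i : ℕ) < j → x i ≠ 1) := by
    intro j x; rw [hU]; rfl
  have hUo : ∀ j, IsOpen (U j) := by
    intro j
    have : U j = (⋂ h : (j : ℕ) < n + 1, {x : Fin (n + 1) → Icc (0 : ℝ) 1 | x ⟨j, h⟩ ≠ 0}) ∩
        ⋂ i : Fin (n + 1), ⋂ _h : (i : ℕ) < j, {x : Fin (n + 1) → Icc (0 : ℝ) 1 | x i ≠ 1} := by
      ext x
      rw [hUmem]
      simp only [mem_inter_iff, mem_iInter, mem_setOf_eq]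
    rw [this]
    refine IsOpen.inter ?_ ?_
    · refine isOpen_iInter_of_finite (fun h => ?_)
      exact isOpen_ne_fun (continuous_apply _) continuous_const
    · refine isOpen_iInter_of_finite (fun i => ?_)
      refine isOpen_iInter_of_finite (fun h => ?_)
      exact isOpen_ne_fun (continuous_apply _) continuous_const
  have hUc : (⋃ i, U i) = univ := by
    classical
    rw [eq_univ_iff_forall]
    intro x
    rw [mem_iUnion]
    by_cases h : ∃ i : ℕ, ∃ hi : i < n + 1, x ⟨i, hi⟩ = 1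
    · obtain ⟨hj, hj1⟩ := Nat.find_spec h
      refine ⟨⟨Nat.find h, by omega⟩, (hUmem _ _).2 ⟨fun h' => ?_, fun i hi h1 => ?_⟩⟩
      · rw [hj1]; exact one_ne_zero
      · exact Nat.find_min h hi ⟨i.2, h1⟩
    · refine ⟨⟨n + 1, by omega⟩, (hUmem _ _).2 ⟨fun h' => ?_, fun i hi h1 => ?_⟩⟩
      · exact absurd h' (lt_irrefl _)
      · exact h ⟨i, i.2, h1⟩
  obtain ⟨V, hVo, hVU, hVc, hVn⟩ := hD (n + 2) U hUo hUc
  obtain ⟨δ, hδ, hLeb⟩ := lebesgue_number_lemma_of_metric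
    (isCompact_univ : IsCompact (univ : Set (Fin (n + 1) → Icc (0 : ℝ) 1))) hVo (hVc ▸ subset_rfl)
  have hLeb' : ∀ x : Fin (n + 1) → Icc (0 : ℝ) 1, ∃ i, Metric.ball x δ ⊆ V i :=
    fun x => hLeb x (mem_univ x)
  choose f hf using hLeb'
  obtain ⟨m, hm⟩ := exists_nat_gt (1 / δ)
  have hm0 : (0 : ℝ) < m := lt_trans (by positivity) hm
  have hmδ : 1 / (m : ℝ) < δ := by
    rw [div_lt_iff₀ hδ] at hm
    rw [div_lt_iff₀ hm0]
    linarith
  have hPmem : ∀ a : ℕ, ((min a m : ℕ) : ℝ) / m ∈ Icc (0 : ℝ) 1 := by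
    intro a
    refine ⟨by positivity, ?_⟩
    rw [div_le_one hm0]
    exact_mod_cast min_le_right a m
  obtain ⟨P, hP⟩ : ∃ P : (ℕ → ℕ) → (Fin (n + 1) → Icc (0 : ℝ) 1),
      P = fun x i => ⟨((min (x i) m : ℕ) : ℝ) / m, hPmem _⟩ := ⟨_, rfl⟩
  have hPv : ∀ x i, ((P x i : Icc (0 : ℝ) 1) : ℝ) = ((min (x i) m : ℕ) : ℝ) / m := by
    intro x i; rw [hP]
  have hself : ∀ x : ℕ → ℕ, P x ∈ U (f (P x)) :=
    fun x => hVU _ (hf _ (Metric.mem_ball_self hδ))
  obtain ⟨x, hx1, hx2⟩ := kuhn (n + 1) m (fun x => (f (P x) : ℕ))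
    (fun x _ => by have := (f (P x)).2; omega)
    (fun i hi x _ hxi h => by
      have h1 := ((hUmem _ _).1 (hself x)).1 (by
        show (f (P x) : ℕ) < n + 1
        have : (f (P x) : ℕ) = i := h
        omega)
      apply h1
      apply Subtype.ext
      rw [hPv]
      have : (f (P x) : ℕ) = i := h
      simp [this, hxi])
    (fun i hi x _ hxi => by
      by_contra h
      have h' : i < (f (P x) : ℕ) := not_le.1 h
      have h1 := ((hUmem _ _).1 (hself x)).2 ⟨i, hi⟩ h'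
      apply h1
      apply Subtype.ext
      rw [hPv]
      simp [hxi, hm0.ne'])
  obtain ⟨y0, hy0, -, -⟩ := hx2 0 (by omega)
  have hall : ∀ j : Fin (n + 2), P y0 ∈ V j := by
    intro j
    obtain ⟨y, hy, -, hyj⟩ := hx2 j (by have := j.2; omega)
    have hfj : f (P y) = j := Fin.ext hyj
    rw [← hfj]
    apply hf
    rw [Metric.mem_ball, dist_pi_lt_iff hδ]
    intro i
    refine lt_of_le_of_lt ?_ hmδ
    rw [Subtype.dist_eq, hPv, hPv, Real.dist_eq, ← sub_div, abs_div, abs_of_pos hm0]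
    apply div_le_div_of_nonneg_right _ hm0.le
    have h1 := hx1 i i.2
    have h2 : min (y0 i) m = y0 i := min_eq_left (by rcases hy0 i i.2 with h | h <;> omega)
    have h3 : min (y i) m = y i := min_eq_left (by rcases hy i i.2 with h | h <;> omega)
    rw [h2, h3, abs_le]
    rcases hy0 i i.2 with h | h <;> rcases hy i i.2 with h' | h' <;> rw [h, h'] <;>
      push_cast <;> constructor <;> linarith
  have h1 := hVn (P y0)
  have h2 : {i | P y0 ∈ V i} = univ := eq_univ_of_forall hall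
  rw [h2, Set.ncard_univ, Nat.card_eq_fintype_card, Fintype.card_fin] at h1
  omega

end SymCM
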