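import Mathlib
import Pool.Agent.SymCM.Defs
set_option autoImplicit false
open Set Topology

namespace SymCM

theorem tietze_on {X : Type} [TopologicalSpace X] [NormalSpace X] {C : Set X} (hC : IsClosed C)
    {h : X → ℂ} (hh : ContinuousOn h C) : ∃ g : X → ℂ, Continuous g ∧ ∀ x ∈ C, g x = h x := by
  obtain ⟨g, hg⟩ := ContinuousMap.exists_restrict_eq (Y := ℂ) hC
    ⟨C.domRestrict h, continuousOn_iff_continuous_domRestrict.mp hh⟩
  refine ⟨g, g.continuous, fun x hx => ?_⟩
  exact congrArg (fun F : C(C, ℂ) => F ⟨x, hx⟩) hg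

theorem continuous_trunc (w : ℂ) (N : ℕ) : Continuous (trunc w N) := by
  unfold trunc
  refine continuous_fst.prodMk (continuous_pi fun n => ?_)
  by_cases hn : n < N
  · simp only [hn, if_true]
    exact (continuous_apply n).comp continuous_snd
  · simp only [hn, if_false]
    exact continuous_const

theorem trunc_close {f : ℂ × (ℕ → ℂ) → ℂ} (hf : Continuous f) {C : Set (ℂ × (ℕ → ℂ))}
    (hC : IsCompact C) (w : ℂ) {ε : ℝ} (hε : 0 < ε) :
    ∃ N0 : ℕ, ∀ N ≥ N0, ∀ p ∈ C, ‖f (trunc w N p) - f p‖ < ε := by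
  by_contra hcon
  push Not at hcon
  choose N hN p hpC hp using hcon
  obtain ⟨q, hqC, φ, hφ, hlim⟩ := hC.tendsto_subseq hpC
  have hT : Filter.Tendsto (fun j => trunc w (N (φ j)) (p (φ j))) Filter.atTop (𝓝 q) := by
    rw [Prod.tendsto_iff]
    rw [Prod.tendsto_iff] at hlim
    refine ⟨hlim.1, ?_⟩
    rw [tendsto_pi_nhds]
    intro n
    have h2 := (tendsto_pi_nhds.mp hlim.2) n
    refine h2.congr' ?_
    filter_upwards [Filter.eventually_gt_atTop n] with j hj
    have : n < N (φ j) := lt_of_lt_of_le hj (le_trans (hφ.id_le j) (hN (φ j)))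
    simp [trunc, this]
  have h1 := (hf.tendsto q).comp hT
  have h2 := (hf.tendsto q).comp hlim
  have h3 := (h1.sub h2).norm
  rw [sub_self, norm_zero] at h3
  have h4 := h3.eventually (gt_mem_nhds hε)
  obtain ⟨j, hj⟩ := h4.exists
  exact absurd hj (not_lt.mpr (hp (φ j)))

/-- a function on the base is continuous if its pullback to a compact space over it is -/
theorem continuousOn_of_comp_fst {C : Set (ℂ × (ℕ → ℂ))} (hC : IsCompact C) {H : ℂ → ℂ}
    (hH : ContinuousOn (fun p : ℂ × (ℕ → ℂ) => H p.1) C) : ContinuousOn H (Prod.fst '' C) := by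
  have : CompactSpace C := isCompact_iff_compactSpace.mp hC
  rw [continuousOn_iff_continuous_domRestrict]
  let q : C → (Prod.fst '' C : Set ℂ) := fun p => ⟨p.1.1, ⟨p.1, p.2, rfl⟩⟩
  have hq : Continuous q := (continuous_fst.comp continuous_subtype_val).subtype_mk _
  have hs : Function.Surjective q := by
    rintro ⟨x, p, hp, rfl⟩
    exact ⟨⟨p, hp⟩, rfl⟩
  have hQ : IsQuotientMap q := hq.isClosedMap.isQuotientMap hq hs
  rw [hQ.continuous_iff]
  exact continuousOn_iff_continuous_domRestrict.mp hH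

end SymCM
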