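import Mathlib
import Pool.Agent.SymCM.Defs
import Pool.Agent.SymCM.TR
set_option autoImplicit false
open Set Topology

namespace SymCM

section
variable {X : Type} [TopologicalSpace X] [CompactSpace X] [T2Space X]

theorem b1_glueExt {A K : Set X} (hA : IsClosed A) (hK : IsClosed K) {φ : X → ℂ} (hφ : Continuous φ)
    {h : X → ℂ} (hc : ContinuousOn h K) (h0 : ∀ x ∈ K, h x ≠ 0)
    (hAK : ∀ x ∈ A, x ∈ K → h x = φ x) : Ext A φ K := by
  classical
  set k : X → ℂ := fun x => if x ∈ K then h x else φ x with hk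
  have h1 : ContinuousOn k K := hc.congr fun x hx => by simp [hk, hx]
  have h2 : ContinuousOn k A := hφ.continuousOn.congr fun x hx => by
    by_cases hxK : x ∈ K
    · simp [hk, hxK, hAK x hx hxK]
    · simp [hk, hxK]
  obtain ⟨g, hg, hgk⟩ := tietze_on (hK.union hA) (h1.union_of_isClosed h2 hK hA)
  refine ⟨g, hg, fun x hx => ?_, fun x hx => ?_⟩
  · rw [hgk x (Or.inr hx)]
    by_cases hxK : x ∈ K
    · simp [hk, hxK, hAK x hx hxK]
    · simp [hk, hxK]
  · rw [hgk x (Or.inl hx)]
    simp [hk, hx, h0 x hx]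

theorem b1_quad_finite (α β γ : ℝ) (h : α ≠ 0) : {t : ℝ | α * t ^ 2 + β * t + γ = 0}.Finite := by
  set p : Polynomial ℝ := Polynomial.C α * Polynomial.X ^ 2 + Polynomial.C β * Polynomial.X +
    Polynomial.C γ with hp
  have hp0 : p ≠ 0 := by
    intro h0
    have := congrArg (fun q => q.coeff 2) h0
    simp [hp] at this
    exact h this
  apply (p.roots.toFinset.finite_toSet).subset
  intro t ht
  rw [Finset.mem_coe, Multiset.mem_toFinset, Polynomial.mem_roots hp0]
  simpa [hp, Polynomial.IsRoot] using ht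

/-- general position on lines through the origin -/
theorem b1_genpos {k : ℕ} (c : Fin k → ℂ) {ε : ℝ} (hε : 0 < ε) :
    ∃ c' : Fin k → ℂ, (∀ j, ‖c' j - c j‖ < ε) ∧
      ∀ i j, ∀ s t : ℝ, 0 ≤ s → 0 ≤ t → 0 < s + t → (s : ℂ) * c' i + t * c' j ≠ 0 := by
  classical
  set d : Fin k → ℂ := fun j => ⟨1, (j : ℕ)⟩ with hd
  set bad : Set ℝ := (⋃ i : Fin k, {-(c i).re}) ∪ ⋃ i : Fin k, ⋃ j : Fin k, {t : ℝ | i ≠ j ∧
    ((i : ℕ) - (j : ℕ) : ℝ) * t ^ 2 + ((c i).im + (i : ℕ) * (c j).re - (c j).im - (j : ℕ) * (c i).re) * t +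
      ((c i).im * (c j).re - (c i).re * (c j).im) = 0} with hbad
  have hfin : bad.Finite := by
    apply Set.Finite.union
    · exact Set.finite_iUnion fun i => Set.finite_singleton _
    · refine Set.finite_iUnion fun i => Set.finite_iUnion fun j => ?_
      by_cases hij : i = j
      · have : {t : ℝ | i ≠ j ∧ ((i : ℕ) - (j : ℕ) : ℝ) * t ^ 2 + ((c i).im + (i : ℕ) * (c j).re - (c j).im - (j : ℕ) * (c i).re) * t +
          ((c i).im * (c j).re - (c i).re * (c j).im) = 0} = ∅ := by
          ext t; simp [hij]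
        rw [this]; exact Set.finite_empty
      · apply (b1_quad_finite ((i : ℕ) - (j : ℕ) : ℝ) ((c i).im + (i : ℕ) * (c j).re - (c j).im - (j : ℕ) * (c i).re)
          ((c i).im * (c j).re - (c i).re * (c j).im) ?_).subset
        · rintro t ⟨_, ht⟩; exact ht
        · rw [sub_ne_zero]
          exact fun h => hij (Fin.ext (by exact_mod_cast h))
  set η : ℝ := ε / (k + 2) with hη
  have hηpos : 0 < η := by positivity
  obtain ⟨t, ht, htb⟩ := ((Set.Ioo_infinite hηpos).sdiff hfin).nonempty
  refine ⟨fun j => c j + t * d j, fun j => ?_, ?_⟩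
  · have : c j + t * d j - c j = t * d j := by ring
    rw [this, norm_mul, Complex.norm_real, Real.norm_eq_abs, abs_of_pos ht.1]
    have h1 : ‖d j‖ ≤ 1 + j := by
      refine (Complex.norm_le_abs_re_add_abs_im _).trans ?_
      simp [hd]
    have hj : (j : ℝ) ≤ k := by exact_mod_cast j.2.le
    calc t * ‖d j‖ ≤ t * (1 + j) := mul_le_mul_of_nonneg_left h1 ht.1.le
      _ ≤ t * (k + 1) := mul_le_mul_of_nonneg_left (by linarith) ht.1.le
      _ < η * (k + 2) := by nlinarith [ht.1, ht.2]
      _ = ε := by rw [hη]; field_simp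
  · intro i j s r hs hr hsr h0
    have e1 := congrArg Complex.re h0
    have e2 := congrArg Complex.im h0
    simp [hd] at e1 e2
    -- e1 : s * ((c i).re + t) + r * ((c j).re + t) = 0, e2 similarly
    by_cases hij : i = j
    · subst hij
      have h2 : (s + r) * ((c i).re + t) = 0 := by linarith
      rcases mul_eq_zero.mp h2 with h3 | h3
      · linarith
      · apply htb
        left
        simp only [mem_iUnion, mem_singleton_iff]
        exact ⟨i, by linarith⟩
    · apply htb
      right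
      simp only [mem_iUnion, mem_ofPred_eq]
      refine ⟨i, j, hij, ?_⟩
      have key : ((c i).im + t * (i : ℕ)) * ((c j).re + t) - ((c i).re + t) * ((c j).im + t * (j : ℕ)) = 0 := by
        rcases lt_or_eq_of_le hs with h | h
        · have : s * (((c i).im + t * (i : ℕ)) * ((c j).re + t) - ((c i).re + t) * ((c j).im + t * (j : ℕ))) = 0 := by
            linear_combination ((c j).re + t) * e2 - ((c j).im + t * (j:ℕ)) * e1
          rcases mul_eq_zero.mp this with h3 | h3
          · linarith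
          · exact h3
        · have hrpos : 0 < r := by linarith
          have : r * (((c i).im + t * (i : ℕ)) * ((c j).re + t) - ((c i).re + t) * ((c j).im + t * (j : ℕ))) = 0 := by
            linear_combination ((c i).im + t * (i:ℕ)) * e1 - ((c i).re + t) * e2
          rcases mul_eq_zero.mp this with h3 | h3
          · linarith
          · exact h3
      linear_combination key

end

section
variable {X : Type} [MetricSpace X]

theorem b1_posfun {V : Set X} (hV : IsOpen V) :
    ∃ f : X → ℝ, Continuous f ∧ (∀ x, 0 ≤ f x) ∧ ∀ x, 0 < f x ↔ x ∈ V := by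
  by_cases h : V = univ
  · exact ⟨fun _ => 1, continuous_const, fun _ => zero_le_one, fun x => by simp [h]⟩
  · have hne : (Vᶜ).Nonempty := by rwa [Set.nonempty_compl]
    refine ⟨fun x => Metric.infDist x Vᶜ, Metric.continuous_infDist_pt _, fun x => Metric.infDist_nonneg,
      fun x => ?_⟩
    rw [← not_iff_not, not_lt, ← Set.mem_compl_iff, hV.isClosed_compl.mem_iff_infDist_zero hne]
    exact ⟨fun h => le_antisymm h Metric.infDist_nonneg, fun h => h.le⟩

variable [CompactSpace X]

/-- covering dimension at most one implies that every map into the punctured plane extends -/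
theorem b1_ext_of_dim_one {K : Set X} (hK : IsClosed K)
    (hD : ∀ (m : ℕ) (U : Fin m → Set X), (∀ i, IsOpen (U i)) → K ⊆ ⋃ i, U i →
          ∃ (k : ℕ) (V : Fin k → Set X), (∀ j, IsOpen (V j)) ∧ K ⊆ ⋃ j, V j ∧
            (∀ j, ∃ i, V j ⊆ U i) ∧ ∀ x ∈ K, {j : Fin k | x ∈ V j}.ncard ≤ 1 + 1)
    {A : Set X} (hA : IsClosed A) {φ : X → ℂ} (hφ : Continuous φ) (hφA : ∀ x ∈ A, φ x ≠ 0) :
    Ext A φ K := by
  classical
  -- lower bound on A
  obtain ⟨δ, hδ, hδA⟩ : ∃ δ > 0, ∀ x ∈ A, δ ≤ ‖φ x‖ := by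
    rcases A.eq_empty_or_nonempty with rfl | hne
    · exact ⟨1, one_pos, fun x hx => hx.elim⟩
    · obtain ⟨x, hx, hmin⟩ := hA.isCompact.exists_isMinOn hne hφ.norm.continuousOn
      exact ⟨‖φ x‖, norm_pos_iff.mpr (hφA x hx), fun y hy => hmin hy⟩
  have hδ4 : 0 < δ / 4 := by positivity
  -- finite cover of the image
  have hcomp : IsCompact (range φ) := isCompact_range hφ
  obtain ⟨T, hTfin, hT⟩ := Metric.totallyBounded_iff.mp hcomp.totallyBounded (δ / 4) hδ4
  set m := hTfin.toFinset.card with hm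
  set e := hTfin.toFinset.equivFin with he
  set cen : Fin m → ℂ := fun i => (e.symm i : ℂ) with hcen
  obtain ⟨k, V, hVo, hVc, hVr, hVn⟩ := hD m (fun i => φ ⁻¹' Metric.ball (cen i) (δ / 4))
    (fun i => Metric.isOpen_ball.preimage hφ) (by
      intro x _
      have := hT (mem_range_self x)
      simp only [mem_iUnion] at this
      obtain ⟨c, hc, hxc⟩ := this
      rw [mem_iUnion]
      refine ⟨e ⟨c, by simpa using hc⟩, ?_⟩
      simpa [hcen] using hxc)
  choose r hr using hVr
  obtain ⟨c', hc'1, hc'2⟩ := b1_genpos (fun j => cen (r j)) hδ4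
  have hfun : ∀ j, ∃ f : X → ℝ, Continuous f ∧ (∀ x, 0 ≤ f x) ∧ ∀ x, 0 < f x ↔ x ∈ V j :=
    fun j => b1_posfun (hVo j)
  choose f f1 f2 f3 using hfun
  set F : X → ℝ := fun x => ∑ j, f j x with hF
  have hFc : Continuous F := continuous_finsetSum _ fun j _ => f1 j
  have hFpos : ∀ x ∈ K, 0 < F x := by
    intro x hx
    obtain ⟨j, hj⟩ := mem_iUnion.mp (hVc hx)
    exact Finset.sum_pos' (fun i _ => f2 i x) ⟨j, Finset.mem_univ _, (f3 j x).mpr hj⟩
  set g : X → ℂ := fun x => (∑ j, (f j x : ℂ) * c' j) / F x with hg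
  have hgc : ContinuousOn g K := by
    apply ContinuousOn.div
    · exact (continuous_finsetSum _ fun j _ =>
        (Complex.continuous_ofReal.comp (f1 j)).mul continuous_const).continuousOn
    · exact (Complex.continuous_ofReal.comp hFc).continuousOn
    · intro x hx
      exact_mod_cast (hFpos x hx).ne'
  -- closeness
  have hclose : ∀ x ∈ K, ‖g x - φ x‖ < δ / 2 := by
    intro x hx
    have hFx := hFpos x hx
    have hFx' : (F x : ℂ) ≠ 0 := by exact_mod_cast hFx.ne'
    have h1 : g x - φ x = (∑ j, (f j x : ℂ) * (c' j - φ x)) / F x := by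
      simp only [hg]
      rw [div_sub' hFx']
      congr 1
      simp only [mul_sub, Finset.sum_sub_distrib, ← Finset.sum_mul]
      congr 2
      simp only [hF]
      push_cast
      rfl
    rw [h1, norm_div, Complex.norm_real, Real.norm_eq_abs, abs_of_pos hFx, div_lt_iff₀ hFx]
    have hterm : ∀ j, 0 < f j x → ‖c' j - φ x‖ < δ / 2 := by
      intro j hj
      have hxV : x ∈ V j := (f3 j x).mp hj
      have h2 : ‖φ x - cen (r j)‖ < δ / 4 := by
        have := hr j hxV
        simpa [dist_eq_norm] using this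
      have h3 := hc'1 j
      calc ‖c' j - φ x‖ = ‖(c' j - cen (r j)) - (φ x - cen (r j))‖ := by congr 1; ring
        _ ≤ ‖c' j - cen (r j)‖ + ‖φ x - cen (r j)‖ := norm_sub_le _ _
        _ < δ / 2 := by linarith
    obtain ⟨j0, hj0⟩ := mem_iUnion.mp (hVc hx)
    have hj0' : 0 < f j0 x := (f3 j0 x).mpr hj0
    calc ‖∑ j, (f j x : ℂ) * (c' j - φ x)‖ ≤ ∑ j, ‖(f j x : ℂ) * (c' j - φ x)‖ := norm_sum_le _ _
      _ < ∑ j, f j x * (δ / 2) := by
          apply Finset.sum_lt_sum
          · intro j _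
            rw [norm_mul, Complex.norm_real, Real.norm_eq_abs, abs_of_nonneg (f2 j x)]
            rcases (f2 j x).lt_or_eq with h | h
            · exact mul_le_mul_of_nonneg_left (hterm j h).le (f2 j x)
            · rw [← h]; simp
          · refine ⟨j0, Finset.mem_univ _, ?_⟩
            rw [norm_mul, Complex.norm_real, Real.norm_eq_abs, abs_of_nonneg (f2 j0 x)]
            exact mul_lt_mul_of_pos_left (hterm j0 hj0') hj0'
      _ = δ / 2 * F x := by rw [← Finset.sum_mul]; simp only [hF]; ring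
  -- nonvanishing
  have hg0 : ∀ x ∈ K, g x ≠ 0 := by
    intro x hx
    have hFx := hFpos x hx
    have hFx' : (F x : ℂ) ≠ 0 := by exact_mod_cast hFx.ne'
    obtain ⟨j0, hj0⟩ := mem_iUnion.mp (hVc hx)
    have hj0' : 0 < f j0 x := (f3 j0 x).mpr hj0
    -- there is i such that all other indices vanish
    obtain ⟨i, hi⟩ : ∃ i, ∀ j, j ≠ j0 → j ≠ i → f j x = 0 := by
      by_contra hcon
      push Not at hcon
      obtain ⟨i1, h1, _, h3⟩ := hcon j0
      obtain ⟨i2, h4, h5, h6⟩ := hcon i1
      have hpos : ∀ j, f j x ≠ 0 → x ∈ V j := fun j hj =>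
        (f3 j x).mp (lt_of_le_of_ne (f2 j x) (Ne.symm hj))
      have hsub : (({j0, i1, i2} : Finset (Fin k)) : Set (Fin k)) ⊆ {j : Fin k | x ∈ V j} := by
        intro j hj
        simp only [Finset.coe_insert, Finset.coe_singleton, Set.mem_insert_iff,
          Set.mem_singleton_iff] at hj
        rcases hj with rfl | rfl | rfl
        · exact hj0
        · exact hpos _ h3
        · exact hpos _ h6
      have hcard := Set.ncard_le_ncard hsub (Set.toFinite _)
      rw [Set.ncard_coe_finset] at hcard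
      have h3' : ({j0, i1, i2} : Finset (Fin k)).card = 3 := by
        rw [Finset.card_eq_three]
        exact ⟨j0, i1, i2, h1.symm, h4.symm, h5.symm, rfl⟩
      have := hVn x hx
      omega
    simp only [hg]
    apply div_ne_zero _ hFx'
    by_cases hij : i = j0
    · have : ∑ j, (f j x : ℂ) * c' j = f j0 x * c' j0 := by
        apply Finset.sum_eq_single j0
        · intro j _ hj
          rw [hi j hj (by rw [hij]; exact hj)]
          simp
        · intro h; exact absurd (Finset.mem_univ _) h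
      rw [this]
      have := hc'2 j0 j0 (f j0 x) 0 (f2 _ _) le_rfl (by linarith)
      simpa using this
    · have : ∑ j, (f j x : ℂ) * c' j = f j0 x * c' j0 + f i x * c' i := by
        apply Finset.sum_eq_add_of_mem j0 i (Finset.mem_univ _) (Finset.mem_univ _) (Ne.symm hij)
        intro j _ hj
        rw [hi j hj.1 hj.2]
        simp
      rw [this]
      exact hc'2 j0 i _ _ (f2 _ _) (f2 _ _) (by linarith [f2 i x])
  -- glue
  have hdis : Disjoint {x : X | ‖φ x‖ ≤ δ / 2} A := by
    rw [Set.disjoint_left]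
    intro x hx hxA
    have := hδA x hxA
    rw [mem_ofPred_eq] at hx
    linarith
  obtain ⟨lam, l0, l1, l2⟩ := exists_continuous_zero_one_of_isClosed
    (isClosed_le hφ.norm continuous_const) hA hdis
  refine b1_glueExt hA hK hφ (h := fun x => g x + lam x * (φ x - g x)) ?_ ?_ ?_
  · exact hgc.add ((Complex.continuous_ofReal.comp lam.continuous).continuousOn.mul
      (hφ.continuousOn.sub hgc))
  · intro x hx h0
    rcases le_or_gt (‖φ x‖) (δ / 2) with h | h
    · have hl : lam x = 0 := l0 h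
      simp only [hl, Complex.ofReal_zero, zero_mul, add_zero] at h0
      exact hg0 x hx h0
    · have h1 : φ x = (1 - lam x : ℝ) * (φ x - g x) := by
        push_cast
        linear_combination h0
      have h2 : ‖φ x‖ = |1 - lam x| * ‖φ x - g x‖ := by
        conv_lhs => rw [h1]
        rw [norm_mul, Complex.norm_real, Real.norm_eq_abs]
      have h3 : |1 - lam x| ≤ 1 := by
        rw [abs_le]
        constructor <;> linarith [(l2 x).1, (l2 x).2]
      have h4 := hclose x hx
      rw [norm_sub_rev] at h4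
      nlinarith [norm_nonneg (φ x - g x), abs_nonneg (1 - lam x)]
  · intro x hxA hxK
    have hl : lam x = 1 := l1 hxA
    simp [hl]
end

/-- in a space of dimension at most one, nowhere zero complex functions extend -/
theorem DimLE.ext_one {X : Type} [TopologicalSpace X] [CompactSpace X] [T2Space X]
    [TopologicalSpace.MetrizableSpace X] (h : DimLE X 1) {A : Set X} (hA : IsClosed A) {u : X → ℂ}
    (hu : ContinuousOn u A) (hu0 : ∀ x ∈ A, u x ≠ 0) :
    ∃ g : X → ℂ, Continuous g ∧ (∀ x, g x ≠ 0) ∧ ∀ x ∈ A, g x = u x := by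
  obtain ⟨φ, hφ, hφu⟩ := tietze_on hA hu
  let _ := TopologicalSpace.metrizableSpaceMetric X
  obtain ⟨g, hg, hgA, hg0⟩ := b1_ext_of_dim_one (K := (univ : Set X)) isClosed_univ (by
    intro m U hU hKU
    obtain ⟨V, h1, h2, h3, h4⟩ := h m U hU (univ_subset_iff.mp hKU)
    exact ⟨m, V, h1, h3.ge, fun j => ⟨j, h2 j⟩, fun x _ => h4 x⟩) hA hφ
    (fun x hx => by rw [hφu x hx]; exact hu0 x hx)
  exact ⟨g, hg, fun x => hg0 x (mem_univ x), fun x hx => by rw [hgA x hx, hφu x hx]⟩

/-- the same for a compact subset `K` of `X` -/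
theorem DimLE.ext_one_on {X : Type} [TopologicalSpace X] [T2Space X]
    [TopologicalSpace.MetrizableSpace X] {K : Set X} (hK : IsCompact K) (h : DimLE K 1) {A : Set X}
    (hA : IsClosed A) (hAK : A ⊆ K) {u : X → ℂ}
    (hu : ContinuousOn u A) (hu0 : ∀ x ∈ A, u x ≠ 0) :
    ∃ g : X → ℂ, Continuous g ∧ (∀ x ∈ K, g x ≠ 0) ∧ ∀ x ∈ A, g x = u x := by
  classical
  have : CompactSpace K := isCompact_iff_compactSpace.mp hK
  have : NormalSpace X := by
    let _ := TopologicalSpace.metrizableSpaceMetric X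
    infer_instance
  obtain ⟨g', hg', hg'0, hg'A⟩ := DimLE.ext_one (X := K) h (A := Subtype.val ⁻¹' A)
    (hA.preimage continuous_subtype_val) (u := fun x => u x.1)
    (hu.comp continuous_subtype_val.continuousOn (fun x hx => hx)) (fun x hx => hu0 x.1 hx)
  obtain ⟨g, hg, hgK⟩ := tietze_on (C := K) hK.isClosed
    (h := fun x => if hx : x ∈ K then g' ⟨x, hx⟩ else 0) (by
      rw [continuousOn_iff_continuous_domRestrict]
      refine hg'.congr fun x => ?_
      simp [Set.domRestrict])
  refine ⟨g, hg, fun x hx => ?_, fun x hx => ?_⟩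
  · rw [hgK x hx]
    simp only [hx, dif_pos]
    exact hg'0 _
  · rw [hgK x (hAK hx)]
    simp only [hAK hx, dif_pos]
    exact hg'A ⟨x, hAK hx⟩ hx

theorem ext_of_dimLE_one {X : Type} [TopologicalSpace X] [CompactSpace X] [T2Space X]
    [TopologicalSpace.MetrizableSpace X] {K : Set X} (hK : IsClosed K) (h : DimLE K 1) {A : Set X}
    (hA : IsClosed A) {φ : X → ℂ} (hφ : Continuous φ) (hφA : ∀ x ∈ A, φ x ≠ 0) : Ext A φ K := by
  let _ := TopologicalSpace.metrizableSpaceMetric X
  refine b1_ext_of_dim_one hK ?_ hA hφ hφA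
  intro m U hU hKU
  obtain ⟨V', hV'o, hV'U, hV'c, hV'n⟩ := h m (fun i => Subtype.val ⁻¹' (U i))
    (fun i => (hU i).preimage continuous_subtype_val) (by
      rw [Set.eq_univ_iff_forall]
      intro x
      obtain ⟨i, hi⟩ := mem_iUnion.mp (hKU x.2)
      exact mem_iUnion.mpr ⟨i, hi⟩)
  have hO : ∀ i, ∃ O : Set X, IsOpen O ∧ (Subtype.val ⁻¹' O : Set K) = V' i := fun i =>
    isOpen_induced_iff.mp (hV'o i)
  choose O hOo hOV using hO
  refine ⟨m, fun i => O i ∩ U i, fun i => (hOo i).inter (hU i), ?_, fun i => ⟨i, inter_subset_right⟩,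
    ?_⟩
  · intro x hx
    have h1 : (⟨x, hx⟩ : K) ∈ ⋃ i, V' i := by rw [hV'c]; exact mem_univ _
    obtain ⟨i, hi⟩ := mem_iUnion.mp h1
    refine mem_iUnion.mpr ⟨i, ?_, hV'U i hi⟩
    rw [← hOV i] at hi
    exact hi
  · intro x hx
    refine le_trans (Set.ncard_le_ncard ?_ (Set.toFinite _)) (hV'n ⟨x, hx⟩)
    intro i hi
    have h2 : x ∈ O i := hi.1
    show (⟨x, hx⟩ : K) ∈ V' i
    rw [← hOV i]
    exact h2

end SymCM
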