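import Mathlib
import Pool.Agent.SymCM.Defs
import Pool.Agent.SymCM.A1
import Pool.Agent.SymCM.TR
set_option autoImplicit false
open Set Topology

namespace SymCM

theorem exists_minimal {X : Type} [TopologicalSpace X] [CompactSpace X] [T2Space X] {A : Set X}
    {φ : X → ℂ} (h : ¬ Ext A φ univ) :
    ∃ K : Set X, IsClosed K ∧ ¬ Ext A φ K ∧
      ∀ K' : Set X, IsClosed K' → K' ⊆ K → ¬ Ext A φ K' → K' = K := by
  obtain ⟨m, hm⟩ := zorn_superset {K : Set X | IsClosed K ∧ ¬ Ext A φ K} (by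
    intro c hc hchain
    rcases c.eq_empty_or_nonempty with rfl | hne
    · exact ⟨univ, ⟨isClosed_univ, h⟩, fun s hs => hs.elim⟩
    · refine ⟨⋂₀ c, ⟨isClosed_sInter fun s hs => (hc hs).1, ?_⟩, fun s hs => sInter_subset_of_mem hs⟩
      rintro ⟨g, g1, g2, g3⟩
      have : Nonempty c := hne.to_subtype
      have hU : IsOpen {x | g x ≠ 0} := isOpen_ne_fun g1 continuous_const
      have hdir : Directed (· ⊇ ·) (fun s : c => (s : Set X)) := by
        intro s t
        rcases hchain.total s.2 t.2 with hst | hst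
        · exact ⟨s, subset_rfl, hst⟩
        · exact ⟨t, hst, subset_rfl⟩
      obtain ⟨s, hs⟩ := exists_subset_nhds_of_isCompact' (V := fun s : c => (s : Set X)) hdir
        (fun s => (hc s.2).1.isCompact) (fun s => (hc s.2).1) (U := {x | g x ≠ 0}) (fun x hx =>
          hU.mem_nhds (g3 x (by simpa [sInter_eq_iInter] using hx)))
      exact (hc s.2).2 ⟨g, g1, g2, fun x hx => hs hx⟩)
  refine ⟨m, hm.prop.1, hm.prop.2, fun K' h1 h2 h3 => ?_⟩
  exact subset_antisymm h2 (hm.le_of_le ⟨h1, h3⟩ h2)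

theorem symB2_glueExt {X : Type} [TopologicalSpace X] [NormalSpace X] {A K : Set X}
    (hA : IsClosed A) (hK : IsClosed K) {φ : X → ℂ} (hφ : Continuous φ)
    {h : X → ℂ} (hc : ContinuousOn h K) (h0 : ∀ x ∈ K, h x ≠ 0)
    (hAK : ∀ x ∈ A, x ∈ K → h x = φ x) : Ext A φ K := by
  classical
  set k : X → ℂ := fun x => if x ∈ K then h x else φ x with hk
  have h1 : ContinuousOn k K := hc.congr fun x hx => by simp [hk, hx]
  have h2 : ContinuousOn k A := hφ.continuousOn.congr fun x hx => by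
    by_cases hxK : x ∈ K
    · simp [hk, hxK, hAK x hx hxK]
    · simp [hk, hxK]
  obtain ⟨g, hg, hgk⟩ := tietze_on (hK.union hA) (h1.union_of_isClosed h2 hK hA)
  refine ⟨g, hg, fun x hx => ?_, fun x hx => ?_⟩
  · rw [hgk x (Or.inr hx)]
    by_cases hxK : x ∈ K
    · simp [hk, hxK, hAK x hx hxK]
    · simp [hk, hxK]
  · rw [hgk x (Or.inl hx)]
    simp [hk, hx, h0 x hx]

theorem symB2_slit {z : ℂ} (hz : z ≠ 0) : z ∈ Complex.slitPlane ∨ -z ∈ Complex.slitPlane := by
  rw [Complex.mem_slitPlane_iff, Complex.mem_slitPlane_iff]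
  rcases lt_trichotomy z.re 0 with h | h | h
  · right; left; simpa using h
  · left; right
    intro him
    exact hz (Complex.ext h him)
  · left; left; exact h

/-- a minimal closed set carrying a non-extendable map is not separated by closed sets of
dimension at most zero -/
theorem minimal_sdiff_preconnected {X : Type} [TopologicalSpace X] [CompactSpace X] [T2Space X]
    {A K : Set X} {φ : X → ℂ} (hA : IsClosed A) (hφ : Continuous φ) (hφA : ∀ x ∈ A, φ x ≠ 0)
    (hK : IsClosed K) (hn : ¬ Ext A φ K)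
    (hmin : ∀ K' : Set X, IsClosed K' → K' ⊆ K → ¬ Ext A φ K' → K' = K)
    {C : Set X} (hC : IsClosed C) (hCK : C ⊆ K) (hC0 : DimLE C 0) : IsPreconnected (K \ C) := by
  classical
  intro U V hU hV hsub hKU hKV
  by_contra hcon
  rw [Set.not_nonempty_iff_eq_empty] at hcon
  have hK1 : IsClosed (K ∩ (Vᶜ ∪ C)) := hK.inter (hV.isClosed_compl.union hC)
  have hK2 : IsClosed (K ∩ (Uᶜ ∪ C)) := hK.inter (hU.isClosed_compl.union hC)
  have hcov : ∀ x ∈ K, x ∈ K ∩ (Vᶜ ∪ C) ∨ x ∈ K ∩ (Uᶜ ∪ C) := by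
    intro x hx
    by_cases hxC : x ∈ C
    · exact Or.inl ⟨hx, Or.inr hxC⟩
    · by_cases hxV : x ∈ V
      · right
        refine ⟨hx, Or.inl fun hxU => ?_⟩
        have : x ∈ K \ C ∩ (U ∩ V) := ⟨⟨hx, hxC⟩, hxU, hxV⟩
        rw [hcon] at this
        exact this
      · exact Or.inl ⟨hx, Or.inl hxV⟩
  have hint : ∀ x, x ∈ K ∩ (Vᶜ ∪ C) → x ∈ K ∩ (Uᶜ ∪ C) → x ∈ C := by
    rintro x ⟨hx, h1⟩ ⟨-, h2⟩
    by_contra hxC
    rcases hsub ⟨hx, hxC⟩ with h | h
    · rcases h2 with h2 | h2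
      · exact h2 h
      · exact hxC h2
    · rcases h1 with h1 | h1
      · exact h1 h
      · exact hxC h1
  have he1 : Ext A φ (K ∩ (Vᶜ ∪ C)) := by
    by_contra hc
    have heq := hmin _ hK1 inter_subset_left hc
    obtain ⟨x, ⟨hxK, hxC⟩, hxV⟩ := hKV
    have hx : x ∈ K ∩ (Vᶜ ∪ C) := by rw [heq]; exact hxK
    rcases hx.2 with h | h
    · exact h hxV
    · exact hxC h
  have he2 : Ext A φ (K ∩ (Uᶜ ∪ C)) := by
    by_contra hc
    have heq := hmin _ hK2 inter_subset_left hc
    obtain ⟨x, ⟨hxK, hxC⟩, hxU⟩ := hKU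
    have hx : x ∈ K ∩ (Uᶜ ∪ C) := by rw [heq]; exact hxK
    rcases hx.2 with h | h
    · exact h hxU
    · exact hxC h
  obtain ⟨g1, c1, a1, n1⟩ := he1
  obtain ⟨g2, c2, a2, n2⟩ := he2
  have hC1 : ∀ x ∈ C, g1 x ≠ 0 := fun x hx => n1 x ⟨hCK hx, Or.inr hx⟩
  have hC2 : ∀ x ∈ C, g2 x ≠ 0 := fun x hx => n2 x ⟨hCK hx, Or.inr hx⟩
  set r : X → ℂ := fun x => g1 x / g2 x with hr
  have hrC : ContinuousOn r C := c1.continuousOn.div c2.continuousOn hC2
  have hr0 : ∀ x ∈ C, r x ≠ 0 := fun x hx => div_ne_zero (hC1 x hx) (hC2 x hx)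
  have hrc : Continuous (fun x : C => r x) := continuousOn_iff_continuous_domRestrict.1 hrC
  obtain ⟨W, hW, hWU, hWV⟩ := hC0.zero_clopen
    (U := {x : C | r x ∈ Complex.slitPlane}) (V := {x : C | -r x ∈ Complex.slitPlane})
    (Complex.isOpen_slitPlane.preimage hrc) (Complex.isOpen_slitPlane.preimage hrc.neg) (by
      ext x
      simp only [mem_union, mem_ofPred_eq, mem_univ, iff_true]
      exact symB2_slit (hr0 x x.2))
  set W1 : Set X := Subtype.val '' W with hW1
  set W2 : Set X := Subtype.val '' Wᶜ with hW2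
  have cW1 : IsClosed W1 := hC.isClosedEmbedding_subtypeVal.isClosedMap _ hW.isClosed
  have cW2 : IsClosed W2 := hC.isClosedEmbedding_subtypeVal.isClosedMap _ hW.compl.isClosed
  have hW12 : ∀ x ∈ W2, x ∉ W1 := by
    rintro _ ⟨x, hx, rfl⟩ ⟨y, hy, hxy⟩
    rw [Subtype.ext hxy] at hy
    exact hx hy
  have hWC : ∀ x ∈ C, x ∈ W1 ∨ x ∈ W2 := by
    intro x hx
    by_cases h : (⟨x, hx⟩ : C) ∈ W
    · exact Or.inl ⟨_, h, rfl⟩
    · exact Or.inr ⟨_, h, rfl⟩
  have hW1C : W1 ⊆ C := by rintro _ ⟨x, _, rfl⟩; exact x.2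
  have hW2C : W2 ⊆ C := by rintro _ ⟨x, _, rfl⟩; exact x.2
  have hs1 : ∀ x ∈ W1, r x ∈ Complex.slitPlane := by rintro _ ⟨x, hx, rfl⟩; exact hWU hx
  have hs2 : ∀ x ∈ W2, -r x ∈ Complex.slitPlane := by rintro _ ⟨x, hx, rfl⟩; exact hWV hx
  set lam : X → ℂ := fun x => if x ∈ W1 then Complex.log (r x)
    else if x ∈ W2 then Complex.log (-r x) + Real.pi * Complex.I else 0 with hlam
  have l1 : ∀ x ∈ W1, lam x = Complex.log (r x) := fun x hx => by simp only [hlam, if_pos hx]
  have l2 : ∀ x ∈ W2, lam x = Complex.log (-r x) + Real.pi * Complex.I := fun x hx => by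
    simp only [hlam, if_neg (hW12 x hx), if_pos hx]
  have hrA : ∀ x ∈ A, x ∈ C → r x = 1 := fun x hxA hxC => by
    simp only [hr, a1 x hxA, a2 x hxA]
    exact div_self (hφA x hxA)
  have l3 : ∀ x ∈ A, lam x = 0 := by
    intro x hxA
    by_cases hxC : x ∈ C
    · rcases hWC x hxC with h | h
      · rw [l1 x h, hrA x hxA hxC, Complex.log_one]
      · exfalso
        have := hs2 x h
        rw [hrA x hxA hxC] at this
        rw [Complex.mem_slitPlane_iff] at this
        rcases this with h | h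
        · norm_num at h
        · norm_num at h
    · simp only [hlam]
      rw [if_neg fun h => hxC (hW1C h), if_neg fun h => hxC (hW2C h)]
  have cl1 : ContinuousOn lam W1 :=
    ((hrC.mono hW1C).clog hs1).congr l1
  have cl2 : ContinuousOn lam W2 :=
    (((hrC.mono hW2C).neg.clog hs2).add continuousOn_const).congr l2
  have cl3 : ContinuousOn lam A := (continuousOn_const (c := (0 : ℂ))).congr l3
  obtain ⟨Lam, cLam, hLam⟩ := tietze_on ((cW1.union cW2).union hA)
    ((cl1.union_of_isClosed cl2 cW1 cW2).union_of_isClosed cl3 (cW1.union cW2) hA)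
  have hexp : ∀ x ∈ C, g2 x * Complex.exp (Lam x) = g1 x := by
    intro x hx
    have h2 := hC2 x hx
    have hrx : g2 x * r x = g1 x := by simp only [hr]; field_simp
    rcases hWC x hx with h | h
    · rw [hLam x (Or.inl (Or.inl h)), l1 x h, Complex.exp_log (hr0 x hx), hrx]
    · rw [hLam x (Or.inl (Or.inr h)), l2 x h, Complex.exp_add, Complex.exp_pi_mul_I,
        Complex.exp_log (neg_ne_zero.2 (hr0 x hx))]
      rw [← hrx]; ring
  apply hn
  set h : X → ℂ := fun x => if x ∈ K ∩ (Vᶜ ∪ C) then g1 x else g2 x * Complex.exp (Lam x) with hh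
  have e1 : ∀ x ∈ K ∩ (Vᶜ ∪ C), h x = g1 x := fun x hx => by simp only [hh, if_pos hx]
  have e2 : ∀ x ∈ K ∩ (Uᶜ ∪ C), h x = g2 x * Complex.exp (Lam x) := fun x hx => by
    by_cases hx1 : x ∈ K ∩ (Vᶜ ∪ C)
    · rw [e1 x hx1, hexp x (hint x hx1 hx)]
    · simp only [hh, if_neg hx1]
  have d1 : ContinuousOn h (K ∩ (Vᶜ ∪ C)) := c1.continuousOn.congr e1
  have d2 : ContinuousOn h (K ∩ (Uᶜ ∪ C)) :=
    (c2.mul (Complex.continuous_exp.comp cLam)).continuousOn.congr e2
  have hKe : K = (K ∩ (Vᶜ ∪ C)) ∪ (K ∩ (Uᶜ ∪ C)) := by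
    apply Subset.antisymm
    · exact fun x hx => hcov x hx
    · exact union_subset inter_subset_left inter_subset_left
  refine symB2_glueExt (h := h) hA hK hφ ?_ ?_ ?_
  · rw [hKe]
    exact d1.union_of_isClosed d2 hK1 hK2
  · intro x hx
    rcases hcov x hx with hx | hx
    · rw [e1 x hx]; exact n1 x hx
    · rw [e2 x hx]; exact mul_ne_zero (n2 x hx) (Complex.exp_ne_zero _)
  · intro x hxA hx
    rcases hcov x hx with hx | hx
    · rw [e1 x hx, a1 x hxA]
    · rw [e2 x hx, a2 x hxA, hLam x (Or.inr hxA), l3 x hxA, Complex.exp_zero, mul_one]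

theorem symB2_box {l r b t : ℝ} {x0 w z : ℂ} (h1 : x0.re ∈ Ioo l r) (h2 : x0.im ∈ Ioo b t)
    (w1 : w.re ∈ Ioo l r) (w2 : w.im ∈ Ioo b t) (hz : z ∈ BoxBd l r b t) :
    (z - x0) / (z - w) ∈ Complex.slitPlane := by
  by_contra hns
  have hzw : z - w ≠ 0 := by
    intro h
    rw [sub_eq_zero] at h
    subst h
    obtain ⟨-, h | h | h | h⟩ := hz
    · exact absurd h (ne_of_gt w1.1)
    · exact absurd h (ne_of_lt w1.2)
    · exact absurd h (ne_of_gt w2.1)
    · exact absurd h (ne_of_lt w2.2)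
  rw [Complex.mem_slitPlane_iff] at hns
  push Not at hns
  obtain ⟨hre, him⟩ := hns
  set s : ℝ := -((z - x0) / (z - w)).re with hs
  have hs0 : 0 ≤ s := by rw [hs]; linarith
  have heq : (z - x0) / (z - w) = ((-s : ℝ) : ℂ) := by
    apply Complex.ext
    · simp [hs]
    · simpa using him
  rw [div_eq_iff hzw] at heq
  have hr := congrArg Complex.re heq
  have hi := congrArg Complex.im heq
  rw [Complex.re_ofReal_mul] at hr
  rw [Complex.im_ofReal_mul] at hi
  simp only [Complex.sub_re, Complex.sub_im] at hr hi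
  obtain ⟨-, h | h | h | h⟩ := hz
  · nlinarith [h1.1, w1.1]
  · nlinarith [h1.2, w1.2]
  · nlinarith [h2.1, w2.1]
  · nlinarith [h2.2, w2.2]

/-- if `q - x0` on the preimage of the boundary of the rectangle does not extend over `K` to a
nowhere zero function then `q` maps `K` onto the rectangle -/
theorem surj_of_not_ext {X : Type} [TopologicalSpace X] [CompactSpace X] [T2Space X] {q : X → ℂ}
    (hq : Continuous q) {l r b t : ℝ} {x0 : ℂ} (h1 : x0.re ∈ Ioo l r) (h2 : x0.im ∈ Ioo b t)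
    {K : Set X} (hK : IsClosed K)
    (hn : ¬ Ext (q ⁻¹' BoxBd l r b t) (fun p => q p - x0) K) : Box l r b t ⊆ q '' K := by
  have hBox : IsClosed (Box l r b t) :=
    (isClosed_Icc.preimage Complex.continuous_re).inter (isClosed_Icc.preimage Complex.continuous_im)
  have hBd : IsClosed (BoxBd l r b t) := by
    refine hBox.inter ?_
    refine (isClosed_eq Complex.continuous_re continuous_const).union ?_
    refine (isClosed_eq Complex.continuous_re continuous_const).union ?_
    exact (isClosed_eq Complex.continuous_im continuous_const).union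
      (isClosed_eq Complex.continuous_im continuous_const)
  have hopen : ∀ w : ℂ, w.re ∈ Ioo l r → w.im ∈ Ioo b t → w ∈ q '' K := by
    intro w w1 w2
    by_contra hw
    have hA : IsClosed (q ⁻¹' BoxBd l r b t) := hBd.preimage hq
    have hne : ∀ p ∈ q ⁻¹' BoxBd l r b t, q p - w ≠ 0 := by
      intro p hp h
      have := symB2_box h1 h2 w1 w2 hp
      rw [h, div_zero] at this
      exact Complex.zero_notMem_slitPlane this
    have hlam : ContinuousOn (fun p => Complex.log ((q p - x0) / (q p - w)))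
        (q ⁻¹' BoxBd l r b t) := by
      apply ContinuousOn.clog
      · exact (hq.sub continuous_const).continuousOn.div (hq.sub continuous_const).continuousOn hne
      · intro p hp
        exact symB2_box h1 h2 w1 w2 hp
    obtain ⟨Lam, cLam, hLam⟩ := tietze_on hA hlam
    apply hn
    refine ⟨fun p => (q p - w) * Complex.exp (Lam p),
      (hq.sub continuous_const).mul (Complex.continuous_exp.comp cLam), ?_, ?_⟩
    · intro p hp
      have h3 := symB2_box h1 h2 w1 w2 hp
      have h4 := hne p hp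
      show (q p - w) * Complex.exp (Lam p) = q p - x0
      rw [hLam p hp, Complex.exp_log (Complex.slitPlane_ne_zero h3)]
      field_simp
    · intro p hp
      refine mul_ne_zero ?_ (Complex.exp_ne_zero _)
      intro h
      exact hw ⟨p, hp, sub_eq_zero.1 h⟩
  intro z hz
  have hcl : IsClosed (q '' K) := (hK.isCompact.image hq).isClosed
  have hcont : Continuous (fun s : ℝ => x0 + (s : ℂ) * (z - x0)) := by fun_prop
  have hS : IsClosed ((fun s : ℝ => x0 + (s : ℂ) * (z - x0)) ⁻¹' (q '' K)) := hcl.preimage hcont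
  have hsub : Ico (0 : ℝ) 1 ⊆ (fun s : ℝ => x0 + (s : ℂ) * (z - x0)) ⁻¹' (q '' K) := by
    intro s hs
    obtain ⟨hz1, hz2⟩ := hz
    apply hopen
    · simp only [Complex.add_re, Complex.re_ofReal_mul, Complex.sub_re]
      constructor
      · nlinarith [h1.1, h1.2, hz1.1, hz1.2, hs.1, hs.2]
      · nlinarith [h1.1, h1.2, hz1.1, hz1.2, hs.1, hs.2]
    · simp only [Complex.add_im, Complex.im_ofReal_mul, Complex.sub_im]
      constructor
      · nlinarith [h2.1, h2.2, hz2.1, hz2.2, hs.1, hs.2]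
      · nlinarith [h2.1, h2.2, hz2.1, hz2.2, hs.1, hs.2]
  have h1' : (1 : ℝ) ∈ closure (Ico (0 : ℝ) 1) := by
    rw [closure_Ico (by norm_num)]
    exact ⟨by norm_num, le_rfl⟩
  have := hS.closure_subset_iff.2 hsub h1'
  simpa using this

end SymCM
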