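import Mathlib
import Pool.Agent.SymCM.Defs
import Pool.Agent.SymCM.TR
set_option autoImplicit false
open Set Topology

namespace SymCM

private theorem b3a_log_space {X : Type} [TopologicalSpace X] [SimplyConnectedSpace X]
    [LocallyPathConnectedSpace X] {g : X → ℂ} (hg : Continuous g) (h0 : ∀ x, g x ≠ 0) :
    ∃ L : X → ℂ, Continuous L ∧ ∀ x, Complex.exp (L x) = g x := by
  obtain ⟨x0⟩ := (inferInstance : Nonempty X)
  rcases Complex.isCoveringMapOn_exp.existsUnique_continuousMap_lifts ⟨g, hg⟩
    (Complex.exp_log (h0 x0)) (fun x => h0 x) with ⟨f, ⟨-, hf⟩, -⟩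
  exact ⟨f, f.continuous, fun x => congrFun hf x⟩

theorem exists_log_box {l r b t : ℝ} (hlr : l ≤ r) (hbt : b ≤ t) {g : ℂ → ℂ}
    (hg : ContinuousOn g (Box l r b t)) (h0 : ∀ x ∈ Box l r b t, g x ≠ 0) :
    ∃ L : ℂ → ℂ, Continuous L ∧ ∀ x ∈ Box l r b t, Complex.exp (L x) = g x := by
  let ρ : ℂ → ℂ := fun z => ((max l (min r z.re) : ℝ) : ℂ) + ((max b (min t z.im) : ℝ) : ℂ) * Complex.I
  have hρc : Continuous ρ := by
    have h1 : Continuous fun z : ℂ => max l (min r z.re) :=
      continuous_const.max (continuous_const.min Complex.continuous_re)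
    have h2 : Continuous fun z : ℂ => max b (min t z.im) :=
      continuous_const.max (continuous_const.min Complex.continuous_im)
    exact (Complex.continuous_ofReal.comp h1).add
      ((Complex.continuous_ofReal.comp h2).mul continuous_const)
  have hre : ∀ z, (ρ z).re = max l (min r z.re) := by intro z; simp [ρ]
  have him : ∀ z, (ρ z).im = max b (min t z.im) := by intro z; simp [ρ]
  have hρm : ∀ z, ρ z ∈ Box l r b t := by
    intro z
    refine ⟨?_, ?_⟩
    · rw [hre]; exact ⟨le_max_left _ _, max_le hlr (min_le_left _ _)⟩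
    · rw [him]; exact ⟨le_max_left _ _, max_le hbt (min_le_left _ _)⟩
  have hρi : ∀ z ∈ Box l r b t, ρ z = z := by
    intro z hz
    apply Complex.ext
    · rw [hre, min_eq_right hz.1.2, max_eq_right hz.1.1]
    · rw [him, min_eq_right hz.2.2, max_eq_right hz.2.1]
  obtain ⟨L, hL, hL'⟩ := b3a_log_space (g := fun z => g (ρ z))
    (hg.comp_continuous hρc hρm) (fun x => h0 _ (hρm x))
  refine ⟨L, hL, fun x hx => ?_⟩
  rw [hL' x, hρi x hx]

theorem exists_log_closedBall {c : ℂ} {r : ℝ} (hr : 0 ≤ r) {g : ℂ → ℂ}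
    (hg : ContinuousOn g (Metric.closedBall c r)) (h0 : ∀ x ∈ Metric.closedBall c r, g x ≠ 0) :
    ∃ L : ℂ → ℂ, Continuous L ∧ ∀ x ∈ Metric.closedBall c r, Complex.exp (L x) = g x := by
  rcases hr.eq_or_lt with rfl | hr
  · refine ⟨fun _ => Complex.log (g c), continuous_const, fun x hx => ?_⟩
    have hx' : x = c := by simpa using hx
    subst hx'
    exact Complex.exp_log (h0 _ (by simp))
  let ρ : ℂ → ℂ := fun z => c + (z - c) * ((r / max r ‖z - c‖ : ℝ) : ℂ)
  have hpos : ∀ z : ℂ, 0 < max r ‖z - c‖ := fun z => lt_max_of_lt_left hr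
  have hρc : Continuous ρ := by
    have h1 : Continuous fun z : ℂ => r / max r ‖z - c‖ :=
      continuous_const.div (continuous_const.max (continuous_id.sub continuous_const).norm)
        (fun z => (hpos z).ne')
    exact continuous_const.add ((continuous_id.sub continuous_const).mul
      (Complex.continuous_ofReal.comp h1))
  have hρm : ∀ z, ρ z ∈ Metric.closedBall c r := by
    intro z
    rw [Metric.mem_closedBall, dist_eq_norm]
    have : ρ z - c = (z - c) * ((r / max r ‖z - c‖ : ℝ) : ℂ) := by simp [ρ]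
    rw [this, norm_mul, Complex.norm_real, Real.norm_of_nonneg (div_nonneg hr.le (hpos z).le),
      mul_div_assoc', div_le_iff₀ (hpos z), mul_comm]
    exact mul_le_mul_of_nonneg_left (le_max_right _ _) hr.le
  have hρi : ∀ z ∈ Metric.closedBall c r, ρ z = z := by
    intro z hz
    rw [Metric.mem_closedBall, dist_eq_norm] at hz
    simp only [ρ]
    rw [max_eq_left hz, div_self hr.ne']
    simp
  obtain ⟨L, hL, hL'⟩ := b3a_log_space (g := fun z => g (ρ z))
    (hg.comp_continuous hρc hρm) (fun x => h0 _ (hρm x))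
  refine ⟨L, hL, fun x hx => ?_⟩
  rw [hL' x, hρi x hx]

theorem exists_zpow_sphere {c : ℂ} {r : ℝ} (hr : 0 < r) {u : ℂ → ℂ}
    (hu : ContinuousOn u (Metric.sphere c r)) (h0 : ∀ x ∈ Metric.sphere c r, u x ≠ 0) :
    ∃ (e : ℤ) (L : ℂ → ℂ), Continuous L ∧
      ∀ x ∈ Metric.sphere c r, u x = (x - c) ^ e * Complex.exp (L x) := by
  let q : ℝ → ℂ := fun θ => c + r * Complex.exp (θ * Complex.I)
  have hqc : Continuous q := by
    simp only [q]; fun_prop
  have hqm : ∀ θ, q θ ∈ Metric.sphere c r := by
    intro θ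
    rw [mem_sphere_iff_norm]
    simp only [q, add_sub_cancel_left, norm_mul, Complex.norm_real, Complex.norm_exp_ofReal_mul_I,
      mul_one]
    exact Real.norm_of_nonneg hr.le
  obtain ⟨l, hl, hl'⟩ := b3a_log_space (g := fun θ => u (q θ))
    (hu.comp_continuous hqc hqm) (fun x => h0 _ (hqm x))
  have hqper : ∀ θ, q (θ + 2 * Real.pi) = q θ := by
    intro θ
    simp only [q]
    congr 2
    push_cast
    rw [add_mul, Complex.exp_add, Complex.exp_two_pi_mul_I, mul_one]
  have hn : ∀ θ, ∃ n : ℤ, l (θ + 2 * Real.pi) = l θ + n * (2 * Real.pi * Complex.I) := by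
    intro θ
    rw [← Complex.exp_eq_exp_iff_exists_int, hl', hl', hqper]
  choose n hn using hn
  have h2pi : (2 * Real.pi * Complex.I : ℂ) ≠ 0 := Complex.two_pi_I_ne_zero
  have hncont : Continuous n := by
    rw [Int.isClosedEmbedding_coe_real.isInducing.continuous_iff]
    have h1 : Continuous fun θ => ((l (θ + 2 * Real.pi) - l θ) / (2 * Real.pi * Complex.I)).re :=
      Complex.continuous_re.comp (((hl.comp (continuous_id.add continuous_const)).sub hl).div_const _)
    convert h1 using 1
    funext θ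
    rw [hn θ, add_sub_cancel_left, mul_div_cancel_right₀ _ h2pi]
    simp
  have hnconst : ∀ θ, n θ = n 0 := fun θ => PreconnectedSpace.constant inferInstance hncont
  set e : ℤ := n 0 with he
  let m : ℝ → ℂ := fun θ => l θ - e * (θ * Complex.I)
  have hmc : Continuous m := by
    simp only [m]; fun_prop
  have hmper : Function.Periodic m (2 * Real.pi) := by
    intro θ
    simp only [m]
    rw [hn θ, hnconst θ]
    push_cast
    ring
  have hcont : ContinuousOn (fun x : ℂ => m (Complex.arg (x - c))) (Metric.sphere c r) := by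
    rw [continuousOn_iff_continuous_domRestrict]
    let Q : Icc (-Real.pi) Real.pi → Metric.sphere c r := fun θ => ⟨q θ, hqm θ⟩
    have hQc : Continuous Q := Continuous.subtype_mk (hqc.comp continuous_subtype_val) _
    have hQs : Function.Surjective Q := by
      rintro ⟨x, hx⟩
      refine ⟨⟨Complex.arg (x - c), (Complex.neg_pi_lt_arg _).le, Complex.arg_le_pi _⟩, ?_⟩
      apply Subtype.ext
      simp only [Q, q]
      rw [mem_sphere_iff_norm] at hx
      rw [← hx, Complex.norm_mul_exp_arg_mul_I]
      ring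
    have hQq : IsQuotientMap Q := hQc.isClosedMap.isQuotientMap hQc hQs
    rw [hQq.continuous_iff]
    have : (Metric.sphere c r).domRestrict (fun x : ℂ => m (Complex.arg (x - c))) ∘ Q =
        fun θ : Icc (-Real.pi) Real.pi => m θ := by
      funext θ
      simp only [Function.comp, Set.domRestrict_apply, Q, q, add_sub_cancel_left]
      rw [Complex.arg_real_mul _ hr, Complex.arg_exp_mul_I, toIocMod]
      exact hmper.sub_zsmul_eq _
    rw [this]
    exact hmc.comp continuous_subtype_val
  obtain ⟨M, hMc, hM⟩ := tietze_on Metric.isClosed_sphere hcont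
  refine ⟨e, fun x => M x - e * (Real.log r : ℝ), hMc.sub continuous_const, fun x hx => ?_⟩
  have hMx : M x = m (Complex.arg (x - c)) := hM x hx
  have hxn := mem_sphere_iff_norm.1 hx
  have hxq : q (Complex.arg (x - c)) = x := by
    simp only [q]
    rw [← hxn, Complex.norm_mul_exp_arg_mul_I]
    ring
  have hux : u x = Complex.exp (l (Complex.arg (x - c))) := by
    rw [hl', hxq]
  have hxc : x - c = Complex.exp ((Real.log r : ℝ)) * Complex.exp (Complex.arg (x - c) * Complex.I) := by
    rw [← Complex.ofReal_exp, Real.exp_log hr, ← hxn, Complex.norm_mul_exp_arg_mul_I]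
  show u x = (x - c) ^ e * Complex.exp (M x - e * (Real.log r : ℝ))
  rw [hux, hMx]
  generalize Complex.arg (x - c) = w at hxc
  rw [hxc, mul_zpow, ← Complex.exp_int_mul, ← Complex.exp_int_mul, ← Complex.exp_add, ← Complex.exp_add]
  congr 1
  simp only [m]
  ring

end SymCM
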