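import Mathlib
import Pool.Agent.SymCM.Defs
import Pool.Agent.SymCM.B3a
import Pool.Agent.SymCM.TR
set_option autoImplicit false
open Set Topology

namespace SymCM

/-- gauge of the rectangle seen from `w` -/
noncomputable def SYM_B3b_N (l r b t : ℝ) (w z : ℂ) : ℝ :=
  max (max (z.re / (r - w.re)) (-z.re / (w.re - l))) (max (z.im / (t - w.im)) (-z.im / (w.im - b)))

theorem SYM_B3b_N_cont (l r b t : ℝ) (w : ℂ) : Continuous (SYM_B3b_N l r b t w) := by
  unfold SYM_B3b_N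
  have h1 : Continuous fun z : ℂ => z.re := Complex.continuous_re
  have h2 : Continuous fun z : ℂ => z.im := Complex.continuous_im
  exact ((h1.div_const _).max (h1.neg.div_const _)).max ((h2.div_const _).max (h2.neg.div_const _))

theorem SYM_B3b_N_pos {l r b t : ℝ} {w : ℂ} (h1 : w.re ∈ Ioo l r) (h2 : w.im ∈ Ioo b t) {z : ℂ}
    (hz : z ≠ 0) : 0 < SYM_B3b_N l r b t w z := by
  obtain ⟨a1, a2⟩ := h1
  obtain ⟨a3, a4⟩ := h2
  unfold SYM_B3b_N
  have hne : z.re ≠ 0 ∨ z.im ≠ 0 := by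
    by_contra hcon
    push Not at hcon
    exact hz (Complex.ext hcon.1 hcon.2)
  rcases hne with h | h
  · rcases lt_or_gt_of_ne h with h' | h'
    · exact lt_max_of_lt_left (lt_max_of_lt_right (div_pos (by linarith) (by linarith)))
    · exact lt_max_of_lt_left (lt_max_of_lt_left (div_pos h' (by linarith)))
  · rcases lt_or_gt_of_ne h with h' | h'
    · exact lt_max_of_lt_right (lt_max_of_lt_right (div_pos (by linarith) (by linarith)))
    · exact lt_max_of_lt_right (lt_max_of_lt_left (div_pos h' (by linarith)))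

theorem SYM_B3b_N_smul (l r b t : ℝ) (w z : ℂ) (s : ℝ) (hs : 0 ≤ s) :
    SYM_B3b_N l r b t w ((s : ℂ) * z) = s * SYM_B3b_N l r b t w z := by
  unfold SYM_B3b_N
  rw [mul_max_of_nonneg _ _ hs, mul_max_of_nonneg _ _ hs, mul_max_of_nonneg _ _ hs]
  simp only [Complex.re_ofReal_mul, Complex.im_ofReal_mul]
  congr 2 <;> ring_nf

theorem SYM_B3b_N_iff {l r b t : ℝ} {w : ℂ} (h1 : w.re ∈ Ioo l r) (h2 : w.im ∈ Ioo b t) (x : ℂ) :
    x ∈ BoxBd l r b t ↔ SYM_B3b_N l r b t w (x - w) = 1 := by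
  obtain ⟨a1, a2⟩ := h1
  obtain ⟨a3, a4⟩ := h2
  have p1 : 0 < r - w.re := by linarith
  have p2 : 0 < w.re - l := by linarith
  have p3 : 0 < t - w.im := by linarith
  have p4 : 0 < w.im - b := by linarith
  have e1 : (x - w).re / (r - w.re) ≤ 1 ↔ x.re ≤ r := by
    rw [div_le_one p1, Complex.sub_re]; constructor <;> intro h <;> linarith
  have e2 : -(x - w).re / (w.re - l) ≤ 1 ↔ l ≤ x.re := by
    rw [div_le_one p2, Complex.sub_re]; constructor <;> intro h <;> linarith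
  have e3 : (x - w).im / (t - w.im) ≤ 1 ↔ x.im ≤ t := by
    rw [div_le_one p3, Complex.sub_im]; constructor <;> intro h <;> linarith
  have e4 : -(x - w).im / (w.im - b) ≤ 1 ↔ b ≤ x.im := by
    rw [div_le_one p4, Complex.sub_im]; constructor <;> intro h <;> linarith
  have f1 : (x - w).re / (r - w.re) = 1 ↔ x.re = r := by
    rw [div_eq_one_iff_eq p1.ne', Complex.sub_re]; constructor <;> intro h <;> linarith
  have f2 : -(x - w).re / (w.re - l) = 1 ↔ x.re = l := by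
    rw [div_eq_one_iff_eq p2.ne', Complex.sub_re]; constructor <;> intro h <;> linarith
  have f3 : (x - w).im / (t - w.im) = 1 ↔ x.im = t := by
    rw [div_eq_one_iff_eq p3.ne', Complex.sub_im]; constructor <;> intro h <;> linarith
  have f4 : -(x - w).im / (w.im - b) = 1 ↔ x.im = b := by
    rw [div_eq_one_iff_eq p4.ne', Complex.sub_im]; constructor <;> intro h <;> linarith
  have hle : SYM_B3b_N l r b t w (x - w) ≤ 1 ↔ x ∈ Box l r b t := by
    unfold SYM_B3b_N Box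
    rw [max_le_iff, max_le_iff, max_le_iff, e1, e2, e3, e4]
    constructor
    · rintro ⟨⟨g1, g2⟩, g3, g4⟩; exact ⟨⟨g2, g1⟩, g4, g3⟩
    · rintro ⟨⟨g1, g2⟩, g3, g4⟩; exact ⟨⟨g2, g1⟩, g4, g3⟩
  constructor
  · rintro ⟨hx, hx'⟩
    apply le_antisymm (hle.2 hx)
    unfold SYM_B3b_N
    rcases hx' with h | h | h | h
    · exact (f2.2 h).ge.trans ((le_max_right _ _).trans (le_max_left _ _))
    · exact (f1.2 h).ge.trans ((le_max_left _ _).trans (le_max_left _ _))
    · exact (f4.2 h).ge.trans ((le_max_right _ _).trans (le_max_right _ _))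
    · exact (f3.2 h).ge.trans ((le_max_left _ _).trans (le_max_right _ _))
  · intro h
    refine ⟨hle.1 h.le, ?_⟩
    unfold SYM_B3b_N at h
    rcases max_choice (max ((x - w).re / (r - w.re)) (-(x - w).re / (w.re - l)))
      (max ((x - w).im / (t - w.im)) (-(x - w).im / (w.im - b))) with g | g
    · rw [g] at h
      rcases max_choice ((x - w).re / (r - w.re)) (-(x - w).re / (w.re - l)) with g' | g'
      · rw [g'] at h; exact Or.inr (Or.inl (f1.1 h))
      · rw [g'] at h; exact Or.inl (f2.1 h)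
    · rw [g] at h
      rcases max_choice ((x - w).im / (t - w.im)) (-(x - w).im / (w.im - b)) with g' | g'
      · rw [g'] at h; exact Or.inr (Or.inr (Or.inr (f3.1 h)))
      · rw [g'] at h; exact Or.inr (Or.inr (Or.inl (f4.1 h)))

/-- radial parametrisation -/
noncomputable def SYM_B3b_rho (l r b t : ℝ) (w z : ℂ) : ℂ :=
  w + ((SYM_B3b_N l r b t w z)⁻¹ : ℝ) * z

theorem SYM_B3b_rho_mem {l r b t : ℝ} {w : ℂ} (h1 : w.re ∈ Ioo l r) (h2 : w.im ∈ Ioo b t) {z : ℂ}
    (hz : z ≠ 0) : SYM_B3b_rho l r b t w z ∈ BoxBd l r b t := by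
  have hN := SYM_B3b_N_pos h1 h2 hz
  rw [SYM_B3b_N_iff h1 h2, SYM_B3b_rho, add_sub_cancel_left,
    SYM_B3b_N_smul _ _ _ _ _ _ _ (inv_nonneg.2 hN.le), inv_mul_cancel₀ hN.ne']

theorem SYM_B3b_rho_cont {l r b t : ℝ} {w : ℂ} (h1 : w.re ∈ Ioo l r) (h2 : w.im ∈ Ioo b t) :
    ContinuousOn (SYM_B3b_rho l r b t w) {0}ᶜ := by
  unfold SYM_B3b_rho
  refine continuousOn_const.add (ContinuousOn.mul ?_ continuousOn_id)
  refine Complex.continuous_ofReal.comp_continuousOn ?_
  exact (SYM_B3b_N_cont l r b t w).continuousOn.inv₀ fun z hz => (SYM_B3b_N_pos h1 h2 hz).ne'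

theorem SYM_B3b_ne {l r b t : ℝ} {w : ℂ} (h1 : w.re ∈ Ioo l r) (h2 : w.im ∈ Ioo b t) {x : ℂ}
    (hx : x ∈ BoxBd l r b t) : x - w ≠ 0 := by
  intro h
  have : x = w := sub_eq_zero.1 h
  subst this
  rcases hx.2 with h | h | h | h
  · have := h1.1; linarith
  · have := h1.2; linarith
  · have := h2.1; linarith
  · have := h2.2; linarith

theorem SYM_B3b_rho_inv {l r b t : ℝ} {w : ℂ} (h1 : w.re ∈ Ioo l r) (h2 : w.im ∈ Ioo b t) {x : ℂ}
    (hx : x ∈ BoxBd l r b t) :
    SYM_B3b_rho l r b t w (((‖x - w‖⁻¹ : ℝ) : ℂ) * (x - w)) = x := by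
  have hne := SYM_B3b_ne h1 h2 hx
  have hnorm : 0 < ‖x - w‖ := norm_pos_iff.2 hne
  rw [SYM_B3b_rho, SYM_B3b_N_smul _ _ _ _ _ _ _ (inv_nonneg.2 hnorm.le), (SYM_B3b_N_iff h1 h2 x).1 hx,
    mul_one, inv_inv, ← mul_assoc, ← Complex.ofReal_mul, mul_inv_cancel₀ hnorm.ne']
  simp

theorem SYM_B3b_closed (l r b t : ℝ) : IsClosed (BoxBd l r b t) := by
  have hr : Continuous fun z : ℂ => z.re := Complex.continuous_re
  have hi : Continuous fun z : ℂ => z.im := Complex.continuous_im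
  have h1 : IsClosed (Box l r b t) :=
    (isClosed_Icc.preimage hr).inter (isClosed_Icc.preimage hi)
  have h2 : IsClosed {z : ℂ | z.re = l ∨ z.re = r ∨ z.im = b ∨ z.im = t} :=
    (isClosed_eq hr continuous_const).union ((isClosed_eq hr continuous_const).union
      ((isClosed_eq hi continuous_const).union (isClosed_eq hi continuous_const)))
  exact h1.inter h2

theorem exists_zpow_box {l r b t : ℝ} {w : ℂ} (h1 : w.re ∈ Ioo l r) (h2 : w.im ∈ Ioo b t)
    {u : ℂ → ℂ} (hu : ContinuousOn u (BoxBd l r b t)) (h0 : ∀ x ∈ BoxBd l r b t, u x ≠ 0) :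
    ∃ (e : ℤ) (L : ℂ → ℂ), Continuous L ∧
      ∀ x ∈ BoxBd l r b t, u x = (x - w) ^ e * Complex.exp (L x) := by
  have hsub : Metric.sphere (0 : ℂ) 1 ⊆ {0}ᶜ := by
    intro z hz h
    rw [mem_singleton_iff.1 h] at hz
    simp at hz
  have hmaps : MapsTo (SYM_B3b_rho l r b t w) (Metric.sphere 0 1) (BoxBd l r b t) := fun z hz =>
    SYM_B3b_rho_mem h1 h2 (hsub hz)
  obtain ⟨e, L0, hL0, hu0⟩ := exists_zpow_sphere (c := 0) (r := 1) one_pos
    (u := fun z => u (SYM_B3b_rho l r b t w z))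
    (hu.comp ((SYM_B3b_rho_cont h1 h2).mono hsub) hmaps) (fun z hz => h0 _ (hmaps hz))
  have hcont : ContinuousOn (fun x : ℂ => L0 (((‖x - w‖⁻¹ : ℝ) : ℂ) * (x - w))
      - (e : ℂ) * ((Real.log ‖x - w‖ : ℝ) : ℂ)) (BoxBd l r b t) := by
    have hn : ContinuousOn (fun x : ℂ => ‖x - w‖) (BoxBd l r b t) :=
      (continuous_norm.comp (continuous_id.sub continuous_const)).continuousOn
    have hn0 : ∀ x ∈ BoxBd l r b t, ‖x - w‖ ≠ 0 := fun x hx => norm_ne_zero_iff.2 (SYM_B3b_ne h1 h2 hx)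
    refine ContinuousOn.sub ?_ ?_
    · refine hL0.comp_continuousOn (ContinuousOn.mul ?_ ?_)
      · exact Complex.continuous_ofReal.comp_continuousOn (hn.inv₀ hn0)
      · exact (continuous_id.sub continuous_const).continuousOn
    · exact continuousOn_const.mul (Complex.continuous_ofReal.comp_continuousOn (hn.log hn0))
  obtain ⟨L, hL, hLx⟩ := tietze_on (SYM_B3b_closed l r b t) hcont
  refine ⟨e, L, hL, fun x hx => ?_⟩
  have hne := SYM_B3b_ne h1 h2 hx
  have hnorm : 0 < ‖x - w‖ := norm_pos_iff.2 hne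
  have hsph : ((‖x - w‖⁻¹ : ℝ) : ℂ) * (x - w) ∈ Metric.sphere (0 : ℂ) 1 := by
    rw [mem_sphere_zero_iff_norm, norm_mul, Complex.norm_real, Real.norm_eq_abs,
      abs_of_pos (inv_pos.2 hnorm), inv_mul_cancel₀ hnorm.ne']
  have h3 := hu0 _ hsph
  simp only [sub_zero] at h3
  rw [SYM_B3b_rho_inv h1 h2 hx] at h3
  rw [h3, hLx x hx, Complex.exp_sub, mul_zpow]
  have h4 : Complex.exp ((e : ℂ) * ((Real.log ‖x - w‖ : ℝ) : ℂ)) = (‖x - w‖ : ℂ) ^ e := by
    rw [Complex.exp_int_mul, ← Complex.ofReal_exp, Real.exp_log hnorm]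
  rw [h4]
  push_cast
  rw [inv_zpow]
  field_simp

theorem zpow_box_eq_zero {l r b t : ℝ} {w : ℂ} (h1 : w.re ∈ Ioo l r) (h2 : w.im ∈ Ioo b t)
    {e : ℤ} {L : ℂ → ℂ} (hL : ContinuousOn L (BoxBd l r b t))
    (h : ∀ x ∈ BoxBd l r b t, (x - w) ^ e = Complex.exp (L x)) : e = 0 := by
  set θ : ℝ → ℂ := fun s => Complex.exp (s * Complex.I) with hθ
  have hθc : Continuous θ := by
    rw [hθ]; fun_prop
  have hθ0 : ∀ s, θ s ≠ 0 := fun s => Complex.exp_ne_zero _
  have hNc : Continuous fun s => SYM_B3b_N l r b t w (θ s) := (SYM_B3b_N_cont l r b t w).comp hθc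
  have hNpos : ∀ s, 0 < SYM_B3b_N l r b t w (θ s) := fun s => SYM_B3b_N_pos h1 h2 (hθ0 s)
  have hρc : Continuous fun s => SYM_B3b_rho l r b t w (θ s) :=
    (SYM_B3b_rho_cont h1 h2).comp_continuous hθc (fun s => hθ0 s)
  have hLc : Continuous fun s => L (SYM_B3b_rho l r b t w (θ s)) :=
    hL.comp_continuous hρc fun s => SYM_B3b_rho_mem h1 h2 (hθ0 s)
  set F : ℝ → ℂ := fun s => (e : ℂ) * (s * Complex.I)
    - (L (SYM_B3b_rho l r b t w (θ s)) + (e : ℂ) * ((Real.log (SYM_B3b_N l r b t w (θ s)) : ℝ) : ℂ))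
    with hF
  have hFc : Continuous F := by
    have hlog : Continuous fun s => Real.log (SYM_B3b_N l r b t w (θ s)) :=
      hNc.log fun s => (hNpos s).ne'
    have hlog' : Continuous fun s => ((Real.log (SYM_B3b_N l r b t w (θ s)) : ℝ) : ℂ) :=
      Complex.continuous_ofReal.comp hlog
    refine Continuous.sub ?_ (hLc.add (continuous_const.mul hlog'))
    fun_prop
  have hexp : ∀ s, Complex.exp (F s) = 1 := by
    intro s
    have hN := hNpos s
    have h3 := h _ (SYM_B3b_rho_mem h1 h2 (hθ0 s))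
    have h4 : SYM_B3b_rho l r b t w (θ s) - w
        = ((SYM_B3b_N l r b t w (θ s))⁻¹ : ℝ) * θ s := by
      rw [SYM_B3b_rho, add_sub_cancel_left]
    rw [h4, mul_zpow] at h3
    have h5 : Complex.exp ((e : ℂ) * (s * Complex.I)) = θ s ^ e := by
      rw [Complex.exp_int_mul]
    have h6 : Complex.exp ((e : ℂ) * ((Real.log (SYM_B3b_N l r b t w (θ s)) : ℝ) : ℂ))
        = ((SYM_B3b_N l r b t w (θ s) : ℝ) : ℂ) ^ e := by
      rw [Complex.exp_int_mul, ← Complex.ofReal_exp, Real.exp_log hN]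
    rw [hF]
    simp only
    rw [Complex.exp_sub, Complex.exp_add, h5, h6, ← h3]
    have hN0 : ((SYM_B3b_N l r b t w (θ s) : ℝ) : ℂ) ≠ 0 := by exact_mod_cast hN.ne'
    push_cast
    rw [inv_zpow]
    have hθe : θ s ^ e ≠ 0 := zpow_ne_zero _ (hθ0 s)
    have hNe : ((SYM_B3b_N l r b t w (θ s) : ℝ) : ℂ) ^ e ≠ 0 := zpow_ne_zero _ hN0
    field_simp
  have hn : ∀ s, ∃ n : ℤ, F s = n * (2 * Real.pi * Complex.I) := fun s =>
    Complex.exp_eq_one_iff.1 (hexp s)
  choose n hn using hn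
  have hnr : ∀ s, ((n s : ℤ) : ℝ) = (F s).im / (2 * Real.pi) := by
    intro s
    rw [hn s]
    have : ((n s : ℂ) * (2 * Real.pi * Complex.I)).im = n s * (2 * Real.pi) := by
      simp
    rw [this]
    field_simp
  have hnc : Continuous n := by
    rw [Int.isClosedEmbedding_coe_real.isInducing.continuous_iff]
    have : (fun m : ℤ => (m : ℝ)) ∘ n = fun s => (F s).im / (2 * Real.pi) := funext hnr
    rw [this]
    exact (Complex.continuous_im.comp hFc).div_const _
  have hconst : n 0 = n (2 * Real.pi) :=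
    PreconnectedSpace.constant (inferInstance : PreconnectedSpace ℝ) hnc
  have hF0 : F 0 = F (2 * Real.pi) := by rw [hn 0, hn (2 * Real.pi), hconst]
  have hθ2 : θ (2 * Real.pi) = θ 0 := by
    simp only [hθ]
    push_cast
    rw [Complex.exp_two_pi_mul_I]
    simp
  simp only [hF] at hF0
  rw [hθ2] at hF0
  have h7 : (e : ℂ) * (2 * Real.pi * Complex.I) = 0 := by
    push_cast at hF0
    linear_combination -hF0
  have h8 : (2 * Real.pi * Complex.I : ℂ) ≠ 0 := Complex.two_pi_I_ne_zero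
  rcases mul_eq_zero.1 h7 with h9 | h9
  · exact_mod_cast h9
  · exact absurd h9 h8

theorem log_of_pow_log {l r b t : ℝ} (hlr : l < r) (hbt : b < t) {u : ℂ → ℂ}
    (hu : ContinuousOn u (BoxBd l r b t)) (h0 : ∀ x ∈ BoxBd l r b t, u x ≠ 0) {m : ℕ} (hm : m ≠ 0)
    {L : ℂ → ℂ} (hL : ContinuousOn L (BoxBd l r b t))
    (h : ∀ x ∈ BoxBd l r b t, u x ^ m = Complex.exp (L x)) :
    ∃ M : ℂ → ℂ, Continuous M ∧ ∀ x ∈ BoxBd l r b t, u x = Complex.exp (M x) := by
  set w : ℂ := ⟨(l + r) / 2, (b + t) / 2⟩ with hw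
  have h1 : w.re ∈ Ioo l r := by
    rw [hw]; constructor <;> simp only <;> linarith
  have h2 : w.im ∈ Ioo b t := by
    rw [hw]; constructor <;> simp only <;> linarith
  obtain ⟨e, L', hL', hux⟩ := exists_zpow_box h1 h2 hu h0
  have he : e * m = 0 := by
    apply zpow_box_eq_zero h1 h2 (L := fun x => L x - m * L' x)
    · exact hL.sub (continuousOn_const.mul hL'.continuousOn)
    · intro x hx
      have h3 := h x hx
      rw [hux x hx, mul_pow, ← Complex.exp_nat_mul] at h3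
      rw [Complex.exp_sub, ← h3, zpow_mul, zpow_natCast]
      field_simp
  have he0 : e = 0 := by
    rcases mul_eq_zero.1 he with h3 | h3
    · exact h3
    · exact absurd (by exact_mod_cast h3) hm
  refine ⟨L', hL', fun x hx => ?_⟩
  rw [hux x hx, he0, zpow_zero, one_mul]

theorem no_sqrt_box {l r b t : ℝ} {w : ℂ} (h1 : w.re ∈ Ioo l r) (h2 : w.im ∈ Ioo b t)
    {g : ℂ → ℂ} (hg : ContinuousOn g (BoxBd l r b t)) :
    ¬ ∀ x ∈ BoxBd l r b t, g x ^ 2 = x - w := by
  intro h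
  have hg0 : ∀ x ∈ BoxBd l r b t, g x ≠ 0 := by
    intro x hx h3
    have h4 := h x hx
    rw [h3] at h4
    exact SYM_B3b_ne h1 h2 hx (by rw [← h4]; simp)
  obtain ⟨e, L, hL, hgx⟩ := exists_zpow_box h1 h2 hg hg0
  have he : 2 * e - 1 = 0 := by
    apply zpow_box_eq_zero h1 h2 (L := fun x => -(2 * L x))
    · exact (continuousOn_const.mul hL.continuousOn).neg
    · intro x hx
      have hne := SYM_B3b_ne h1 h2 hx
      have h3 := h x hx
      rw [hgx x hx, mul_pow, ← Complex.exp_nat_mul] at h3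
      rw [zpow_sub₀ hne, zpow_one, Complex.exp_neg]
      have h4 : (x - w) ^ (2 * e) = ((x - w) ^ e) ^ 2 := by
        rw [mul_comm, zpow_mul]; norm_cast
      rw [h4, div_eq_iff hne]
      have h5 : Complex.exp (2 * L x) ≠ 0 := Complex.exp_ne_zero _
      push_cast at h3
      rw [eq_comm, inv_mul_eq_iff_eq_mul₀ h5]
      linear_combination -h3
  omega

end SymCM
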