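import Mathlib
import Pool.Agent.SymCM.Defs
import Pool.Agent.SymCM.B3a
import Pool.Agent.SymCM.TR
set_option autoImplicit false
open Set Topology

namespace SymCM

/-- planar parity lemma -/
theorem sqrt_of_even_punctures {l r b t : ℝ} (hlr : l < r) (hbt : b < t) (D : Finset ℂ)
    (hD : ∀ z ∈ D, z.re ∈ Ioo l r ∧ z.im ∈ Ioo b t) {h : ℂ → ℂ}
    (hc : ContinuousOn h (Box l r b t \ ↑D)) (h0 : ∀ x ∈ Box l r b t \ ↑D, h x ≠ 0)
    (hev : ∀ z ∈ D, ∀ ε > 0, ∃ ρ, 0 < ρ ∧ ρ < ε ∧ ∃ (e : ℤ) (L : ℂ → ℂ), Continuous L ∧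
      ∀ x ∈ Metric.sphere z ρ, h x = (x - z) ^ (2 * e) * Complex.exp (L x)) :
    ∃ g : ℂ → ℂ, ContinuousOn g (BoxBd l r b t) ∧ ∀ x ∈ BoxBd l r b t, g x ^ 2 = h x := by
  classical
  induction D using Finset.induction_on generalizing h with
  | empty =>
    have hc' : ContinuousOn h (Box l r b t) := by simpa using hc
    have h0' : ∀ x ∈ Box l r b t, h x ≠ 0 := by simpa using h0
    obtain ⟨L, hL, hL2⟩ := exists_log_box hlr.le hbt.le hc' h0'
    refine ⟨fun x => Complex.exp (L x / 2), ?_, fun x hx => ?_⟩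
    · exact (Complex.continuous_exp.comp (hL.div_const 2)).continuousOn
    · have hxB : x ∈ Box l r b t := hx.1
      show Complex.exp (L x / 2) ^ 2 = h x
      rw [← hL2 x hxB, ← Complex.exp_nat_mul]
      congr 1
      push_cast
      ring
  | insert z D' hz ih =>
    have hO : IsOpen ({w : ℂ | w.re ∈ Ioo l r ∧ w.im ∈ Ioo b t} ∩ (↑D' : Set ℂ)ᶜ) := by
      refine IsOpen.inter ?_ D'.finite_toSet.isClosed.isOpen_compl
      exact (isOpen_Ioo.preimage Complex.continuous_re).inter (isOpen_Ioo.preimage Complex.continuous_im)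
    obtain ⟨ε₀, hε₀, hball⟩ := Metric.isOpen_iff.mp hO z ⟨hD z (Finset.mem_insert_self _ _), hz⟩
    have hcb : Metric.closedBall z (ε₀ / 2) ⊆ {w : ℂ | w.re ∈ Ioo l r ∧ w.im ∈ Ioo b t} ∩ (↑D' : Set ℂ)ᶜ :=
      (Metric.closedBall_subset_ball (by linarith)).trans hball
    obtain ⟨ρ, hρ0, hρε, e, L, hL, hhL⟩ := hev z (Finset.mem_insert_self _ _) (ε₀ / 2) (by linarith)
    have hcb2 : ∀ w : ℂ, ‖w - z‖ ≤ ρ → (w.re ∈ Ioo l r ∧ w.im ∈ Ioo b t) ∧ w ∉ D' := by
      intro w hw
      have h1 : w ∈ Metric.closedBall z (ε₀ / 2) := by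
        rw [Metric.mem_closedBall, dist_eq_norm]; linarith
      exact hcb h1
    set h' : ℂ → ℂ := fun x => if ρ ≤ ‖x - z‖ then h x * (x - z) ^ (-(2 * e)) else Complex.exp (L x) with hh'
    have hcn : Continuous fun x : ℂ => ‖x - z‖ := by fun_prop
    have hne : ∀ x : ℂ, ρ ≤ ‖x - z‖ → x - z ≠ 0 := by
      intro x hx h1
      rw [h1, norm_zero] at hx
      linarith
    have hc' : ContinuousOn h' (Box l r b t \ ↑D') := by
      refine ContinuousOn.if ?_ ?_ ?_
      · rintro a ⟨_, ha⟩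
        have h1 : ρ = ‖a - z‖ := frontier_le_subset_eq continuous_const hcn ha
        have h2 := hhL a (by rw [mem_sphere_iff_norm]; exact h1.symm)
        rw [h2, mul_right_comm, ← zpow_add₀ (hne a h1.le), add_neg_cancel, zpow_zero, one_mul]
      · have hcl : closure {a : ℂ | ρ ≤ ‖a - z‖} = {a : ℂ | ρ ≤ ‖a - z‖} :=
          (isClosed_le continuous_const hcn).closure_eq
        rw [hcl]
        refine ContinuousOn.mul ?_ ?_
        · refine hc.mono ?_
          rintro a ⟨⟨ha1, ha2⟩, ha3⟩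
          refine ⟨ha1, ?_⟩
          rw [Finset.mem_coe, Finset.mem_insert]
          rintro (h1 | h1)
          · exact hne a ha3 (by rw [h1, sub_self])
          · exact ha2 h1
        · refine ContinuousOn.zpow₀ (by fun_prop) _ ?_
          rintro a ⟨_, ha3⟩
          exact Or.inl (hne a ha3)
      · exact (Complex.continuous_exp.comp hL).continuousOn
    have h0' : ∀ x ∈ Box l r b t \ ↑D', h' x ≠ 0 := by
      rintro x ⟨hx1, hx2⟩
      rw [hh']
      dsimp only
      split_ifs with hx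
      · refine mul_ne_zero (h0 x ⟨hx1, ?_⟩) (zpow_ne_zero _ (hne x hx))
        rw [Finset.mem_coe, Finset.mem_insert]
        rintro (h1 | h1)
        · exact hne x hx (by rw [h1, sub_self])
        · exact hx2 h1
      · exact Complex.exp_ne_zero _
    have hev' : ∀ w ∈ D', ∀ ε > 0, ∃ ρ, 0 < ρ ∧ ρ < ε ∧ ∃ (e : ℤ) (L : ℂ → ℂ), Continuous L ∧
        ∀ x ∈ Metric.sphere w ρ, h' x = (x - w) ^ (2 * e) * Complex.exp (L x) := by
      intro w hw ε hε
      have hwz : ρ < ‖w - z‖ := by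
        by_contra hcon
        exact (hcb2 w (not_lt.mp hcon)).2 hw
      obtain ⟨ρ', hρ'0, hρ'ε, e', L', hL', hhL'⟩ := hev w (Finset.mem_insert_of_mem hw) (min ε (‖w - z‖ - ρ))
        (lt_min hε (by linarith))
      have h1 : ρ' < ε := lt_of_lt_of_le hρ'ε (min_le_left _ _)
      have h2 : ρ' < ‖w - z‖ - ρ := lt_of_lt_of_le hρ'ε (min_le_right _ _)
      have h3 : ∀ x ∈ Metric.closedBall w ρ', ρ ≤ ‖x - z‖ := by
        intro x hx
        rw [mem_closedBall_iff_norm] at hx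
        have h4 : ‖w - z‖ ≤ ‖x - z‖ + ‖x - w‖ := by
          have := norm_sub_le (x - z) (x - w)
          rwa [sub_sub_sub_cancel_left] at this
        linarith
      have hM : ContinuousOn (fun x : ℂ => (x - z) ^ (-(2 * e))) (Metric.closedBall w ρ') := by
        refine ContinuousOn.zpow₀ (by fun_prop) _ ?_
        intro a ha
        exact Or.inl (hne a (h3 a ha))
      obtain ⟨M, hMc, hM2⟩ := exists_log_closedBall hρ'0.le hM
        (fun x hx => zpow_ne_zero _ (hne x (h3 x hx)))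
      refine ⟨ρ', hρ'0, h1, e', fun x => L' x + M x, hL'.add hMc, fun x hx => ?_⟩
      have hx2 : x ∈ Metric.closedBall w ρ' := Metric.sphere_subset_closedBall hx
      rw [hh']
      dsimp only
      rw [if_pos (h3 x hx2), hhL' x hx, ← hM2 x hx2, Complex.exp_add, mul_assoc]
    obtain ⟨g', hg', hg'2⟩ := ih (fun w hw => hD w (Finset.mem_insert_of_mem hw)) hc' h0' hev'
    have hbd : ∀ x ∈ BoxBd l r b t, ρ ≤ ‖x - z‖ := by
      rintro x ⟨_, hx⟩
      by_contra hcon
      obtain ⟨⟨⟨h1, h2⟩, ⟨h3, h4⟩⟩, _⟩ := hcb2 x (le_of_lt (not_le.mp hcon))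
      rcases hx with hx | hx | hx | hx <;> linarith
    refine ⟨fun x => g' x * (x - z) ^ e, ?_, fun x hx => ?_⟩
    · refine hg'.mul (ContinuousOn.zpow₀ (by fun_prop) _ ?_)
      intro a ha
      exact Or.inl (hne a (hbd a ha))
    · have h1 := hne x (hbd x hx)
      have h2 := hg'2 x hx
      rw [hh'] at h2
      dsimp only at h2
      rw [if_pos (hbd x hx)] at h2
      show (g' x * (x - z) ^ e) ^ 2 = h x
      rw [mul_pow, h2, mul_assoc, ← zpow_natCast, ← zpow_mul, ← zpow_add₀ h1]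
      have h3 : -(2 * e) + e * ((2 : ℕ) : ℤ) = 0 := by push_cast; ring
      rw [h3, zpow_zero, mul_one]

end SymCM
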