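import Mathlib
import Pool.Agent.SymCM.Defs
set_option autoImplicit false
open Set Topology

namespace SymCM

theorem CP_isCompact_Box (l r b t : ℝ) : IsCompact (Box l r b t) := by
  have : Box l r b t = Icc l r ×ℂ Icc b t := by
    ext z; simp [Box, Complex.mem_reProdIm]
  rw [this]
  exact isCompact_Icc.reProdIm isCompact_Icc

theorem isCompact_PiR (a b : ℝ) (d : ℕ → ℂ) : IsCompact (PiR a b d) := by
  have hB := CP_isCompact_Box a b 0 1
  have hK : IsCompact (Box a b 0 1 ×ˢ (Set.pi univ fun _ : ℕ => Metric.closedBall (0 : ℂ) 1)) :=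
    hB.prod (isCompact_univ_pi fun _ => isCompact_closedBall _ _)
  refine hK.of_isClosed_subset ?_ ?_
  · have : PiR a b d = (Prod.fst ⁻¹' (Box a b 0 1)) ∩ ⋂ n : ℕ, {p : ℂ × (ℕ → ℂ) | ‖p.2 n‖ = 1 ∧
        (p.1 - d n) ^ 2 = ((‖p.1 - d n‖ : ℝ) : ℂ) ^ 2 * p.2 n} := by
      ext p; simp [PiR]
    rw [this]
    refine (hB.isClosed.preimage continuous_fst).inter (isClosed_iInter fun n => ?_)
    refine IsClosed.and ?_ ?_
    · exact isClosed_eq (by fun_prop) continuous_const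
    · exact isClosed_eq (by fun_prop) (by fun_prop)
  · intro p hp
    refine ⟨hp.1, fun n _ => ?_⟩
    simp only [Metric.mem_closedBall, dist_zero_right]
    exact (hp.2 n).1.le

theorem isCompact_AR (a b : ℝ) (c : ℕ → ℂ) : IsCompact (AR a b c) := by
  have hB := CP_isCompact_Box a b 0 1
  obtain ⟨M, hM⟩ := hB.isBounded.exists_norm_le
  have hK : IsCompact (Box a b 0 1 ×ˢ (Set.pi univ fun n : ℕ =>
      Metric.closedBall (0 : ℂ) (1 + (|M| + ‖c n‖) * (|M| + 2)))) :=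
    hB.prod (isCompact_univ_pi fun _ => isCompact_closedBall _ _)
  refine hK.of_isClosed_subset ?_ ?_
  · have : AR a b c = (Prod.fst ⁻¹' (Box a b 0 1)) ∩ ⋂ n : ℕ, {p : ℂ × (ℕ → ℂ) |
        (p.2 n) ^ 2 = (p.1 - c n) * ((p.1.re - 2 : ℝ) : ℂ)} := by
      ext p; simp [AR]
    rw [this]
    refine (hB.isClosed.preimage continuous_fst).inter (isClosed_iInter fun n => ?_)
    exact isClosed_eq (by fun_prop) (by fun_prop)
  · intro p hp
    refine ⟨hp.1, fun n _ => ?_⟩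
    simp only [Metric.mem_closedBall, dist_zero_right]
    have h1 := hp.2 n
    have h2 : ‖p.2 n‖ ^ 2 = ‖p.1 - c n‖ * |p.1.re - 2| := by
      rw [← norm_pow, h1, norm_mul, Complex.norm_real, Real.norm_eq_abs]
    have hM1 : ‖p.1‖ ≤ |M| := (hM _ hp.1).trans (le_abs_self M)
    have h3 : ‖p.1 - c n‖ ≤ |M| + ‖c n‖ := (norm_sub_le _ _).trans (by linarith)
    have h4 : |p.1.re - 2| ≤ |M| + 2 := by
      have h5 : |p.1.re| ≤ |M| := (Complex.abs_re_le_norm _).trans hM1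
      have := abs_sub p.1.re 2
      have h6 : |(2 : ℝ)| = 2 := by norm_num
      calc |p.1.re - 2| ≤ |p.1.re| + |(2 : ℝ)| := by
            have := norm_sub_le p.1.re (2 : ℝ)
            simpa [Real.norm_eq_abs] using this
        _ ≤ |M| + 2 := by rw [h6]; linarith
    have h7 : ‖p.1 - c n‖ * |p.1.re - 2| ≤ (|M| + ‖c n‖) * (|M| + 2) :=
      mul_le_mul h3 h4 (abs_nonneg _) (by positivity)
    nlinarith [sq_nonneg (‖p.2 n‖ - 1), norm_nonneg (p.2 n)]

theorem isCompact_TT (c d : ℕ → ℂ) : IsCompact (TT c d) := by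
  have hB := CP_isCompact_Box 0 4 0 1
  obtain ⟨M, hM⟩ := hB.isBounded.exists_norm_le
  have hK : IsCompact (Box 0 4 0 1 ×ˢ ((Set.pi univ fun n : ℕ =>
      Metric.closedBall (0 : ℂ) (1 + (|M| + ‖c n‖) * (|M| + 2))) ×ˢ
      (Set.pi univ fun _ : ℕ => Metric.closedBall (0 : ℂ) 1))) :=
    hB.prod ((isCompact_univ_pi fun _ => isCompact_closedBall _ _).prod
      (isCompact_univ_pi fun _ => isCompact_closedBall _ _))
  refine hK.of_isClosed_subset ?_ ?_
  · have : TT c d = (Prod.fst ⁻¹' (Box 0 4 0 1)) ∩ ⋂ n : ℕ, {p : ℂ × (ℕ → ℂ) × (ℕ → ℂ) |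
        (p.2.1 n) ^ 2 = (p.1 - c n) * ((max 0 (p.1.re - 2) : ℝ) : ℂ) ∧
        ‖p.2.2 n‖ = 1 ∧ (p.1 - d n) ^ 2 = ((‖p.1 - d n‖ : ℝ) : ℂ) ^ 2 * p.2.2 n} := by
      ext p; simp [TT]
    rw [this]
    refine (hB.isClosed.preimage continuous_fst).inter (isClosed_iInter fun n => ?_)
    refine IsClosed.and ?_ (IsClosed.and ?_ ?_)
    · exact isClosed_eq (by fun_prop) (by fun_prop)
    · exact isClosed_eq (by fun_prop) continuous_const
    · exact isClosed_eq (by fun_prop) (by fun_prop)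
  · intro p hp
    refine ⟨hp.1, fun n _ => ?_, fun n _ => ?_⟩
    · simp only [Metric.mem_closedBall, dist_zero_right]
      have h1 := (hp.2 n).1
      have h2 : ‖p.2.1 n‖ ^ 2 = ‖p.1 - c n‖ * |max 0 (p.1.re - 2)| := by
        rw [← norm_pow, h1, norm_mul, Complex.norm_real, Real.norm_eq_abs]
      have hM1 : ‖p.1‖ ≤ |M| := (hM _ hp.1).trans (le_abs_self M)
      have h3 : ‖p.1 - c n‖ ≤ |M| + ‖c n‖ := (norm_sub_le _ _).trans (by linarith)
      have h4 : |max 0 (p.1.re - 2)| ≤ |M| + 2 := by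
        have h5 : |p.1.re| ≤ |M| := (Complex.abs_re_le_norm _).trans hM1
        have h8 := le_abs_self p.1.re
        rw [abs_of_nonneg (le_max_left _ _)]
        apply max_le
        · positivity
        · linarith
      have h7 : ‖p.1 - c n‖ * |max 0 (p.1.re - 2)| ≤ (|M| + ‖c n‖) * (|M| + 2) :=
        mul_le_mul h3 h4 (abs_nonneg _) (by positivity)
      nlinarith [sq_nonneg (‖p.2.1 n‖ - 1), norm_nonneg (p.2.1 n)]
    · simp only [Metric.mem_closedBall, dist_zero_right]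
      exact (hp.2 n).2.1.le

theorem continuousOn_Yf (d : ℕ → ℂ) {S : Set ℂ} (hS : ∀ n, d n ∉ S) : ContinuousOn (Yf d) S := by
  rw [continuousOn_pi]
  intro n
  have h : ∀ x ∈ S, ((‖x - d n‖ : ℝ) : ℂ) ^ 2 ≠ 0 := by
    intro x hx
    have : x - d n ≠ 0 := by
      intro h0
      rw [sub_eq_zero] at h0
      exact hS n (h0 ▸ hx)
    have h1 : ‖x - d n‖ ≠ 0 := norm_ne_zero_iff.2 this
    exact pow_ne_zero 2 (Complex.ofReal_ne_zero.2 h1)
  exact ContinuousOn.div (Continuous.continuousOn (by fun_prop))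
    (Continuous.continuousOn (by fun_prop)) h

theorem Yf_spec (d : ℕ → ℂ) {x : ℂ} {n : ℕ} (h : x ≠ d n) :
    ‖Yf d x n‖ = 1 ∧ (x - d n) ^ 2 = ((‖x - d n‖ : ℝ) : ℂ) ^ 2 * Yf d x n := by
  have h0 : x - d n ≠ 0 := sub_ne_zero.2 h
  have h1 : ‖x - d n‖ ≠ 0 := norm_ne_zero_iff.2 h0
  have h2 : ((‖x - d n‖ : ℝ) : ℂ) ^ 2 ≠ 0 := pow_ne_zero 2 (Complex.ofReal_ne_zero.2 h1)
  refine ⟨?_, ?_⟩
  · unfold Yf
    rw [norm_div, norm_pow, norm_pow, Complex.norm_real, norm_norm, div_self (pow_ne_zero 2 h1)]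
  · unfold Yf
    rw [mul_div_cancel₀ _ h2]

theorem eq_Yf (d : ℕ → ℂ) {x : ℂ} {n : ℕ} (h : x ≠ d n) {y : ℂ}
    (hy : (x - d n) ^ 2 = ((‖x - d n‖ : ℝ) : ℂ) ^ 2 * y) : y = Yf d x n := by
  have h0 : x - d n ≠ 0 := sub_ne_zero.2 h
  have h1 : ‖x - d n‖ ≠ 0 := norm_ne_zero_iff.2 h0
  have h2 : ((‖x - d n‖ : ℝ) : ℂ) ^ 2 ≠ 0 := pow_ne_zero 2 (Complex.ofReal_ne_zero.2 h1)
  unfold Yf
  rw [hy, mul_div_cancel_left₀ _ h2]

theorem AR_fibre_totallyDisconnected (a b : ℝ) (c : ℕ → ℂ) (z : ℂ) :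
    IsTotallyDisconnected {p : AR a b c | p.1.1 = z} := by
  intro t ht hpre p hp q hq
  have hp1 : p.1.1 = z := ht hp
  have hq1 : q.1.1 = z := ht hq
  apply Subtype.ext
  refine Prod.ext (hp1.trans hq1.symm) ?_
  funext n
  have hcont : Continuous (fun s : AR a b c => s.1.2 n) := by fun_prop
  have him : IsPreconnected ((fun s : AR a b c => s.1.2 n) '' t) :=
    hpre.image _ hcont.continuousOn
  have hsub : ((fun s : AR a b c => s.1.2 n) '' t) ⊆ {p.1.2 n, -(p.1.2 n)} := by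
    rintro _ ⟨s, hs, rfl⟩
    have hs1 : s.1.1 = z := ht hs
    have e1 := s.2.2 n
    have e2 := p.2.2 n
    rw [hs1] at e1
    rw [hp1] at e2
    have e3 : (s.1.2 n) ^ 2 = (p.1.2 n) ^ 2 := by rw [e1, e2]
    rcases sq_eq_sq_iff_eq_or_eq_neg.1 e3 with h | h
    · simp [h]
    · simp [h]
  have hfin : ((fun s : AR a b c => s.1.2 n) '' t).Countable :=
    ((Set.toFinite _).subset hsub).countable
  exact hfin.isTotallyDisconnected _ subset_rfl him (mem_image_of_mem _ hp) (mem_image_of_mem _ hq)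

theorem AR_sqrt {a b : ℝ} (h2a : 2 < a) (c : ℕ → ℂ) (n : ℕ) :
    ∃ g : AR a b c → ℂ, Continuous g ∧ ∀ p : AR a b c, g p ^ 2 = p.1.1 - c n := by
  have hpos : ∀ p : AR a b c, 0 < p.1.1.re - 2 := by
    intro p
    have := p.2.1.1.1
    linarith
  refine ⟨fun p => p.1.2 n / ((Real.sqrt (p.1.1.re - 2) : ℝ) : ℂ), ?_, ?_⟩
  · refine Continuous.div (by fun_prop) ?_ ?_
    · exact Complex.continuous_ofReal.comp (Real.continuous_sqrt.comp (by fun_prop))
    · intro p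
      exact Complex.ofReal_ne_zero.2 (Real.sqrt_ne_zero'.2 (hpos p))
  · intro p
    have h1 := p.2.2 n
    have h2 : ((Real.sqrt (p.1.1.re - 2) : ℝ) : ℂ) ^ 2 = ((p.1.1.re - 2 : ℝ) : ℂ) := by
      rw [← Complex.ofReal_pow, Real.sq_sqrt (hpos p).le]
    have h3 : ((p.1.1.re - 2 : ℝ) : ℂ) ≠ 0 := Complex.ofReal_ne_zero.2 (hpos p).ne'
    rw [div_pow, h2, h1, mul_div_cancel_right₀ _ h3]

end SymCM
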