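import Mathlib
import Pool.Agent.SymCM.Defs
import Pool.Agent.SymCM.B3a
import Pool.Agent.SymCM.C1p
import Pool.Agent.SymCM.CP
import Pool.Agent.SymCM.TR
set_option autoImplicit false
open Set Topology

namespace SymCM

theorem c937_cont_Yf (d : ℕ → ℂ) (n : ℕ) {x : ℂ} (hx : x ≠ d n) :
    ContinuousAt (fun x => Yf d x n) x := by
  unfold Yf
  refine ContinuousAt.div (by fun_prop) (by fun_prop) ?_
  rw [ne_eq, pow_eq_zero_iff two_ne_zero, Complex.ofReal_eq_zero, norm_eq_zero, sub_eq_zero]
  exact hx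

/-- every nowhere zero function on the blown-up strip has a square root on its boundary -/
theorem sqrt_on_boundary {a b : ℝ} (hab : a < b) {d : ℕ → ℂ} (hd : Function.Injective d)
    (hd1 : ∀ n, (d n).re ∈ Ioo a b ∧ (d n).im ∈ Ioo (0 : ℝ) 1) {f : ℂ × (ℕ → ℂ) → ℂ}
    (hf : ContinuousOn f (PiR a b d)) (h0 : ∀ p ∈ PiR a b d, f p ≠ 0) :
    ∃ g : ℂ → ℂ, ContinuousOn g (BoxBd a b 0 1) ∧ ∀ x ∈ BoxBd a b 0 1, g x ^ 2 = f (x, Yf d x) := by
  classical
  have hXc : IsCompact (PiR a b d) := isCompact_PiR a b d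
  obtain ⟨F, hF, hFf⟩ := tietze_on hXc.isClosed hf
  obtain ⟨ε, hε, hεf⟩ : ∃ ε : ℝ, 0 < ε ∧ ∀ p ∈ PiR a b d, 2 * ε ≤ ‖f p‖ := by
    rcases (PiR a b d).eq_empty_or_nonempty with h | h
    · exact ⟨1, one_pos, fun p hp => by rw [h] at hp; exact absurd hp (notMem_empty _)⟩
    · obtain ⟨p, hp, hmin⟩ := hXc.exists_isMinOn h hf.norm
      refine ⟨‖f p‖ / 2, half_pos (norm_pos_iff.2 (h0 p hp)), fun q hq => ?_⟩
      have := isMinOn_iff.1 hmin q hq
      linarith
  obtain ⟨N, hN⟩ := trunc_close hF hXc 1 hε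
  have hN := hN N le_rfl
  -- truncated function
  let T : ℂ → (ℕ → ℂ) → ℂ := fun x Y => F (trunc 1 N (x, Y))
  have T_congr : ∀ x Y Y', (∀ n < N, Y n = Y' n) → T x Y = T x Y' := by
    intro x Y Y' h
    simp only [T, trunc]
    congr 2
    ext n
    by_cases hn : n < N
    · simp [hn, h n hn]
    · simp [hn]
  have hmem : ∀ x ∈ Box a b 0 1, ∀ Y : ℕ → ℂ, (∀ n, x = d n → ‖Y n‖ = 1) →
      (∀ n, x ≠ d n → Y n = Yf d x n) → (x, Y) ∈ PiR a b d := by
    intro x hx Y h1 h2
    refine ⟨hx, fun n => ?_⟩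
    by_cases hxn : x = d n
    · refine ⟨h1 n hxn, ?_⟩
      simp [hxn]
    · have := Yf_spec d hxn
      rw [← h2 n hxn] at this
      exact this
  have hclose : ∀ x Y, (x, Y) ∈ PiR a b d → ‖T x Y - f (x, Y)‖ < ε := by
    intro x Y hxy
    have := hN (x, Y) hxy
    rwa [hFf _ hxy] at this
  have hTbig : ∀ x Y, (x, Y) ∈ PiR a b d → ε ≤ ‖T x Y‖ := by
    intro x Y hxy
    have h1 := hclose x Y hxy
    have h2 := hεf _ hxy
    have h3 : ‖f (x, Y)‖ ≤ ‖T x Y‖ + ‖T x Y - f (x, Y)‖ := by
      have := norm_sub_le (T x Y) (T x Y - f (x, Y))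
      rwa [sub_sub_cancel] at this
    linarith
  let h : ℂ → ℂ := fun x => T x (Yf d x)
  let D : Finset ℂ := (Finset.range N).image d
  have hDmem : ∀ x, x ∉ D → ∀ n < N, x ≠ d n := by
    intro x hx n hn hxn
    exact hx (Finset.mem_image.2 ⟨n, Finset.mem_range.2 hn, hxn.symm⟩)
  have hcont : ∀ x, x ∉ D → ContinuousAt h x := by
    intro x hx
    refine hF.continuousAt.comp ?_
    refine continuousAt_id.prodMk (continuousAt_pi.2 fun n => ?_)
    by_cases hn : n < N
    · simp only [hn, if_true]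
      exact c937_cont_Yf d n (hDmem x hx n hn)
    · simp only [hn, if_false]
      exact continuousAt_const
  have hh0 : ∀ x ∈ Box a b 0 1, x ∉ D → h x ≠ 0 := by
    intro x hx hxD
    let Y' : ℕ → ℂ := fun n => if x = d n then 1 else Yf d x n
    have h1 : (x, Y') ∈ PiR a b d := hmem x hx Y' (fun n hn => by simp [Y', hn])
      (fun n hn => by simp [Y', hn])
    have h2 : h x = T x Y' := T_congr _ _ _ fun n hn => by
      simp [Y', hDmem x hxD n hn]
    rw [h2]
    have := hTbig _ _ h1
    intro h3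
    rw [h3, norm_zero] at this
    linarith
  have hdbox : ∀ n, d n ∈ Box a b 0 1 := fun n =>
    ⟨⟨(hd1 n).1.1.le, (hd1 n).1.2.le⟩, ⟨(hd1 n).2.1.le, (hd1 n).2.2.le⟩⟩
  -- evenness
  have hev : ∀ z ∈ D, ∀ ε' > 0, ∃ ρ, 0 < ρ ∧ ρ < ε' ∧ ∃ (e : ℤ) (L : ℂ → ℂ), Continuous L ∧
      ∀ x ∈ Metric.sphere z ρ, h x = (x - z) ^ (2 * e) * Complex.exp (L x) := by
    intro z hz ε' hε'
    obtain ⟨i, hi, rfl⟩ := Finset.mem_image.1 hz
    rw [Finset.mem_range] at hi
    let m : ℂ → ℂ := fun Y => T (d i) (Function.update (Yf d (d i)) i Y)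
    have hmc : Continuous m := by
      refine hF.comp (Continuous.prodMk continuous_const (continuous_pi fun n => ?_))
      by_cases hn : n < N
      · simp only [hn, if_true]
        by_cases hni : n = i
        · subst hni
          simp only [Function.update_self]
          exact continuous_id
        · simp only [Function.update_of_ne hni]
          exact continuous_const
      · simp only [hn, if_false]
        exact continuous_const
    have hmbig : ∀ Y : ℂ, ‖Y‖ = 1 → ε ≤ ‖m Y‖ := by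
      intro Y hY
      refine hTbig _ _ (hmem _ (hdbox i) _ (fun n hn => ?_) (fun n hn => ?_))
      · have := hd hn
        subst this
        simpa using hY
      · have : n ≠ i := fun h => hn (by rw [h])
        rw [Function.update_of_ne this]
    obtain ⟨e, M, hM, hmM⟩ := exists_zpow_sphere (c := 0) (r := 1) one_pos (u := m)
      hmc.continuousOn (fun x hx => by
        have hx1 : ‖x‖ = 1 := by simpa using hx
        have := hmbig x hx1
        intro h3
        rw [h3, norm_zero] at this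
        linarith)
    -- the interpolating map
    let G : ℝ × ℂ → ℂ := fun q => T (d i + q.1 * q.2)
      (fun n => if n = i then q.2 ^ 2 else Yf d (d i + q.1 * q.2) n)
    have hGc : ∀ θ : ℂ, ContinuousAt G (0, θ) := by
      intro θ
      refine hF.continuousAt.comp ?_
      refine ContinuousAt.prodMk (by fun_prop) (continuousAt_pi.2 fun n => ?_)
      by_cases hn : n < N
      · simp only [hn, if_true]
        by_cases hni : n = i
        · simp only [hni, if_true]
          fun_prop
        · simp only [hni, if_false]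
          have h1 : ContinuousAt (fun q : ℝ × ℂ => d i + q.1 * q.2) (0, θ) := by fun_prop
          refine ContinuousAt.comp (g := fun x => Yf d x n) ?_ h1
          apply c937_cont_Yf
          simp only [Complex.ofReal_zero, zero_mul, add_zero]
          exact fun h => hni (hd h).symm
      · simp only [hn, if_false]
        exact continuousAt_const
    have hev1 : ∀ᶠ s : ℝ in 𝓝 0, ∀ θ ∈ Metric.sphere (0 : ℂ) 1, ‖G (s, θ) - G (0, θ)‖ < ε / 2 := by
      refine (isCompact_sphere (0 : ℂ) 1).eventually_forall_of_forall_eventually fun θ _ => ?_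
      have h1 : ContinuousAt (fun q : ℝ × ℂ => ‖G (q.1, q.2) - G (0, q.2)‖) (0, θ) := by
        have h2 : ContinuousAt (fun q : ℝ × ℂ => G (q.1, q.2)) (0, θ) := hGc θ
        have h3 : ContinuousAt (fun q : ℝ × ℂ => G (0, q.2)) (0, θ) := by
          have : ContinuousAt (fun q : ℝ × ℂ => ((0 : ℝ), q.2)) (0, θ) := by fun_prop
          exact ContinuousAt.comp (g := G) (hGc θ) this
        exact (h2.sub h3).norm
      have h4 := h1.tendsto
      simp only [sub_self, norm_zero] at h4
      exact h4.eventually_lt_const (by positivity)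
    have hev2 : ∀ᶠ s : ℝ in 𝓝 0, ∀ j ∈ Finset.range N, j ≠ i → s < ‖d j - d i‖ := by
      rw [Filter.eventually_all_finset]
      intro j _
      by_cases hj : j = i
      · exact Filter.Eventually.of_forall fun s h => absurd hj h
      · have : 0 < ‖d j - d i‖ := norm_pos_iff.2 (sub_ne_zero.2 fun h => hj (hd h))
        filter_upwards [gt_mem_nhds this] with s hs _ using hs
    obtain ⟨δ, hδ, hδ'⟩ := Metric.eventually_nhds_iff.1 (hev1.and hev2)
    set ρ : ℝ := min δ ε' / 2 with hρ
    have hρ0 : 0 < ρ := by positivity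
    have hρδ : ρ < δ := by
      have := min_le_left δ ε'
      have : 0 < min δ ε' := by positivity
      rw [hρ]; linarith
    have hρε : ρ < ε' := by
      have := min_le_right δ ε'
      have : 0 < min δ ε' := by positivity
      rw [hρ]; linarith
    obtain ⟨k1, k2⟩ := hδ' (y := ρ) (by rw [dist_zero_right, Real.norm_of_nonneg hρ0.le]; exact hρδ)
    have hρC : (ρ : ℂ) ≠ 0 := by exact_mod_cast hρ0.ne'
    -- points of the sphere
    have hsph : ∀ x ∈ Metric.sphere (d i) ρ, ‖(x - d i) / ρ‖ = 1 := by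
      intro x hx
      rw [mem_sphere_iff_norm] at hx
      rw [norm_div, hx, Complex.norm_real, Real.norm_of_nonneg hρ0.le, div_self hρ0.ne']
    have hxD : ∀ x ∈ Metric.sphere (d i) ρ, x ∉ D := by
      intro x hx hxD
      obtain ⟨j, hj, rfl⟩ := Finset.mem_image.1 hxD
      rw [mem_sphere_iff_norm] at hx
      by_cases hji : j = i
      · subst hji
        rw [sub_self, norm_zero] at hx
        exact hρ0.ne hx
      · have := k2 j hj hji
        rw [hx] at this
        exact lt_irrefl _ this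
    have hG1 : ∀ x ∈ Metric.sphere (d i) ρ, G (ρ, (x - d i) / ρ) = h x := by
      intro x hx
      have e1 : d i + (ρ : ℂ) * ((x - d i) / ρ) = x := by field_simp; ring
      simp only [G, h, e1]
      apply T_congr
      intro n hn
      by_cases hni : n = i
      · simp only [hni, if_true]
        rw [mem_sphere_iff_norm] at hx
        rw [Yf, hx, div_pow]
      · simp only [hni, if_false]
    have hG0 : ∀ θ : ℂ, G (0, θ) = m (θ ^ 2) := by
      intro θ
      simp only [G, m, Complex.ofReal_zero, zero_mul, add_zero]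
      apply T_congr
      intro n hn
      by_cases hni : n = i
      · subst hni; simp
      · simp [hni]
    have hclose2 : ∀ x ∈ Metric.sphere (d i) ρ, ‖h x - m (((x - d i) / ρ) ^ 2)‖ < ε / 2 := by
      intro x hx
      have := k1 ((x - d i) / ρ) (by rw [mem_sphere_zero_iff_norm]; exact hsph x hx)
      rwa [hG1 x hx, hG0] at this
    have hθ2 : ∀ x ∈ Metric.sphere (d i) ρ, ‖((x - d i) / ρ) ^ 2‖ = 1 := by
      intro x hx
      rw [norm_pow, hsph x hx, one_pow]
    have hm0 : ∀ x ∈ Metric.sphere (d i) ρ, m (((x - d i) / ρ) ^ 2) ≠ 0 := by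
      intro x hx h3
      have := hmbig _ (hθ2 x hx)
      rw [h3, norm_zero] at this
      linarith
    have hslit : ∀ x ∈ Metric.sphere (d i) ρ,
        h x / m (((x - d i) / ρ) ^ 2) ∈ Complex.slitPlane := by
      intro x hx
      have h1 : ‖h x / m (((x - d i) / ρ) ^ 2) - 1‖ < 1 := by
        have h2 : h x / m (((x - d i) / ρ) ^ 2) - 1 =
            (h x - m (((x - d i) / ρ) ^ 2)) / m (((x - d i) / ρ) ^ 2) := by
          exact div_sub_one (hm0 x hx)
        rw [h2, norm_div, div_lt_one (norm_pos_iff.2 (hm0 x hx))]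
        have h3 := hclose2 x hx
        have h4 := hmbig _ (hθ2 x hx)
        linarith
      left
      have h5 := (abs_le.1 ((Complex.abs_re_le_norm _).trans h1.le)).1
      have h6 := (abs_lt.1 ((Complex.abs_re_le_norm _).trans_lt h1)).1
      simp only [Complex.sub_re, Complex.one_re] at h6
      linarith
    have hhc : ContinuousOn h (Metric.sphere (d i) ρ) := fun x hx =>
      (hcont x (hxD x hx)).continuousWithinAt
    have hsc : Continuous (fun x : ℂ => ((x - d i) / (ρ : ℂ)) ^ 2) := by fun_prop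
    have hmsc : Continuous (fun x : ℂ => m (((x - d i) / (ρ : ℂ)) ^ 2)) := hmc.comp hsc
    have hMsc : Continuous (fun x : ℂ => M (((x - d i) / (ρ : ℂ)) ^ 2)) := hM.comp hsc
    have hqc : ContinuousOn (fun x => h x / m (((x - d i) / (ρ : ℂ)) ^ 2))
        (Metric.sphere (d i) ρ) := hhc.div hmsc.continuousOn hm0
    have hlc : ContinuousOn (fun x => Complex.log (h x / m (((x - d i) / (ρ : ℂ)) ^ 2)))
        (Metric.sphere (d i) ρ) := hqc.clog hslit
    have hsum : ContinuousOn (fun x => (-(2 * e * Real.log ρ) : ℂ) +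
        M (((x - d i) / (ρ : ℂ)) ^ 2) + Complex.log (h x / m (((x - d i) / (ρ : ℂ)) ^ 2)))
        (Metric.sphere (d i) ρ) := (continuousOn_const.add hMsc.continuousOn).add hlc
    obtain ⟨L, hL, hLs⟩ := tietze_on Metric.isClosed_sphere hsum
    refine ⟨ρ, hρ0, hρε, e, L, hL, fun x hx => ?_⟩
    rw [hLs x hx, Complex.exp_add, Complex.exp_add, Complex.exp_log
      (Complex.slitPlane_ne_zero (hslit x hx))]
    have h1 := hmM _ (by rw [mem_sphere_zero_iff_norm]; exact hθ2 x hx :
      ((x - d i) / ρ) ^ 2 ∈ Metric.sphere (0 : ℂ) 1)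
    rw [sub_zero] at h1
    have hxd : x - d i ≠ 0 := by
      intro h2
      rw [mem_sphere_iff_norm, h2, norm_zero] at hx
      exact hρ0.ne hx
    have h2 : Complex.exp (-(2 * e * Real.log ρ)) = ((ρ : ℂ) ^ (2 * e))⁻¹ := by
      rw [Complex.exp_neg]
      congr 1
      have : (2 * e * Real.log ρ : ℂ) = ((2 * e : ℤ) : ℂ) * (Real.log ρ : ℂ) := by push_cast; ring
      rw [this, Complex.exp_int_mul, ← Complex.ofReal_exp, Real.exp_log hρ0]
    have h3 : (((x - d i) / ρ) ^ 2) ^ e = (x - d i) ^ (2 * e) * ((ρ : ℂ) ^ (2 * e))⁻¹ := by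
      rw [← zpow_natCast, ← zpow_mul, div_zpow]
      push_cast
      rw [div_eq_mul_inv]
    have h4 : h x = m (((x - d i) / ρ) ^ 2) * (h x / m (((x - d i) / ρ) ^ 2)) :=
      (mul_div_cancel₀ _ (hm0 x hx)).symm
    rw [h2]
    conv_lhs => rw [h4]
    nth_rewrite 1 [h1]
    rw [h3]
    ring
  -- the square root
  obtain ⟨g1, hg1c, hg1⟩ := sqrt_of_even_punctures hab one_pos D (fun z hz => by
      obtain ⟨i, _, rfl⟩ := Finset.mem_image.1 hz
      exact hd1 i) (h := h)
    (fun x hx => (hcont x hx.2).continuousWithinAt) (fun x hx => hh0 x hx.1 hx.2) hev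
  have hbd : ∀ x ∈ BoxBd a b 0 1, ∀ n, x ≠ d n := by
    rintro x ⟨_, hx⟩ n rfl
    have := hd1 n
    rcases hx with h | h | h | h
    · exact this.1.1.ne' h
    · exact this.1.2.ne h
    · exact this.2.1.ne' h
    · exact this.2.2.ne h
  have hbdX : ∀ x ∈ BoxBd a b 0 1, (x, Yf d x) ∈ PiR a b d := fun x hx =>
    hmem x hx.1 _ (fun n hn => absurd hn (hbd x hx n)) (fun n _ => rfl)
  have hbdD : ∀ x ∈ BoxBd a b 0 1, x ∉ D := by
    intro x hx hxD
    obtain ⟨i, _, rfl⟩ := Finset.mem_image.1 hxD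
    exact hbd _ hx i rfl
  have hfc : ContinuousOn (fun x => f (x, Yf d x)) (BoxBd a b 0 1) :=
    hf.comp (continuousOn_id.prodMk (continuousOn_Yf d fun n hn => hbd _ hn n rfl)) hbdX
  have hf0 : ∀ x ∈ BoxBd a b 0 1, f (x, Yf d x) ≠ 0 := fun x hx => h0 _ (hbdX x hx)
  have hslit : ∀ x ∈ BoxBd a b 0 1, h x / f (x, Yf d x) ∈ Complex.slitPlane := by
    intro x hx
    have h1 : ‖h x / f (x, Yf d x) - 1‖ < 1 := by
      have h2 : h x / f (x, Yf d x) - 1 = (h x - f (x, Yf d x)) / f (x, Yf d x) := by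
        exact div_sub_one (hf0 x hx)
      rw [h2, norm_div, div_lt_one (norm_pos_iff.2 (hf0 x hx))]
      have h3 := hclose _ _ (hbdX x hx)
      have h4 := hεf _ (hbdX x hx)
      have h5 : ‖h x - f (x, Yf d x)‖ < ε := h3
      linarith
    left
    have h6 := (abs_lt.1 ((Complex.abs_re_le_norm _).trans_lt h1)).1
    simp only [Complex.sub_re, Complex.one_re] at h6
    linarith
  refine ⟨fun x => g1 x * Complex.exp (-(Complex.log (h x / f (x, Yf d x)) / 2)), ?_, ?_⟩
  · refine hg1c.mul (Complex.continuous_exp.comp_continuousOn (ContinuousOn.neg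
      (ContinuousOn.div_const (ContinuousOn.clog ?_ hslit) _)))
    exact ContinuousOn.div (fun x hx => (hcont x (hbdD x hx)).continuousWithinAt) hfc hf0
  · intro x hx
    have h1 : Complex.exp (-(Complex.log (h x / f (x, Yf d x)) / 2)) ^ 2 =
        (h x / f (x, Yf d x))⁻¹ := by
      rw [← Complex.exp_nat_mul]
      have : ((2 : ℕ) : ℂ) * -(Complex.log (h x / f (x, Yf d x)) / 2) =
          -Complex.log (h x / f (x, Yf d x)) := by push_cast; ring
      rw [this, Complex.exp_neg, Complex.exp_log (Complex.slitPlane_ne_zero (hslit x hx))]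
    have h2 : h x ≠ 0 := hh0 x hx.1 (hbdD x hx)
    rw [mul_pow, h1, hg1 x hx]
    have := hf0 x hx
    field_simp

end SymCM
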