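import Mathlib
import Pool.Agent.SymCM.Defs
import Pool.Agent.SymCM.B3a
import Pool.Agent.SymCM.B3b
import Pool.Agent.SymCM.CP
import Pool.Agent.SymCM.TR
set_option autoImplicit false
open Set Topology

namespace SymCM

/-- the sign action on the first `N` coordinates -/
noncomputable def c2act (N : ℕ) (s : Fin N → ℤˣ) (v : ℕ → ℂ) : ℕ → ℂ :=
  fun n => if h : n < N then ((s ⟨n, h⟩ : ℤ) : ℂ) * v n else v n

theorem c2act_sq (N : ℕ) (s : Fin N → ℤˣ) (v : ℕ → ℂ) (n : ℕ) :
    (c2act N s v n) ^ 2 = (v n) ^ 2 := by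
  unfold c2act
  split_ifs with h
  · rcases Int.units_eq_one_or (s ⟨n, h⟩) with h1 | h1 <;> rw [h1] <;> simp
  · rfl

theorem c2continuous_act (N : ℕ) (s : Fin N → ℤˣ) :
    Continuous (fun p : ℂ × (ℕ → ℂ) => ((p.1, c2act N s p.2) : ℂ × (ℕ → ℂ))) := by
  refine continuous_fst.prodMk (continuous_pi fun n => ?_)
  unfold c2act
  by_cases h : n < N
  · simp only [h, dite_true]
    exact continuous_const.mul ((continuous_apply n).comp continuous_snd)
  · simp only [h, dite_false]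
    exact (continuous_apply n).comp continuous_snd

theorem c2act_mem {a b : ℝ} {c : ℕ → ℂ} (N : ℕ) (s : Fin N → ℤˣ) {p : ℂ × (ℕ → ℂ)}
    (hp : p ∈ AR a b c) : ((p.1, c2act N s p.2) : ℂ × (ℕ → ℂ)) ∈ AR a b c := by
  refine ⟨hp.1, fun n => ?_⟩
  have := hp.2 n
  rw [← this]
  exact c2act_sq N s p.2 n

theorem c2trunc_act (N : ℕ) (s t : Fin N → ℤˣ) (x : ℂ) (v w : ℕ → ℂ)
    (h : ∀ (n : ℕ) (hn : n < N), v n = ((t ⟨n, hn⟩ : ℤ) : ℂ) * w n) :
    trunc 0 N (x, c2act N s v) = trunc 0 N (x, c2act N (s * t) w) := by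
  unfold trunc
  simp only [Prod.mk.injEq, true_and]
  funext n
  by_cases hn : n < N
  · simp only [hn, if_true, c2act, dite_true]
    rw [h n hn]
    simp only [Pi.mul_apply, Units.val_mul, Int.cast_mul]
    ring
  · simp [hn]

theorem c2exists_sign (N : ℕ) (v w : ℕ → ℂ) (h : ∀ n, (v n) ^ 2 = (w n) ^ 2) :
    ∃ t : Fin N → ℤˣ, ∀ (n : ℕ) (hn : n < N), v n = ((t ⟨n, hn⟩ : ℤ) : ℂ) * w n := by
  have h1 : ∀ i : Fin N, ∃ t : ℤˣ, v i = ((t : ℤ) : ℂ) * w i := by
    intro i
    rcases sq_eq_sq_iff_eq_or_eq_neg.mp (h i) with h2 | h2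
    · exact ⟨1, by simpa using h2⟩
    · exact ⟨-1, by simpa using h2⟩
  choose t ht using h1
  exact ⟨t, fun n hn => ht ⟨n, hn⟩⟩

/-- a nowhere zero function on the branched cover which depends only on the base point over the
boundary has a logarithm there -/
theorem log_on_boundary {a b : ℝ} (h2a : 2 ≤ a) (hab : a < b) {c : ℕ → ℂ} {f : ℂ × (ℕ → ℂ) → ℂ}
    (hf : ContinuousOn f (AR a b c)) (h0 : ∀ p ∈ AR a b c, f p ≠ 0) {u : ℂ → ℂ}
    (hu : ∀ p ∈ AR a b c, p.1 ∈ BoxBd a b 0 1 → f p = u p.1) :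
    ∃ L : ℂ → ℂ, Continuous L ∧ ∀ x ∈ BoxBd a b 0 1, u x = Complex.exp (L x) := by
  classical
  have hX := isCompact_AR a b c
  have hV : ∀ (x : ℂ) (n : ℕ), ∃ z : ℂ, z ^ 2 = (x - c n) * ((x.re - 2 : ℝ) : ℂ) := fun x n =>
    IsAlgClosed.exists_pow_nat_eq _ two_pos
  choose V hV using hV
  have hVX : ∀ x ∈ Box a b 0 1, ((x, V x) : ℂ × (ℕ → ℂ)) ∈ AR a b c := fun x hx =>
    ⟨hx, fun n => hV x n⟩
  have hne : (AR a b c).Nonempty := by
    refine ⟨_, hVX (a : ℂ) ?_⟩
    simp [Box, hab.le]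
  -- lower bound
  obtain ⟨p0, hp0, hmin⟩ := hX.exists_isMinOn hne hf.norm
  set ε : ℝ := ‖f p0‖ / 2 with hε
  have hεpos : 0 < ε := half_pos (norm_pos_iff.mpr (h0 p0 hp0))
  have hlow : ∀ p ∈ AR a b c, 2 * ε ≤ ‖f p‖ := by
    intro p hp
    have := hmin hp
    rw [hε]
    simp only [Set.mem_ofPred_eq] at this
    linarith
  obtain ⟨F, hFc, hF⟩ := tietze_on hX.isClosed hf
  obtain ⟨N, hN⟩ := trunc_close hFc hX 0 hεpos
  have hN := hN N le_rfl
  set k : ℂ × (ℕ → ℂ) → ℂ := fun p => F (trunc 0 N p) with hk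
  have hkc : Continuous k := hFc.comp (continuous_trunc 0 N)
  have hkf : ∀ p ∈ AR a b c, ‖k p - f p‖ < ε := by
    intro p hp
    rw [← hF p hp]
    exact hN p hp
  have hk0 : ∀ p ∈ AR a b c, k p ≠ 0 := by
    intro p hp hz
    have h1 := hkf p hp
    rw [hz, zero_sub, norm_neg] at h1
    linarith [hlow p hp]
  have hkact : ∀ p ∈ AR a b c, ∃ t : Fin N → ℤˣ, ∀ s : Fin N → ℤˣ,
      k (p.1, c2act N s p.2) = k (p.1, c2act N (s * t) (V p.1)) := by
    intro p hp
    obtain ⟨t, ht⟩ := c2exists_sign N p.2 (V p.1) (fun n => by rw [hV, hp.2 n])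
    refine ⟨t, fun s => ?_⟩
    simp only [hk]
    rw [c2trunc_act N s t p.1 p.2 (V p.1) ht]
  set H : ℂ → ℂ := fun x => ∏ s : Fin N → ℤˣ, k (x, c2act N s (V x)) with hH
  have hHX : ∀ p ∈ AR a b c, H p.1 = ∏ s : Fin N → ℤˣ, k (p.1, c2act N s p.2) := by
    intro p hp
    obtain ⟨t, ht⟩ := hkact p hp
    rw [hH]
    simp only
    rw [Finset.prod_congr rfl (fun s _ => ht s)]
    exact (Fintype.prod_equiv (Equiv.mulRight t) _ _ (fun s => rfl)).symm
  have hbox : Prod.fst '' AR a b c = Box a b 0 1 := by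
    ext x
    constructor
    · rintro ⟨p, hp, rfl⟩
      exact hp.1
    · intro hx
      exact ⟨_, hVX x hx, rfl⟩
  have hHc : ContinuousOn H (Box a b 0 1) := by
    rw [← hbox]
    apply continuousOn_of_comp_fst hX
    refine ContinuousOn.congr ?_ hHX
    apply Continuous.continuousOn
    exact continuous_finsetProd _ fun s _ => hkc.comp (c2continuous_act N s)
  have hH0 : ∀ x ∈ Box a b 0 1, H x ≠ 0 := by
    intro x hx
    rw [hH]
    exact Finset.prod_ne_zero_iff.mpr fun s _ => hk0 _ (c2act_mem N s (hVX x hx))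
  obtain ⟨L0, hL0c, hL0⟩ := exists_log_box hab.le zero_le_one hHc hH0
  -- boundary
  have hbdclosed : IsClosed (BoxBd a b 0 1) := by
    unfold BoxBd Box
    have e1 : IsClosed {z : ℂ | z.re ∈ Icc a b ∧ z.im ∈ Icc (0:ℝ) 1} :=
      (isClosed_Icc.preimage Complex.continuous_re).inter
        (isClosed_Icc.preimage Complex.continuous_im)
    have e2 : IsClosed {z : ℂ | z.re = a ∨ z.re = b ∨ z.im = 0 ∨ z.im = 1} :=
      (isClosed_eq Complex.continuous_re continuous_const).union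
        ((isClosed_eq Complex.continuous_re continuous_const).union
          ((isClosed_eq Complex.continuous_im continuous_const).union
            (isClosed_eq Complex.continuous_im continuous_const)))
    exact e1.inter e2
  set C' : Set (ℂ × (ℕ → ℂ)) := AR a b c ∩ Prod.fst ⁻¹' (BoxBd a b 0 1) with hC'
  have hC'c : IsCompact C' := hX.inter_right (hbdclosed.preimage continuous_fst)
  have hC'bd : Prod.fst '' C' = BoxBd a b 0 1 := by
    ext x
    constructor
    · rintro ⟨p, hp, rfl⟩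
      exact hp.2
    · intro hx
      exact ⟨(x, V x), ⟨hVX x hx.1, hx⟩, rfl⟩
  have huC' : ∀ p ∈ C', u p.1 = f p := fun p hp => (hu p hp.1 hp.2).symm
  have hfC' : ContinuousOn f C' := hf.mono inter_subset_left
  have hucont : ContinuousOn u (BoxBd a b 0 1) := by
    rw [← hC'bd]
    apply continuousOn_of_comp_fst hC'c
    exact hfC'.congr huC'
  have hu0 : ∀ x ∈ BoxBd a b 0 1, u x ≠ 0 := by
    intro x hx
    have h1 := huC' (x, V x) ⟨hVX x hx.1, hx⟩
    simp only at h1
    rw [h1]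
    exact h0 _ (hVX x hx.1)
  have hslit : ∀ p ∈ C', ∀ s : Fin N → ℤˣ,
      k (p.1, c2act N s p.2) / u p.1 ∈ Complex.slitPlane := by
    intro p hp s
    have hmem := c2act_mem N s hp.1
    have h1 := hkf _ hmem
    have h2 := hu _ hmem hp.2
    have h3 := hlow _ hmem
    simp only at h2
    rw [h2] at h1 h3
    have hune : u p.1 ≠ 0 := hu0 p.1 hp.2
    have h4 : k (p.1, c2act N s p.2) / u p.1 =
        1 + (k (p.1, c2act N s p.2) - u p.1) / u p.1 := by
      field_simp
      ring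
    rw [h4]
    apply Complex.mem_slitPlane_of_norm_lt_one
    rw [norm_div, div_lt_one (norm_pos_iff.mpr hune)]
    linarith
  set S : ℂ → ℂ := fun x => ∑ s : Fin N → ℤˣ, Complex.log (k (x, c2act N s (V x)) / u x) with hS
  have hSX : ∀ p ∈ C', S p.1 = ∑ s : Fin N → ℤˣ, Complex.log (k (p.1, c2act N s p.2) / u p.1) := by
    intro p hp
    obtain ⟨t, ht⟩ := hkact p hp.1
    rw [hS]
    simp only
    have e1 : ∑ s : Fin N → ℤˣ, Complex.log (k (p.1, c2act N s p.2) / u p.1) =
        ∑ s : Fin N → ℤˣ, Complex.log (k (p.1, c2act N (s * t) (V p.1)) / u p.1) :=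
      Finset.sum_congr rfl (fun s _ => by rw [ht s])
    rw [e1]
    exact (Fintype.sum_equiv (Equiv.mulRight t) _ _ (fun s => rfl)).symm
  have hSc : ContinuousOn S (BoxBd a b 0 1) := by
    rw [← hC'bd]
    apply continuousOn_of_comp_fst hC'c
    refine ContinuousOn.congr ?_ hSX
    refine continuousOn_finsetSum _ fun s _ => ?_
    refine ContinuousOn.clog ?_ (fun p hp => hslit p hp s)
    refine ContinuousOn.div (hkc.comp (c2continuous_act N s)).continuousOn (hfC'.congr huC') ?_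
    exact fun p hp => hu0 p.1 hp.2
  have hfinal : ∀ x ∈ BoxBd a b 0 1,
      u x ^ (Fintype.card (Fin N → ℤˣ)) = Complex.exp (L0 x - S x) := by
    intro x hx
    have hx1 : ((x, V x) : ℂ × (ℕ → ℂ)) ∈ C' := ⟨hVX x hx.1, hx⟩
    have h1 : H x = u x ^ (Fintype.card (Fin N → ℤˣ)) * Complex.exp (S x) := by
      rw [hH, hS]
      simp only
      rw [Complex.exp_sum]
      have h2 : ∀ s : Fin N → ℤˣ, k (x, c2act N s (V x)) =
          u x * Complex.exp (Complex.log (k (x, c2act N s (V x)) / u x)) := by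
        intro s
        have hne1 : k (x, c2act N s (V x)) / u x ≠ 0 :=
          Complex.slitPlane_ne_zero (hslit _ hx1 s)
        rw [Complex.exp_log hne1]
        have := hu0 x hx
        field_simp
      calc ∏ s : Fin N → ℤˣ, k (x, c2act N s (V x))
          = ∏ s : Fin N → ℤˣ, (u x * Complex.exp (Complex.log (k (x, c2act N s (V x)) / u x))) :=
            Finset.prod_congr rfl fun s _ => h2 s
        _ = _ := by
            rw [Finset.prod_mul_distrib, Finset.prod_const, Finset.card_univ]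
    rw [Complex.exp_sub, hL0 x hx.1, h1, mul_div_assoc, div_self (Complex.exp_ne_zero _), mul_one]
  exact log_of_pow_log hab zero_lt_one hucont hu0 (Fintype.card_ne_zero)
    (hL0c.continuousOn.sub hSc) hfinal

end SymCM
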