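import Mathlib
import Pool.Agent.SymCM.Defs
import Pool.Agent.SymCM.A1
import Pool.Agent.SymCM.A4
set_option autoImplicit false
open Set Topology

namespace SymCM

/-- the set in question -/
private def C3nX (S : Set ℂ) {N : ℕ} (d : Fin N → ℂ) : Set (ℂ × (Fin N → ℂ)) :=
  {p : ℂ × (Fin N → ℂ) | p.1 ∈ S ∧ ∀ n, ‖p.2 n‖ = 1 ∧
      (p.1 - d n) ^ 2 = ((‖p.1 - d n‖ : ℝ) : ℂ) ^ 2 * p.2 n}

private theorem C3n_compact {S : Set ℂ} (hS : IsCompact S) {N : ℕ} (d : Fin N → ℂ) :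
    IsCompact (C3nX S d) := by
  have h1 : IsCompact (S ×ˢ (Set.univ.pi fun _ : Fin N => Metric.sphere (0 : ℂ) 1)) :=
    hS.prod (isCompact_univ_pi fun _ => isCompact_sphere 0 1)
  have h2 : IsClosed (C3nX S d) := by
    have : C3nX S d = {p | p.1 ∈ S} ∩ ⋂ n : Fin N, {p : ℂ × (Fin N → ℂ) | ‖p.2 n‖ = 1 ∧
      (p.1 - d n) ^ 2 = ((‖p.1 - d n‖ : ℝ) : ℂ) ^ 2 * p.2 n} := by
      ext p
      simp [C3nX]
    rw [this]
    refine (hS.isClosed.preimage continuous_fst).inter (isClosed_iInter fun n => ?_)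
    exact (isClosed_eq (by fun_prop) (by fun_prop)).inter (isClosed_eq (by fun_prop) (by fun_prop))
  refine h1.of_isClosed_subset h2 ?_
  rintro p ⟨hp1, hp2⟩
  refine ⟨hp1, ?_⟩
  intro n _
  simpa using (hp2 n).1

private theorem C3n_det {x d Y Y' : ℂ} (hx : x ≠ d)
    (h : (x - d) ^ 2 = ((‖x - d‖ : ℝ) : ℂ) ^ 2 * Y)
    (h' : (x - d) ^ 2 = ((‖x - d‖ : ℝ) : ℂ) ^ 2 * Y') : Y = Y' := by
  have hne : (((‖x - d‖ : ℝ) : ℂ) ^ 2) ≠ 0 := by
    apply pow_ne_zero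
    have : ‖x - d‖ ≠ 0 := norm_ne_zero_iff.2 (sub_ne_zero.2 hx)
    exact_mod_cast this
  exact mul_left_cancel₀ hne (h.symm.trans h')

private theorem C3n_tt {z Y s : ℂ} (hs2 : s ^ 2 = Y) (hs1 : ‖s‖ = 1)
    (h : z ^ 2 = ((‖z‖ : ℝ) : ℂ) ^ 2 * Y) :
    z = (((z * (starRingEnd ℂ) s).re : ℝ) : ℂ) * s := by
  have hss : (starRingEnd ℂ) s * s = 1 := by
    rw [mul_comm, Complex.mul_conj, Complex.normSq_eq_norm_sq, hs1]
    norm_num
  have hss' : s * (starRingEnd ℂ) s = 1 := by rw [mul_comm]; exact hss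
  rw [← hs2, ← mul_pow] at h
  rcases sq_eq_sq_iff_eq_or_eq_neg.1 h with h1 | h1
  · have h2 : z * (starRingEnd ℂ) s = ((‖z‖ : ℝ) : ℂ) := by
      calc z * (starRingEnd ℂ) s = (((‖z‖ : ℝ) : ℂ) * s) * (starRingEnd ℂ) s := by rw [← h1]
        _ = ((‖z‖ : ℝ) : ℂ) := by rw [mul_assoc, hss', mul_one]
    rw [h2, Complex.ofReal_re]
    exact h1
  · have h2 : z * (starRingEnd ℂ) s = ((-‖z‖ : ℝ) : ℂ) := by
      calc z * (starRingEnd ℂ) s = (-(((‖z‖ : ℝ) : ℂ) * s)) * (starRingEnd ℂ) s := by rw [← h1]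
        _ = ((-‖z‖ : ℝ) : ℂ) := by rw [neg_mul, mul_assoc, hss', mul_one]; push_cast; ring
    rw [h2, Complex.ofReal_re, Complex.ofReal_neg, neg_mul]
    exact h1

private theorem C3n_closed {N : ℕ} (d : Fin N → ℂ) (r : ℝ) (i : Fin N) (Q : Set ℂ)
    (hQ : IsClosed Q) : IsClosed {p : ℂ × (Fin N → ℂ) | ‖p.1 - d i‖ ≤ r ∧ p.2 i ∈ Q} := by
  have h1 : IsClosed {p : ℂ × (Fin N → ℂ) | ‖p.1 - d i‖ ≤ r} :=
    isClosed_le (by fun_prop) (by fun_prop)
  have h2 : IsClosed {p : ℂ × (Fin N → ℂ) | p.2 i ∈ Q} :=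
    hQ.preimage (f := fun p : ℂ × (Fin N → ℂ) => p.2 i) (by fun_prop)
  exact h1.inter h2

private theorem C3n_piece {S : Set ℂ} (hS : IsCompact S) (N : ℕ) {d : Fin N → ℂ} (r : ℝ)
    (hr : ∀ i j, i ≠ j → r < ‖d i - d j‖) (i : Fin N) (Q : Set ℂ) (hQ : IsClosed Q)
    (σ : ℂ → ℂ) (hσc : ContinuousOn σ (Q ∩ {Y | ‖Y‖ = 1}))
    (hσ2 : ∀ Y ∈ Q, ‖Y‖ = 1 → (σ Y) ^ 2 = Y)
    (hQi : ∀ Y ∈ Q, ∀ Y' ∈ Q, ‖Y‖ = 1 → ‖Y'‖ = 1 → Y.im = Y'.im → Y = Y') :
    DimLE ↥({p : ℂ × (Fin N → ℂ) | ‖p.1 - d i‖ ≤ r ∧ p.2 i ∈ Q} ∩ C3nX S d) 2 := by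
  have hcl := C3n_closed d r i Q hQ
  have hcomp := (C3n_compact hS d).inter_left hcl
  have hσ1 : ∀ Y ∈ Q, ‖Y‖ = 1 → ‖σ Y‖ = 1 := by
    intro Y hY hY1
    have := congrArg norm (hσ2 Y hY hY1)
    rw [norm_pow, hY1] at this
    nlinarith [norm_nonneg (σ Y)]
  refine dimLE_of_injOn_pi hcomp
    (fun p => ![((p.1 - d i) * (starRingEnd ℂ) (σ (p.2 i))).re, (p.2 i).im]) ?_ ?_
  · refine continuousOn_pi.2 fun k => ?_
    have hc1 : ContinuousOn (fun p : ℂ × (Fin N → ℂ) => σ (p.2 i))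
        ({p : ℂ × (Fin N → ℂ) | ‖p.1 - d i‖ ≤ r ∧ p.2 i ∈ Q} ∩ C3nX S d) := by
      refine hσc.comp (by fun_prop) ?_
      rintro p ⟨⟨-, h1⟩, h2⟩
      exact ⟨h1, (h2.2 i).1⟩
    fin_cases k
    · show ContinuousOn (fun p : ℂ × (Fin N → ℂ) => ((p.1 - d i) * (starRingEnd ℂ) (σ (p.2 i))).re) _
      refine Complex.continuous_re.comp_continuousOn ?_
      refine ContinuousOn.mul (by fun_prop) ?_
      exact Complex.continuous_conj.comp_continuousOn hc1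
    · show ContinuousOn (fun p : ℂ × (Fin N → ℂ) => (p.2 i).im) _
      fun_prop
  · rintro ⟨x, Y⟩ ⟨⟨h1, h2⟩, ⟨h3, h4⟩⟩ ⟨x', Y'⟩ ⟨⟨h1', h2'⟩, ⟨h3', h4'⟩⟩ heq
    have he0 := congrFun heq 0
    have he1 := congrFun heq 1
    simp only [Matrix.cons_val_zero, Matrix.cons_val_one] at he0 he1 h1 h2 h3 h4 h1' h2' h3' h4'
    have hY : Y i = Y' i := hQi _ h2 _ h2' (h4 i).1 (h4' i).1 he1
    have t1 := C3n_tt (hσ2 _ h2 (h4 i).1) (hσ1 _ h2 (h4 i).1) (h4 i).2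
    have t2 := C3n_tt (hσ2 _ h2' (h4' i).1) (hσ1 _ h2' (h4' i).1) (h4' i).2
    rw [he0, hY] at t1
    have hx : x = x' := by
      have : x - d i = x' - d i := t1.trans t2.symm
      exact sub_left_inj.1 this
    subst hx
    refine Prod.ext rfl (funext fun n => ?_)
    by_cases hn : n = i
    · rw [hn]; exact hY
    · have hne : x ≠ d n := by
        rintro rfl
        have := hr n i hn
        linarith
      exact C3n_det hne (h4 n).2 (h4' n).2

private noncomputable def C3n_sq (Y : ℂ) : ℂ := Y ^ (((2 : ℕ) : ℂ)⁻¹)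

private theorem C3n_sq_sq (Y : ℂ) : (C3n_sq Y) ^ 2 = Y := Complex.cpow_nat_inv_pow Y two_ne_zero

private theorem C3n_sq_cont : ContinuousOn C3n_sq ({Y | 0 ≤ Y.re} ∩ {Y | ‖Y‖ = 1}) := by
  intro Y hY
  have hs : Y ∈ Complex.slitPlane := by
    rw [Complex.mem_slitPlane_iff]
    by_cases h : Y.im = 0
    · left
      rcases lt_or_eq_of_le (show 0 ≤ Y.re from hY.1) with h1 | h1
      · exact h1
      · exfalso
        have : Y = 0 := Complex.ext h1.symm h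
        have h2 : ‖Y‖ = 1 := hY.2
        rw [this, norm_zero] at h2
        exact zero_ne_one h2
    · exact Or.inr h
  exact (continuousAt_cpow_const hs).continuousWithinAt

private theorem C3n_im {Y Y' : ℂ} (h1 : ‖Y‖ = 1) (h1' : ‖Y'‖ = 1) (him : Y.im = Y'.im)
    (hre : 0 ≤ Y.re * Y'.re) : Y = Y' := by
  have e1 : Y.re * Y.re + Y.im * Y.im = 1 := by
    have := Complex.normSq_eq_norm_sq Y
    rw [h1, Complex.normSq_apply] at this
    linarith
  have e2 : Y'.re * Y'.re + Y'.im * Y'.im = 1 := by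
    have := Complex.normSq_eq_norm_sq Y'
    rw [h1', Complex.normSq_apply] at this
    linarith
  refine Complex.ext ?_ him
  rw [him] at e1
  have e3 : (Y.re - Y'.re) * (Y.re + Y'.re) = 0 := by ring_nf; nlinarith
  rcases mul_eq_zero.1 e3 with h | h
  · linarith
  · have h5 : Y'.re = -Y.re := by linarith
    rw [h5] at hre
    have : Y.re = 0 := by nlinarith
    rw [h5, this]; simp

/-- finitely many blow-ups -/
theorem dimLE_finite_blowup {S : Set ℂ} (hS : IsCompact S) (N : ℕ) {d : Fin N → ℂ}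
    (hd : Function.Injective d) :
    DimLE {p : ℂ × (Fin N → ℂ) | p.1 ∈ S ∧ ∀ n, ‖p.2 n‖ = 1 ∧
      (p.1 - d n) ^ 2 = ((‖p.1 - d n‖ : ℝ) : ℂ) ^ 2 * p.2 n} 2 := by
  classical
  obtain ⟨r, hr0, hr⟩ : ∃ r : ℝ, 0 < r ∧ ∀ i j, i ≠ j → r < ‖d i - d j‖ := by
    have h : ∀ᶠ r : ℝ in 𝓝[>] 0, ∀ i j, i ≠ j → r < ‖d i - d j‖ := by
      rw [Filter.eventually_all]
      intro i
      rw [Filter.eventually_all]
      intro j
      by_cases hij : i = j
      · exact Filter.Eventually.of_forall fun r h => absurd hij h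
      · have hp : 0 < ‖d i - d j‖ := norm_pos_iff.2 (sub_ne_zero.2 fun h => hij (hd h))
        filter_upwards [Ioo_mem_nhdsGT hp] with r hr _
        exact hr.2
    obtain ⟨r, hr, hr0⟩ := (h.and self_mem_nhdsWithin).exists
    exact ⟨r, hr0, hr⟩
  let P : Option (Fin N × Bool) → Set (ℂ × (Fin N → ℂ)) := fun o => match o with
    | none => {p | ∀ i, r ≤ ‖p.1 - d i‖}
    | some (i, true) => {p | ‖p.1 - d i‖ ≤ r ∧ p.2 i ∈ {Y : ℂ | 0 ≤ Y.re}}
    | some (i, false) => {p | ‖p.1 - d i‖ ≤ r ∧ p.2 i ∈ {Y : ℂ | Y.re ≤ 0}}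
  have hQp : IsClosed {Y : ℂ | 0 ≤ Y.re} := isClosed_le continuous_const Complex.continuous_re
  have hQn : IsClosed {Y : ℂ | Y.re ≤ 0} := isClosed_le Complex.continuous_re continuous_const
  show DimLE (C3nX S d) 2
  refine DimLE.of_biUnion P ?_ ?_ ?_
  · rintro (_ | ⟨i, _ | _⟩)
    · show IsClosed {p : ℂ × (Fin N → ℂ) | ∀ i, r ≤ ‖p.1 - d i‖}
      have : {p : ℂ × (Fin N → ℂ) | ∀ i, r ≤ ‖p.1 - d i‖} = ⋂ i, {p | r ≤ ‖p.1 - d i‖} := by
        ext p; simp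
      rw [this]
      exact isClosed_iInter fun i => isClosed_le (by fun_prop) (by fun_prop)
    · exact C3n_closed d r i _ hQn
    · exact C3n_closed d r i _ hQp
  · intro p hp
    by_cases h : ∀ i, r ≤ ‖p.1 - d i‖
    · exact mem_iUnion.2 ⟨none, h⟩
    · push Not at h
      obtain ⟨i, hi⟩ := h
      rcases le_total 0 (p.2 i).re with h1 | h1
      · exact mem_iUnion.2 ⟨some (i, true), hi.le, h1⟩
      · exact mem_iUnion.2 ⟨some (i, false), hi.le, h1⟩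
  · rintro (_ | ⟨i, _ | _⟩)
    · -- far from all the points
      have hcl : IsClosed {p : ℂ × (Fin N → ℂ) | ∀ i, r ≤ ‖p.1 - d i‖} := by
        have : {p : ℂ × (Fin N → ℂ) | ∀ i, r ≤ ‖p.1 - d i‖} = ⋂ i, {p | r ≤ ‖p.1 - d i‖} := by
          ext p; simp
        rw [this]
        exact isClosed_iInter fun i => isClosed_le (by fun_prop) (by fun_prop)
      refine dimLE_of_injOn_pi ((C3n_compact hS d).inter_left hcl) (fun p => ![p.1.re, p.1.im]) ?_ ?_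
      · refine continuousOn_pi.2 fun k => ?_
        fin_cases k
        · show ContinuousOn (fun p : ℂ × (Fin N → ℂ) => p.1.re) _
          fun_prop
        · show ContinuousOn (fun p : ℂ × (Fin N → ℂ) => p.1.im) _
          fun_prop
      · rintro ⟨x, Y⟩ ⟨h1, ⟨h3, h4⟩⟩ ⟨x', Y'⟩ ⟨h1', ⟨h3', h4'⟩⟩ heq
        have he0 := congrFun heq 0
        have he1 := congrFun heq 1
        simp only [Matrix.cons_val_zero, Matrix.cons_val_one] at he0 he1 h3 h4 h3' h4'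
        have hx : x = x' := Complex.ext he0 he1
        subst hx
        refine Prod.ext rfl (funext fun n => ?_)
        have hne : x ≠ d n := by
          rintro rfl
          have h5 : r ≤ ‖d n - d n‖ := h1 n
          rw [sub_self, norm_zero] at h5
          linarith
        exact C3n_det hne (h4 n).2 (h4' n).2
    · refine C3n_piece hS N r hr i {Y : ℂ | Y.re ≤ 0} hQn (fun Y => Complex.I * C3n_sq (-Y)) ?_ ?_ ?_
      · refine continuousOn_const.mul (C3n_sq_cont.comp continuous_neg.continuousOn ?_)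
        rintro Y ⟨h1, h2⟩
        refine ⟨?_, ?_⟩
        · show 0 ≤ (-Y).re
          rw [Complex.neg_re]
          have : Y.re ≤ 0 := h1
          linarith
        · show ‖-Y‖ = 1
          rw [norm_neg]; exact h2
      · intro Y _ _
        rw [mul_pow, C3n_sq_sq, Complex.I_sq]; ring
      · intro Y hY Y' hY' h1 h1' him
        exact C3n_im h1 h1' him (mul_nonneg_of_nonpos_of_nonpos hY hY')
    · refine C3n_piece hS N r hr i {Y : ℂ | 0 ≤ Y.re} hQp C3n_sq C3n_sq_cont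
        (fun Y _ _ => C3n_sq_sq Y) ?_
      intro Y hY Y' hY' h1 h1' him
      exact C3n_im h1 h1' him (mul_nonneg hY hY')

end SymCM
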