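import Mathlib
import Pool.Agent.SymCM.Defs
import Pool.Agent.SymCM.A1
import Pool.Agent.SymCM.A2
import Pool.Agent.SymCM.C3n
import Pool.Agent.SymCM.CP
set_option autoImplicit false
open Set Topology

namespace SymCM

theorem symC3_fibre_lemma (a b : ℝ) (d : ℕ → ℂ) [CompactSpace (PiR a b d)] (k : ℕ)
    (U : Fin k → Set (PiR a b d)) (hU : ∀ i, IsOpen (U i)) (hc : (⋃ i, U i) = univ) :
    ∃ N : ℕ, ∀ p : PiR a b d, ∃ i, ∀ p' : PiR a b d, p'.1.1 = p.1.1 →
      (∀ n, n < N → p'.1.2 n = p.1.2 n) → p' ∈ U i := by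
  classical
  have loc : ∀ p : PiR a b d, ∃ (O : Set (PiR a b d)) (m : ℕ) (i : Fin k), IsOpen O ∧ p ∈ O ∧
      O ⊆ U i ∧ ∀ q ∈ O, ∀ q' : PiR a b d, q'.1.1 = q.1.1 →
        (∀ n, n < m → q'.1.2 n = q.1.2 n) → q' ∈ O := by
    intro p
    have hp : p ∈ ⋃ i, U i := by rw [hc]; trivial
    obtain ⟨i, hi⟩ := mem_iUnion.1 hp
    obtain ⟨T, hT, hTU⟩ := isOpen_induced_iff.1 (hU i)
    have hpT : (p.1.1, p.1.2) ∈ T := by
      rw [← hTU] at hi
      exact hi
    obtain ⟨u, v, hu, hv, hpu, hpv, huv⟩ := isOpen_prod_iff.1 hT _ _ hpT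
    obtain ⟨I, w, hw, hIw⟩ := isOpen_pi_iff.1 hv _ hpv
    refine ⟨{q | q.1.1 ∈ u ∧ ∀ n ∈ I, q.1.2 n ∈ w n}, I.sup id + 1, i, ?_, ?_, ?_, ?_⟩
    · have h1 : IsOpen {q : PiR a b d | q.1.1 ∈ u} :=
        hu.preimage (continuous_fst.comp continuous_subtype_val)
      have h2 : IsOpen {q : PiR a b d | ∀ n ∈ I, q.1.2 n ∈ w n} := by
        have : {q : PiR a b d | ∀ n ∈ I, q.1.2 n ∈ w n} =
            ⋂ n ∈ I, {q : PiR a b d | q.1.2 n ∈ w n} := by
          ext q
          simp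
        rw [this]
        apply isOpen_biInter_finset
        intro n hn
        exact (hw n hn).1.preimage
          ((continuous_apply n).comp (continuous_snd.comp continuous_subtype_val))
      exact h1.inter h2
    · exact ⟨hpu, fun n hn => (hw n hn).2⟩
    · intro q hq
      rw [← hTU]
      have : (q.1.1, q.1.2) ∈ T := huv ⟨hq.1, hIw (fun n hn => hq.2 n hn)⟩
      exact this
    · rintro q ⟨hq1, hq2⟩ q' h1 h2
      refine ⟨by rw [h1]; exact hq1, fun n hn => ?_⟩
      have hn' : n < I.sup id + 1 := Nat.lt_succ_of_le (Finset.le_sup (f := id) hn)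
      rw [h2 n hn']
      exact hq2 n hn
  choose O m i hO hpO hOU hsat using loc
  obtain ⟨t, ht⟩ := CompactSpace.elim_nhds_subcover O (fun p => (hO p).mem_nhds (hpO p))
  refine ⟨t.sup m, fun p => ?_⟩
  have hp : p ∈ ⋃ x ∈ t, O x := by rw [ht]; trivial
  simp only [mem_iUnion] at hp
  obtain ⟨x, hx, hpx⟩ := hp
  refine ⟨i x, fun p' h1 h2 => hOU x ?_⟩
  exact hsat x p hpx p' h1 (fun n hn => h2 n (lt_of_lt_of_le hn (Finset.le_sup hx)))

theorem symC3_isCompact_Box (a b c e : ℝ) : IsCompact (Box a b c e) := by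
  have h : Box a b c e = (Icc a b) ×ℂ (Icc c e) := by
    ext z
    simp [Box, Complex.mem_reProdIm]
  rw [h]
  exact isCompact_Icc.reProdIm isCompact_Icc

theorem symC3_isCompact_fin (a b : ℝ) (N : ℕ) (d : Fin N → ℂ) :
    IsCompact {p : ℂ × (Fin N → ℂ) | p.1 ∈ Box a b 0 1 ∧ ∀ n, ‖p.2 n‖ = 1 ∧
      (p.1 - d n) ^ 2 = ((‖p.1 - d n‖ : ℝ) : ℂ) ^ 2 * p.2 n} := by
  have hB := symC3_isCompact_Box a b 0 1
  have hP : IsCompact (Set.pi Set.univ (fun _ : Fin N => Metric.closedBall (0 : ℂ) 1)) :=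
    isCompact_univ_pi (fun _ => isCompact_closedBall _ _)
  refine (hB.prod hP).of_isClosed_subset ?_ ?_
  · have h1 : IsClosed {p : ℂ × (Fin N → ℂ) | p.1 ∈ Box a b 0 1} :=
      hB.isClosed.preimage continuous_fst
    have h2 : IsClosed {p : ℂ × (Fin N → ℂ) | ∀ n, ‖p.2 n‖ = 1 ∧
        (p.1 - d n) ^ 2 = ((‖p.1 - d n‖ : ℝ) : ℂ) ^ 2 * p.2 n} := by
      simp only [setOf_forall]
      refine isClosed_iInter (fun n => IsClosed.inter ?_ ?_)
      · exact isClosed_eq (by fun_prop) continuous_const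
      · exact isClosed_eq (by fun_prop) (by fun_prop)
    exact h1.inter h2
  · rintro ⟨x, y⟩ ⟨h1, h2⟩
    refine ⟨h1, ?_⟩
    intro n _
    have := (h2 n).1
    simp only [Metric.mem_closedBall, dist_zero_right]
    exact this.le

theorem dimLE_PiR (a b : ℝ) {d : ℕ → ℂ} (hd : Function.Injective d) : DimLE (PiR a b d) 2 := by
  haveI : CompactSpace (PiR a b d) := isCompact_iff_compactSpace.1 (isCompact_PiR a b d)
  apply dimLE_of_small_fibres
  intro k U hU hc
  obtain ⟨N, hN⟩ := symC3_fibre_lemma a b d k U hU hc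
  have hK := symC3_isCompact_fin a b N (fun n : Fin N => d n)
  refine ⟨{p : ℂ × (Fin N → ℂ) | p.1 ∈ Box a b 0 1 ∧ ∀ n, ‖p.2 n‖ = 1 ∧
      (p.1 - d n) ^ 2 = ((‖p.1 - d n‖ : ℝ) : ℂ) ^ 2 * p.2 n}, inferInstance,
      isCompact_iff_compactSpace.1 hK, inferInstance,
      fun p => ⟨(p.1.1, fun n : Fin N => p.1.2 n), p.2.1, fun n => p.2.2 n⟩, ?_, ?_, ?_⟩
  · exact dimLE_finite_blowup (symC3_isCompact_Box a b 0 1) N (d := fun n : Fin N => d n)
      (fun x y h => Fin.ext (hd h))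
  · apply Continuous.subtype_mk
    apply Continuous.prodMk
    · exact continuous_fst.comp continuous_subtype_val
    · apply continuous_pi
      intro n
      exact (continuous_apply (n : ℕ)).comp (continuous_snd.comp continuous_subtype_val)
  · intro y
    by_cases hy : ∃ p : PiR a b d, (⟨(p.1.1, fun n : Fin N => p.1.2 n), p.2.1,
        fun n => p.2.2 n⟩ : {p : ℂ × (Fin N → ℂ) | p.1 ∈ Box a b 0 1 ∧ ∀ n, ‖p.2 n‖ = 1 ∧
      (p.1 - d n) ^ 2 = ((‖p.1 - d n‖ : ℝ) : ℂ) ^ 2 * p.2 n}) = y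
    · obtain ⟨p, hp⟩ := hy
      obtain ⟨i, hi⟩ := hN p
      refine ⟨1, fun _ => U i, fun _ => i, fun _ => hU i, fun _ => le_rfl, ?_, ?_⟩
      · intro x y hxy
        exact absurd (Subsingleton.elim x y) hxy
      · intro q hq
        rw [mem_preimage, mem_singleton_iff, ← hp, Subtype.mk.injEq, Prod.mk.injEq] at hq
        rw [mem_iUnion]
        refine ⟨0, hi q hq.1 (fun n hn => ?_)⟩
        exact congrFun hq.2 ⟨n, hn⟩
    · refine ⟨0, fun i => i.elim0, fun i => i.elim0, fun i => i.elim0, fun i => i.elim0,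
        fun i => i.elim0, ?_⟩
      intro q hq
      exact absurd ⟨q, hq⟩ hy

theorem symC3_two_values {X : Type} [TopologicalSpace X] {t : Set X} (ht : IsPreconnected t)
    {g : X → ℂ} (hg : Continuous g) {w : ℂ} (hw : ∀ x ∈ t, (g x) ^ 2 = w) {x y : X} (hx : x ∈ t)
    (hy : y ∈ t) : g x = g y := by
  have hfin : (g '' t).Finite := by
    have h0 : {z : ℂ | z ^ 2 = w}.Finite := by
      obtain ⟨r, hr⟩ : ∃ r : ℂ, r ^ 2 = g x ^ 2 := ⟨g x, rfl⟩
      have : {z : ℂ | z ^ 2 = w} ⊆ {g x, - g x} := by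
        intro z hz
        have h1 : z ^ 2 = g x ^ 2 := by rw [hw x hx]; exact hz
        rcases sq_eq_sq_iff_eq_or_eq_neg.1 h1 with h | h
        · left; exact h
        · right; exact h
      exact ((Set.finite_singleton _).insert _).subset this
    apply h0.subset
    rintro _ ⟨z, hz, rfl⟩
    exact hw z hz
  have hpre : IsPreconnected (g '' t) := ht.image g hg.continuousOn
  by_contra hne
  have hnt : (g '' t).Nontrivial := ⟨g x, ⟨x, hx, rfl⟩, g y, ⟨y, hy, rfl⟩, hne⟩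
  exact hpre.infinite_of_nontrivial hnt hfin

theorem dimLE_TT {c d : ℕ → ℂ} (hd : Function.Injective d) : DimLE (TT c d) 2 := by
  haveI : CompactSpace (PiR 0 4 d) := isCompact_iff_compactSpace.1 (isCompact_PiR 0 4 d)
  haveI : CompactSpace (TT c d) := isCompact_iff_compactSpace.1 (isCompact_TT c d)
  let f : TT c d → PiR 0 4 d := fun p => ⟨(p.1.1, p.1.2.2), p.2.1, fun n => (p.2.2 n).2⟩
  have hf : Continuous f := by
    apply Continuous.subtype_mk
    exact (continuous_fst.comp continuous_subtype_val).prodMk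
      (continuous_snd.comp (continuous_snd.comp continuous_subtype_val))
  refine DimLE.of_light hf ?_ (dimLE_PiR 0 4 hd)
  intro y t hty ht x hx x' hx'
  have e1 := hty hx
  have e2 := hty hx'
  rw [mem_preimage, mem_singleton_iff] at e1 e2
  have e1a : x.1.1 = y.1.1 := by rw [← e1]
  have e1b : x.1.2.2 = y.1.2 := by rw [← e1]
  have e2a : x'.1.1 = y.1.1 := by rw [← e2]
  have e2b : x'.1.2.2 = y.1.2 := by rw [← e2]
  have hv : x.1.2.1 = x'.1.2.1 := by
    funext n
    have hcont : Continuous (fun q : TT c d => q.1.2.1 n) :=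
      (continuous_apply n).comp (continuous_fst.comp (continuous_snd.comp continuous_subtype_val))
    refine symC3_two_values ht hcont
      (w := (y.1.1 - c n) * ((max 0 (y.1.1.re - 2) : ℝ) : ℂ)) ?_ hx hx'
    intro q hq
    have e3 := hty hq
    rw [mem_preimage, mem_singleton_iff] at e3
    have e3a : q.1.1 = y.1.1 := by rw [← e3]
    have := (q.2.2 n).1
    rw [e3a] at this
    exact this
  apply Subtype.ext
  apply Prod.ext
  · rw [e1a, e2a]
  · apply Prod.ext
    · exact hv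
    · rw [e1b, e2b]

end SymCM
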