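import Mathlib
import Pool.Agent.SymCM.Defs
import Pool.Agent.SymCM.B3b
import Pool.Agent.SymCM.C1
import Pool.Agent.SymCM.C2
import Pool.Agent.SymCM.CP
import Pool.Agent.SymCM.TR
set_option autoImplicit false
open Set Topology

namespace SymCM

/-- the total space is essential -/
theorem TT_essential {c d : ℕ → ℂ} (hd : Function.Injective d)
    (hd1 : ∀ n, (d n).re ∈ Ioo (0 : ℝ) 1 ∧ (d n).im ∈ Ioo (0 : ℝ) 1) {x0 : ℂ}
    (hx0 : x0.re ∈ Ioo (0 : ℝ) 4 ∧ x0.im ∈ Ioo (0 : ℝ) 1)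
    {f : ℂ × (ℕ → ℂ) × (ℕ → ℂ) → ℂ} (hf : ContinuousOn f (TT c d)) (h0 : ∀ p ∈ TT c d, f p ≠ 0) :
    ¬ ∀ p ∈ TT c d, p.1 ∈ BoxBd 0 4 0 1 → f p = p.1 - x0 := by
  intro hb
  have hdne : ∀ n, ∀ x : ℂ, 2 ≤ x.re → x ≠ d n := by
    intro n x hx h
    have := (hd1 n).1.2
    rw [← h] at this
    linarith
  -- left
  have hLmem : ∀ p ∈ PiR 0 2 d, (p.1, (0 : ℕ → ℂ), p.2) ∈ TT c d := by
    rintro ⟨x, Y⟩ ⟨⟨⟨h1, h2⟩, h3, h4⟩, h5⟩
    refine ⟨⟨⟨h1, by linarith⟩, h3, h4⟩, fun n => ⟨?_, h5 n⟩⟩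
    have h6 : max 0 (x.re - 2) = 0 := max_eq_left (by simpa using h2)
    show (0 : ℂ) ^ 2 = (x - c n) * ((max 0 (x.re - 2) : ℝ) : ℂ)
    rw [h6]
    simp
  obtain ⟨gL, hgLc, hgL⟩ := sqrt_on_boundary (a := 0) (b := 2) (by norm_num) hd
    (fun n => ⟨⟨(hd1 n).1.1, by linarith [(hd1 n).1.2]⟩, (hd1 n).2⟩)
    (f := fun p => f (p.1, (0 : ℕ → ℂ), p.2))
    (hf.comp (by fun_prop) hLmem) (fun p hp => h0 _ (hLmem p hp))
  -- right
  have hRmem : ∀ p ∈ AR 2 4 c, (p.1, p.2, Yf d p.1) ∈ TT c d := by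
    rintro ⟨x, v⟩ ⟨⟨⟨h1, h2⟩, h3, h4⟩, h5⟩
    refine ⟨⟨⟨by linarith, h2⟩, h3, h4⟩, fun n => ⟨?_, Yf_spec d (hdne n x h1)⟩⟩
    have h6 : max 0 (x.re - 2) = x.re - 2 := max_eq_right (by simpa using h1)
    show (v n) ^ 2 = (x - c n) * ((max 0 (x.re - 2) : ℝ) : ℂ)
    rw [h6]
    exact h5 n
  have hfRc : ContinuousOn (fun p : ℂ × (ℕ → ℂ) => f (p.1, p.2, Yf d p.1)) (AR 2 4 c) := by
    refine hf.comp ?_ hRmem
    refine continuousOn_fst.prodMk (continuousOn_snd.prodMk ?_)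
    refine (continuousOn_Yf d (S := {x : ℂ | 2 ≤ x.re}) ?_).comp continuousOn_fst ?_
    · intro n hn
      exact hdne n (d n) hn rfl
    · intro p hp
      exact hp.1.1.1
  obtain ⟨L, hLc, hL⟩ := log_on_boundary (a := 2) (b := 4) le_rfl (by norm_num) (c := c)
    (f := fun p => f (p.1, p.2, Yf d p.1)) hfRc (fun p hp => h0 _ (hRmem p hp))
    (u := fun x => if x.re = 2 then f (x, 0, Yf d x) else x - x0) (by
      rintro ⟨x, v⟩ hp hx
      show f (x, v, Yf d x) = if x.re = 2 then f (x, 0, Yf d x) else x - x0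
      by_cases hre : x.re = 2
      · rw [if_pos hre]
        have hv : v = 0 := by
          ext n
          have h5 : (v n) ^ 2 = (x - c n) * ((x.re - 2 : ℝ) : ℂ) := hp.2 n
          rw [hre] at h5
          simpa using h5
        rw [hv]
      · rw [if_neg hre]
        refine hb _ (hRmem _ hp) ?_
        obtain ⟨⟨⟨h1, h2⟩, h3, h4⟩, h5⟩ := hx
        refine ⟨⟨⟨by linarith, h2⟩, h3, h4⟩, ?_⟩
        rcases h5 with h5 | h5 | h5
        · exact absurd h5 hre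
        · exact Or.inr (Or.inl h5)
        · exact Or.inr (Or.inr h5))
  set gR : ℂ → ℂ := fun x => Complex.exp (L x / 2) with hgR
  have hgRc : Continuous gR := by fun_prop
  have hgR2 : ∀ x, gR x ^ 2 = Complex.exp (L x) := by
    intro x
    rw [hgR]
    simp only
    rw [← Complex.exp_nat_mul]
    congr 1
    push_cast
    ring
  set e : Set ℂ := {x | x.re = 2 ∧ x.im ∈ Icc (0 : ℝ) 1} with he
  have heL : e ⊆ BoxBd 0 2 0 1 := by
    rintro x ⟨h1, h2⟩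
    exact ⟨⟨⟨by linarith, by linarith⟩, h2⟩, Or.inr (Or.inl h1)⟩
  have heR : e ⊆ BoxBd 2 4 0 1 := by
    rintro x ⟨h1, h2⟩
    exact ⟨⟨⟨by linarith, by linarith⟩, h2⟩, Or.inl h1⟩
  have hconn : IsPreconnected e := by
    have : e = (fun y : ℝ => (⟨2, y⟩ : ℂ)) '' Icc 0 1 := by
      ext x
      constructor
      · rintro ⟨h1, h2⟩
        exact ⟨x.im, h2, by apply Complex.ext <;> simp [h1]⟩
      · rintro ⟨y, hy, rfl⟩
        exact ⟨rfl, hy⟩
    rw [this]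
    refine isPreconnected_Icc.image _ ?_
    have h7 : (fun y : ℝ => (⟨2, y⟩ : ℂ)) = fun y : ℝ => (2 : ℂ) + y * Complex.I := by
      ext y
      apply Complex.ext <;> simp
    rw [h7]
    fun_prop
  have hsgn : ∃ s : ℂ, s ^ 2 = 1 ∧ ∀ x ∈ e, gL x = s * gR x := by
    have hsq : EqOn (gL ^ 2) (gR ^ 2) e := by
      intro x hx
      show gL x ^ 2 = gR x ^ 2
      rw [hgL x (heL hx), hgR2, ← hL x (heR hx), if_pos hx.1]
    rcases hconn.eq_or_eq_neg_of_sq_eq (hgLc.mono heL) hgRc.continuousOn hsq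
      (fun {x} _ => Complex.exp_ne_zero _) with h | h
    · exact ⟨1, by norm_num, fun x hx => by rw [h hx, one_mul]⟩
    · exact ⟨-1, by norm_num, fun x hx => by rw [h hx]; simp⟩
  obtain ⟨s, hs, hse⟩ := hsgn
  have hBc : IsClosed (BoxBd 0 4 0 1) := by
    have e1 : BoxBd 0 4 0 1 = {z : ℂ | z.re ∈ Icc (0 : ℝ) 4} ∩ {z : ℂ | z.im ∈ Icc (0 : ℝ) 1} ∩
        ({z : ℂ | z.re = 0} ∪ ({z : ℂ | z.re = 4} ∪ ({z : ℂ | z.im = 0} ∪ {z : ℂ | z.im = 1}))) := by
      ext z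
      simp only [BoxBd, Box, mem_setOf_eq, mem_inter_iff, mem_union]
    rw [e1]
    refine ((isClosed_Icc.preimage Complex.continuous_re).inter
      (isClosed_Icc.preimage Complex.continuous_im)).inter ?_
    exact (isClosed_eq Complex.continuous_re continuous_const).union
      ((isClosed_eq Complex.continuous_re continuous_const).union
      ((isClosed_eq Complex.continuous_im continuous_const).union
      (isClosed_eq Complex.continuous_im continuous_const)))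
  set A : Set ℂ := BoxBd 0 4 0 1 ∩ {x | x.re ≤ 2} with hA
  set B : Set ℂ := BoxBd 0 4 0 1 ∩ {x | 2 ≤ x.re} with hB
  have hAc : IsClosed A := hBc.inter (isClosed_le Complex.continuous_re continuous_const)
  have hBc' : IsClosed B := hBc.inter (isClosed_le continuous_const Complex.continuous_re)
  have hAL : A ⊆ BoxBd 0 2 0 1 := by
    rintro x ⟨⟨⟨⟨h1, h2⟩, h3, h4⟩, h5⟩, h6⟩
    have h6' : x.re ≤ 2 := h6
    refine ⟨⟨⟨h1, h6'⟩, h3, h4⟩, ?_⟩
    rcases h5 with h5 | h5 | h5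
    · exact Or.inl h5
    · exfalso; linarith
    · exact Or.inr (Or.inr h5)
  have hBR : B ⊆ BoxBd 2 4 0 1 := by
    rintro x ⟨⟨⟨⟨h1, h2⟩, h3, h4⟩, h5⟩, h6⟩
    have h6' : 2 ≤ x.re := h6
    refine ⟨⟨⟨h6', h2⟩, h3, h4⟩, ?_⟩
    rcases h5 with h5 | h5 | h5
    · exfalso; linarith
    · exact Or.inr (Or.inl h5)
    · exact Or.inr (Or.inr h5)
  have hAB : A ∪ B = BoxBd 0 4 0 1 := by
    rw [hA, hB, ← inter_union_distrib_left]
    refine inter_eq_left.2 fun x _ => ?_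
    exact le_total x.re 2
  set G : ℂ → ℂ := fun x => if x.re ≤ 2 then gL x else s * gR x with hG
  have hGA : EqOn G gL A := fun x hx => by
    show (if x.re ≤ 2 then gL x else s * gR x) = gL x
    have hx2 : x.re ≤ 2 := hx.2
    rw [if_pos hx2]
  have hGB : EqOn G (fun x => s * gR x) B := fun x hx => by
    show (if x.re ≤ 2 then gL x else s * gR x) = s * gR x
    by_cases h : x.re ≤ 2
    · rw [if_pos h]
      exact hse x ⟨le_antisymm h hx.2, hx.1.1.2⟩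
    · rw [if_neg h]
  have hGc : ContinuousOn G (BoxBd 0 4 0 1) := by
    rw [← hAB]
    exact ((hgLc.mono hAL).congr hGA).union_of_isClosed
      ((continuousOn_const.mul hgRc.continuousOn).congr hGB) hAc hBc'
  have hdB : ∀ x ∈ BoxBd 0 4 0 1, ∀ n, x ≠ d n := by
    rintro x ⟨-, h5⟩ n rfl
    have h1 := (hd1 n).1
    have h2 := (hd1 n).2
    rcases h5 with h5 | h5 | h5 | h5
    · rw [h5] at h1; exact lt_irrefl _ h1.1
    · have := h1.2; linarith
    · rw [h5] at h2; exact lt_irrefl _ h2.1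
    · rw [h5] at h2; exact lt_irrefl _ h2.2
  refine no_sqrt_box (l := 0) (r := 4) (b := 0) (t := 1) hx0.1 hx0.2 hGc fun x hx => ?_
  by_cases h : x.re ≤ 2
  · have hxA : x ∈ A := ⟨hx, h⟩
    rw [hGA hxA, hgL x (hAL hxA)]
    refine hb (x, 0, Yf d x) (hLmem (x, Yf d x) ?_) hx
    exact ⟨(hAL hxA).1, fun n => Yf_spec d (hdB x hx n)⟩
  · have hxB : x ∈ B := ⟨hx, (not_le.1 h).le⟩
    rw [hGB hxB]
    show (s * gR x) ^ 2 = x - x0
    rw [mul_pow, hs, one_mul, hgR2, ← hL x (hBR hxB), if_neg]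
    intro h8
    exact h h8.le

end SymCM
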