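import Mathlib
import Pool.Agent.SymCM.Defs
import Pool.Agent.SymCM.A1
import Pool.Agent.SymCM.A4
import Pool.Agent.SymCM.B1
import Pool.Agent.SymCM.B3b
import Pool.Agent.SymCM.TR
set_option autoImplicit false
open Set Topology

namespace SymCM

/-! helpers for D1b -/

theorem D1b_cell1 {n : ℕ} (hn : 0 < n) {t : ℝ} (ht : t ∈ Icc (0 : ℝ) 1) :
    ∃ i < n, (i : ℝ) / n ≤ t ∧ t ≤ ((i : ℝ) + 1) / n := by
  have hn0 : (0 : ℝ) < n := by exact_mod_cast hn
  by_cases h : ⌊(n : ℝ) * t⌋₊ < n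
  · refine ⟨⌊(n : ℝ) * t⌋₊, h, ?_, ?_⟩
    · rw [div_le_iff₀ hn0]
      exact (Nat.floor_le (mul_nonneg hn0.le ht.1)).trans (le_of_eq (mul_comm _ _))
    · rw [le_div_iff₀ hn0]
      exact (le_of_eq (mul_comm _ _)).trans (Nat.lt_floor_add_one ((n : ℝ) * t)).le
  · push Not at h
    have h1 : (n : ℝ) ≤ (n : ℝ) * t :=
      le_trans (by exact_mod_cast h) (Nat.floor_le (mul_nonneg hn0.le ht.1))
    have h2 : (1 : ℝ) ≤ t := by
      have : (n : ℝ) * 1 ≤ n * t := by linarith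
      exact le_of_mul_le_mul_left this hn0
    have h3 : t = 1 := le_antisymm ht.2 h2
    have h4 : ((n - 1 : ℕ) : ℝ) + 1 = n := by
      have : n - 1 + 1 = n := by omega
      exact_mod_cast this
    refine ⟨n - 1, by omega, ?_, ?_⟩
    · rw [h3, div_le_one hn0]; linarith
    · rw [h3, h4, div_self hn0.ne']

theorem D1b_cell2 {n : ℕ} (hn : 0 < n) {t : ℝ} {i j : ℕ} (hij : i ≠ j)
    (hi : (i : ℝ) / n ≤ t ∧ t ≤ ((i : ℝ) + 1) / n) (hj : (j : ℝ) / n ≤ t ∧ t ≤ ((j : ℝ) + 1) / n) :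
    t = (i : ℝ) / n ∨ t = ((i : ℝ) + 1) / n := by
  have hn0 : (0 : ℝ) < n := by exact_mod_cast hn
  rcases lt_or_gt_of_ne hij with h | h
  · right
    have h1 : (i : ℝ) + 1 ≤ j := by exact_mod_cast h
    have h2 : ((i : ℝ) + 1) / n ≤ (j : ℝ) / n := div_le_div_of_nonneg_right h1 hn0.le
    exact le_antisymm hi.2 (h2.trans hj.1)
  · left
    have h1 : (j : ℝ) + 1 ≤ i := by exact_mod_cast h
    have h2 : ((j : ℝ) + 1) / n ≤ (i : ℝ) / n := div_le_div_of_nonneg_right h1 hn0.le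
    exact le_antisymm (hj.2.trans h2) hi.1

/-- grid square -/
def D1b_q (n : ℕ) (p : ℕ × ℕ) : Set ℂ :=
  Box ((p.1 : ℝ) / n) (((p.1 : ℝ) + 1) / n) ((p.2 : ℝ) / n) (((p.2 : ℝ) + 1) / n)

/-- its boundary -/
def D1b_bd (n : ℕ) (p : ℕ × ℕ) : Set ℂ :=
  BoxBd ((p.1 : ℝ) / n) (((p.1 : ℝ) + 1) / n) ((p.2 : ℝ) / n) (((p.2 : ℝ) + 1) / n)

/-- its interior -/
def D1b_in (n : ℕ) (p : ℕ × ℕ) : Set ℂ :=
  {z | z.re ∈ Ioo ((p.1 : ℝ) / n) (((p.1 : ℝ) + 1) / n) ∧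
    z.im ∈ Ioo ((p.2 : ℝ) / n) (((p.2 : ℝ) + 1) / n)}

theorem D1b_isCompact_Box (l r b t : ℝ) : IsCompact (Box l r b t) := by
  have h : Box l r b t = Icc l r ×ℂ Icc b t := rfl
  rw [h]
  exact isCompact_Icc.reProdIm isCompact_Icc

theorem D1b_isClosed_BoxBd (l r b t : ℝ) : IsClosed (BoxBd l r b t) := by
  have h : BoxBd l r b t = Box l r b t ∩
      ({z | z.re = l} ∪ ({z | z.re = r} ∪ ({z | z.im = b} ∪ {z | z.im = t}))) := by
    ext z
    simp only [BoxBd, Set.mem_ofPred_eq, Set.mem_inter_iff, Set.mem_union]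
  rw [h]
  apply (D1b_isCompact_Box l r b t).isClosed.inter
  exact (isClosed_eq Complex.continuous_re continuous_const).union
    ((isClosed_eq Complex.continuous_re continuous_const).union
      ((isClosed_eq Complex.continuous_im continuous_const).union
        (isClosed_eq Complex.continuous_im continuous_const)))

theorem D1b_bd_sub (n : ℕ) (p : ℕ × ℕ) : D1b_bd n p ⊆ D1b_q n p := fun _ h => h.1

theorem D1b_cover {n : ℕ} (hn : 0 < n) {x : ℂ} (hx : x ∈ Box 0 1 0 1) :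
    ∃ p ∈ Finset.range n ×ˢ Finset.range n, x ∈ D1b_q n p := by
  obtain ⟨i, hi, h1⟩ := D1b_cell1 hn hx.1
  obtain ⟨j, hj, h2⟩ := D1b_cell1 hn hx.2
  exact ⟨(i, j), Finset.mem_product.mpr ⟨Finset.mem_range.mpr hi, Finset.mem_range.mpr hj⟩, h1, h2⟩

theorem D1b_overlap {n : ℕ} (hn : 0 < n) {x : ℂ} {p p' : ℕ × ℕ} (hp : p ≠ p')
    (h : x ∈ D1b_q n p) (h' : x ∈ D1b_q n p') : x ∈ D1b_bd n p := by
  refine ⟨h, ?_⟩
  by_cases h1 : p.1 = p'.1
  · have h2 : p.2 ≠ p'.2 := fun h2 => hp (Prod.ext h1 h2)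
    right; right
    exact D1b_cell2 hn h2 h.2 h'.2
  · rcases D1b_cell2 hn h1 h.1 h'.1 with h3 | h3
    · left; exact h3
    · right; left; exact h3

theorem D1b_in_sub (n : ℕ) (p : ℕ × ℕ) : D1b_in n p ⊆ D1b_q n p := fun _ h =>
  ⟨⟨h.1.1.le, h.1.2.le⟩, ⟨h.2.1.le, h.2.2.le⟩⟩

theorem D1b_in_bd {n : ℕ} {p : ℕ × ℕ} {x : ℂ} (h : x ∈ D1b_in n p) : x ∉ D1b_bd n p := by
  rintro ⟨-, h1 | h1 | h1 | h1⟩
  · exact h.1.1.ne' h1
  · exact h.1.2.ne h1
  · exact h.2.1.ne' h1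
  · exact h.2.2.ne h1

theorem D1b_isOpen_in (n : ℕ) (p : ℕ × ℕ) : IsOpen (D1b_in n p) := by
  have h : D1b_in n p = Complex.re ⁻¹' Ioo ((p.1 : ℝ) / n) (((p.1 : ℝ) + 1) / n) ∩
      Complex.im ⁻¹' Ioo ((p.2 : ℝ) / n) (((p.2 : ℝ) + 1) / n) := rfl
  rw [h]
  exact (isOpen_Ioo.preimage Complex.continuous_re).inter (isOpen_Ioo.preimage Complex.continuous_im)

theorem D1b_diam {n : ℕ} {p : ℕ × ℕ} {x y : ℂ} (hx : x ∈ D1b_q n p) (hy : y ∈ D1b_q n p) :
    dist x y ≤ 2 / n := by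
  rw [dist_eq_norm]
  refine (Complex.norm_le_abs_re_add_abs_im _).trans ?_
  rw [Complex.sub_re, Complex.sub_im]
  have e1 : ((p.1 : ℝ) + 1) / n = (p.1 : ℝ) / n + 1 / n := by ring
  have e2 : ((p.2 : ℝ) + 1) / n = (p.2 : ℝ) / n + 1 / n := by ring
  have h1 := hx.1; have h2 := hx.2; have h3 := hy.1; have h4 := hy.2
  rw [e1] at h1 h3
  rw [e2] at h2 h4
  have a1 : |x.re - y.re| ≤ 1 / n := by
    rw [abs_le]; constructor <;> linarith [h1.1, h1.2, h3.1, h3.2]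
  have a2 : |x.im - y.im| ≤ 1 / n := by
    rw [abs_le]; constructor <;> linarith [h2.1, h2.2, h4.1, h4.2]
  calc |x.re - y.re| + |x.im - y.im| ≤ 1 / n + 1 / n := add_le_add a1 a2
    _ = 2 / n := by ring

theorem D1b_q_sub {n : ℕ} (hn : 0 < n) {p : ℕ × ℕ}
    (hp : p ∈ Finset.range n ×ˢ Finset.range n) : D1b_q n p ⊆ Box 0 1 0 1 := by
  have hn0 : (0 : ℝ) < n := by exact_mod_cast hn
  rw [Finset.mem_product, Finset.mem_range, Finset.mem_range] at hp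
  have h1 : ((p.1 : ℝ) + 1) / n ≤ 1 := by
    rw [div_le_one hn0]; exact_mod_cast hp.1
  have h2 : ((p.2 : ℝ) + 1) / n ≤ 1 := by
    rw [div_le_one hn0]; exact_mod_cast hp.2
  have h3 : (0 : ℝ) ≤ (p.1 : ℝ) / n := by positivity
  have h4 : (0 : ℝ) ≤ (p.2 : ℝ) / n := by positivity
  rintro x ⟨hx1, hx2⟩
  exact ⟨⟨h3.trans hx1.1, hx1.2.trans h1⟩, ⟨h4.trans hx2.1, hx2.2.trans h2⟩⟩

/-- the algebra of the phase -/
theorem D1b_phase {w L0 : ℂ} (hw : w ≠ 0) (e : ℤ) :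
    (w ^ e * Complex.exp L0) ^ 2 = (w ^ 2 / ((‖w‖ : ℝ) : ℂ) ^ 2) ^ e *
      Complex.exp (2 * L0 + (e : ℂ) * ((2 * Real.log ‖w‖ : ℝ) : ℂ)) := by
  have hρ : 0 < ‖w‖ := norm_pos_iff.mpr hw
  have h1 : Complex.exp ((2 * Real.log ‖w‖ : ℝ) : ℂ) = ((‖w‖ : ℝ) : ℂ) ^ 2 := by
    rw [← Complex.ofReal_exp, two_mul, Real.exp_add, Real.exp_log hρ]
    push_cast
    ring
  have h2 : Complex.exp (2 * L0 + (e : ℂ) * ((2 * Real.log ‖w‖ : ℝ) : ℂ)) =
      Complex.exp L0 ^ 2 * ((((‖w‖ : ℝ) : ℂ) ^ 2) ^ e) := by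
    rw [Complex.exp_add, Complex.exp_int_mul, h1]
    congr 1
    rw [← Complex.exp_nat_mul]
    norm_num
  have hρ' : ((‖w‖ : ℝ) : ℂ) ^ 2 ≠ 0 := pow_ne_zero _ (by exact_mod_cast hρ.ne')
  have h3 : (w ^ 2 / ((‖w‖ : ℝ) : ℂ) ^ 2) ^ e * ((((‖w‖ : ℝ) : ℂ) ^ 2) ^ e) = (w ^ 2) ^ e := by
    rw [← mul_zpow, div_mul_cancel₀ _ hρ']
  have h4 : (w ^ 2) ^ e = (w ^ e) ^ 2 := by
    rw [← zpow_natCast, ← zpow_natCast, ← zpow_mul, ← zpow_mul, mul_comm]
  rw [h2]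
  calc (w ^ e * Complex.exp L0) ^ 2 = (w ^ e) ^ 2 * Complex.exp L0 ^ 2 := by ring
    _ = ((w ^ 2 / ((‖w‖ : ℝ) : ℂ) ^ 2) ^ e * ((((‖w‖ : ℝ) : ℂ) ^ 2) ^ e)) * Complex.exp L0 ^ 2 := by
        rw [h3, h4]
    _ = _ := by ring

theorem D1b_dim {n : ℕ} (bad : Finset (ℕ × ℕ)) (hbad : bad ⊆ Finset.range n ×ˢ Finset.range n) :
    DimLE ↥(⋃ p ∈ bad, D1b_bd n p) 1 := by
  have hcomp : IsCompact (⋃ p ∈ bad, D1b_bd n p) := by
    apply bad.isCompact_biUnion
    intro p _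
    exact (D1b_isCompact_Box _ _ _ _).of_isClosed_subset (D1b_isClosed_BoxBd _ _ _ _)
      (D1b_bd_sub n p)
  apply DimLE.of_biUnion (ι := Fin (n + 1) ⊕ Fin (n + 1))
    (Sum.elim (fun k : Fin (n + 1) => {z : ℂ | z.re = ((k : ℕ) : ℝ) / n})
      (fun k : Fin (n + 1) => {z : ℂ | z.im = ((k : ℕ) : ℝ) / n}))
  · rintro (k | k)
    · exact isClosed_eq Complex.continuous_re continuous_const
    · exact isClosed_eq Complex.continuous_im continuous_const
  · intro x hx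
    simp only [mem_iUnion, exists_prop] at hx
    obtain ⟨p, hp, hx⟩ := hx
    have hp' := hbad hp
    rw [Finset.mem_product, Finset.mem_range, Finset.mem_range] at hp'
    rw [mem_iUnion]
    rcases hx.2 with h | h | h | h
    · exact ⟨Sum.inl ⟨p.1, by omega⟩, h⟩
    · refine ⟨Sum.inl ⟨p.1 + 1, by omega⟩, ?_⟩
      show x.re = ((p.1 + 1 : ℕ) : ℝ) / n
      rw [h]; push_cast; rfl
    · exact ⟨Sum.inr ⟨p.2, by omega⟩, h⟩
    · refine ⟨Sum.inr ⟨p.2 + 1, by omega⟩, ?_⟩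
      show x.im = ((p.2 + 1 : ℕ) : ℝ) / n
      rw [h]; push_cast; rfl
  · rintro (k | k)
    · apply dimLE_of_injOn_pi _ (fun z _ => z.im) (by fun_prop)
      · intro x hx y hy hxy
        have h1 : x.re = ((k : ℕ) : ℝ) / n := hx.1
        have h2 : y.re = ((k : ℕ) : ℝ) / n := hy.1
        exact Complex.ext (h1.trans h2.symm) (congrFun hxy 0)
      · rw [inter_comm]
        exact hcomp.inter_right (isClosed_eq Complex.continuous_re continuous_const)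
    · apply dimLE_of_injOn_pi _ (fun z _ => z.re) (by fun_prop)
      · intro x hx y hy hxy
        have h1 : x.im = ((k : ℕ) : ℝ) / n := hx.1
        have h2 : y.im = ((k : ℕ) : ℝ) / n := hy.1
        exact Complex.ext (congrFun hxy 0) (h1.trans h2.symm)
      · rw [inter_comm]
        exact hcomp.inter_right (isClosed_eq Complex.continuous_im continuous_const)

/-- planar part of the torsion lemma: `Z` is the zero set, `B` the set to be avoided -/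
theorem planar_squares {N : ℕ} {d : ℕ → ℂ}
    (hdense : ∀ W : Set ℂ, IsOpen W → (W ∩ {z | z.re ∈ Ioo (0 : ℝ) 1 ∧ z.im ∈ Ioo (0 : ℝ) 1}).Nonempty →
      ∃ l ≥ N, d l ∈ W)
    {Z B : Set ℂ} (hZ : IsCompact Z) (hB : IsCompact B) (hZB : Disjoint Z B)
    (hZR : Z ⊆ Box 0 1 0 1) {v : ℂ → ℂ} (hv : ContinuousOn v (Box 0 1 0 1 \ B))
    (hv0 : ∀ x ∈ Box 0 1 0 1 \ B, x ∉ Z → v x ≠ 0) :
    ∃ (L : Finset ℕ) (s : ℕ → Set ℂ) (G : Set ℂ) (e : ℕ → ℤ) (lam : ℕ → ℂ → ℂ),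
      (∀ l ∈ L, N ≤ l ∧ IsClosed (s l) ∧ Disjoint (s l) B ∧ Continuous (lam l)) ∧
      IsClosed G ∧ Disjoint G Z ∧ Box 0 1 0 1 ⊆ G ∪ ⋃ l ∈ L, s l ∧
      (∀ l ∈ L, ∀ x ∈ G ∩ s l, x ≠ d l ∧
        v x ^ 2 = ((x - d l) ^ 2 / ((‖x - d l‖ : ℝ) : ℂ) ^ 2) ^ (e l) * Complex.exp (lam l x)) ∧
      (∀ l ∈ L, ∀ l' ∈ L, l ≠ l' → ∀ x ∈ s l ∩ s l', x ≠ d l ∧ x ≠ d l' ∧
        ((x - d l) ^ 2 / ((‖x - d l‖ : ℝ) : ℂ) ^ 2) ^ (e l) * Complex.exp (lam l x) =
        ((x - d l') ^ 2 / ((‖x - d l'‖ : ℝ) : ℂ) ^ 2) ^ (e l') * Complex.exp (lam l' x)) := by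
  classical
  -- separation
  obtain ⟨δ, hδ, hdisj⟩ := hZB.exists_thickenings hZ hB.isClosed
  have hsep : ∀ z ∈ Z, ∀ y ∈ B, δ ≤ dist z y := by
    intro z hz y hy
    by_contra hlt
    push Not at hlt
    have h1 : y ∈ Metric.thickening δ Z := by
      rw [Metric.mem_thickening_iff]
      exact ⟨z, hz, by rwa [dist_comm]⟩
    have h2 : y ∈ Metric.thickening δ B := Metric.self_subset_thickening hδ B hy
    exact Set.disjoint_left.mp hdisj h1 h2
  obtain ⟨n, hn1⟩ := exists_nat_gt (2 / δ)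
  have hn : 0 < n := by
    have : (0 : ℝ) < n := lt_trans (by positivity) hn1
    exact_mod_cast this
  have hn0 : (0 : ℝ) < n := by exact_mod_cast hn
  have hnδ : 2 / (n : ℝ) < δ := by
    rw [div_lt_iff₀ hδ] at hn1
    rw [div_lt_iff₀ hn0]
    linarith
  set I := Finset.range n ×ˢ Finset.range n with hI
  set bad := I.filter (fun p => (D1b_q n p ∩ Z).Nonempty) with hbad
  set good := I.filter (fun p => ¬ (D1b_q n p ∩ Z).Nonempty) with hgood
  have hbadI : bad ⊆ I := Finset.filter_subset _ _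
  have hbadB : ∀ p ∈ bad, ∀ x ∈ D1b_q n p, x ∉ B := by
    intro p hp x hx hxB
    obtain ⟨z, hz, hzZ⟩ := (Finset.mem_filter.mp hp).2
    have h1 := hsep z hzZ x hxB
    have h2 := D1b_diam hz hx
    linarith
  set G : Set ℂ := ⋃ p ∈ good, D1b_q n p with hG
  set Γ : Set ℂ := ⋃ p ∈ bad, D1b_bd n p with hΓ
  have hGclosed : IsClosed G := by
    apply isClosed_biUnion_finset
    intro p _
    exact (D1b_isCompact_Box _ _ _ _).isClosed
  have hΓcomp : IsCompact Γ := by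
    apply bad.isCompact_biUnion
    intro p _
    exact (D1b_isCompact_Box _ _ _ _).of_isClosed_subset (D1b_isClosed_BoxBd _ _ _ _)
      (D1b_bd_sub n p)
  have hGZ : ∀ x ∈ G, x ∉ Z := by
    intro x hx hxZ
    simp only [hG, mem_iUnion, exists_prop] at hx
    obtain ⟨p, hp, hx⟩ := hx
    exact (Finset.mem_filter.mp hp).2 ⟨x, hx, hxZ⟩
  have hΓsub : ∀ x ∈ Γ, x ∈ Box 0 1 0 1 \ B := by
    intro x hx
    simp only [hΓ, mem_iUnion, exists_prop] at hx
    obtain ⟨p, hp, hx⟩ := hx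
    exact ⟨D1b_q_sub hn (hbadI hp) (D1b_bd_sub n p hx), hbadB p hp x (D1b_bd_sub n p hx)⟩
  -- extension
  obtain ⟨v', hv'c, hv'0, hv'v⟩ := DimLE.ext_one_on hΓcomp (D1b_dim bad hbadI)
    (A := Γ ∩ G) (hΓcomp.isClosed.inter hGclosed) inter_subset_left (u := v)
    (hv.mono (fun x hx => hΓsub x hx.1)) (fun x hx => hv0 x (hΓsub x hx.1) (hGZ x hx.2))
  -- choice of the indices
  have hch : ∀ p : ℕ × ℕ, ∃ l : ℕ, p ∈ bad → (N ≤ l ∧ d l ∈ D1b_in n p) := by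
    intro p
    by_cases hp : p ∈ bad
    · have hpI := hbadI hp
      have hmid : ((((p.1 : ℝ) + 1 / 2) / n : ℝ) + (((p.2 : ℝ) + 1 / 2) / n : ℝ) * Complex.I : ℂ)
          ∈ D1b_in n p := by
        constructor
        · rw [Complex.add_re, Complex.ofReal_re, Complex.re_ofReal_mul, Complex.I_re, mul_zero,
            add_zero]
          constructor
          · apply div_lt_div_of_pos_right _ hn0; linarith
          · apply div_lt_div_of_pos_right _ hn0; linarith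
        · rw [Complex.add_im, Complex.ofReal_im, Complex.im_ofReal_mul, Complex.I_im, mul_one,
            zero_add]
          constructor
          · apply div_lt_div_of_pos_right _ hn0; linarith
          · apply div_lt_div_of_pos_right _ hn0; linarith
      rw [hI, Finset.mem_product, Finset.mem_range, Finset.mem_range] at hpI
      have b1 : ((p.1 : ℝ) + 1) / n ≤ 1 := by rw [div_le_one hn0]; exact_mod_cast hpI.1
      have b2 : ((p.2 : ℝ) + 1) / n ≤ 1 := by rw [div_le_one hn0]; exact_mod_cast hpI.2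
      have b3 : (0 : ℝ) ≤ (p.1 : ℝ) / n := by positivity
      have b4 : (0 : ℝ) ≤ (p.2 : ℝ) / n := by positivity
      obtain ⟨l, hl, hdl⟩ := hdense (D1b_in n p) (D1b_isOpen_in n p)
        ⟨_, hmid, ⟨b3.trans_lt hmid.1.1, hmid.1.2.trans_le b1⟩,
          ⟨b4.trans_lt hmid.2.1, hmid.2.2.trans_le b2⟩⟩
      exact ⟨l, fun _ => ⟨hl, hdl⟩⟩
    · exact ⟨0, fun h => absurd h hp⟩
  choose lf hlf using hch
  have hinj : Set.InjOn lf (bad : Set (ℕ × ℕ)) := by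
    intro p hp p' hp' heq
    by_contra hne
    have h1 := (hlf p hp).2
    have h2 := (hlf p' hp').2
    rw [← heq] at h2
    exact D1b_in_bd h1 (D1b_overlap hn hne (D1b_in_sub n p h1) (D1b_in_sub n p' h2))
  -- phases
  have hph : ∀ p : ℕ × ℕ, ∃ (e : ℤ) (lam : ℂ → ℂ), p ∈ bad → (Continuous lam ∧
      ∀ x ∈ D1b_bd n p, v' x ^ 2 = ((x - d (lf p)) ^ 2 / ((‖x - d (lf p)‖ : ℝ) : ℂ) ^ 2) ^ e *
        Complex.exp (lam x)) := by
    intro p
    by_cases hp : p ∈ bad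
    · have hd := (hlf p hp).2
      obtain ⟨e, L0, hL0, hform⟩ := exists_zpow_box hd.1 hd.2 (u := v') hv'c.continuousOn
        (fun x hx => hv'0 x (mem_biUnion (x := p) hp hx))
      have hne : ∀ x ∈ D1b_bd n p, x ≠ d (lf p) := by
        rintro x hx rfl
        exact D1b_in_bd hd hx
      obtain ⟨lam, hlam, hlam2⟩ := tietze_on (X := ℂ) (D1b_isClosed_BoxBd ((p.1 : ℝ) / n)
        (((p.1 : ℝ) + 1) / n) ((p.2 : ℝ) / n) (((p.2 : ℝ) + 1) / n))
        (h := fun x => 2 * L0 x + (e : ℂ) * ((2 * Real.log ‖x - d (lf p)‖ : ℝ) : ℂ)) (by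
          apply ContinuousOn.add
          · exact (continuous_const.mul hL0).continuousOn
          · apply ContinuousOn.mul continuousOn_const
            apply Complex.continuous_ofReal.comp_continuousOn
            apply ContinuousOn.mul continuousOn_const
            apply ContinuousOn.log
            · exact (continuous_id.sub continuous_const).norm.continuousOn
            · intro x hx
              exact (norm_pos_iff.mpr (sub_ne_zero.mpr (hne x hx))).ne')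
      refine ⟨e, lam, fun _ => ⟨hlam, ?_⟩⟩
      intro x hx
      rw [hlam2 x hx, hform x hx]
      exact D1b_phase (sub_ne_zero.mpr (hne x hx)) e
    · exact ⟨0, 0, fun h => absurd h hp⟩
  choose ef lamf hphase using hph
  -- left inverse
  have hinv : ∀ l : ℕ, ∃ p : ℕ × ℕ, l ∈ bad.image lf → (p ∈ bad ∧ lf p = l) := by
    intro l
    by_cases hl : l ∈ bad.image lf
    · obtain ⟨p, hp, rfl⟩ := Finset.mem_image.mp hl
      exact ⟨p, fun _ => ⟨hp, rfl⟩⟩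
    · exact ⟨(0, 0), fun h => absurd h hl⟩
  choose inv hinv2 using hinv
  refine ⟨bad.image lf, fun l => D1b_q n (inv l), G, fun l => ef (inv l), fun l => lamf (inv l),
    ?_, hGclosed, Set.disjoint_left.mpr hGZ, ?_, ?_, ?_⟩
  · intro l hl
    obtain ⟨hp, hpl⟩ := hinv2 l hl
    refine ⟨?_, (D1b_isCompact_Box _ _ _ _).isClosed, Set.disjoint_left.mpr (hbadB _ hp),
      (hphase _ hp).1⟩
    rw [← hpl]
    exact (hlf _ hp).1
  · intro x hx
    obtain ⟨p, hp, hxp⟩ := D1b_cover hn hx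
    by_cases hb : (D1b_q n p ∩ Z).Nonempty
    · right
      have hpb : p ∈ bad := Finset.mem_filter.mpr ⟨hp, hb⟩
      have hl : lf p ∈ bad.image lf := Finset.mem_image_of_mem lf hpb
      obtain ⟨hq, hql⟩ := hinv2 (lf p) hl
      have : inv (lf p) = p := hinj hq hpb hql
      refine mem_biUnion (x := lf p) hl ?_
      show x ∈ D1b_q n (inv (lf p))
      rw [this]
      exact hxp
    · left
      exact mem_biUnion (x := p) (Finset.mem_filter.mpr ⟨hp, hb⟩) hxp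
  · rintro l hl x ⟨hxG, hxl⟩
    obtain ⟨hp, hpl⟩ := hinv2 l hl
    have hxG' := hxG
    simp only [hG, mem_iUnion, exists_prop] at hxG'
    obtain ⟨p', hp', hx'⟩ := hxG'
    have hne : inv l ≠ p' := by
      rintro h
      rw [h] at hp
      exact (Finset.mem_filter.mp hp').2 (Finset.mem_filter.mp hp).2
    have hbd := D1b_overlap hn hne hxl hx'
    have hd := (hlf _ hp).2
    rw [hpl] at hd
    refine ⟨?_, ?_⟩
    · rintro rfl
      exact D1b_in_bd hd hbd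
    · have h1 := (hphase _ hp).2 x hbd
      rw [hpl] at h1
      rw [← hv'v x ⟨mem_biUnion (x := inv l) hp hbd, hxG⟩]
      exact h1
  · rintro l hl l' hl' hne x ⟨hxl, hxl'⟩
    obtain ⟨hp, hpl⟩ := hinv2 l hl
    obtain ⟨hp', hpl'⟩ := hinv2 l' hl'
    have hne' : inv l ≠ inv l' := by
      intro h
      apply hne
      rw [← hpl, ← hpl', h]
    have hbd := D1b_overlap hn hne' hxl hxl'
    have hbd' := D1b_overlap hn hne'.symm hxl' hxl
    have hd := (hlf _ hp).2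
    have hd' := (hlf _ hp').2
    rw [hpl] at hd
    rw [hpl'] at hd'
    refine ⟨?_, ?_, ?_⟩
    · rintro rfl
      exact D1b_in_bd hd hbd
    · rintro rfl
      exact D1b_in_bd hd' hbd'
    · have h1 := (hphase _ hp).2 x hbd
      have h2 := (hphase _ hp').2 x hbd'
      rw [hpl] at h1
      rw [hpl'] at h2
      exact h1.symm.trans h2

end SymCM
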