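import Mathlib
import Pool.Agent.SymCM.Defs
import Pool.Agent.SymCM.A1
import Pool.Agent.SymCM.A4
import Pool.Agent.SymCM.B1
import Pool.Agent.SymCM.CP
import Pool.Agent.SymCM.D1b
import Pool.Agent.SymCM.TR
set_option autoImplicit false
open Set Topology

namespace SymCM

theorem PiR_torsion_sq_aux {Y Y' : ℂ} (h : ‖Y‖ = 1) (h' : ‖Y'‖ = 1) (him : Y.im = Y'.im)
    (hre : (0 ≤ Y.re ∧ 0 ≤ Y'.re) ∨ (Y.re ≤ 0 ∧ Y'.re ≤ 0)) : Y = Y' := by
  have h1 : Y.re ^ 2 + Y.im ^ 2 = 1 := by
    have := Complex.sq_norm Y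
    rw [h, Complex.normSq_apply] at this
    nlinarith
  have h2 : Y'.re ^ 2 + Y'.im ^ 2 = 1 := by
    have := Complex.sq_norm Y'
    rw [h', Complex.normSq_apply] at this
    nlinarith
  have h3 : Y.re ^ 2 = Y'.re ^ 2 := by rw [him] at h1; linarith
  apply Complex.ext _ him
  rcases hre with ⟨h4, h5⟩ | ⟨h4, h5⟩
  · nlinarith [sq_nonneg (Y.re - Y'.re), sq_nonneg (Y.re + Y'.re), abs_nonneg (Y.re - Y'.re),
      (sq_eq_sq₀ h4 h5).1 h3]
  · have h6 : (-Y.re) ^ 2 = (-Y'.re) ^ 2 := by rw [neg_sq, neg_sq]; exact h3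
    have h7 := (sq_eq_sq₀ (by linarith) (by linarith)).1 h6
    linarith

theorem PiR_torsion_fibre {d : ℕ → ℂ} {N : ℕ} {p : ℂ × (ℕ → ℂ)} (hp : p ∈ PiR 0 1 d)
    (h : ∀ i < N, p.1 ≠ d i) : trunc 1 N p = trunc 1 N (p.1, Yf d p.1) := by
  unfold trunc
  ext n
  · rfl
  · simp only
    split_ifs with hn
    · exact eq_Yf d (h n hn) (hp.2 n).2
    · rfl

theorem PiR_torsion_mem {d : ℕ → ℂ} {N : ℕ} {x : ℂ} (hx : x ∈ Box 0 1 0 1)
    (h : ∀ i < N, x ≠ d i) : ∃ p ∈ PiR 0 1 d, trunc 1 N p = trunc 1 N (x, Yf d x) ∧ p.1 = x := by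
  classical
  refine ⟨(x, fun n => if x = d n then 1 else Yf d x n), ⟨hx, ?_⟩, ?_, rfl⟩
  · intro n
    simp only
    by_cases hn : x = d n
    · rw [if_pos hn, hn]
      simp
    · rw [if_neg hn]
      exact Yf_spec d hn
  · unfold trunc
    ext n
    · rfl
    · simp only
      split_ifs with h1 h2
      · exact absurd h2 (h n h1)
      · rfl
      · rfl

theorem PiR_torsion_dim {d : ℕ → ℂ} (N : ℕ) (hd : Function.Injective d) :
    DimLE ↥{p | p ∈ trunc 1 N '' PiR 0 1 d ∧ ∃ i < N, p.1 = d i} 1 := by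
  have hPN : IsCompact (trunc 1 N '' PiR 0 1 d) :=
    (isCompact_PiR 0 1 d).image (continuous_trunc 1 N)
  have hcoord : ∀ i : ℕ, Continuous (fun p : ℂ × (ℕ → ℂ) => p.2 i) := fun i => by fun_prop
  have hB1c : IsCompact {p | p ∈ trunc 1 N '' PiR 0 1 d ∧ ∃ i < N, p.1 = d i} := by
    have : {p | p ∈ trunc 1 N '' PiR 0 1 d ∧ ∃ i < N, p.1 = d i} =
        (trunc 1 N '' PiR 0 1 d) ∩ Prod.fst ⁻¹' (d '' {i | i < N}) := by
      ext p
      simp only [mem_setOf_eq, mem_inter_iff, mem_preimage, mem_image]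
      constructor
      · rintro ⟨h1, i, h2, h3⟩; exact ⟨h1, i, h2, h3.symm⟩
      · rintro ⟨h1, i, h2, h3⟩; exact ⟨h1, i, h2, h3.symm⟩
    rw [this]
    apply hPN.inter_right
    apply IsClosed.preimage continuous_fst
    exact ((Set.finite_lt_nat N).image d).isClosed
  let S : Fin N × Bool → Set (ℂ × (ℕ → ℂ)) := fun q =>
    {p | p.1 = d q.1 ∧ if q.2 = true then 0 ≤ (p.2 q.1).re else (p.2 q.1).re ≤ 0}
  apply DimLE.of_biUnion S
  · rintro ⟨i, b⟩
    cases b
    · have : S (i, false) = {p | p.1 = d i} ∩ {p | (p.2 i).re ≤ 0} := by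
        ext p; simp [S]
      rw [this]
      exact (isClosed_eq continuous_fst continuous_const).inter
        (isClosed_le (Complex.continuous_re.comp (hcoord i)) continuous_const)
    · have : S (i, true) = {p | p.1 = d i} ∩ {p | 0 ≤ (p.2 i).re} := by
        ext p; simp [S]
      rw [this]
      exact (isClosed_eq continuous_fst continuous_const).inter
        (isClosed_le continuous_const (Complex.continuous_re.comp (hcoord i)))
  · rintro p ⟨_, i, hi, h2⟩
    rw [mem_iUnion]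
    rcases le_total 0 (p.2 i).re with h | h
    · exact ⟨(⟨i, hi⟩, true), by simp [S, h2, h]⟩
    · exact ⟨(⟨i, hi⟩, false), by simp [S, h2, h]⟩
  · rintro ⟨i, b⟩
    have hScl : IsClosed (S (i, b)) := by
      cases b
      · have : S (i, false) = {p | p.1 = d i} ∩ {p | (p.2 i).re ≤ 0} := by
          ext p; simp [S]
        rw [this]
        exact (isClosed_eq continuous_fst continuous_const).inter
          (isClosed_le (Complex.continuous_re.comp (hcoord i)) continuous_const)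
      · have : S (i, true) = {p | p.1 = d i} ∩ {p | 0 ≤ (p.2 i).re} := by
          ext p; simp [S]
        rw [this]
        exact (isClosed_eq continuous_fst continuous_const).inter
          (isClosed_le continuous_const (Complex.continuous_re.comp (hcoord i)))
    apply dimLE_of_injOn_pi (hB1c.inter_left hScl) (fun p _ => (p.2 i).im)
    · apply Continuous.continuousOn
      exact continuous_pi (fun _ => Complex.continuous_im.comp (hcoord i))
    · rintro p ⟨hpS, hp, _⟩ q ⟨hqS, hq, _⟩ hpq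
      have him : (p.2 i).im = (q.2 i).im := congrFun hpq 0
      have hp1 : p.1 = d i := hpS.1
      have hq1 : q.1 = d i := hqS.1
      obtain ⟨p', hp', rfl⟩ := hp
      obtain ⟨q', hq', rfl⟩ := hq
      have hi : (i : ℕ) < N := i.2
      have hp1' : p'.1 = d i := hp1
      have hq1' : q'.1 = d i := hq1
      have e1 : (trunc 1 N p').2 i = p'.2 i := by simp [trunc, hi]
      have e2 : (trunc 1 N q').2 i = q'.2 i := by simp [trunc, hi]
      have hre : (0 ≤ (p'.2 i).re ∧ 0 ≤ (q'.2 i).re) ∨ ((p'.2 i).re ≤ 0 ∧ (q'.2 i).re ≤ 0) := by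
        have h1 := hpS.2
        have h2 := hqS.2
        rw [e1] at h1
        rw [e2] at h2
        cases b
        · right
          simpa using And.intro h1 h2
        · left
          simpa using And.intro h1 h2
      rw [e1, e2] at him
      have hYi := PiR_torsion_sq_aux (hp'.2 i).1 (hq'.2 i).1 him hre
      have h1 : p'.1 = q'.1 := hp1'.trans hq1'.symm
      unfold trunc
      refine Prod.ext h1 ?_
      funext n
      simp only
      split_ifs with hn
      · by_cases hni : n = i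
        · rw [hni]; exact hYi
        · have hne : p'.1 ≠ d n := by
            rw [hp1']
            intro h
            exact hni (hd h).symm
          have hne' : q'.1 ≠ d n := by rw [← h1]; exact hne
          rw [eq_Yf d hne (hp'.2 n).2, eq_Yf d hne' (hq'.2 n).2, h1]
      · rfl

/-- torsion lemma: squares of circle-like maps extend over `PiR 0 1 d` -/
theorem PiR_torsion {d : ℕ → ℂ} (hd : Function.Injective d)
    (hd1 : ∀ n, (d n).re ∈ Ioo (0 : ℝ) 1 ∧ (d n).im ∈ Ioo (0 : ℝ) 1)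
    (hdense : ∀ W : Set ℂ, IsOpen W → (W ∩ {z | z.re ∈ Ioo (0 : ℝ) 1 ∧ z.im ∈ Ioo (0 : ℝ) 1}).Nonempty →
      ∃ l, d l ∈ W)
    (F : Set (PiR 0 1 d)) (u : PiR 0 1 d → ℂ) (hF : IsClosed F) (hu : Continuous u)
    (hu0 : ∀ p ∈ F, u p ≠ 0) :
    ∃ κ : PiR 0 1 d → ℂ, Continuous κ ∧ (∀ p, κ p ≠ 0) ∧ ∀ p ∈ F, κ p = u p ^ 2 := by
  classical
  rcases F.eq_empty_or_nonempty with hFe | hFne
  · refine ⟨fun _ => 1, continuous_const, fun _ => one_ne_zero, ?_⟩
    intro p hp
    rw [hFe] at hp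
    exact absurd hp (Set.notMem_empty p)
  have hPc : IsCompact (PiR 0 1 d) := isCompact_PiR 0 1 d
  have hPcl : IsClosed (PiR 0 1 d) := hPc.isClosed
  -- extension of `u`
  have hUex : ∃ U : ℂ × (ℕ → ℂ) → ℂ, Continuous U ∧ ∀ p : (PiR 0 1 d), U p = u p := by
    have h1 : ContinuousOn (fun x : ℂ × (ℕ → ℂ) => if h : x ∈ (PiR 0 1 d) then u ⟨x, h⟩ else 0) (PiR 0 1 d) := by
      rw [continuousOn_iff_continuous_domRestrict]
      have h2 : Set.domRestrict (PiR 0 1 d)
          (fun x : ℂ × (ℕ → ℂ) => if h : x ∈ (PiR 0 1 d) then u ⟨x, h⟩ else 0) = u := by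
        funext p
        simp [Set.domRestrict]
      rw [h2]
      exact hu
    obtain ⟨U, hU1, hU2⟩ := tietze_on hPcl h1
    refine ⟨U, hU1, fun p => ?_⟩
    rw [hU2 p p.2]
    simp
  obtain ⟨U, hUc, hUu⟩ := hUex
  set Fs : Set (ℂ × (ℕ → ℂ)) := Subtype.val '' F with hFs
  have hPcs : CompactSpace (PiR 0 1 d) := isCompact_iff_compactSpace.1 hPc
  have hFsc : IsCompact Fs := hF.isCompact.image continuous_subtype_val
  have hFsP : ∀ p ∈ Fs, p ∈ (PiR 0 1 d) := by
    rintro p ⟨q, _, rfl⟩; exact q.2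
  have hFs0 : ∀ p ∈ Fs, U p ≠ 0 := by
    rintro p ⟨q, hq, rfl⟩; rw [hUu]; exact hu0 q hq
  obtain ⟨ε, hε, hεF⟩ : ∃ ε : ℝ, 0 < ε ∧ ∀ p ∈ Fs, 2 * ε ≤ ‖U p‖ := by
    obtain ⟨p0, hp0, hmin⟩ := hFsc.exists_isMinOn (hFne.image _)
      (hUc.norm.continuousOn)
    refine ⟨‖U p0‖ / 2, by have := norm_pos_iff.2 (hFs0 p0 hp0); linarith, fun p hp => ?_⟩
    have := hmin hp
    simp only [mem_setOf_eq] at this
    linarith
  obtain ⟨N, hN0⟩ := trunc_close hUc hPc 1 hε
  have hN : ∀ p ∈ (PiR 0 1 d), ‖U (trunc 1 N p) - U p‖ < ε := hN0 N le_rfl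
  set PN := trunc 1 N '' (PiR 0 1 d) with hPN
  have hPNc : IsCompact PN := hPc.image (continuous_trunc 1 N)
  set FN := {p | p ∈ PN ∧ ε ≤ ‖U p‖} with hFN
  have hFNcl : IsClosed FN :=
    hPNc.isClosed.inter (isClosed_le continuous_const hUc.norm)
  have hFNc : IsCompact FN := hPNc.inter_right (isClosed_le continuous_const hUc.norm)
  have hFN0 : ∀ p ∈ FN, U p ≠ 0 := by
    intro p hp h
    have := hp.2
    rw [h, norm_zero] at this
    linarith
  set B1 := {p | p ∈ PN ∧ ∃ i < N, p.1 = d i} with hB1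
  have hB1dim : DimLE B1 1 := PiR_torsion_dim N hd
  have hB1cl' : IsClosed {p : ℂ × (ℕ → ℂ) | ∃ i < N, p.1 = d i} := by
    have : {p : ℂ × (ℕ → ℂ) | ∃ i < N, p.1 = d i} = Prod.fst ⁻¹' (d '' {i | i < N}) := by
      ext p
      simp only [mem_setOf_eq, mem_preimage, mem_image]
      constructor
      · rintro ⟨i, h2, h3⟩; exact ⟨i, h2, h3.symm⟩
      · rintro ⟨i, h2, h3⟩; exact ⟨i, h2, h3.symm⟩
    rw [this]
    exact ((Set.finite_lt_nat N).image d).isClosed.preimage continuous_fst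
  have hB1c : IsCompact B1 := hPNc.inter_right hB1cl'
  -- the function `g`
  obtain ⟨g0, hg0c, hg01, hg02⟩ := DimLE.ext_one_on hB1c hB1dim (hFNcl.inter hB1c.isClosed)
    inter_subset_right hUc.continuousOn (fun x hx => hFN0 x hx.1)
  have hglue : ContinuousOn (fun x => if x ∈ FN then U x else g0 x) (FN ∪ B1) := by
    apply ContinuousOn.union_of_isClosed _ _ hFNcl hB1c.isClosed
    · apply hUc.continuousOn.congr
      intro x hx
      simp only [if_pos hx]
    · apply hg0c.continuousOn.congr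
      intro x hx
      simp only
      split_ifs with h
      · exact (hg02 x ⟨h, hx⟩).symm
      · rfl
  obtain ⟨g, hgc, hg⟩ := tietze_on (hFNcl.union hB1c.isClosed) hglue
  have hgFN : ∀ x ∈ FN, g x = U x := by
    intro x hx
    rw [hg x (Or.inl hx), if_pos hx]
  have hgB1 : ∀ x ∈ B1, g x ≠ 0 := by
    intro x hx
    rw [hg x (Or.inr hx)]
    split_ifs with h
    · exact hFN0 x h
    · exact hg01 x hx
  -- planar sets
  set Z0 := {p | p ∈ PN ∧ g p = 0} with hZ0
  have hZ0c : IsCompact Z0 := hPNc.inter_right (isClosed_eq hgc continuous_const)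
  set Z := Prod.fst '' Z0 with hZ
  have hZc : IsCompact Z := hZ0c.image continuous_fst
  set B := d '' {i | i < N} ∪ Prod.fst '' FN with hB
  have hBc : IsCompact B := ((Set.finite_lt_nat N).image d).isCompact.union
    (hFNc.image continuous_fst)
  have hfib : ∀ p ∈ PN, (∀ i < N, p.1 ≠ d i) → p = trunc 1 N (p.1, Yf d p.1) := by
    rintro p ⟨p', hp', rfl⟩ h
    exact PiR_torsion_fibre hp' h
  have hZB : Disjoint Z B := by
    rw [Set.disjoint_left]
    rintro x ⟨p, ⟨hp1, hp2⟩, rfl⟩ hxB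
    by_cases hx : ∃ i < N, p.1 = d i
    · exact hgB1 p ⟨hp1, hx⟩ hp2
    · push Not at hx
      rcases hxB with ⟨i, hi, h⟩ | ⟨q, hq, h⟩
      · exact hx i hi h.symm
      · have h1 := hfib p hp1 hx
        have h2 := hfib q hq.1 (by rw [h]; exact hx)
        rw [h] at h2
        rw [h1, ← h2, hgFN q hq] at hp2
        exact hFN0 q hq hp2
  have hZR : Z ⊆ Box 0 1 0 1 := by
    rintro x ⟨p, ⟨⟨p', hp', rfl⟩, _⟩, rfl⟩
    exact hp'.1
  set v : ℂ → ℂ := fun x => g (trunc 1 N (x, Yf d x)) with hv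
  have hdB : ∀ x, x ∉ B → ∀ i < N, x ≠ d i := by
    intro x hx i hi h
    exact hx (Or.inl ⟨i, hi, h.symm⟩)
  have hvc : ContinuousOn v (Box 0 1 0 1 \ B) := by
    let d' : ℕ → ℂ := fun n => if n < N then d n else 5
    have h1 : ∀ x, trunc 1 N (x, Yf d x) = trunc 1 N (x, Yf d' x) := by
      intro x
      unfold trunc
      ext n
      · rfl
      · simp only
        split_ifs with hn
        · simp [Yf, d', hn]
        · rfl
    have h2 : ContinuousOn (Yf d') (Box 0 1 0 1 \ B) := by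
      apply continuousOn_Yf
      intro n hn
      simp only [d'] at hn
      split_ifs at hn with h
      · exact hn.2 (Or.inl ⟨n, h, rfl⟩)
      · have := hn.1.1.2
        norm_num at this
    have h3 : v = fun x => g (trunc 1 N (x, Yf d' x)) := by
      funext x
      simp only [hv, h1]
    rw [h3]
    exact hgc.comp_continuousOn ((continuous_trunc 1 N).comp_continuousOn
      (continuousOn_id.prodMk h2))
  have hv0 : ∀ x ∈ Box 0 1 0 1 \ B, x ∉ Z → v x ≠ 0 := by
    intro x hx hxZ h0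
    obtain ⟨p, hp, hp2, hp3⟩ := PiR_torsion_mem (d := d) (N := N) hx.1 (hdB x hx.2)
    apply hxZ
    refine ⟨trunc 1 N p, ⟨⟨p, hp, rfl⟩, ?_⟩, ?_⟩
    · rw [hp2]; exact h0
    · exact hp3
  have hdense' : ∀ W : Set ℂ, IsOpen W →
      (W ∩ {z | z.re ∈ Ioo (0 : ℝ) 1 ∧ z.im ∈ Ioo (0 : ℝ) 1}).Nonempty → ∃ l ≥ N, d l ∈ W := by
    intro W hW hWne
    have hsq : IsOpen {z : ℂ | z.re ∈ Ioo (0 : ℝ) 1 ∧ z.im ∈ Ioo (0 : ℝ) 1} :=
      (isOpen_Ioo.preimage Complex.continuous_re).inter (isOpen_Ioo.preimage Complex.continuous_im)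
    have hfin : (d '' {i | i < N}).Finite := (Set.finite_lt_nat N).image d
    have hden : Dense (d '' {i | i < N})ᶜ := hfin.countable.dense_compl ℝ
    obtain ⟨z, hz1, hz2⟩ := hden.inter_open_nonempty _ (hW.inter hsq) hWne
    obtain ⟨l, hl⟩ := hdense (W \ d '' {i | i < N}) (hW.sdiff hfin.isClosed)
      ⟨z, ⟨hz1.1, hz2⟩, hz1.2⟩
    refine ⟨l, ?_, hl.1⟩
    by_contra hcon
    exact hl.2 ⟨l, not_le.1 hcon, rfl⟩
  obtain ⟨L, s, G, e, lam, hL, hGc, hGZ, hcov, hGs, hss⟩ :=
    planar_squares hdense' hZc hBc hZB hZR hvc hv0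
  -- the local formulas
  let fG : ℂ × (ℕ → ℂ) → ℂ := fun p => g (trunc 1 N p) ^ 2
  let fl : ℕ → ℂ × (ℕ → ℂ) → ℂ := fun l p => (p.2 l) ^ (e l) * Complex.exp (lam l p.1)
  let kt : ℂ × (ℕ → ℂ) → ℂ := fun p => if p.1 ∈ G then fG p else
    if h : ∃ l ∈ L, p.1 ∈ s l then fl h.choose p else 1
  have hktG : ∀ p ∈ (PiR 0 1 d), p.1 ∈ G → kt p = fG p := by
    intro p _ h
    simp only [kt, if_pos h]
  have hYl : ∀ p ∈ (PiR 0 1 d), ∀ l, p.1 ≠ d l →
      p.2 l = (p.1 - d l) ^ 2 / ((‖p.1 - d l‖ : ℝ) : ℂ) ^ 2 := by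
    intro p hp l h
    exact eq_Yf d h (hp.2 l).2
  have hkts : ∀ p ∈ (PiR 0 1 d), ∀ l ∈ L, p.1 ∈ s l → kt p = fl l p := by
    intro p hp l hl hps
    have hpB : p.1 ∉ B := Set.disjoint_left.1 (hL l hl).2.2.1 hps
    by_cases hpG : p.1 ∈ G
    · rw [hktG p hp hpG]
      obtain ⟨h1, h2⟩ := hGs l hl p.1 ⟨hpG, hps⟩
      have h3 : trunc 1 N p = trunc 1 N (p.1, Yf d p.1) := PiR_torsion_fibre hp (hdB p.1 hpB)
      simp only [fG, fl]
      rw [h3, hYl p hp l h1]
      exact h2
    · have hex : ∃ l ∈ L, p.1 ∈ s l := ⟨l, hl, hps⟩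
      simp only [kt, if_neg hpG, dif_pos hex]
      obtain ⟨h1, h2⟩ := hex.choose_spec
      by_cases hne : l = hex.choose
      · rw [← hne]
      · obtain ⟨h3, h4, h5⟩ := hss l hl hex.choose h1 hne p.1 ⟨hps, h2⟩
        simp only [fl]
        rw [hYl p hp l h3, hYl p hp _ h4]
        exact h5.symm
  have hPbox : ∀ p ∈ (PiR 0 1 d), p.1 ∈ Box 0 1 0 1 := fun p hp => hp.1
  have hfGc : Continuous fG := (hgc.comp (continuous_trunc 1 N)).pow 2
  have hflc : ∀ l ∈ L, ContinuousOn (fl l) (PiR 0 1 d) := by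
    intro l hl
    apply ContinuousOn.mul
    · apply ContinuousOn.zpow₀
      · exact (Continuous.continuousOn (by fun_prop))
      · intro p hp
        left
        intro h0
        have := (hp.2 l).1
        rw [h0, norm_zero] at this
        norm_num at this
    · exact (Complex.continuous_exp.comp ((hL l hl).2.2.2.comp continuous_fst)).continuousOn
  have hktc : ContinuousOn kt (PiR 0 1 d) := by
    let T : Option L → Set (ℂ × (ℕ → ℂ)) := fun o => match o with
      | none => (PiR 0 1 d) ∩ {p | p.1 ∈ G}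
      | some l => (PiR 0 1 d) ∩ {p | p.1 ∈ s l}
    have hT : (PiR 0 1 d) = ⋃ o, T o := by
      ext p
      rw [mem_iUnion]
      constructor
      · intro hp
        rcases hcov (hPbox p hp) with h | h
        · exact ⟨none, hp, h⟩
        · rw [mem_iUnion₂] at h
          obtain ⟨l, hl, h⟩ := h
          exact ⟨some ⟨l, hl⟩, hp, h⟩
      · rintro ⟨o, ho⟩
        cases o with
        | none => exact ho.1
        | some l => exact ho.1
    rw [hT]
    apply LocallyFinite.continuousOn_iUnion (locallyFinite_of_finite T)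
    · intro o
      cases o with
      | none => exact hPcl.inter (hGc.preimage continuous_fst)
      | some l => exact hPcl.inter ((hL l l.2).2.1.preimage continuous_fst)
    · intro o
      cases o with
      | none =>
        apply hfGc.continuousOn.congr
        rintro p ⟨hp1, hp2⟩
        exact hktG p hp1 hp2
      | some l =>
        apply ((hflc l l.2).mono inter_subset_left).congr
        rintro p ⟨hp1, hp2⟩
        exact hkts p hp1 l l.2 hp2
  have hkt0 : ∀ p ∈ (PiR 0 1 d), kt p ≠ 0 := by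
    intro p hp
    rcases hcov (hPbox p hp) with h | h
    · rw [hktG p hp h]
      apply pow_ne_zero
      intro h0
      exact Set.disjoint_left.1 hGZ h ⟨trunc 1 N p, ⟨⟨p, hp, rfl⟩, h0⟩, rfl⟩
    · rw [mem_iUnion₂] at h
      obtain ⟨l, hl, h⟩ := h
      rw [hkts p hp l hl h]
      apply mul_ne_zero _ (Complex.exp_ne_zero _)
      apply zpow_ne_zero
      intro h0
      have := (hp.2 l).1
      rw [h0, norm_zero] at this
      norm_num at this
  have hktF : ∀ p ∈ Fs, kt p = U (trunc 1 N p) ^ 2 := by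
    intro p hp
    have hpP := hFsP p hp
    have h1 : trunc 1 N p ∈ FN := by
      refine ⟨⟨p, hpP, rfl⟩, ?_⟩
      have h2 := hN p hpP
      have h3 := hεF p hp
      have h4 := norm_sub_norm_le (U p) (U p - U (trunc 1 N p))
      rw [sub_sub_cancel, norm_sub_rev (U p)] at h4
      linarith
    have hpB : p.1 ∈ B := Or.inr ⟨trunc 1 N p, h1, rfl⟩
    rcases hcov (hPbox p hpP) with h | h
    · rw [hktG p hpP h]
      simp only [fG]
      rw [hgFN _ h1]
    · rw [mem_iUnion₂] at h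
      obtain ⟨l, hl, h⟩ := h
      exact absurd hpB (Set.disjoint_left.1 (hL l hl).2.2.1 h)
  -- correction
  have hquot : ∀ p ∈ Fs, ‖U (trunc 1 N p) / U p - 1‖ < 1 := by
    intro p hp
    have h0 := hFs0 p hp
    have h1 : U (trunc 1 N p) / U p - 1 = (U (trunc 1 N p) - U p) / U p := by
      field_simp
    rw [h1, norm_div, div_lt_one (norm_pos_iff.2 h0)]
    have h2 := hN p (hFsP p hp)
    have h3 := hεF p hp
    linarith
  have hslit : ∀ p ∈ Fs, U (trunc 1 N p) / U p ∈ Complex.slitPlane := by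
    intro p hp
    have h1 := hquot p hp
    rw [Complex.mem_slitPlane_iff]
    left
    have h2 := Complex.abs_re_le_norm (U (trunc 1 N p) / U p - 1)
    have h3 := abs_lt.1 (lt_of_le_of_lt h2 h1)
    simp only [Complex.sub_re, Complex.one_re] at h3
    linarith
  have hlogc : ContinuousOn (fun p => Complex.log (U (trunc 1 N p) / U p)) Fs := by
    apply ContinuousOn.clog
    · exact ((hUc.comp (continuous_trunc 1 N)).continuousOn).div hUc.continuousOn hFs0
    · exact hslit
  obtain ⟨ell, hellc, hell⟩ := tietze_on hFsc.isClosed hlogc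
  refine ⟨fun p => kt p * Complex.exp (-2 * ell p), ?_, ?_, ?_⟩
  · apply Continuous.mul
    · exact continuousOn_iff_continuous_domRestrict.1 hktc
    · exact Complex.continuous_exp.comp
        (continuous_const.mul (hellc.comp continuous_subtype_val))
  · intro p
    exact mul_ne_zero (hkt0 p p.2) (Complex.exp_ne_zero _)
  · intro p hp
    have hpF : (p : ℂ × (ℕ → ℂ)) ∈ Fs := ⟨p, hp, rfl⟩
    simp only
    rw [hktF p hpF, hell p hpF, ← hUu p]
    have h0 := hFs0 p hpF
    have h1 : U (trunc 1 N p) / U p ≠ 0 := Complex.slitPlane_ne_zero (hslit p hpF)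
    have h2 : Complex.exp (-2 * Complex.log (U (trunc 1 N p) / U p)) =
        ((U (trunc 1 N p) / U p) ^ 2)⁻¹ := by
      rw [neg_mul, Complex.exp_neg, two_mul, Complex.exp_add, Complex.exp_log h1, ← sq]
    rw [h2]
    have h3 : U (trunc 1 N p) ≠ 0 := by
      intro h
      rw [h, zero_div] at h1
      exact h1 rfl
    field_simp

end SymCM
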