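import Mathlib
import Pool.Agent.SymCM.Defs
import Pool.Agent.SymCM.A1
import Pool.Agent.SymCM.A4
set_option autoImplicit false
open Set Topology

namespace SymCM

theorem job959_isClosed_Simp (k : ℕ) (τ : Finset (Fin k)) : IsClosed (Simp k τ) := by
  have h : Simp k τ = (⋂ i, {b : Fin k → ℝ | 0 ≤ b i}) ∩ {b | ∑ i, b i = 1} ∩
      (⋂ i, ⋂ (_ : i ∉ τ), {b : Fin k → ℝ | b i = 0}) := by
    ext b
    simp only [Simp, mem_setOf_eq, mem_inter_iff, mem_iInter, and_assoc]
  rw [h]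
  refine IsClosed.inter (IsClosed.inter ?_ ?_) ?_
  · exact isClosed_iInter fun i => isClosed_le continuous_const (continuous_apply i)
  · exact isClosed_eq (continuous_finsetSum _ fun i _ => continuous_apply i) continuous_const
  · exact isClosed_iInter fun i => isClosed_iInter fun _ =>
      isClosed_eq (continuous_apply i) continuous_const

theorem job959_isCompact_Simp (k : ℕ) (τ : Finset (Fin k)) : IsCompact (Simp k τ) := by
  refine (isCompact_univ_pi (fun _ : Fin k => isCompact_Icc (a := (0:ℝ)) (b := 1))).of_isClosed_subset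
    (job959_isClosed_Simp k τ) ?_
  intro b hb i _
  refine ⟨hb.1 i, ?_⟩
  rw [← hb.2.1]
  exact Finset.single_le_sum (f := b) (fun j _ => hb.1 j) (Finset.mem_univ i)

theorem job959_isCompact_Box (l r b t : ℝ) : IsCompact (Box l r b t) := by
  have h : Box l r b t = Icc l r ×ℂ Icc b t := by
    ext z
    simp [Box, Complex.mem_reProdIm]
  rw [h]
  exact isCompact_Icc.reProdIm isCompact_Icc

theorem job959_simp_inj {k : ℕ} {τ : Finset (Fin k)} {b b' : Fin k → ℝ} (hb : b ∈ Simp k τ)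
    (hb' : b' ∈ Simp k τ) (i2 : Fin k) (h : ∀ i ∈ τ, i ≠ i2 → b i = b' i) : b = b' := by
  have h1 : ∀ i, i ≠ i2 → b i = b' i := by
    intro i hi
    by_cases hi' : i ∈ τ
    · exact h i hi' hi
    · rw [hb.2.2 i hi', hb'.2.2 i hi']
  have h2 : ∑ i, (b i - b' i) = 0 := by
    rw [Finset.sum_sub_distrib, hb.2.1, hb'.2.1, sub_self]
  rw [Finset.sum_eq_single i2 (fun j _ hj => by rw [h1 j hj, sub_self])
    (fun hj => absurd (Finset.mem_univ _) hj)] at h2
  funext i
  by_cases hi : i = i2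
  · subst hi; linarith
  · exact h1 i hi

/-- index of the pieces -/
abbrev Job959I (n k : ℕ) : Type :=
  (Fin (n + 1) × Bool × {τ : Finset (Fin k) // τ.card = 3}) ⊕
    ({τ : Finset (Fin k) // τ.card = 2} × {τ : Finset (Fin k) // τ.card = 3})

/-- the pieces -/
def Job959P (n k : ℕ) : Job959I n k → Set (ℂ × (Fin k → ℝ))
  | .inl (j, true, τ) => {p | p.1 ∈ Box 0 1 0 1 ∧ p.2 ∈ Simp k τ.1 ∧ p.1.re = (j : ℕ) / n}
  | .inl (j, false, τ) => {p | p.1 ∈ Box 0 1 0 1 ∧ p.2 ∈ Simp k τ.1 ∧ p.1.im = (j : ℕ) / n}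
  | .inr (τ, τ') => {p | p.1 ∈ Box 0 1 0 1 ∧ p.2 ∈ Simp k τ.1 ∧ p.2 ∈ Simp k τ'.1}

theorem job959_compact (n k : ℕ) (i : Job959I n k) : IsCompact (Job959P n k i) := by
  have key : ∀ (τ : Finset (Fin k)) (C : Set (ℂ × (Fin k → ℝ))), IsClosed C →
      IsCompact {p : ℂ × (Fin k → ℝ) | p.1 ∈ Box 0 1 0 1 ∧ p.2 ∈ Simp k τ ∧ p ∈ C} := by
    intro τ C hC
    have h := ((job959_isCompact_Box 0 1 0 1).prod (job959_isCompact_Simp k τ)).inter_right hC
    refine h.of_isClosed_subset ?_ ?_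
    · have : {p : ℂ × (Fin k → ℝ) | p.1 ∈ Box 0 1 0 1 ∧ p.2 ∈ Simp k τ ∧ p ∈ C} =
        (Box 0 1 0 1 ×ˢ Simp k τ) ∩ C := by
        ext p; simp only [mem_setOf_eq, mem_inter_iff, mem_prod, and_assoc]
      rw [this]; exact h.isClosed
    · rintro p ⟨h1, h2, h3⟩
      exact ⟨⟨h1, h2⟩, h3⟩
  rcases i with ⟨j, _ | _, τ⟩ | ⟨τ, τ'⟩
  · exact key τ.1 {p | p.1.im = (j : ℕ) / n}
      (isClosed_eq (Complex.continuous_im.comp continuous_fst) continuous_const)
  · exact key τ.1 {p | p.1.re = (j : ℕ) / n}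
      (isClosed_eq (Complex.continuous_re.comp continuous_fst) continuous_const)
  · exact key τ.1 {p | p.2 ∈ Simp k τ'.1} ((job959_isClosed_Simp k τ'.1).preimage continuous_snd)

theorem job959_eq (n k : ℕ) : Skel n k = ⋃ i, Job959P n k i := by
  ext p
  rw [mem_iUnion]
  constructor
  · rintro ⟨h1, ⟨τ, hτ, hp⟩, ⟨j, hj, hj' | hj'⟩ | ⟨τ', hτ', hp'⟩⟩
    · exact ⟨.inl (⟨j, Nat.lt_succ_of_le hj⟩, true, ⟨τ, hτ⟩), h1, hp, hj'⟩
    · exact ⟨.inl (⟨j, Nat.lt_succ_of_le hj⟩, false, ⟨τ, hτ⟩), h1, hp, hj'⟩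
    · exact ⟨.inr (⟨τ', hτ'⟩, ⟨τ, hτ⟩), h1, hp', hp⟩
  · rintro ⟨⟨j, _ | _, τ⟩ | ⟨τ, τ'⟩, h⟩
    · obtain ⟨h1, h2, h3⟩ := h
      exact ⟨h1, ⟨τ.1, τ.2, h2⟩, Or.inl ⟨j, Nat.le_of_lt_succ j.2, Or.inr h3⟩⟩
    · obtain ⟨h1, h2, h3⟩ := h
      exact ⟨h1, ⟨τ.1, τ.2, h2⟩, Or.inl ⟨j, Nat.le_of_lt_succ j.2, Or.inl h3⟩⟩
    · obtain ⟨h1, h2, h3⟩ := h
      exact ⟨h1, ⟨τ'.1, τ'.2, h3⟩, Or.inr ⟨τ.1, τ.2, h2⟩⟩

theorem isCompact_Skel (n k : ℕ) : IsCompact (Skel n k) := by
  rw [job959_eq]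
  exact isCompact_iUnion (job959_compact n k)

theorem job959_dim (n k : ℕ) (i : Job959I n k) (R : Set (ℂ × (Fin k → ℝ)))
    (hR : IsCompact (Job959P n k i ∩ R)) : DimLE ↥(Job959P n k i ∩ R) 3 := by
  rcases i with ⟨j, _ | _, τ⟩ | ⟨τ, τ'⟩
  · obtain ⟨i0, i1, i2, h01, h02, h12, he⟩ := Finset.card_eq_three.1 τ.2
    refine dimLE_of_injOn_pi hR (fun p => ![p.1.re, p.2 i0, p.2 i1]) ?_ ?_
    · apply Continuous.continuousOn
      refine continuous_pi fun m => ?_
      fin_cases m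
      · exact Complex.continuous_re.comp continuous_fst
      · exact (continuous_apply i0).comp continuous_snd
      · exact (continuous_apply i1).comp continuous_snd
    · rintro p ⟨⟨_, hp2, hp3⟩, _⟩ q ⟨⟨_, hq2, hq3⟩, _⟩ hpq
      have e0 : p.1.re = q.1.re := congrFun hpq 0
      have e1 : p.2 i0 = q.2 i0 := congrFun hpq 1
      have e2 : p.2 i1 = q.2 i1 := congrFun hpq 2
      refine Prod.ext (Complex.ext e0 (hp3.trans hq3.symm)) ?_
      refine job959_simp_inj hp2 hq2 i2 ?_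
      intro i hi hne
      rw [he] at hi
      simp only [Finset.mem_insert, Finset.mem_singleton] at hi
      rcases hi with rfl | rfl | rfl
      · exact e1
      · exact e2
      · exact absurd rfl hne
  · obtain ⟨i0, i1, i2, h01, h02, h12, he⟩ := Finset.card_eq_three.1 τ.2
    refine dimLE_of_injOn_pi hR (fun p => ![p.1.im, p.2 i0, p.2 i1]) ?_ ?_
    · apply Continuous.continuousOn
      refine continuous_pi fun m => ?_
      fin_cases m
      · exact Complex.continuous_im.comp continuous_fst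
      · exact (continuous_apply i0).comp continuous_snd
      · exact (continuous_apply i1).comp continuous_snd
    · rintro p ⟨⟨_, hp2, hp3⟩, _⟩ q ⟨⟨_, hq2, hq3⟩, _⟩ hpq
      have e0 : p.1.im = q.1.im := congrFun hpq 0
      have e1 : p.2 i0 = q.2 i0 := congrFun hpq 1
      have e2 : p.2 i1 = q.2 i1 := congrFun hpq 2
      refine Prod.ext (Complex.ext (hp3.trans hq3.symm) e0) ?_
      refine job959_simp_inj hp2 hq2 i2 ?_
      intro i hi hne
      rw [he] at hi
      simp only [Finset.mem_insert, Finset.mem_singleton] at hi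
      rcases hi with rfl | rfl | rfl
      · exact e1
      · exact e2
      · exact absurd rfl hne
  · obtain ⟨i0, i1, h01, he⟩ := Finset.card_eq_two.1 τ.2
    refine dimLE_of_injOn_pi hR (fun p => ![p.1.re, p.1.im, p.2 i0]) ?_ ?_
    · apply Continuous.continuousOn
      refine continuous_pi fun m => ?_
      fin_cases m
      · exact Complex.continuous_re.comp continuous_fst
      · exact Complex.continuous_im.comp continuous_fst
      · exact (continuous_apply i0).comp continuous_snd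
    · rintro p ⟨⟨_, hp2, hp3⟩, _⟩ q ⟨⟨_, hq2, hq3⟩, _⟩ hpq
      have e0 : p.1.re = q.1.re := congrFun hpq 0
      have e1 : p.1.im = q.1.im := congrFun hpq 1
      have e2 : p.2 i0 = q.2 i0 := congrFun hpq 2
      refine Prod.ext (Complex.ext e0 e1) ?_
      refine job959_simp_inj hp2 hq2 i1 ?_
      intro i hi hne
      rw [he] at hi
      simp only [Finset.mem_insert, Finset.mem_singleton] at hi
      rcases hi with rfl | rfl
      · exact e2
      · exact absurd rfl hne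

theorem dimLE_Skel (n k : ℕ) : DimLE (Skel n k) 3 := by
  refine DimLE.of_biUnion (ι := Job959I n k) (Job959P n k)
    (fun i => (job959_compact n k i).isClosed) (job959_eq n k).subset ?_
  intro i
  exact job959_dim n k i _ ((job959_compact n k i).inter (isCompact_Skel n k))

end SymCM
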