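import Mathlib
import Pool.Agent.SymCM.Defs
set_option autoImplicit false
open Set Topology

namespace SymCM

/-- pushing off the origin of `ℂ²` -/
theorem push {Z : Type} [TopologicalSpace Z] {ξ ζ g κ : Z → ℂ} {N1 N2 : Z → ℝ}
    (hζc : Continuous ζ) (hgc : Continuous g) (hκc : Continuous κ) (hN1c : Continuous N1)
    (hN2c : Continuous N2) (hg : ∀ z, g z ^ 2 = ξ z) (hκ : ∀ z, ‖κ z‖ = 1)
    (h1 : ∀ z, 0 ≤ N1 z ∧ N1 z ≤ 1) (h2 : ∀ z, 0 ≤ N2 z ∧ N2 z ≤ 1)
    (h3 : ∀ z, N1 z ≠ 0 → ξ z ≠ 0)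
    (h4 : ∀ z, N2 z = 1 → ζ z ≠ 0 ∧ ζ z ^ 2 = ((‖ζ z‖ : ℝ) : ℂ) ^ 2 * κ z) :
    ∃ F1 F2 : Z → ℂ, Continuous F1 ∧ Continuous F2 ∧ (∀ z, F1 z ≠ 0 ∨ F2 z ≠ 0) ∧
      ∀ z, (N1 z = 1 ∨ N2 z = 1) → F1 z = ξ z ∧ F2 z = ζ z := by
  have hkk : ∀ z, κ z * (starRingEnd ℂ) (κ z) = 1 := by
    intro z
    rw [Complex.mul_conj, Complex.normSq_eq_norm_sq, hκ z]
    norm_num
  set W : Z → ℂ := fun z => (ζ z + κ z * (starRingEnd ℂ) (ζ z)) / 2 with hW
  have hWc : Continuous W := by
    have : Continuous fun z => (starRingEnd ℂ) (ζ z) := Complex.continuous_conj.comp hζc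
    fun_prop
  have hWW : ∀ z, W z ^ 2 = ((‖W z‖ : ℝ) : ℂ) ^ 2 * κ z := by
    intro z
    have e1 : κ z * (starRingEnd ℂ) (W z) = W z := by
      simp only [hW, map_div₀, map_add, map_mul, Complex.conj_conj]
      have h2 : (starRingEnd ℂ) (2 : ℂ) = 2 := map_ofNat (starRingEnd ℂ) 2
      rw [h2]
      linear_combination (ζ z / 2) * hkk z
    have e2 : W z * (starRingEnd ℂ) (W z) = ((‖W z‖ : ℝ) : ℂ) ^ 2 := by
      rw [Complex.mul_conj, Complex.normSq_eq_norm_sq]
      push_cast
      rfl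
    rw [← e2, sq]
    linear_combination (-W z) * e1
  have hWz : ∀ z, N2 z = 1 → W z = ζ z := by
    intro z hz
    obtain ⟨a1, a2⟩ := h4 z hz
    have e2 : ζ z * (starRingEnd ℂ) (ζ z) = ((‖ζ z‖ : ℝ) : ℂ) ^ 2 := by
      rw [Complex.mul_conj, Complex.normSq_eq_norm_sq]
      push_cast
      rfl
    have e3 : ζ z = κ z * (starRingEnd ℂ) (ζ z) := by
      apply mul_left_cancel₀ a1
      rw [← sq, a2, ← e2]
      ring
    simp only [hW]
    rw [← e3]
    ring
  set mu : Z → ℝ := fun z => max 0 (1 - 2 * N1 z) * (1 - N2 z) with hmu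
  set lam : Z → ℝ := fun z => max 0 (2 * N1 z - 1) with hlam
  have hmuc : Continuous mu := by fun_prop
  have hlamc : Continuous lam := by fun_prop
  have hmu0 : ∀ z, 0 ≤ mu z := fun z =>
    mul_nonneg (le_max_left _ _) (by linarith [(h2 z).2])
  have hconjκ : Continuous fun z => (starRingEnd ℂ) (κ z) := Complex.continuous_conj.comp hκc
  have hmucC : Continuous fun z => ((mu z : ℝ) : ℂ) := Complex.continuous_ofReal.comp hmuc
  have hlamcC : Continuous fun z => ((lam z : ℝ) : ℂ) := Complex.continuous_ofReal.comp hlamc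
  refine ⟨fun z => g z ^ 2 + (mu z : ℂ) * (starRingEnd ℂ) (κ z),
    fun z => (1 - (lam z : ℂ)) * W z + (lam z : ℂ) * ζ z + (mu z : ℂ) * g z * κ z,
    by fun_prop, by fun_prop, ?_, ?_⟩
  · intro z
    by_contra hcon
    push Not at hcon
    obtain ⟨c1, c2⟩ := hcon
    by_cases hN : 1 / 2 ≤ N1 z
    · have hm : mu z = 0 := by
        simp only [hmu]
        rw [max_eq_left (by linarith), zero_mul]
      rw [hm] at c1
      simp only [Complex.ofReal_zero, zero_mul, add_zero] at c1
      rw [hg z] at c1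
      exact h3 z (by intro h0; rw [h0] at hN; norm_num at hN) c1
    · push Not at hN
      have hl : lam z = 0 := by
        simp only [hlam]
        rw [max_eq_left (by linarith)]
      rw [hl] at c2
      simp only [Complex.ofReal_zero, zero_mul, add_zero, sub_zero, one_mul] at c2
      have e1 : W z = -((mu z : ℂ) * g z * κ z) := by linear_combination c2
      have e2 : g z ^ 2 = -((mu z : ℂ) * (starRingEnd ℂ) (κ z)) := by linear_combination c1
      have e3 : W z ^ 2 = -((mu z : ℂ) ^ 3 * κ z) := by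
        rw [e1]
        have : (-((mu z : ℂ) * g z * κ z)) ^ 2 = (mu z : ℂ) ^ 2 * g z ^ 2 * κ z ^ 2 := by ring
        rw [this, e2]
        linear_combination (-(mu z : ℂ) ^ 3 * κ z) * hkk z
      rw [hWW z] at e3
      have hκ0 : κ z ≠ 0 := by
        intro h0
        have := hκ z
        rw [h0, norm_zero] at this
        norm_num at this
      have e4 : ((‖W z‖ : ℝ) : ℂ) ^ 2 + (mu z : ℂ) ^ 3 = 0 := by
        have : (((‖W z‖ : ℝ) : ℂ) ^ 2 + (mu z : ℂ) ^ 3) * κ z = 0 := by
          linear_combination e3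
        exact (mul_eq_zero.mp this).resolve_right hκ0
      have e5 : ‖W z‖ ^ 2 + mu z ^ 3 = 0 := by exact_mod_cast e4
      have p1 : 0 ≤ ‖W z‖ ^ 2 := by positivity
      have p2 : 0 ≤ mu z ^ 3 := pow_nonneg (hmu0 z) 3
      have q1 : ‖W z‖ = 0 := by
        have : ‖W z‖ ^ 2 = 0 := by linarith
        exact pow_eq_zero_iff (two_ne_zero) |>.mp this
      have q2 : mu z = 0 := by
        have : mu z ^ 3 = 0 := by linarith
        exact pow_eq_zero_iff (three_ne_zero) |>.mp this
      have q3 : N2 z = 1 := by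
        simp only [hmu] at q2
        rcases mul_eq_zero.mp q2 with h | h
        · rw [max_eq_right (by linarith)] at h
          linarith
        · linarith
      have q4 := hWz z q3
      rw [norm_eq_zero] at q1
      exact (h4 z q3).1 (by rw [← q4, q1])
  · rintro z (hz | hz)
    · have hm : mu z = 0 := by
        simp only [hmu]
        rw [max_eq_left (by linarith), zero_mul]
      have hl : lam z = 1 := by
        simp only [hlam]
        rw [hz, max_eq_right (by norm_num)]
        norm_num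
      constructor
      · show g z ^ 2 + (mu z : ℂ) * (starRingEnd ℂ) (κ z) = ξ z
        rw [hm, ← hg z]; simp
      · show (1 - (lam z : ℂ)) * W z + (lam z : ℂ) * ζ z + (mu z : ℂ) * g z * κ z = ζ z
        rw [hm, hl]; simp
    · have hm : mu z = 0 := by
        simp only [hmu]
        rw [hz]; ring
      constructor
      · show g z ^ 2 + (mu z : ℂ) * (starRingEnd ℂ) (κ z) = ξ z
        rw [hm, ← hg z]; simp
      · show (1 - (lam z : ℂ)) * W z + (lam z : ℂ) * ζ z + (mu z : ℂ) * g z * κ z = ζ z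
        rw [hm, hWz z hz]; simp only [Complex.ofReal_zero, zero_mul, add_zero]; ring

/-- gauge of the rectangle -/
noncomputable def cell_map_NS (l r b t : ℝ) (c z : ℂ) : ℝ :=
  max (max (z.re / (r - c.re)) (-z.re / (c.re - l)))
    (max (z.im / (t - c.im)) (-z.im / (c.im - b)))

/-- gauge of the triangle -/
noncomputable def cell_map_NT (z : ℂ) : ℝ :=
  max (-2 * z.re) (max (z.re - √3 * z.im) (z.re + √3 * z.im))

theorem cell_map_NS_cont (l r b t : ℝ) (c : ℂ) : Continuous (cell_map_NS l r b t c) := by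
  unfold cell_map_NS
  fun_prop

theorem cell_map_NT_cont : Continuous cell_map_NT := by
  unfold cell_map_NT
  fun_prop

theorem cell_map_NS_div (l r b t : ℝ) (c z : ℂ) {m : ℝ} (hm : 0 < m) :
    cell_map_NS l r b t c (z / m) = cell_map_NS l r b t c z / m := by
  unfold cell_map_NS
  rw [Complex.div_ofReal_re, Complex.div_ofReal_im]
  rw [← max_div_div_right hm.le, ← max_div_div_right hm.le, ← max_div_div_right hm.le]
  have e : ∀ a d : ℝ, a / m / d = a / d / m := fun a d => by ring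
  have e' : ∀ a d : ℝ, -(a / m) / d = -a / d / m := fun a d => by ring
  rw [e, e, e', e']

theorem cell_map_NT_div (z : ℂ) {m : ℝ} (hm : 0 < m) :
    cell_map_NT (z / m) = cell_map_NT z / m := by
  unfold cell_map_NT
  rw [Complex.div_ofReal_re, Complex.div_ofReal_im]
  rw [← max_div_div_right hm.le, ← max_div_div_right hm.le]
  congr 1
  · ring
  · congr 1 <;> ring

theorem cell_map_NT_pos {z : ℂ} (hz : z ≠ 0) : 0 < cell_map_NT z := by
  by_contra hcon
  push Not at hcon
  unfold cell_map_NT at hcon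
  rw [max_le_iff, max_le_iff] at hcon
  obtain ⟨a, b, c⟩ := hcon
  have h3 : (0 : ℝ) < √3 := by positivity
  have e1 : z.re = 0 := by linarith
  rw [e1] at b c
  have e2 : z.im = 0 := by
    have : √3 * z.im = 0 := by linarith
    exact (mul_eq_zero.mp this).resolve_left h3.ne'
  exact hz (Complex.ext e1 e2)

theorem cell_map_NS_pos {l r b t : ℝ} {c : ℂ} (h1 : c.re ∈ Ioo l r) (h2 : c.im ∈ Ioo b t)
    {z : ℂ} (hz : z ≠ 0) : 0 < cell_map_NS l r b t c z := by
  by_contra hcon
  push Not at hcon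
  unfold cell_map_NS at hcon
  rw [max_le_iff, max_le_iff, max_le_iff] at hcon
  obtain ⟨⟨a1, a2⟩, a3, a4⟩ := hcon
  have d1 : 0 < r - c.re := by linarith [h1.2]
  have d2 : 0 < c.re - l := by linarith [h1.1]
  have d3 : 0 < t - c.im := by linarith [h2.2]
  have d4 : 0 < c.im - b := by linarith [h2.1]
  rw [div_le_iff₀ d1] at a1
  rw [div_le_iff₀ d2] at a2
  rw [div_le_iff₀ d3] at a3
  rw [div_le_iff₀ d4] at a4
  exact hz (Complex.ext (by simp; linarith) (by simp; linarith))

theorem cell_map_NS_zero (l r b t : ℝ) (c : ℂ) : cell_map_NS l r b t c 0 = 0 := by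
  unfold cell_map_NS; simp

theorem cell_map_NT_zero : cell_map_NT 0 = 0 := by
  unfold cell_map_NT; simp

theorem cell_map_NS_nonneg {l r b t : ℝ} {c : ℂ} (h1 : c.re ∈ Ioo l r) (h2 : c.im ∈ Ioo b t)
    (z : ℂ) : 0 ≤ cell_map_NS l r b t c z := by
  by_cases hz : z = 0
  · rw [hz, cell_map_NS_zero]
  · exact (cell_map_NS_pos h1 h2 hz).le

theorem cell_map_NT_nonneg (z : ℂ) : 0 ≤ cell_map_NT z := by
  by_cases hz : z = 0
  · rw [hz, cell_map_NT_zero]
  · exact (cell_map_NT_pos hz).le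

theorem cell_map_box {l r b t : ℝ} {c : ℂ} (h1 : c.re ∈ Ioo l r) (h2 : c.im ∈ Ioo b t) (z : ℂ) :
    cell_map_NS l r b t c z ≤ 1 ↔ c + z ∈ Box l r b t := by
  have d1 : 0 < r - c.re := by linarith [h1.2]
  have d2 : 0 < c.re - l := by linarith [h1.1]
  have d3 : 0 < t - c.im := by linarith [h2.2]
  have d4 : 0 < c.im - b := by linarith [h2.1]
  unfold cell_map_NS Box
  rw [max_le_iff, max_le_iff, max_le_iff, div_le_one d1, div_le_one d2, div_le_one d3,
    div_le_one d4]
  simp only [Set.mem_ofPred_eq, Complex.add_re, Complex.add_im, mem_Icc]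
  constructor
  · rintro ⟨⟨a1, a2⟩, a3, a4⟩
    exact ⟨⟨by linarith, by linarith⟩, by linarith, by linarith⟩
  · rintro ⟨⟨a1, a2⟩, a3, a4⟩
    exact ⟨⟨by linarith, by linarith⟩, by linarith, by linarith⟩

theorem cell_map_boxBd {l r b t : ℝ} {c : ℂ} (h1 : c.re ∈ Ioo l r) (h2 : c.im ∈ Ioo b t)
    (z : ℂ) : cell_map_NS l r b t c z = 1 ↔ c + z ∈ BoxBd l r b t := by
  have d1 : 0 < r - c.re := by linarith [h1.2]
  have d2 : 0 < c.re - l := by linarith [h1.1]
  have d3 : 0 < t - c.im := by linarith [h2.2]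
  have d4 : 0 < c.im - b := by linarith [h2.1]
  unfold BoxBd
  rw [Set.mem_ofPred_eq, ← cell_map_box h1 h2]
  simp only [Complex.add_re, Complex.add_im]
  constructor
  · intro h
    refine ⟨h.le, ?_⟩
    unfold cell_map_NS at h
    rcases max_choice (max (z.re / (r - c.re)) (-z.re / (c.re - l)))
      (max (z.im / (t - c.im)) (-z.im / (c.im - b))) with e | e
    · rw [e] at h
      rcases max_choice (z.re / (r - c.re)) (-z.re / (c.re - l)) with e' | e'
      · rw [e', div_eq_one_iff_eq d1.ne'] at h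
        right; left; linarith
      · rw [e', div_eq_one_iff_eq d2.ne'] at h
        left; linarith
    · rw [e] at h
      rcases max_choice (z.im / (t - c.im)) (-z.im / (c.im - b)) with e' | e'
      · rw [e', div_eq_one_iff_eq d3.ne'] at h
        right; right; right; linarith
      · rw [e', div_eq_one_iff_eq d4.ne'] at h
        right; right; left; linarith
  · rintro ⟨hle, h⟩
    apply le_antisymm hle
    unfold cell_map_NS
    rcases h with h | h | h | h
    · have : -z.re / (c.re - l) = 1 := by rw [div_eq_one_iff_eq d2.ne']; linarith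
      rw [← this]
      exact (le_max_right _ _).trans (le_max_left _ _)
    · have : z.re / (r - c.re) = 1 := by rw [div_eq_one_iff_eq d1.ne']; linarith
      rw [← this]
      exact (le_max_left _ _).trans (le_max_left _ _)
    · have : -z.im / (c.im - b) = 1 := by rw [div_eq_one_iff_eq d4.ne']; linarith
      rw [← this]
      exact (le_max_right _ _).trans (le_max_right _ _)
    · have : z.im / (t - c.im) = 1 := by rw [div_eq_one_iff_eq d3.ne']; linarith
      rw [← this]
      exact (le_max_left _ _).trans (le_max_right _ _)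

/-- barycentric coordinates -/
noncomputable def cell_map_bb (k : ℕ) (i0 i1 i2 : Fin k) (z : ℂ) (i : Fin k) : ℝ :=
  if i = i0 then (1 + 2 * z.re) / 3 else if i = i1 then (1 - z.re + √3 * z.im) / 3
  else if i = i2 then (1 - z.re - √3 * z.im) / 3 else 0

/-- the plane point of a weight -/
noncomputable def cell_map_phi (k : ℕ) (i0 i1 i2 : Fin k) (b : Fin k → ℝ) : ℂ :=
  ⟨b i0 - b i1 / 2 - b i2 / 2, √3 / 2 * (b i1 - b i2)⟩

theorem cell_map_sum {k : ℕ} {i0 i1 i2 : Fin k} (h01 : i0 ≠ i1) (h02 : i0 ≠ i2) (h12 : i1 ≠ i2)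
    (b : Fin k → ℝ) (hb : ∀ i, i ∉ ({i0, i1, i2} : Finset (Fin k)) → b i = 0) :
    ∑ i, b i = b i0 + b i1 + b i2 := by
  rw [← Finset.sum_subset (Finset.subset_univ ({i0, i1, i2} : Finset (Fin k)))
    (fun i _ hi => hb i hi)]
  rw [Finset.sum_insert, Finset.sum_insert, Finset.sum_singleton]
  · ring
  · simpa using h12
  · simp [h01, h02]

theorem cell_map_bb_simp {k : ℕ} {i0 i1 i2 : Fin k} (h01 : i0 ≠ i1) (h02 : i0 ≠ i2)
    (h12 : i1 ≠ i2) (z : ℂ) (hz : cell_map_NT z ≤ 1) :
    cell_map_bb k i0 i1 i2 z ∈ Simp k {i0, i1, i2} := by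
  unfold cell_map_NT at hz
  rw [max_le_iff, max_le_iff] at hz
  obtain ⟨a, b, c⟩ := hz
  have hoff : ∀ i, i ∉ ({i0, i1, i2} : Finset (Fin k)) → cell_map_bb k i0 i1 i2 z i = 0 := by
    intro i hi
    simp only [Finset.mem_insert, Finset.mem_singleton, not_or] at hi
    unfold cell_map_bb
    rw [if_neg hi.1, if_neg hi.2.1, if_neg hi.2.2]
  refine ⟨?_, ?_, hoff⟩
  · intro i
    unfold cell_map_bb
    split_ifs
    · linarith
    · linarith
    · linarith
    · exact le_rfl
  · rw [cell_map_sum h01 h02 h12 _ hoff]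
    unfold cell_map_bb
    rw [if_pos rfl, if_neg h01.symm, if_pos rfl, if_neg h02.symm, if_neg h12.symm, if_pos rfl]
    ring

theorem cell_map_bb_bd {k : ℕ} {i0 i1 i2 : Fin k} (h01 : i0 ≠ i1) (h02 : i0 ≠ i2)
    (h12 : i1 ≠ i2) (z : ℂ) (hz : cell_map_NT z = 1) :
    ∃ i ∈ ({i0, i1, i2} : Finset (Fin k)), cell_map_bb k i0 i1 i2 z i = 0 := by
  unfold cell_map_NT at hz
  rcases max_choice (-2 * z.re) (max (z.re - √3 * z.im) (z.re + √3 * z.im)) with e | e
  · rw [e] at hz
    refine ⟨i0, by simp, ?_⟩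
    unfold cell_map_bb
    rw [if_pos rfl]; linarith
  · rw [e] at hz
    rcases max_choice (z.re - √3 * z.im) (z.re + √3 * z.im) with e' | e'
    · rw [e'] at hz
      refine ⟨i1, by simp, ?_⟩
      unfold cell_map_bb
      rw [if_neg h01.symm, if_pos rfl]; linarith
    · rw [e'] at hz
      refine ⟨i2, by simp, ?_⟩
      unfold cell_map_bb
      rw [if_neg h02.symm, if_neg h12.symm, if_pos rfl]; linarith

theorem cell_map_bb_phi {k : ℕ} {i0 i1 i2 : Fin k} (h01 : i0 ≠ i1) (h02 : i0 ≠ i2)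
    (h12 : i1 ≠ i2) {β : Fin k → ℝ} (hβ : β ∈ Simp k {i0, i1, i2}) :
    cell_map_bb k i0 i1 i2 (cell_map_phi k i0 i1 i2 β) = β := by
  obtain ⟨hb0, hb1, hb2⟩ := hβ
  rw [cell_map_sum h01 h02 h12 _ hb2] at hb1
  have h3 : √3 * (√3 / 2 * (β i1 - β i2)) = 3 / 2 * (β i1 - β i2) := by
    have : √3 * √3 = 3 := Real.mul_self_sqrt (by norm_num)
    linear_combination (1 / 2 * (β i1 - β i2)) * this
  funext i
  unfold cell_map_bb cell_map_phi
  simp only
  rw [h3]
  split_ifs with a b c
  · rw [a]; linarith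
  · rw [b]; linarith
  · rw [c]; linarith
  · exact (hb2 i (by simp [a, b, c])).symm

theorem cell_map_NT_phi {k : ℕ} {i0 i1 i2 : Fin k} (h01 : i0 ≠ i1) (h02 : i0 ≠ i2)
    (h12 : i1 ≠ i2) {β : Fin k → ℝ} (hβ : β ∈ Simp k {i0, i1, i2}) :
    cell_map_NT (cell_map_phi k i0 i1 i2 β) ≤ 1 ∧
      ((∃ i ∈ ({i0, i1, i2} : Finset (Fin k)), β i = 0) →
        1 ≤ cell_map_NT (cell_map_phi k i0 i1 i2 β)) := by
  obtain ⟨hb0, hb1, hb2⟩ := hβ
  rw [cell_map_sum h01 h02 h12 _ hb2] at hb1
  have h3 : √3 * (√3 / 2 * (β i1 - β i2)) = 3 / 2 * (β i1 - β i2) := by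
    have : √3 * √3 = 3 := Real.mul_self_sqrt (by norm_num)
    linear_combination (1 / 2 * (β i1 - β i2)) * this
  have p0 := hb0 i0
  have p1 := hb0 i1
  have p2 := hb0 i2
  unfold cell_map_NT cell_map_phi
  simp only
  rw [h3]
  constructor
  · rw [max_le_iff, max_le_iff]
    exact ⟨by linarith, by linarith, by linarith⟩
  · rintro ⟨i, hi, hi0⟩
    simp only [Finset.mem_insert, Finset.mem_singleton] at hi
    rcases hi with rfl | rfl | rfl
    · refine le_trans ?_ (le_max_left _ _)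
      linarith
    · refine le_trans ?_ (le_max_right _ _)
      refine le_trans ?_ (le_max_left _ _)
      linarith
    · refine le_trans ?_ (le_max_right _ _)
      refine le_trans ?_ (le_max_right _ _)
      linarith

theorem cell_map_bb_cont (k : ℕ) (i0 i1 i2 : Fin k) : Continuous (cell_map_bb k i0 i1 i2) := by
  refine continuous_pi fun i => ?_
  unfold cell_map_bb
  split_ifs <;> fun_prop

theorem cell_map_phi_cont (k : ℕ) (i0 i1 i2 : Fin k) : Continuous (cell_map_phi k i0 i1 i2) := by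
  have : cell_map_phi k i0 i1 i2 = fun b : Fin k → ℝ =>
      ((b i0 - b i1 / 2 - b i2 / 2 : ℝ) : ℂ) + ((√3 / 2 * (b i1 - b i2) : ℝ) : ℂ) * Complex.I := by
    funext b
    unfold cell_map_phi
    apply Complex.ext <;> simp
  rw [this]
  have c1 : Continuous fun b : Fin k → ℝ => (b i0 - b i1 / 2 - b i2 / 2 : ℝ) := by fun_prop
  have c2 : Continuous fun b : Fin k → ℝ => (√3 / 2 * (b i1 - b i2) : ℝ) := by fun_prop
  exact (Complex.continuous_ofReal.comp c1).add
    ((Complex.continuous_ofReal.comp c2).mul continuous_const)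

/-- pushing the product of a square and a triangle off its centre, after pulling back -/
theorem cell_map {A P : Type} [TopologicalSpace A] [TopologicalSpace P] {x : A → ℂ}
    (hx : Continuous x) {k : ℕ} {β : P → Fin k → ℝ} (hβ : Continuous β)
    (htor : ∀ (F : Set P) (u : P → ℂ), IsClosed F → Continuous u → (∀ p ∈ F, u p ≠ 0) →
      ∃ κ : P → ℂ, Continuous κ ∧ (∀ p, κ p ≠ 0) ∧ ∀ p ∈ F, κ p = u p ^ 2)
    {l r b t : ℝ} {c : ℂ} (h1 : c.re ∈ Ioo l r) (h2 : c.im ∈ Ioo b t) {g : A → ℂ}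
    (hg : Continuous g) (hgx : ∀ a, g a ^ 2 = x a - c) (τ : Finset (Fin k)) (hτ : τ.card = 3) :
    ∃ G : A × P → ℂ × (Fin k → ℝ), Continuous G ∧
      (∀ z, (G z).1 ∈ Box l r b t ∧ (G z).2 ∈ Simp k τ ∧
        ((G z).1 ∈ BoxBd l r b t ∨ ∃ i ∈ τ, (G z).2 i = 0)) ∧
      ∀ z : A × P, x z.1 ∈ Box l r b t → β z.2 ∈ Simp k τ →
        (x z.1 ∈ BoxBd l r b t ∨ ∃ i ∈ τ, β z.2 i = 0) → G z = (x z.1, β z.2) := by
  obtain ⟨i0, i1, i2, h01, h02, h12, rfl⟩ := Finset.card_eq_three.mp hτ
  set u : P → ℂ := fun p => cell_map_phi k i0 i1 i2 (β p) with hu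
  have huc : Continuous u := (cell_map_phi_cont k i0 i1 i2).comp hβ
  obtain ⟨κ0, hκ0c, hκ0, hκ0F⟩ := htor {p | 1 ≤ cell_map_NT (u p)} u
    (isClosed_le continuous_const (cell_map_NT_cont.comp huc)) huc (by
      intro p hp h0
      have : (1 : ℝ) ≤ cell_map_NT (u p) := hp
      rw [h0, cell_map_NT_zero] at this
      norm_num at this)
  set κ : A × P → ℂ := fun z => κ0 z.2 / ((‖κ0 z.2‖ : ℝ) : ℂ) with hκ
  have hn0 : ∀ p, ((‖κ0 p‖ : ℝ) : ℂ) ≠ 0 := fun p => by
    rw [Ne, Complex.ofReal_eq_zero, norm_eq_zero]; exact hκ0 p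
  have hκc : Continuous κ := by
    refine Continuous.div (hκ0c.comp continuous_snd)
      (Complex.continuous_ofReal.comp (hκ0c.comp continuous_snd).norm) (fun z => hn0 z.2)
  have hκ1 : ∀ z, ‖κ z‖ = 1 := by
    intro z
    simp only [hκ]
    rw [norm_div, Complex.norm_real, norm_norm, div_self (norm_ne_zero_iff.mpr (hκ0 z.2))]
  obtain ⟨F1, F2, hF1c, hF2c, hF, hFb⟩ := push (Z := A × P) (ξ := fun z => x z.1 - c)
    (ζ := fun z => u z.2) (g := fun z => g z.1) (κ := κ)
    (N1 := fun z => min 1 (cell_map_NS l r b t c (x z.1 - c)))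
    (N2 := fun z => min 1 (cell_map_NT (u z.2)))
    (huc.comp continuous_snd) (hg.comp continuous_fst) hκc
    (continuous_const.min ((cell_map_NS_cont l r b t c).comp
      ((hx.comp continuous_fst).sub continuous_const)))
    (continuous_const.min (cell_map_NT_cont.comp (huc.comp continuous_snd)))
    (fun z => hgx z.1) hκ1
    (fun z => ⟨le_min zero_le_one (cell_map_NS_nonneg h1 h2 _), min_le_left _ _⟩)
    (fun z => ⟨le_min zero_le_one (cell_map_NT_nonneg _), min_le_left _ _⟩)
    (by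
      intro z hz h0
      apply hz
      have h0' : x z.1 - c = 0 := h0
      show min 1 (cell_map_NS l r b t c (x z.1 - c)) = 0
      rw [h0', cell_map_NS_zero]
      norm_num)
    (by
      intro z hz
      have hge : 1 ≤ cell_map_NT (u z.2) := by
        by_contra hc
        push Not at hc
        rw [min_eq_right hc.le] at hz
        linarith
      have hu0 : u z.2 ≠ 0 := by
        intro h0
        rw [h0, cell_map_NT_zero] at hge
        norm_num at hge
      refine ⟨hu0, ?_⟩
      have e1 : κ0 z.2 = u z.2 ^ 2 := hκ0F z.2 hge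
      simp only [hκ]
      rw [e1, norm_pow]
      have hnu : ((‖u z.2‖ : ℝ) : ℂ) ≠ 0 := by
        rw [Ne, Complex.ofReal_eq_zero, norm_eq_zero]; exact hu0
      push_cast
      field_simp)
  set m : A × P → ℝ := fun z => max (cell_map_NS l r b t c (F1 z)) (cell_map_NT (F2 z)) with hm
  have hmc : Continuous m := ((cell_map_NS_cont l r b t c).comp hF1c).max
    (cell_map_NT_cont.comp hF2c)
  have hmpos : ∀ z, 0 < m z := by
    intro z
    rcases hF z with h | h
    · exact lt_of_lt_of_le (cell_map_NS_pos h1 h2 h) (le_max_left _ _)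
    · exact lt_of_lt_of_le (cell_map_NT_pos h) (le_max_right _ _)
  have hmC : Continuous fun z => ((m z : ℝ) : ℂ) := Complex.continuous_ofReal.comp hmc
  have hmC0 : ∀ z, ((m z : ℝ) : ℂ) ≠ 0 := fun z => by
    rw [Ne, Complex.ofReal_eq_zero]; exact (hmpos z).ne'
  have hS : ∀ z, cell_map_NS l r b t c (F1 z / (m z : ℝ)) ≤ 1 := by
    intro z
    rw [cell_map_NS_div _ _ _ _ _ _ (hmpos z), div_le_one (hmpos z)]
    exact le_max_left _ _
  have hT : ∀ z, cell_map_NT (F2 z / (m z : ℝ)) ≤ 1 := by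
    intro z
    rw [cell_map_NT_div _ (hmpos z), div_le_one (hmpos z)]
    exact le_max_right _ _
  have hST : ∀ z, cell_map_NS l r b t c (F1 z / (m z : ℝ)) = 1 ∨
      cell_map_NT (F2 z / (m z : ℝ)) = 1 := by
    intro z
    rw [cell_map_NS_div _ _ _ _ _ _ (hmpos z), cell_map_NT_div _ (hmpos z)]
    rcases max_choice (cell_map_NS l r b t c (F1 z)) (cell_map_NT (F2 z)) with e | e
    · left
      rw [div_eq_one_iff_eq (hmpos z).ne']
      exact e.symm
    · right
      rw [div_eq_one_iff_eq (hmpos z).ne']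
      exact e.symm
  refine ⟨fun z => (c + F1 z / (m z : ℝ), cell_map_bb k i0 i1 i2 (F2 z / (m z : ℝ))), ?_, ?_, ?_⟩
  · refine Continuous.prodMk ?_ ?_
    · exact continuous_const.add (hF1c.div hmC hmC0)
    · exact (cell_map_bb_cont k i0 i1 i2).comp (hF2c.div hmC hmC0)
  · intro z
    refine ⟨(cell_map_box h1 h2 _).mp (hS z), cell_map_bb_simp h01 h02 h12 _ (hT z), ?_⟩
    rcases hST z with h | h
    · exact Or.inl ((cell_map_boxBd h1 h2 _).mp h)
    · exact Or.inr (cell_map_bb_bd h01 h02 h12 _ h)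
  · intro z hzB hzS hbd
    have hNT := cell_map_NT_phi h01 h02 h12 hzS
    have hcx : c + (x z.1 - c) = x z.1 := by ring
    have hNS : cell_map_NS l r b t c (x z.1 - c) ≤ 1 := by
      rw [cell_map_box h1 h2, hcx]; exact hzB
    have hor : cell_map_NS l r b t c (x z.1 - c) = 1 ∨ cell_map_NT (u z.2) = 1 := by
      rcases hbd with h | h
      · left
        rw [cell_map_boxBd h1 h2, hcx]; exact h
      · right
        exact le_antisymm hNT.1 (hNT.2 h)
    obtain ⟨f1, f2⟩ := hFb z (by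
      rcases hor with h | h
      · left
        show min 1 (cell_map_NS l r b t c (x z.1 - c)) = 1
        rw [h, min_self]
      · right
        show min 1 (cell_map_NT (u z.2)) = 1
        rw [h, min_self])
    have hm1 : m z = 1 := by
      simp only [hm]
      rw [f1, f2]
      rcases hor with h | h
      · rw [h, max_eq_left hNT.1]
      · rw [h, max_eq_right hNS]
    simp only
    rw [hm1, f1, f2]
    simp only [Complex.ofReal_one, div_one]
    rw [hcx]
    congr 1
    exact cell_map_bb_phi h01 h02 h12 hzS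

end SymCM
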