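import Mathlib
import Pool.Agent.SymCM.Defs
set_option autoImplicit false
open Set Topology

namespace SymCM

theorem glue_cells_grid {n : ℕ} (hn : 0 < n) {t : ℝ} (h0 : 0 ≤ t) (h1 : t ≤ 1) :
    ∃ i : ℕ, i < n ∧ t ∈ Icc ((i : ℝ) / n) (((i : ℝ) + 1) / n) := by
  have hn' : (0 : ℝ) < n := by exact_mod_cast hn
  by_cases h : t = 1
  · refine ⟨n - 1, by omega, ?_, ?_⟩
    · rw [h, div_le_one hn']
      have : ((n - 1 : ℕ) : ℝ) ≤ n := by exact_mod_cast Nat.sub_le n 1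
      exact this
    · rw [h, le_div_iff₀ hn']
      have : ((n - 1 : ℕ) : ℝ) + 1 = n := by
        have : (n - 1) + 1 = n := by omega
        exact_mod_cast this
      rw [this]; linarith
  · have ht : t < 1 := lt_of_le_of_ne h1 h
    refine ⟨⌊t * n⌋₊, ?_, ?_, ?_⟩
    · rw [Nat.floor_lt (by positivity)]
      nlinarith
    · rw [div_le_iff₀ hn']
      exact Nat.floor_le (by positivity)
    · rw [le_div_iff₀ hn']
      exact (Nat.lt_floor_add_one _).le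

theorem glue_cells_bd {n : ℕ} {i i' : ℕ} (hne : i ≠ i') {t : ℝ}
    (h : t ∈ Icc ((i : ℝ) / n) (((i : ℝ) + 1) / n))
    (h' : t ∈ Icc ((i' : ℝ) / n) (((i' : ℝ) + 1) / n)) :
    t = (i : ℝ) / n ∨ t = ((i : ℝ) + 1) / n := by
  have hn0 : (0 : ℝ) ≤ n := Nat.cast_nonneg n
  rcases lt_or_gt_of_ne hne with hlt | hlt
  · right
    refine le_antisymm h.2 (le_trans ?_ h'.1)
    have : ((i : ℝ) + 1) ≤ i' := by exact_mod_cast hlt
    gcongr
  · left
    refine le_antisymm (le_trans h'.2 ?_) h.1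
    have : ((i' : ℝ) + 1) ≤ i := by exact_mod_cast hlt
    gcongr

/-- gluing the cell maps -/
theorem glue_cells {A P : Type} [TopologicalSpace A] [TopologicalSpace P] {x : A → ℂ}
    (hx : Continuous x) (hx01 : ∀ a, x a ∈ Box 0 1 0 1) {k : ℕ} (hk : 3 ≤ k) {β : P → Fin k → ℝ}
    (hβ : Continuous β) (hβ0 : ∀ p i, 0 ≤ β p i) (hβ1 : ∀ p, ∑ i, β p i = 1)
    (hβ3 : ∀ p, {i | β p i ≠ 0}.ncard ≤ 3) {n : ℕ} (hn : 0 < n)
    (hcell : ∀ (i j : ℕ), i < n → j < n → ∀ τ : Finset (Fin k), τ.card = 3 →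
      ∃ G : A × P → ℂ × (Fin k → ℝ), Continuous G ∧
      (∀ z, (G z).1 ∈ Box (i / n) ((i + 1) / n) (j / n) ((j + 1) / n) ∧ (G z).2 ∈ Simp k τ ∧
        ((G z).1 ∈ BoxBd (i / n) ((i + 1) / n) (j / n) ((j + 1) / n) ∨ ∃ i ∈ τ, (G z).2 i = 0)) ∧
      ∀ z : A × P, x z.1 ∈ Box (i / n) ((i + 1) / n) (j / n) ((j + 1) / n) → β z.2 ∈ Simp k τ →
        (x z.1 ∈ BoxBd (i / n) ((i + 1) / n) (j / n) ((j + 1) / n) ∨ ∃ i ∈ τ, β z.2 i = 0) →
        G z = (x z.1, β z.2)) :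
    ∃ G : A × P → ℂ × (Fin k → ℝ), Continuous G ∧ (∀ z, G z ∈ Skel n k) ∧
      ∀ z : A × P, ‖x z.1 - (G z).1‖ ≤ 2 / n ∧ ∀ i, (G z).2 i ≠ 0 → β z.2 i ≠ 0 := by
  classical
  choose G hGc hG1 hG2 using hcell
  have hn' : (0 : ℝ) < n := by exact_mod_cast hn
  let ι := Fin n × Fin n × {τ : Finset (Fin k) // τ.card = 3}
  let bx : ι → Set ℂ := fun q =>
    Box ((q.1 : ℕ) / n) (((q.1 : ℕ) + 1) / n) ((q.2.1 : ℕ) / n) (((q.2.1 : ℕ) + 1) / n)
  let bb : ι → Set ℂ := fun q =>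
    BoxBd ((q.1 : ℕ) / n) (((q.1 : ℕ) + 1) / n) ((q.2.1 : ℕ) / n) (((q.2.1 : ℕ) + 1) / n)
  let M : ι → Set (A × P) := fun q => {z | x z.1 ∈ bx q ∧ ∀ i', i' ∉ q.2.2.1 → β z.2 i' = 0}
  let F : ι → A × P → ℂ × (Fin k → ℝ) := fun q =>
    G q.1 q.2.1 q.1.2 q.2.1.2 q.2.2.1 q.2.2.2
  have hFc : ∀ q, Continuous (F q) := fun q => hGc _ _ _ _ _ _
  have hF1 : ∀ q z, (F q z).1 ∈ bx q ∧ (F q z).2 ∈ Simp k q.2.2.1 ∧
      ((F q z).1 ∈ bb q ∨ ∃ i ∈ q.2.2.1, (F q z).2 i = 0) := fun q z => hG1 _ _ _ _ _ _ z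
  have hsimp : ∀ (q : ι) (z : A × P), z ∈ M q → β z.2 ∈ Simp k q.2.2.1 := fun q z hz =>
    ⟨hβ0 _, hβ1 _, hz.2⟩
  have hF2 : ∀ (q : ι) (z : A × P), z ∈ M q → (x z.1 ∈ bb q ∨ ∃ i ∈ q.2.2.1, β z.2 i = 0) →
      F q z = (x z.1, β z.2) := fun q z hz h =>
    hG2 _ _ _ _ _ _ z hz.1 (hsimp q z hz) h
  -- the closed sets
  have hMcl : ∀ q, IsClosed (M q) := by
    intro q
    have hre : Continuous fun z : A × P => (x z.1).re :=
      Complex.continuous_re.comp (hx.comp continuous_fst)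
    have him : Continuous fun z : A × P => (x z.1).im :=
      Complex.continuous_im.comp (hx.comp continuous_fst)
    have hb : ∀ i', Continuous fun z : A × P => β z.2 i' := fun i' =>
      (continuous_apply i').comp (hβ.comp continuous_snd)
    have h1 : IsClosed {z : A × P | (x z.1).re ∈ Icc (((q.1 : ℕ) : ℝ) / n) ((((q.1 : ℕ) : ℝ) + 1) / n)} :=
      isClosed_Icc.preimage hre
    have h2 : IsClosed {z : A × P | (x z.1).im ∈ Icc (((q.2.1 : ℕ) : ℝ) / n) ((((q.2.1 : ℕ) : ℝ) + 1) / n)} :=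
      isClosed_Icc.preimage him
    have h3 : IsClosed {z : A × P | ∀ i', i' ∉ q.2.2.1 → β z.2 i' = 0} := by
      simp only [setOf_forall]
      exact isClosed_iInter fun i' => isClosed_iInter fun _ => isClosed_eq (hb i') continuous_const
    have : M q = ({z : A × P | (x z.1).re ∈ Icc (((q.1 : ℕ) : ℝ) / n) ((((q.1 : ℕ) : ℝ) + 1) / n)} ∩
        {z : A × P | (x z.1).im ∈ Icc (((q.2.1 : ℕ) : ℝ) / n) ((((q.2.1 : ℕ) : ℝ) + 1) / n)}) ∩
        {z : A × P | ∀ i', i' ∉ q.2.2.1 → β z.2 i' = 0} := by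
      ext z
      simp only [M, bx, Box, mem_setOf_eq, mem_inter_iff]
    rw [this]
    exact (h1.inter h2).inter h3
  -- they cover
  have hcov : ∀ z : A × P, ∃ q, z ∈ M q := by
    intro z
    obtain ⟨⟨hr0, hr1⟩, ⟨hi0, hi1⟩⟩ := hx01 z.1
    obtain ⟨i, hi, hti⟩ := glue_cells_grid hn hr0 hr1
    obtain ⟨j, hj, htj⟩ := glue_cells_grid hn hi0 hi1
    have hs : (Finset.univ.filter fun i => β z.2 i ≠ 0).card ≤ 3 := by
      have := hβ3 z.2
      rw [Set.ncard_eq_toFinset_card'] at this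
      convert this using 2
      ext a; simp
    obtain ⟨τ, hτ1, hτ2⟩ := Finset.exists_superset_card_eq hs (by simpa using hk)
    refine ⟨(⟨i, hi⟩, ⟨j, hj⟩, ⟨τ, hτ2⟩), ⟨hti, htj⟩, ?_⟩
    intro i' hi'
    by_contra hne
    exact hi' (hτ1 (by simpa using hne))
  -- agreement
  have hagree : ∀ (q q' : ι) (z : A × P), z ∈ M q → z ∈ M q' → F q z = F q' z := by
    have key : ∀ (q q' : ι) (z : A × P), q ≠ q' → z ∈ M q → z ∈ M q' →
        (x z.1 ∈ bb q ∨ ∃ i ∈ q.2.2.1, β z.2 i = 0) := by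
      intro q q' z hne hz hz'
      by_cases h1 : q.1 = q'.1
      · by_cases h2 : q.2.1 = q'.2.1
        · right
          have h3 : q.2.2.1 ≠ q'.2.2.1 := by
            intro h3
            exact hne (Prod.ext h1 (Prod.ext h2 (Subtype.ext h3)))
          have h4 : ¬ q.2.2.1 ⊆ q'.2.2.1 := by
            intro h4
            exact h3 (Finset.eq_of_subset_of_card_le h4 (by rw [q.2.2.2, q'.2.2.2]))
          rw [Finset.not_subset] at h4
          obtain ⟨a, ha, ha'⟩ := h4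
          exact ⟨a, ha, hz'.2 a ha'⟩
        · left
          have h3 : ((q.2.1 : ℕ)) ≠ (q'.2.1 : ℕ) := fun h => h2 (Fin.ext h)
          refine ⟨hz.1, ?_⟩
          rcases glue_cells_bd h3 hz.1.2 hz'.1.2 with h | h
          · exact Or.inr (Or.inr (Or.inl h))
          · exact Or.inr (Or.inr (Or.inr h))
      · left
        have h3 : ((q.1 : ℕ)) ≠ (q'.1 : ℕ) := fun h => h1 (Fin.ext h)
        refine ⟨hz.1, ?_⟩
        rcases glue_cells_bd h3 hz.1.1 hz'.1.1 with h | h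
        · exact Or.inl h
        · exact Or.inr (Or.inl h)
    intro q q' z hz hz'
    by_cases hne : q = q'
    · rw [hne]
    · rw [hF2 q z hz (key q q' z hne hz hz'), hF2 q' z hz' (key q' q z (Ne.symm hne) hz' hz)]
  choose c hc using hcov
  let Gf : A × P → ℂ × (Fin k → ℝ) := fun z => F (c z) z
  have hGf : ∀ q z, z ∈ M q → Gf z = F q z := fun q z hz => hagree _ _ z (hc z) hz
  refine ⟨Gf, ?_, ?_, ?_⟩
  · refine LocallyFinite.continuous (f := M) (locallyFinite_of_finite M) ?_ hMcl ?_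
    · rw [eq_univ_iff_forall]
      intro z
      exact mem_iUnion.mpr ⟨c z, hc z⟩
    · intro q
      exact (hFc q).continuousOn.congr fun z hz => hGf q z hz
  · intro z
    obtain ⟨h1, h2, h3⟩ := hF1 (c z) z
    have hGz : Gf z = F (c z) z := rfl
    rw [hGz]
    set q := c z with hq
    have hq1 : ((q.1 : ℕ) : ℝ) + 1 ≤ n := by exact_mod_cast q.1.2
    have hq2 : ((q.2.1 : ℕ) : ℝ) + 1 ≤ n := by exact_mod_cast q.2.1.2
    refine ⟨⟨⟨?_, ?_⟩, ⟨?_, ?_⟩⟩, ⟨q.2.2.1, q.2.2.2, h2⟩, ?_⟩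
    · exact le_trans (by positivity) h1.1.1
    · refine le_trans h1.1.2 ?_
      rw [div_le_one hn']; exact hq1
    · exact le_trans (by positivity) h1.2.1
    · refine le_trans h1.2.2 ?_
      rw [div_le_one hn']; exact hq2
    · rcases h3 with h3 | ⟨i0, hi0, h3⟩
      · left
        rcases h3.2 with h | h | h | h
        · exact ⟨q.1, q.1.2.le, Or.inl h⟩
        · exact ⟨(q.1 : ℕ) + 1, q.1.2, Or.inl (by rw [h]; push_cast; rfl)⟩
        · exact ⟨q.2.1, q.2.1.2.le, Or.inr h⟩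
        · exact ⟨(q.2.1 : ℕ) + 1, q.2.1.2, Or.inr (by rw [h]; push_cast; rfl)⟩
      · right
        refine ⟨q.2.2.1.erase i0, ?_, h2.1, h2.2.1, ?_⟩
        · rw [Finset.card_erase_of_mem hi0, q.2.2.2]
        · intro i hi
          by_cases hii : i = i0
          · rw [hii]; exact h3
          · exact h2.2.2 i fun hmem => hi (Finset.mem_erase.mpr ⟨hii, hmem⟩)
  · intro z
    obtain ⟨h1, h2, h3⟩ := hF1 (c z) z
    have hGz : Gf z = F (c z) z := rfl
    have hcz := hc z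
    rw [hGz]
    set q := c z with hq
    constructor
    · obtain ⟨⟨a1, a2⟩, ⟨a3, a4⟩⟩ := h1
      obtain ⟨⟨b1, b2⟩, ⟨b3, b4⟩⟩ := hcz.1
      refine le_trans (Complex.norm_le_abs_re_add_abs_im _) ?_
      have e1 : ((((q.1 : ℕ) : ℝ)) + 1) / n = ((q.1 : ℕ) : ℝ) / n + 1 / n := by ring
      have e2 : ((((q.2.1 : ℕ) : ℝ)) + 1) / n = ((q.2.1 : ℕ) : ℝ) / n + 1 / n := by ring
      have e3 : (2 : ℝ) / n = 1 / n + 1 / n := by ring
      rw [e1] at a2 b2
      rw [e2] at a4 b4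
      rw [e3]
      have r1 : |(x z.1 - (F q z).1).re| ≤ 1 / n := by
        rw [Complex.sub_re, abs_le]
        constructor <;> linarith
      have r2 : |(x z.1 - (F q z).1).im| ≤ 1 / n := by
        rw [Complex.sub_im, abs_le]
        constructor <;> linarith
      linarith
    · intro i0 hi0 hb
      apply hi0
      by_cases hmem : i0 ∈ q.2.2.1
      · rw [hF2 q z hcz (Or.inr ⟨i0, hmem, hb⟩)]
        exact hb
      · exact h2.2.2 i0 hmem

end SymCM
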