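import Mathlib
import Pool.Agent.SymCM.Defs
import Pool.Agent.SymCM.A2
import Pool.Agent.SymCM.A3
import Pool.Agent.SymCM.D2K
import Pool.Agent.SymCM.D2a
import Pool.Agent.SymCM.D2g
set_option autoImplicit false
open Set Topology

namespace SymCM

theorem symD2m_box_cover {A P : Type} [TopologicalSpace A] [CompactSpace A]
    [TopologicalSpace P] [CompactSpace P] (hne : Nonempty (A × P)) (k0 : ℕ)
    (U : Fin k0 → Set (A × P)) (hU : ∀ i, IsOpen (U i)) (hc : (⋃ i, U i) = univ) :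
    ∃ (kr : ℕ) (R : Fin kr → Set A) (kb : ℕ) (B : Fin kb → Set P), 3 ≤ kb ∧
      (∀ r, IsOpen (R r)) ∧ (∀ q, IsOpen (B q)) ∧ (⋃ r, R r) = univ ∧ (⋃ q, B q) = univ ∧
      ∀ r q, ∃ i, R r ×ˢ B q ⊆ U i := by
  classical
  obtain ⟨⟨a0, p0⟩⟩ := hne
  have hex : ∀ z : A × P, ∃ i, z ∈ U i := fun z => by
    have : z ∈ ⋃ i, U i := by rw [hc]; trivial
    simpa using this
  obtain ⟨i0, _⟩ := hex (a0, p0)
  -- local boxes
  have hbox : ∀ (a : A) (p : P), ∃ (u : Set A) (v : Set P), IsOpen u ∧ IsOpen v ∧ a ∈ u ∧ p ∈ v ∧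
      ∃ i, u ×ˢ v ⊆ U i := by
    intro a p
    obtain ⟨i, hi⟩ := hex (a, p)
    obtain ⟨u, v, hu, hv, ha, hp, huv⟩ := isOpen_prod_iff.1 (hU i) a p hi
    exact ⟨u, v, hu, hv, ha, hp, i, huv⟩
  choose u v hu hv hau hpv huv using hbox
  -- for each `a` a finite set of points of `P`
  have hfin : ∀ a : A, ∃ t : Finset P, (⋃ p ∈ t, v a p) = univ := by
    intro a
    obtain ⟨t, ht⟩ := isCompact_univ.elim_finite_subcover (fun p => v a p) (fun p => hv a p)
      (fun p _ => mem_iUnion.2 ⟨p, hpv a p⟩)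
    exact ⟨t, eq_univ_of_univ_subset ht⟩
  choose t ht using hfin
  obtain ⟨s, hs⟩ := isCompact_univ.elim_finite_subcover (fun a => ⋂ p ∈ t a, u a p)
    (fun a => isOpen_biInter_finset fun p _ => hu a p)
    (fun a _ => mem_iUnion.2 ⟨a, mem_iInter₂.2 fun p _ => hau a p⟩)
  let I := (a : s) → t a
  let e1 := Fintype.equivFin s
  let e2 := Fintype.equivFin (I ⊕ Fin 3)
  let B0 : I ⊕ Fin 3 → Set P := Sum.elim (fun φ => ⋂ a : s, v a (φ a)) (fun _ => ∅)
  refine ⟨Fintype.card s, fun r => ⋂ p ∈ t (e1.symm r), u (e1.symm r) p,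
    Fintype.card (I ⊕ Fin 3), fun q => B0 (e2.symm q), ?_, ?_, ?_, ?_, ?_, ?_⟩
  · rw [Fintype.card_sum, Fintype.card_fin]; omega
  · exact fun r => isOpen_biInter_finset fun p _ => hu _ p
  · have hB0 : ∀ w, IsOpen (B0 w) := by
      rintro (φ | j)
      · exact isOpen_iInter_of_finite fun a : s => hv _ _
      · exact isOpen_empty
    exact fun q => hB0 _
  · refine eq_univ_of_forall fun a => ?_
    have := hs (mem_univ a)
    simp only [mem_iUnion] at this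
    obtain ⟨a', ha', h⟩ := this
    refine mem_iUnion.2 ⟨e1 ⟨a', ha'⟩, ?_⟩
    simpa using h
  · refine eq_univ_of_forall fun p => ?_
    have h1 : ∀ a : s, ∃ p' : t a, p ∈ v a p' := by
      intro a
      have : p ∈ ⋃ p ∈ t a, v a p := by rw [ht]; trivial
      simp only [mem_iUnion] at this
      obtain ⟨p', hp', h⟩ := this
      exact ⟨⟨p', hp'⟩, h⟩
    choose φ hφ using h1
    refine mem_iUnion.2 ⟨e2 (Sum.inl φ), ?_⟩
    simp only [Equiv.symm_apply_apply, B0, Sum.elim_inl]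
    exact mem_iInter.2 hφ
  · intro r q
    rcases hq : e2.symm q with φ | j
    · obtain ⟨i, hi⟩ := huv (e1.symm r) (φ (e1.symm r))
      refine ⟨i, fun z hz => hi ⟨?_, ?_⟩⟩
      · exact mem_iInter₂.1 hz.1 _ (φ (e1.symm r)).2
      · have h2 : z.2 ∈ B0 (e2.symm q) := hz.2
        rw [hq] at h2
        exact mem_iInter.1 h2 (e1.symm r)
    · refine ⟨i0, fun z hz => ?_⟩
      have h2 : z.2 ∈ B0 (e2.symm q) := hz.2
      rw [hq] at h2
      exact absurd h2 (notMem_empty _)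

theorem symD2m_near {A : Type} [TopologicalSpace A] [CompactSpace A] {x : A → ℂ}
    (hx : Continuous x) (y : ℂ) (W : Set A) (hW : IsOpen W) (h : x ⁻¹' {y} ⊆ W) :
    ∃ ρ > 0, ∀ a, x a ∈ Metric.ball y ρ → a ∈ W := by
  have hC : IsCompact (x '' Wᶜ) := hW.isClosed_compl.isCompact.image hx
  have hy : y ∈ (x '' Wᶜ)ᶜ := by
    rintro ⟨a, ha, hxa⟩
    exact ha (h hxa)
  obtain ⟨ρ, hρ, hb⟩ := Metric.isOpen_iff.1 hC.isClosed.isOpen_compl y hy
  refine ⟨ρ, hρ, fun a ha => ?_⟩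
  by_contra hn
  exact hb ha ⟨a, hn, rfl⟩

/-- the product of a compactum which is light over the square with square roots of `x - c n` and of
a two-dimensional compactum with the torsion property has dimension at most three -/
theorem dimLE_prod_three {A P : Type} [TopologicalSpace A] [CompactSpace A] [T2Space A]
    [TopologicalSpace P] [CompactSpace P] [T2Space P] {x : A → ℂ} (hx : Continuous x)
    (hx01 : ∀ a, x a ∈ Box 0 1 0 1) (hlight : ∀ z, IsTotallyDisconnected (x ⁻¹' {z}))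
    {c : ℕ → ℂ} (hc : ∀ O : Set ℂ, IsOpen O →
      (O ∩ {z | z.re ∈ Ioo (0 : ℝ) 1 ∧ z.im ∈ Ioo (0 : ℝ) 1}).Nonempty → ∃ n, c n ∈ O)
    (hg : ∀ n, ∃ g : A → ℂ, Continuous g ∧ ∀ a, g a ^ 2 = x a - c n) (hP : DimLE P 2)
    (htor : ∀ (F : Set P) (u : P → ℂ), IsClosed F → Continuous u → (∀ p ∈ F, u p ≠ 0) →
      ∃ κ : P → ℂ, Continuous κ ∧ (∀ p, κ p ≠ 0) ∧ ∀ p ∈ F, κ p = u p ^ 2) :
    DimLE (A × P) 3 := by
  rcases isEmpty_or_nonempty (A × P) with hemp | hne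
  · intro k U hU hcU
    exact ⟨U, hU, fun i => subset_rfl, hcU, fun z => (hemp.false z).elim⟩
  apply dimLE_of_small_fibres
  intro k0 U hU hcU
  obtain ⟨kr, R, kb, B, hkb, hR, hB, hRc, hBc, hRB⟩ := symD2m_box_cover hne k0 U hU hcU
  obtain ⟨β, hβ, hβ0, hβ1, hβB, hβ3⟩ := hP.exists_pou kb B hB hBc
  -- neighbourhoods of fibres of `x`
  have hfib : ∀ y : ℂ, ∃ ρ > 0, ∃ (m : ℕ) (W : Fin m → Set A) (cc : Fin m → Fin kr),
      (∀ j, IsOpen (W j)) ∧ (∀ j, W j ⊆ R (cc j)) ∧ Pairwise (fun i j => Disjoint (W i) (W j)) ∧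
      ∀ a, x a ∈ Metric.ball y ρ → a ∈ ⋃ j, W j := by
    intro y
    obtain ⟨m, W, cc, hW, hWR, hWd, hWc⟩ := exists_disjoint_of_totallyDisconnected
      (F := x ⁻¹' {y}) (isClosed_singleton.preimage hx) (hlight y) R hR
      (by rw [hRc]; exact subset_univ _)
    obtain ⟨ρ, hρ, h⟩ := symD2m_near hx y (⋃ j, W j) (isOpen_iUnion hW) hWc
    exact ⟨ρ, hρ, m, W, cc, hW, hWR, hWd, h⟩
  choose ρ hρ m W cc hW hWR hWd hWc using hfib
  have hbox : IsCompact (Box 0 1 0 1) := by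
    have h1 : Box 0 1 0 1 = Complex.equivRealProdCLM.symm '' (Icc (0 : ℝ) 1 ×ˢ Icc (0 : ℝ) 1) := by
      ext z
      constructor
      · intro hz
        exact ⟨(z.re, z.im), ⟨hz.1, hz.2⟩, by
          apply Complex.ext <;> simp⟩
      · rintro ⟨⟨a, b⟩, ⟨ha, hb⟩, rfl⟩
        refine ⟨?_, ?_⟩
        · simpa using ha
        · simpa using hb
    rw [h1]
    exact (isCompact_Icc.prod isCompact_Icc).image Complex.equivRealProdCLM.symm.continuous
  obtain ⟨δ, hδ, hleb⟩ := lebesgue_number_lemma_of_metric hbox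
    (c := fun y : ℂ => Metric.ball y (ρ y)) (fun y => Metric.isOpen_ball)
    (fun y _ => mem_iUnion.2 ⟨y, Metric.mem_ball_self (hρ y)⟩)
  obtain ⟨n, hn⟩ := exists_nat_gt (2 / δ)
  have hn0 : 0 < n := by
    rcases Nat.eq_zero_or_pos n with h | h
    · subst h
      have : 0 < 2 / δ := by positivity
      norm_num at hn
      linarith
    · exact h
  have hn0' : (0 : ℝ) < n := by exact_mod_cast hn0
  have hnδ : 2 / (n : ℝ) < δ := by
    rw [div_lt_iff₀ hn0']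
    rw [div_lt_iff₀ hδ] at hn
    linarith
  have hcell : ∀ (i j : ℕ), i < n → j < n → ∀ τ : Finset (Fin kb), τ.card = 3 →
      ∃ G : A × P → ℂ × (Fin kb → ℝ), Continuous G ∧
      (∀ z, (G z).1 ∈ Box (i / n) ((i + 1) / n) (j / n) ((j + 1) / n) ∧ (G z).2 ∈ Simp kb τ ∧
        ((G z).1 ∈ BoxBd (i / n) ((i + 1) / n) (j / n) ((j + 1) / n) ∨ ∃ i ∈ τ, (G z).2 i = 0)) ∧
      ∀ z : A × P, x z.1 ∈ Box (i / n) ((i + 1) / n) (j / n) ((j + 1) / n) →
        β z.2 ∈ Simp kb τ →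
        (x z.1 ∈ BoxBd (i / n) ((i + 1) / n) (j / n) ((j + 1) / n) ∨ ∃ i ∈ τ, β z.2 i = 0) →
        G z = (x z.1, β z.2) := by
    intro i j hi hj τ hτ
    have hi' : (i : ℝ) + 1 ≤ n := by exact_mod_cast hi
    have hj' : (j : ℝ) + 1 ≤ n := by exact_mod_cast hj
    obtain ⟨m, hm⟩ := hc {z | z.re ∈ Ioo ((i : ℝ) / n) ((i + 1) / n) ∧
        z.im ∈ Ioo ((j : ℝ) / n) ((j + 1) / n)}
      (by
        refine IsOpen.inter ?_ ?_
        · exact isOpen_Ioo.preimage Complex.continuous_re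
        · exact isOpen_Ioo.preimage Complex.continuous_im)
      (by
        have key : ∀ i : ℕ, (i : ℝ) + 1 ≤ n → ((i : ℝ) + 1 / 2) / n ∈ Ioo ((i : ℝ) / n) ((i + 1) / n) ∧
            ((i : ℝ) + 1 / 2) / n ∈ Ioo (0 : ℝ) 1 := by
          intro i hi
          refine ⟨⟨?_, ?_⟩, ⟨?_, ?_⟩⟩
          · rw [div_lt_div_iff_of_pos_right hn0']; linarith
          · rw [div_lt_div_iff_of_pos_right hn0']; linarith
          · positivity
          · rw [div_lt_one hn0']; linarith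
        exact ⟨⟨((i : ℝ) + 1 / 2) / n, ((j : ℝ) + 1 / 2) / n⟩,
          ⟨(key i hi').1, (key j hj').1⟩, ⟨(key i hi').2, (key j hj').2⟩⟩)
    obtain ⟨g, hgc, hgx⟩ := hg m
    exact cell_map hx hβ htor hm.1 hm.2 hgc hgx τ hτ
  obtain ⟨G, hG, hGS, hGx⟩ := glue_cells hx hx01 hkb hβ hβ0 hβ1 (fun p => hβ3 p) hn0 hcell
  refine ⟨Skel n kb, inferInstance, isCompact_iff_compactSpace.1 (isCompact_Skel n kb),
    inferInstance, fun z => ⟨G z, hGS z⟩, dimLE_Skel n kb, hG.subtype_mk _, ?_⟩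
  rintro ⟨⟨y', b'⟩, hy⟩
  have hy1 : y' ∈ Box 0 1 0 1 := hy.1
  obtain ⟨τ, _, hτ⟩ := hy.2.1
  have hsum : ∑ i, b' i = 1 := hτ.2.1
  have hq : ∃ q, b' q ≠ 0 := by
    by_contra hcon
    push Not at hcon
    simp [hcon] at hsum
  obtain ⟨q, hq⟩ := hq
  obtain ⟨y0, hy0⟩ := hleb y' hy1
  choose ci hci using hRB
  refine ⟨m y0, fun j => W y0 j ×ˢ {p | β p q ≠ 0}, fun j => ci (cc y0 j) q, ?_, ?_, ?_, ?_⟩
  · intro j
    refine (hW y0 j).prod ?_
    have h1 : Continuous fun p => β p q := (continuous_apply q).comp hβ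
    exact isOpen_ne.preimage h1
  · intro j
    refine Subset.trans ?_ (hci (cc y0 j) q)
    exact prod_mono (hWR y0 j) (fun p hp => hβB p q hp)
  · intro j j' hjj'
    exact (hWd y0 hjj').set_prod_left _ _
  · intro z hz
    have hz' : G z = (y', b') := congrArg Subtype.val hz
    have h1 := (hGx z).1
    have h2 := (hGx z).2 q
    rw [hz'] at h1 h2
    have h3 : x z.1 ∈ Metric.ball y0 (ρ y0) := by
      apply hy0
      rw [Metric.mem_ball, dist_eq_norm]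
      exact lt_of_le_of_lt h1 hnδ
    have h4 := hWc y0 z.1 h3
    obtain ⟨j, hj⟩ := mem_iUnion.1 h4
    exact mem_iUnion.2 ⟨j, hj, h2 hq⟩

end SymCM
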