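import Mathlib
import Pool.Agent.SymCM.Defs
set_option autoImplicit false
open Set Topology

namespace SymCM

theorem covDimLE_iff {X : Type} [TopologicalSpace X] (n : ℕ) : CovDimLE X n ↔ DimLE X n := by
  classical
  constructor
  · intro h k U hU hcov
    obtain ⟨V, hVf, hVo, hVc, hVr, hVn⟩ := h (range U) (finite_range U)
      (by rintro _ ⟨i, rfl⟩; exact hU i) (by rw [sUnion_range]; exact hcov)
    have h1 : ∀ W : Set X, ∃ i : Option (Fin k), ∀ _ : W ∈ V, ∃ j, i = some j ∧ W ⊆ U j := by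
      intro W
      by_cases hW : W ∈ V
      · obtain ⟨_, ⟨j, rfl⟩, hj⟩ := hVr W hW
        exact ⟨some j, fun _ => ⟨j, rfl, hj⟩⟩
      · exact ⟨none, fun h => absurd h hW⟩
    choose ι hι using h1
    refine ⟨fun i => ⋃₀ {W | W ∈ V ∧ ι W = some i}, ?_, ?_, ?_, ?_⟩
    · intro i
      exact isOpen_sUnion fun W hW => hVo W hW.1
    · intro i x hx
      obtain ⟨W, ⟨hW, hWi⟩, hxW⟩ := hx
      obtain ⟨j, hj, hsub⟩ := hι W hW
      rw [hWi] at hj
      cases hj
      exact hsub hxW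
    · apply eq_univ_of_forall
      intro x
      have : x ∈ ⋃₀ V := by rw [hVc]; trivial
      obtain ⟨W, hW, hxW⟩ := this
      obtain ⟨j, hj, -⟩ := hι W hW
      exact mem_iUnion.2 ⟨j, W, ⟨hW, hj⟩, hxW⟩
    · intro x
      have hfin : {W ∈ V | x ∈ W}.Finite := hVf.subset (sep_subset _ _)
      have hsub : (some '' {i | x ∈ ⋃₀ {W | W ∈ V ∧ ι W = some i}}) ⊆ ι '' {W ∈ V | x ∈ W} := by
        rintro _ ⟨i, ⟨W, ⟨hW, hWi⟩, hxW⟩, rfl⟩
        exact ⟨W, ⟨hW, hxW⟩, hWi⟩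
      have h2 := ncard_le_ncard hsub (hfin.image _)
      rw [ncard_image_of_injective _ (Option.some_injective _)] at h2
      have h3 := ncard_image_le (f := ι) hfin
      have h4 := hVn x
      have h5 : {W ∈ V | x ∈ W}.ncard ≤ n + 1 := by exact_mod_cast h4
      exact (h2.trans h3).trans h5
  · intro h U hUf hUo hUc
    have e := hUf.toFinset.equivFin
    let f : Fin hUf.toFinset.card → Set X := fun i => (e.symm i).1
    have hf : ∀ i, f i ∈ U := fun i => hUf.mem_toFinset.1 (e.symm i).2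
    obtain ⟨V, hVo, hVs, hVc, hVn⟩ := h _ f (fun i => hUo _ (hf i)) (by
      apply eq_univ_of_forall
      intro x
      have : x ∈ ⋃₀ U := by rw [hUc]; trivial
      obtain ⟨W, hW, hxW⟩ := this
      refine mem_iUnion.2 ⟨e ⟨W, hUf.mem_toFinset.2 hW⟩, ?_⟩
      simpa [f] using hxW)
    refine ⟨range V, finite_range V, ?_, ?_, ?_, ?_⟩
    · rintro _ ⟨i, rfl⟩; exact hVo i
    · rw [sUnion_range]; exact hVc
    · rintro _ ⟨i, rfl⟩; exact ⟨f i, hf i, hVs i⟩
    · intro x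
      have hsub : {W ∈ range V | x ∈ W} ⊆ V '' {i | x ∈ V i} := by
        rintro _ ⟨⟨i, rfl⟩, hx⟩
        exact ⟨i, hx, rfl⟩
      have h2 := ncard_le_ncard hsub (toFinite _)
      have h3 := ncard_image_le (f := V) (s := {i | x ∈ V i}) (toFinite _)
      have := (h2.trans h3).trans (hVn x)
      exact_mod_cast this

theorem covDimLE_mono {X : Type} [TopologicalSpace X] {m n : ℤ} (h : CovDimLE X m) (hmn : m ≤ n) :
    CovDimLE X n := by
  intro U hUf hUo hUc
  obtain ⟨V, h1, h2, h3, h4, h5⟩ := h U hUf hUo hUc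
  exact ⟨V, h1, h2, h3, h4, fun x => (h5 x).trans (by linarith)⟩

theorem covDimLE_neg {X : Type} [TopologicalSpace X] {n : ℤ} (hn : n < 0) (h : CovDimLE X n) :
    IsEmpty X := by
  by_contra hne
  rw [not_isEmpty_iff] at hne
  obtain ⟨x⟩ := hne
  obtain ⟨V, h1, h2, h3, h4, h5⟩ := h {univ} (finite_singleton _)
    (by rintro _ rfl; exact isOpen_univ) (by simp)
  have hx : x ∈ ⋃₀ V := by rw [h3]; trivial
  obtain ⟨W, hW, hxW⟩ := hx
  have hfin : {W ∈ V | x ∈ W}.Finite := h1.subset (sep_subset _ _)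
  have hpos : 0 < {W ∈ V | x ∈ W}.ncard := by
    rw [ncard_pos hfin]
    exact ⟨W, hW, hxW⟩
  have := h5 x
  have h6 : (1 : ℤ) ≤ ({W ∈ V | x ∈ W}.ncard : ℤ) := by exact_mod_cast hpos
  linarith

end SymCM
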