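import Mathlib
import Pool.Agent.SymCM.Defs
import Pool.Agent.SymCM.A1
import Pool.Agent.SymCM.A3
import Pool.Agent.SymCM.C3
import Pool.Agent.SymCM.CP
import Pool.Agent.SymCM.D1
import Pool.Agent.SymCM.D2m
set_option autoImplicit false
open Set Topology

namespace SymCM

/-- the four pieces: dimension of the product -/
theorem dimLE_four_pieces {c d : ℕ → ℂ} (hd : Function.Injective d)
    (hd1 : ∀ n, (d n).re ∈ Ioo (0 : ℝ) 1 ∧ (d n).im ∈ Ioo (0 : ℝ) 1)
    (hdense : ∀ W : Set ℂ, IsOpen W → (W ∩ {z | z.re ∈ Ioo (0 : ℝ) 1 ∧ z.im ∈ Ioo (0 : ℝ) 1}).Nonempty →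
      ∃ l, d l ∈ W)
    (hcdense : ∀ W : Set ℂ, IsOpen W → (W ∩ {z | z.re ∈ Ioo (3 : ℝ) 4 ∧ z.im ∈ Ioo (0 : ℝ) 1}).Nonempty →
      ∃ l, c l ∈ W)
    {E : Type} [TopologicalSpace E] [CompactSpace E] [T2Space E] {j : E → ℂ × (ℕ → ℂ) × (ℕ → ℂ)}
    (hj : Continuous j) (hji : Function.Injective j) (hjT : ∀ p, j p ∈ TT c d) (P : Fin 4 → Set E)
    (hP : ∀ i, IsClosed (P i)) (h0 : ∀ p ∈ P 0, (j p).1.re ≤ 1) (h1 : ∀ p ∈ P 1, (j p).1.re ≤ 1)
    (h2 : ∀ p ∈ P 2, 3 ≤ (j p).1.re) (h3 : ∀ p ∈ P 3, 3 ≤ (j p).1.re) :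
    DimLE (∀ i, P i) 6 := by
  haveI : CompactSpace (PiR 0 1 d) := isCompact_iff_compactSpace.mp (isCompact_PiR 0 1 d)
  haveI : CompactSpace (AR 3 4 c) := isCompact_iff_compactSpace.mp (isCompact_AR 3 4 c)
  haveI : ∀ i, CompactSpace (P i) := fun i => isCompact_iff_compactSpace.mp (hP i).isCompact
  -- Step 1
  have hA3 : DimLE (AR 3 4 c × PiR 0 1 d) 3 := by
    refine dimLE_prod_three (A := AR 3 4 c) (P := PiR 0 1 d) (x := fun a => a.1.1 - 3) ?_ ?_ ?_
      (c := fun n => c n - 3) ?_ ?_ (dimLE_PiR 0 1 hd) (PiR_torsion hd hd1 hdense)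
    · fun_prop
    · intro a
      have h := a.2.1
      simp only [Box, mem_setOf_eq, mem_Icc] at h
      simp only [Box, mem_setOf_eq, mem_Icc, Complex.sub_re, Complex.sub_im]
      norm_num
      constructor
      · constructor <;> linarith [h.1.1, h.1.2]
      · exact h.2
    · intro z
      have h := AR_fibre_totallyDisconnected 3 4 c (z + 3)
      have he : (fun a : AR 3 4 c => a.1.1 - 3) ⁻¹' {z} = {p : AR 3 4 c | p.1.1 = z + 3} := by
        ext p
        simp only [mem_preimage, mem_singleton_iff, mem_setOf_eq]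
        exact sub_eq_iff_eq_add
      rw [he]; exact h
    · intro O hO hne
      have hW : IsOpen ((fun z : ℂ => z - 3) ⁻¹' O) := hO.preimage (by fun_prop)
      obtain ⟨z, hz, hz1, hz2⟩ := hne
      obtain ⟨l, hl⟩ := hcdense _ hW ⟨z + 3, by simpa using hz, by
        simp only [mem_Ioo, Complex.add_re, Complex.add_im, mem_setOf_eq] at *
        norm_num
        exact ⟨⟨by linarith [hz1.1], by linarith [hz1.2]⟩, hz2⟩⟩
      exact ⟨l, hl⟩
    · intro n
      obtain ⟨g, hg, hgs⟩ := AR_sqrt (a := 3) (b := 4) (by norm_num) c n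
      exact ⟨g, hg, fun a => by rw [hgs a]; ring⟩
  -- Step 2
  have h6 : DimLE ((AR 3 4 c × PiR 0 1 d) × (AR 3 4 c × PiR 0 1 d)) 6 := DimLE.prod hA3 hA3
  -- Step 3
  have hbmem : ∀ p : E, (j p).1.re ≤ 1 → ((j p).1, (j p).2.2) ∈ PiR 0 1 d := by
    intro p hp
    have h := hjT p
    simp only [TT, Box, mem_setOf_eq, mem_Icc] at h
    simp only [PiR, Box, mem_setOf_eq, mem_Icc]
    exact ⟨⟨⟨h.1.1.1, hp⟩, h.1.2⟩, fun n => (h.2 n).2⟩
  have hamem : ∀ p : E, 3 ≤ (j p).1.re → ((j p).1, (j p).2.1) ∈ AR 3 4 c := by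
    intro p hp
    have h := hjT p
    simp only [TT, Box, mem_setOf_eq, mem_Icc] at h
    simp only [AR, Box, mem_setOf_eq, mem_Icc]
    refine ⟨⟨⟨hp, h.1.1.2⟩, h.1.2⟩, fun n => ?_⟩
    have h' := (h.2 n).1
    rwa [max_eq_right (by linarith)] at h'
  have hbinj : ∀ p q : E, (j p).1.re ≤ 1 → (j q).1.re ≤ 1 → (j p).1 = (j q).1 →
      (j p).2.2 = (j q).2.2 → p = q := by
    intro p q hp hq h1 h2
    apply hji
    have hv : ∀ r : E, (j r).1.re ≤ 1 → (j r).2.1 = 0 := by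
      intro r hr
      funext n
      have h := ((hjT r).2 n).1
      rw [max_eq_left (by linarith)] at h
      simpa using h
    refine Prod.ext h1 (Prod.ext ?_ h2)
    rw [hv p hp, hv q hq]
  have hainj : ∀ p q : E, 3 ≤ (j p).1.re → 3 ≤ (j q).1.re → (j p).1 = (j q).1 →
      (j p).2.1 = (j q).2.1 → p = q := by
    intro p q hp hq h1 h2
    apply hji
    have hv : ∀ r : E, 3 ≤ (j r).1.re → (j r).2.2 = Yf d (j r).1 := by
      intro r hr
      funext n
      have h := ((hjT r).2 n).2.2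
      refine eq_Yf d ?_ h
      intro he
      have := (hd1 n).1.2
      rw [← he] at this
      linarith
    refine Prod.ext h1 (Prod.ext h2 ?_)
    rw [hv p hp, hv q hq, h1]
  let F : (∀ i, P i) → (AR 3 4 c × PiR 0 1 d) × (AR 3 4 c × PiR 0 1 d) := fun p =>
    ((⟨((j (p 2)).1, (j (p 2)).2.1), hamem _ (h2 _ (p 2).2)⟩,
      ⟨((j (p 0)).1, (j (p 0)).2.2), hbmem _ (h0 _ (p 0).2)⟩),
     (⟨((j (p 3)).1, (j (p 3)).2.1), hamem _ (h3 _ (p 3).2)⟩,
      ⟨((j (p 1)).1, (j (p 1)).2.2), hbmem _ (h1 _ (p 1).2)⟩))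
  have hjc : ∀ i : Fin 4, Continuous (fun p : ∀ i, P i => j (p i)) := fun i =>
    hj.comp (continuous_subtype_val.comp (continuous_apply i))
  have hF : Continuous F := by
    have e0 := hjc 0
    have e1 := hjc 1
    have e2 := hjc 2
    have e3 := hjc 3
    refine Continuous.prodMk (Continuous.prodMk ?_ ?_) (Continuous.prodMk ?_ ?_)
    · exact Continuous.subtype_mk (e2.fst.prodMk e2.snd.fst) _
    · exact Continuous.subtype_mk (e0.fst.prodMk e0.snd.snd) _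
    · exact Continuous.subtype_mk (e3.fst.prodMk e3.snd.fst) _
    · exact Continuous.subtype_mk (e1.fst.prodMk e1.snd.snd) _
  have hFi : Function.Injective F := by
    intro p q hpq
    simp only [F, Prod.mk.injEq, Subtype.mk.injEq] at hpq
    obtain ⟨⟨⟨a1, a2⟩, b1, b2⟩, ⟨a3, a4⟩, b3, b4⟩ := hpq
    funext i
    apply Subtype.ext
    fin_cases i
    · exact hbinj _ _ (h0 _ (p 0).2) (h0 _ (q 0).2) b1 b2
    · exact hbinj _ _ (h1 _ (p 1).2) (h1 _ (q 1).2) b3 b4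
    · exact hainj _ _ (h2 _ (p 2).2) (h2 _ (q 2).2) a1 a2
    · exact hainj _ _ (h3 _ (p 3).2) (h3 _ (q 3).2) a3 a4
  exact DimLE.of_injective hF hFi h6

end SymCM
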