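import Mathlib
import Pool.Agent.SymCM.Defs
import Pool.Agent.SymCM.A1
import Pool.Agent.SymCM.DEQ
set_option autoImplicit false
open Set Topology

namespace SymCM

/-! auxiliary lemmas for SYM-S1 -/

section j942

open TopologicalSpace

attribute [local instance] TopologicalSpace.vietoris

theorem j942_encard_range {E : Type} {m : ℕ} (x : Fin m → E) : (range x).encard ≤ m := by
  rw [← image_univ]
  refine (encard_image_le _ _).trans ?_
  simp

/-- the set of values of a tuple, as a point of the symmetric product -/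
noncomputable def j942Phi {E : Type} [MetricSpace E] (m : ℕ) [Nonempty (Fin m)] (x : Fin m → E) :
    SymProd E m :=
  ⟨⟨⟨range x, (finite_range x).isCompact⟩, range_nonempty x⟩, j942_encard_range x⟩

theorem j942Phi_coe {E : Type} [MetricSpace E] (m : ℕ) [Nonempty (Fin m)] (x : Fin m → E) :
    (((j942Phi m x).1 : NonemptyCompacts E) : Set E) = range x := rfl

theorem j942_val_continuous {E : Type} [MetricSpace E] {m : ℕ} :
    Continuous (fun K : SymProd E m => (K.1 : NonemptyCompacts E)) :=
  continuous_subtype_val (p := fun K : NonemptyCompacts E => (K : Set E).encard ≤ m)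

theorem j942_ext {E : Type} [MetricSpace E] {m : ℕ} {K L : SymProd E m}
    (h : ((K.1 : NonemptyCompacts E) : Set E) = ((L.1 : NonemptyCompacts E) : Set E)) : K = L :=
  Subtype.ext (SetLike.coe_injective h)

theorem j942Phi_continuous {E : Type} [MetricSpace E] (m : ℕ) [Nonempty (Fin m)] :
    Continuous (j942Phi m : (Fin m → E) → SymProd E m) := by
  have h1 : Continuous (fun x : Fin m → E => ((j942Phi m x).1 : NonemptyCompacts E)) := by
    rw [NonemptyCompacts.isEmbedding_coe.continuous_iff]
    exact vietoris.continuous_range_of_finite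
  exact Continuous.subtype_mk (p := fun K : NonemptyCompacts E => (K : Set E).encard ≤ m) h1
    (fun x => (j942Phi m x).2)

theorem j942Phi_surjective {E : Type} [MetricSpace E] (m : ℕ) [Nonempty (Fin m)] :
    Function.Surjective (j942Phi m : (Fin m → E) → SymProd E m) := by
  intro K
  have hK : ((K.1 : NonemptyCompacts E) : Set E).encard ≤ m := K.2
  have hne : ((K.1 : NonemptyCompacts E) : Set E).Nonempty := K.1.nonempty
  have hfin : ((K.1 : NonemptyCompacts E) : Set E).Finite := finite_of_encard_le_coe hK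
  have := hfin.fintype
  have := hne.to_subtype
  have hcard : Fintype.card ((K.1 : NonemptyCompacts E) : Set E) ≤ Fintype.card (Fin m) := by
    rw [Fintype.card_fin]
    rw [encard_eq_coe_toFinset_card, toFinset_card] at hK
    exact_mod_cast hK
  obtain ⟨f⟩ := Function.Embedding.nonempty_of_card_le hcard
  refine ⟨fun i => (Function.invFun f i : ((K.1 : NonemptyCompacts E) : Set E)), j942_ext ?_⟩
  rw [j942Phi_coe]
  have h1 : range (fun i => ((Function.invFun f i : ((K.1 : NonemptyCompacts E) : Set E)) : E)) =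
      Subtype.val '' (range (Function.invFun f)) := by
    rw [← range_comp]
    rfl
  rw [h1, (Function.invFun_surjective f.injective).range_eq, image_univ, Subtype.range_coe]

end j942

instance compactSpace_symProd (E : Type) [MetricSpace E] [CompactSpace E] (m : ℕ) :
    CompactSpace (SymProd E m) := by
  rcases Nat.eq_zero_or_pos m with rfl | hm
  · have : IsEmpty (SymProd E 0) := by
      refine ⟨fun K => ?_⟩
      have h1 : ((K.1 : TopologicalSpace.NonemptyCompacts E) : Set E).encard ≤ ((0 : ℕ) : ℕ∞) :=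
        K.2
      have h2 : ((K.1 : TopologicalSpace.NonemptyCompacts E) : Set E).Nonempty := K.1.nonempty
      exact h2.ne_empty (encard_eq_zero.1 (le_antisymm (h1.trans (by simp)) zero_le))
    infer_instance
  · have : Nonempty (Fin m) := ⟨⟨0, hm⟩⟩
    refine ⟨?_⟩
    rw [← (j942Phi_surjective (E := E) m).range_eq]
    exact isCompact_range (j942Phi_continuous m)

theorem sym_not_dimLE {E : Type} [MetricSpace E] [CompactSpace E] {X : Type} [TopologicalSpace X]
    [CompactSpace X] (σ : Fin 4 → X → E) (hσ : ∀ i, Continuous (σ i))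
    (hinj : ∀ i, Function.Injective (σ i)) (hdisj : ∀ i j, i ≠ j → ∀ x y, σ i x ≠ σ j y) {n : ℕ}
    (h : ¬ DimLE (Fin 4 → X) n) : ¬ DimLE (SymProd E 4) n := by
  intro hd
  apply h
  refine DimLE.of_injective (f := fun t : Fin 4 → X => j942Phi 4 (fun i => σ i (t i))) ?_ ?_ hd
  · refine (j942Phi_continuous 4).comp ?_
    exact continuous_pi fun i => (hσ i).comp (continuous_apply i)
  · intro t s hts
    have h1 : range (fun i => σ i (t i)) = range (fun i => σ i (s i)) := by
      rw [← j942Phi_coe 4, ← j942Phi_coe 4]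
      exact congrArg (fun K : SymProd E 4 => ((K.1 : TopologicalSpace.NonemptyCompacts E) : Set E))
        hts
    funext i
    have h2 : σ i (t i) ∈ range (fun i => σ i (s i)) := by
      rw [← h1]
      exact ⟨i, rfl⟩
    obtain ⟨j, hj⟩ := h2
    by_cases hij : j = i
    · subst hij
      exact (hinj j hj).symm
    · exact absurd hj (hdisj j i hij _ _)

theorem sym_separated {E : Type} [MetricSpace E] [CompactSpace E] (P U : Fin 4 → Set E)
    (hP : ∀ i, IsClosed (P i)) (hU : ∀ i, IsOpen (U i)) (hUP : ∀ i, U i ⊆ P i)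
    (hne : ∀ i, (U i).Nonempty) (hdisj : Pairwise (fun i j => Disjoint (P i) (P j)))
    (h6 : DimLE (∀ i, P i) 6) :
    ∃ C : Set (SymProd E 4), IsClosed C ∧ DimLE C 6 ∧ ¬ IsPreconnected Cᶜ := by
  -- disjointness in a usable form
  have hd : ∀ i j x, x ∈ P i → x ∈ P j → i = j := by
    intro i j x hi hj
    by_contra hij
    exact Set.disjoint_left.1 (hdisj hij) hi hj
  let Ob : Set (SymProd E 4) := {K | ((K.1 : TopologicalSpace.NonemptyCompacts E) : Set E) ⊆ ⋃ i, P i ∧
    ∀ i, (((K.1 : TopologicalSpace.NonemptyCompacts E) : Set E) ∩ P i).Nonempty}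
  let O : Set (SymProd E 4) := {K | ((K.1 : TopologicalSpace.NonemptyCompacts E) : Set E) ⊆ ⋃ i, U i ∧
    ∀ i, (((K.1 : TopologicalSpace.NonemptyCompacts E) : Set E) ∩ U i).Nonempty}
  have hOO : O ⊆ Ob := by
    rintro K ⟨h1, h2⟩
    refine ⟨h1.trans (iUnion_mono hUP), fun i => ?_⟩
    exact (h2 i).mono (inter_subset_inter_right _ (hUP i))
  have hObc : IsClosed Ob := by
    have h1 : IsClosed {K : SymProd E 4 |
        ((K.1 : TopologicalSpace.NonemptyCompacts E) : Set E) ⊆ ⋃ i, P i} :=
      (TopologicalSpace.NonemptyCompacts.isClosed_subsets_of_isClosed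
        (isClosed_iUnion_of_finite hP)).preimage j942_val_continuous
    have h2 : ∀ i, IsClosed {K : SymProd E 4 |
        (((K.1 : TopologicalSpace.NonemptyCompacts E) : Set E) ∩ P i).Nonempty} := fun i =>
      (TopologicalSpace.NonemptyCompacts.isClosed_inter_nonempty_of_isClosed
        (hP i)).preimage j942_val_continuous
    have h3 : Ob = {K : SymProd E 4 |
        ((K.1 : TopologicalSpace.NonemptyCompacts E) : Set E) ⊆ ⋃ i, P i} ∩
        ⋂ i, {K : SymProd E 4 |
        (((K.1 : TopologicalSpace.NonemptyCompacts E) : Set E) ∩ P i).Nonempty} := by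
      ext K
      simp [Ob]
    rw [h3]
    exact h1.inter (isClosed_iInter h2)
  have hOo : IsOpen O := by
    have h1 : IsOpen {K : SymProd E 4 |
        ((K.1 : TopologicalSpace.NonemptyCompacts E) : Set E) ⊆ ⋃ i, U i} :=
      (TopologicalSpace.NonemptyCompacts.isOpen_subsets_of_isOpen
        (isOpen_iUnion hU)).preimage j942_val_continuous
    have h2 : ∀ i, IsOpen {K : SymProd E 4 |
        (((K.1 : TopologicalSpace.NonemptyCompacts E) : Set E) ∩ U i).Nonempty} := fun i =>
      (TopologicalSpace.NonemptyCompacts.isOpen_inter_nonempty_of_isOpen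
        (hU i)).preimage j942_val_continuous
    have h3 : O = {K : SymProd E 4 |
        ((K.1 : TopologicalSpace.NonemptyCompacts E) : Set E) ⊆ ⋃ i, U i} ∩
        ⋂ i, {K : SymProd E 4 |
        (((K.1 : TopologicalSpace.NonemptyCompacts E) : Set E) ∩ U i).Nonempty} := by
      ext K
      simp [O]
    rw [h3]
    exact h1.inter (isOpen_iInter_of_finite h2)
  -- the product of the `P i` is homeomorphic to `Ob`
  have hPc : ∀ i, CompactSpace (P i) := fun i => isCompact_iff_compactSpace.1 (hP i).isCompact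
  have hmem : ∀ x : (∀ i, P i), j942Phi 4 (fun i => (x i : E)) ∈ Ob := by
    intro x
    refine ⟨?_, fun i => ⟨x i, ⟨i, rfl⟩, (x i).2⟩⟩
    rw [j942Phi_coe]
    rintro _ ⟨i, rfl⟩
    exact mem_iUnion.2 ⟨i, (x i).2⟩
  let g : (∀ i, P i) → Ob := fun x => ⟨j942Phi 4 (fun i => (x i : E)), hmem x⟩
  have hgc : Continuous g := by
    refine Continuous.subtype_mk ((j942Phi_continuous 4).comp ?_) _
    exact continuous_pi fun i => continuous_subtype_val.comp (continuous_apply i)
  have hgi : Function.Injective g := by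
    intro t s hts
    have h0 : j942Phi 4 (fun i => (t i : E)) = j942Phi 4 (fun i => (s i : E)) :=
      congrArg Subtype.val hts
    have h1 : range (fun i => (t i : E)) = range (fun i => (s i : E)) := by
      rw [← j942Phi_coe 4, ← j942Phi_coe 4, h0]
    funext i
    have h2 : (t i : E) ∈ range (fun i => (s i : E)) := by
      rw [← h1]
      exact ⟨i, rfl⟩
    obtain ⟨j, hj⟩ := h2
    have hj' : (s j : E) = (t i : E) := hj
    have hij : j = i := hd j i _ (s j).2 (by rw [hj']; exact (t i).2)
    subst hij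
    exact Subtype.ext hj'.symm
  have hgs : Function.Surjective g := by
    rintro ⟨K, hK1, hK2⟩
    have hK3 := hK2
    choose x hx using hK3
    have hxi : Function.Injective x := by
      intro i j hij
      exact hd i j (x i) (hx i).2 (by rw [hij]; exact (hx j).2)
    refine ⟨fun i => ⟨x i, (hx i).2⟩, Subtype.ext (j942_ext ?_)⟩
    change range x = _
    have hr : range x ⊆ ((K.1 : TopologicalSpace.NonemptyCompacts E) : Set E) := by
      rintro _ ⟨i, rfl⟩
      exact (hx i).1
    refine (finite_range x).eq_of_subset_of_encard_le hr ?_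
    have hK : ((K.1 : TopologicalSpace.NonemptyCompacts E) : Set E).encard ≤ ((4 : ℕ) : ℕ∞) := K.2
    refine hK.trans (le_trans ?_ hxi.encard_range)
    simp
  let e : (∀ i, P i) ≃ₜ Ob :=
    Continuous.homeoOfEquivCompactToT2 (f := Equiv.ofBijective g ⟨hgi, hgs⟩) hgc
  have hOb6 : DimLE Ob 6 := DimLE.of_isClosedEmbedding e.symm.isClosedEmbedding h6
  have hcl : closure O ⊆ Ob := closure_minimal hOO hObc
  have hC6 : DimLE (frontier O) 6 :=
    DimLE.of_subset isClosed_frontier (frontier_subset_closure.trans hcl) hOb6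
  refine ⟨frontier O, isClosed_frontier, hC6, fun hcon => ?_⟩
  have hcompl : (frontier O)ᶜ = O ∪ (closure O)ᶜ := by
    rw [frontier, hOo.interior_eq]
    ext K
    simp only [mem_compl_iff, mem_sdiff, mem_union]
    tauto
  have h1 := hcon O (closure O)ᶜ hOo isClosed_closure.isOpen_compl (by rw [hcompl])
  choose u hu using hne
  have h2 : ((frontier O)ᶜ ∩ O).Nonempty := by
    refine ⟨j942Phi 4 u, ?_, ?_⟩
    · rw [hcompl]
      left
      refine ⟨?_, fun i => ⟨u i, ⟨i, rfl⟩, hu i⟩⟩
      rw [j942Phi_coe]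
      rintro _ ⟨i, rfl⟩
      exact mem_iUnion.2 ⟨i, hu i⟩
    · refine ⟨?_, fun i => ⟨u i, ⟨i, rfl⟩, hu i⟩⟩
      rw [j942Phi_coe]
      rintro _ ⟨i, rfl⟩
      exact mem_iUnion.2 ⟨i, hu i⟩
  have hnot : j942Phi 4 (fun _ => u 0) ∉ closure O := by
    intro hc
    obtain ⟨y, hy, hy1⟩ := (hcl hc).2 1
    rw [j942Phi_coe] at hy
    obtain ⟨i, rfl⟩ := hy
    have := hd 0 1 (u 0) (hUP 0 (hu 0)) hy1
    exact absurd this (by decide)
  have h3 : ((frontier O)ᶜ ∩ (closure O)ᶜ).Nonempty := by
    refine ⟨j942Phi 4 (fun _ => u 0), ?_, hnot⟩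
    rw [hcompl]
    exact Or.inr hnot
  obtain ⟨K, -, hK1, hK2⟩ := h1 h2 h3
  exact hK2 (subset_closure hK1)

theorem sym_not_cantor' {E : Type} [MetricSpace E] {C : Set (SymProd E 4)} (hC : IsClosed C)
    (hC6 : DimLE C 6) (hcon : ¬ IsPreconnected Cᶜ) (h7 : ¬ DimLE (SymProd E 4) 7) (k : ℤ) :
    ¬ IsCantorManifold (SymProd E 4) k := by
  intro hm
  have hk : 8 ≤ k := by
    by_contra hk
    apply h7
    rw [← covDimLE_iff]
    exact covDimLE_mono hm.dim_le (by push_cast; omega)
  have hCk : CovDimLE C (k - 2) :=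
    covDimLE_mono ((covDimLE_iff 6).2 hC6) (by push_cast; omega)
  exact hcon (hm.conn _ hC hCk).isPreconnected

theorem sym_not_cantor {E : Type} [MetricSpace E] [CompactSpace E] (P U : Fin 4 → Set E)
    (hP : ∀ i, IsClosed (P i)) (hU : ∀ i, IsOpen (U i)) (hUP : ∀ i, U i ⊆ P i)
    (hne : ∀ i, (U i).Nonempty) (hdisj : Pairwise (fun i j => Disjoint (P i) (P j)))
    (h6 : DimLE (∀ i, P i) 6) (h7 : ¬ DimLE (SymProd E 4) 7) (k : ℤ) :
    ¬ IsCantorManifold (SymProd E 4) k := by
  obtain ⟨C, h1, h2, h3⟩ := sym_separated P U hP hU hUP hne hdisj h6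
  exact sym_not_cantor' h1 h2 h3 h7 k

end SymCM
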