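import Mathlib
import Pool.Agent.SymCM.Defs
set_option autoImplicit false
open Set Topology

namespace SymCM

theorem exists_dense_seq (l r : ℝ) (hlr : l < r) : ∃ d : ℕ → ℂ, Function.Injective d ∧
    (∀ n, (d n).re ∈ Ioo l r ∧ (d n).im ∈ Ioo (0 : ℝ) 1) ∧
    ∀ W : Set ℂ, IsOpen W → (W ∩ {z | z.re ∈ Ioo l r ∧ z.im ∈ Ioo (0 : ℝ) 1}).Nonempty →
      ∃ n, d n ∈ W := by
  set R : Set ℂ := {z | z.re ∈ Ioo l r ∧ z.im ∈ Ioo (0 : ℝ) 1} with hR
  have hRopen : IsOpen R := by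
    have h1 : R = Complex.re ⁻¹' (Ioo l r) ∩ Complex.im ⁻¹' (Ioo (0 : ℝ) 1) := rfl
    rw [h1]
    exact (isOpen_Ioo.preimage Complex.continuous_re).inter
      (isOpen_Ioo.preimage Complex.continuous_im)
  have hRne : R.Nonempty := by
    refine ⟨⟨(l + r) / 2, 1 / 2⟩, ⟨?_, ?_⟩, ?_, ?_⟩ <;> simp <;> linarith
  obtain ⟨D, hDc, hDd⟩ := TopologicalSpace.exists_countable_dense ℂ
  set S : Set ℂ := D ∩ R with hS
  have hSc : S.Countable := hDc.mono inter_subset_left
  have hSinf : S.Infinite := by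
    intro hfin
    have hopen : IsOpen (R \ S) := hRopen.sdiff hfin.isClosed
    have hne : (R \ S).Nonempty := by
      by_contra hcon
      rw [Set.not_nonempty_iff_eq_empty, Set.sdiff_eq_empty] at hcon
      have hRc : R.Countable := hSc.mono hcon
      have hcard := continuum_le_cardinal_of_isOpen ℝ hRopen hRne
      have h2 : Cardinal.mk R ≤ Cardinal.aleph0 := Cardinal.le_aleph0_iff_set_countable.2 hRc
      exact absurd (hcard.trans h2) (not_le.2 Cardinal.aleph0_lt_continuum)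
    obtain ⟨z, hz, hzD⟩ := hDd.exists_mem_open hopen hne
    exact hzD.2 ⟨hz, hzD.1⟩
  have : Infinite S := hSinf.to_subtype
  have : Countable S := hSc.to_subtype
  obtain ⟨e⟩ : Nonempty (ℕ ≃ S) := ⟨(nonempty_denumerable S).some.eqv.symm⟩
  refine ⟨fun n => (e n : ℂ), ?_, ?_, ?_⟩
  · intro a b hab
    exact e.injective (Subtype.ext hab)
  · intro n
    exact (e n).2.2
  · intro W hW hWR
    obtain ⟨z, hz, hzD⟩ := hDd.exists_mem_open (hW.inter hRopen) hWR
    refine ⟨e.symm ⟨z, hz, hzD.2⟩, ?_⟩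
    simpa using hzD.1

end SymCM
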