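import Mathlib
import Pool.Agent.SymCM.Defs
import Pool.Agent.SymCM.A1
import Pool.Agent.SymCM.A5
import Pool.Agent.SymCM.B1
import Pool.Agent.SymCM.B2
import Pool.Agent.SymCM.B3b
import Pool.Agent.SymCM.CP
import Pool.Agent.SymCM.C4
import Pool.Agent.SymCM.C3
import Pool.Agent.SymCM.DEQ
import Pool.Agent.SymCM.S1
import Pool.Agent.SymCM.Z0
import Pool.Agent.SymCM.PC
set_option autoImplicit false
open Set Topology

namespace SymCM

theorem isClosed_BoxBd (l r b t : ℝ) : IsClosed (BoxBd l r b t) := by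
  have h1 : BoxBd l r b t = {z : ℂ | l ≤ z.re} ∩ {z | z.re ≤ r} ∩ ({z | b ≤ z.im} ∩ {z | z.im ≤ t}) ∩
      ({z | z.re = l} ∪ {z | z.re = r} ∪ {z | z.im = b} ∪ {z | z.im = t}) := by
    ext z
    simp only [BoxBd, Box, Set.mem_Icc, Set.mem_inter_iff, Set.mem_union, Set.mem_ofPred_eq]
    tauto
  rw [h1]
  have c1 := Complex.continuous_re
  have c2 := Complex.continuous_im
  exact (((isClosed_le continuous_const c1).inter (isClosed_le c1 continuous_const)).inter
    ((isClosed_le continuous_const c2).inter (isClosed_le c2 continuous_const))).inter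
    ((((isClosed_eq c1 continuous_const).union (isClosed_eq c1 continuous_const)).union
      (isClosed_eq c2 continuous_const)).union (isClosed_eq c2 continuous_const))

theorem exists_space {c d : ℕ → ℂ} (hd : Function.Injective d)
    (hd1 : ∀ n, (d n).re ∈ Ioo (0 : ℝ) 1 ∧ (d n).im ∈ Ioo (0 : ℝ) 1) :
    ∃ (E : Type) (_ : TopologicalSpace E) (_ : CompactSpace E) (_ : T2Space E)
      (_ : TopologicalSpace.MetrizableSpace E) (j : E → ℂ × (ℕ → ℂ) × (ℕ → ℂ)),
      Continuous j ∧ Function.Injective j ∧ (∀ p, j p ∈ TT c d) ∧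
      (∀ x ∈ Box 0 4 0 1, ∃ p, (j p).1 = x) ∧ DimLE E 2 ∧ ¬ DimLE E 1 ∧
      ∀ C : Set E, IsClosed C → DimLE C 0 → IsPreconnected Cᶜ := by
  classical
  have : CompactSpace (TT c d) := isCompact_iff_compactSpace.mp (isCompact_TT c d)
  set q : TT c d → ℂ := fun p => p.1.1 with hq
  have hqc : Continuous q := by fun_prop
  set x0 : ℂ := ⟨2, 1/2⟩ with hx0
  have hx1 : x0.re ∈ Ioo (0:ℝ) 4 := by simp [hx0]; norm_num
  have hx2 : x0.im ∈ Ioo (0:ℝ) 1 := by simp [hx0]; norm_num
  set A : Set (TT c d) := q ⁻¹' BoxBd 0 4 0 1 with hA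
  have hBcl : IsClosed (BoxBd 0 4 0 1) := isClosed_BoxBd _ _ _ _
  have hAcl : IsClosed A := hBcl.preimage hqc
  have hφA : ∀ x ∈ A, q x - x0 ≠ 0 := by
    intro x hx h0
    have h1 : q x = x0 := sub_eq_zero.mp h0
    have h2 : x0 ∈ BoxBd 0 4 0 1 := by rw [← h1]; exact hx
    rcases h2.2 with h | h | h | h
    · exact absurd h hx1.1.ne'
    · exact absurd h hx1.2.ne
    · exact absurd h hx2.1.ne'
    · exact absurd h hx2.2.ne
  have hφc : Continuous (fun p : TT c d => q p - x0) := by fun_prop
  have hnE : ¬ Ext A (fun p => q p - x0) univ := by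
    rintro ⟨g, g1, g2, g3⟩
    refine TT_essential (c := c) hd hd1 (x0 := x0) ⟨hx1, hx2⟩
      (f := fun p => if h : p ∈ TT c d then g ⟨p, h⟩ else 1) ?_ ?_ ?_
    · rw [continuousOn_iff_continuous_domRestrict]
      refine g1.congr fun p => ?_
      simp
    · intro p hp
      simp only [hp, dif_pos]
      exact g3 _ trivial
    · intro p hp hpb
      simp only [hp, dif_pos]
      exact g2 ⟨p, hp⟩ hpb
  obtain ⟨K, hK, hKn, hKmin⟩ := exists_minimal hnE
  have : CompactSpace K := isCompact_iff_compactSpace.mp hK.isCompact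
  have hT2 : DimLE (TT c d) 2 := dimLE_TT hd
  refine ⟨K, inferInstance, inferInstance, inferInstance, inferInstance, fun p => p.1.1, by fun_prop, ?_, fun p => p.1.2, ?_, ?_, ?_, ?_⟩
  · intro a b hab
    exact Subtype.ext (Subtype.ext hab)
  · intro x hx
    obtain ⟨p, hp, hpx⟩ := surj_of_not_ext hqc hx1 hx2 hK hKn hx
    exact ⟨⟨p, hp⟩, hpx⟩
  · exact DimLE.of_isClosedEmbedding hK.isClosedEmbedding_subtypeVal hT2
  · intro h1
    exact hKn (ext_of_dimLE_one hK h1 hAcl hφc hφA)
  · intro C hC hC0
    have hCcl : IsClosed (Subtype.val '' C : Set (TT c d)) := hK.isClosedEmbedding_subtypeVal.isClosedMap C hC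
    have hCK : (Subtype.val '' C : Set (TT c d)) ⊆ K := by
      rintro _ ⟨x, -, rfl⟩; exact x.2
    have hd0 : DimLE (Subtype.val '' C : Set (TT c d)) 0 := by
      have : CompactSpace (Subtype.val '' C : Set (TT c d)) := isCompact_iff_compactSpace.mp hCcl.isCompact
      refine DimLE.of_injective (f := fun p : (Subtype.val '' C : Set (TT c d)) =>
        (⟨⟨p.1, hCK p.2⟩, ?_⟩ : C)) ?_ ?_ hC0
      · obtain ⟨y, hy, hyp⟩ := p.2
        have : y = ⟨p.1, hCK p.2⟩ := Subtype.ext hyp
        rw [← this]; exact hy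
      · fun_prop
      · intro a b hab
        have := congrArg (fun z : C => z.1.1) hab
        exact Subtype.ext this
    have hpre := minimal_sdiff_preconnected hAcl hφc hφA hK hKn hKmin hCcl hCK hd0
    have hind : IsInducing (Subtype.val : K → TT c d) := IsInducing.subtypeVal
    rw [← hind.isPreconnected_image]
    convert hpre using 1
    ext p
    constructor
    · rintro ⟨y, hy, rfl⟩
      refine ⟨y.2, ?_⟩
      rintro ⟨z, hz, hzy⟩
      exact hy (by rw [← Subtype.ext hzy]; exact hz)
    · rintro ⟨hp, hpC⟩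
      exact ⟨⟨p, hp⟩, fun h => hpC ⟨_, h, rfl⟩, rfl⟩


theorem not_dimLE_cube42 : ¬ DimLE (Fin 4 → (Fin 2 → Icc (0 : ℝ) 1)) 7 := by
  intro h
  refine not_dimLE_cube 7 (DimLE.of_injective (f := fun (t : Fin 8 → Icc (0:ℝ) 1) (i : Fin 4) (j : Fin 2) =>
    t ⟨2 * i.1 + j.1, by omega⟩) ?_ ?_ h)
  · fun_prop
  · intro a b hab
    funext m
    have h1 := congrFun (congrFun hab ⟨m.1 / 2, by omega⟩) ⟨m.1 % 2, by omega⟩
    have h2 : (⟨2 * (m.1 / 2) + m.1 % 2, by omega⟩ : Fin 8) = m := by
      ext; simp; omega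
    simpa [h2] using h1

/-- left and right ends of the four pieces -/
noncomputable def pl : Fin 4 → ℝ := ![0, 2/3, 3, 11/3]
noncomputable def pr : Fin 4 → ℝ := ![1/3, 1, 10/3, 4]

theorem main : ∃ (E : Type) (_ : MetricSpace E) (_ : CompactSpace E),
    IsCantorManifold E 2 ∧ CompactSpace (SymProd E 4) ∧
    (∀ k : ℤ, ¬ IsCantorManifold (SymProd E 4) k) ∧
    ∃ C : Set (SymProd E 4), IsClosed C ∧ CovDimLE C 6 ∧ ¬ CovDimLE (SymProd E 4) 7 ∧
      ¬ IsPreconnected Cᶜ := by
  classical
  obtain ⟨d, hd, hd1, hd2⟩ := exists_dense_seq 0 1 one_pos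
  obtain ⟨c, -, -, hc2⟩ := exists_dense_seq 3 4 (by norm_num)
  obtain ⟨E, _, hcpt, _, _, j, hj, hji, hjT, hsurj, hE2, hE1, hconn⟩ := exists_space (c := c) hd hd1
  let _ : MetricSpace E := TopologicalSpace.metrizableSpaceMetric E
  suffices hmain : (∃ C : Set (SymProd E 4), IsClosed C ∧ DimLE C 6 ∧ ¬ IsPreconnected Cᶜ) ∧
      ¬ DimLE (SymProd E 4) 7 by
    obtain ⟨⟨C, h1, h2, h3⟩, h7⟩ := hmain
    refine ⟨E, inferInstance, hcpt, ?_, inferInstance, sym_not_cantor' h1 h2 h3 h7,
      C, h1, (covDimLE_iff 6).2 h2, fun h => h7 ((covDimLE_iff 7).1 h), h3⟩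
    refine ⟨hcpt, by norm_num, ?_, ?_, ?_⟩
    · exact_mod_cast (covDimLE_iff 2).2 hE2
    · intro h
      have : CovDimLE E ((1 : ℕ) : ℤ) := by simpa using h
      exact hE1 ((covDimLE_iff 1).1 this)
    · intro C hC hCd
      have h0 : DimLE C 0 := (covDimLE_iff 0).1 (by simpa using hCd)
      refine ⟨?_, hconn C hC h0⟩
      by_contra hne
      rw [Set.not_nonempty_iff_eq_empty, Set.compl_empty_iff] at hne
      subst hne
      refine hE1 (DimLE.mono (m := 0) ?_ (by norm_num))
      exact DimLE.of_isClosedEmbedding (f := fun x : E => (⟨x, trivial⟩ : (univ : Set E)))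
        (Homeomorph.Set.univ E).symm.isClosedEmbedding h0
  constructor
  · have hre : Continuous fun p => (j p).1.re := Complex.continuous_re.comp (continuous_fst.comp hj)
    refine sym_separated (fun i => {p | pl i ≤ (j p).1.re ∧ (j p).1.re ≤ pr i})
      (fun i => {p | pl i < (j p).1.re ∧ (j p).1.re < pr i}) ?_ ?_ ?_ ?_ ?_ ?_
    · intro i
      exact (isClosed_le continuous_const hre).inter (isClosed_le hre continuous_const)
    · intro i
      exact (isOpen_lt continuous_const hre).inter (isOpen_lt hre continuous_const)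
    · intro i p hp
      exact ⟨hp.1.le, hp.2.le⟩
    · intro i
      obtain ⟨p, hp⟩ := hsurj ⟨(pl i + pr i) / 2, 1 / 2⟩ (by
        fin_cases i <;> simp [Box, pl, pr] <;> norm_num)
      refine ⟨p, ?_⟩
      show _ ∧ _
      rw [hp]
      fin_cases i <;> simp [pl, pr] <;> norm_num
    · intro a b hab
      refine Set.disjoint_left.2 ?_
      rintro p ⟨h1, h2⟩ ⟨h3, h4⟩
      fin_cases a <;> fin_cases b <;> simp [pl, pr] at h1 h2 h3 h4 hab <;> linarith
    · refine dimLE_four_pieces hd hd1 hd2 hc2 hj hji hjT _ ?_ ?_ ?_ ?_ ?_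
      · intro i
        exact (isClosed_le continuous_const hre).inter (isClosed_le hre continuous_const)
      · rintro p ⟨h1, h2⟩
        simp [pr] at h2; linarith
      · rintro p ⟨h1, h2⟩
        simpa [pr] using h2
      · rintro p ⟨h1, h2⟩
        simpa [pl] using h1
      · rintro p ⟨h1, h2⟩
        simp [pl] at h1; linarith
  · -- four disjoint squares in the plain part
      set z : Fin 4 → (Fin 2 → Icc (0:ℝ) 1) → ℂ := fun i t =>
        ⟨1 + (i.1 : ℝ) / 4 + (t 0).1 / 8, (t 1).1⟩ with hz
      have hzc : ∀ i, Continuous (z i) := by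
        intro i
        have : z i = fun t => ((1 + (i.1 : ℝ) / 4 + (t 0).1 / 8 : ℝ) : ℂ) + ((t 1).1 : ℂ) * Complex.I := by
          funext t
          apply Complex.ext <;> simp [hz]
        rw [this]
        fun_prop
      have hz1 : ∀ i t, 1 + (i.1 : ℝ) / 4 ≤ (z i t).re ∧ (z i t).re ≤ 1 + (i.1 : ℝ) / 4 + 1 / 8 := by
        intro i t
        have h1 := (t 0).2.1
        have h2 := (t 0).2.2
        simp only [hz]
        constructor <;> linarith
      have hi3 : ∀ i : Fin 4, (i.1 : ℝ) ≤ 3 := fun i => by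
        have := i.2
        exact_mod_cast Nat.lt_succ_iff.mp this
      have hz12 : ∀ i t, 1 ≤ (z i t).re ∧ (z i t).re ≤ 2 := by
        intro i t
        have h1 := hz1 i t
        have h2 := hi3 i
        have h3 : (0:ℝ) ≤ i.1 := Nat.cast_nonneg _
        constructor <;> linarith
      have hzim : ∀ i t, 0 ≤ (z i t).im ∧ (z i t).im ≤ 1 := fun i t => (t 1).2
      have hzbox : ∀ i t, z i t ∈ Box 0 4 0 1 := by
        intro i t
        have h1 := hz12 i t
        exact ⟨⟨by linarith, by linarith⟩, hzim i t⟩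
      choose w hw using fun i t => hsurj (z i t) (hzbox i t)
      have hwj : ∀ i t, j (w i t) = (z i t, 0, Yf d (z i t)) := by
        intro i t
        have h1 := hjT (w i t)
        have h2 := hz12 i t
        rw [← hw i t] at h2 ⊢
        refine Prod.ext rfl (Prod.ext ?_ ?_)
        · funext n
          have h3 := (h1.2 n).1
          have h4 : max 0 ((j (w i t)).1.re - 2) = 0 := max_eq_left (by linarith)
          rw [h4] at h3
          simpa using h3
        · funext n
          have h3 := (h1.2 n).2.2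
          refine eq_Yf d ?_ h3
          intro h5
          have h6 := (hd1 n).1.2
          rw [← h5] at h6
          linarith
      have hwc : ∀ i, Continuous (w i) := by
        intro i
        have hemb : IsClosedEmbedding j := hj.isClosedEmbedding hji
        rw [hemb.isInducing.continuous_iff]
        have : j ∘ w i = fun t => (z i t, 0, Yf d (z i t)) := funext fun t => hwj i t
        rw [this]
        refine (hzc i).prodMk (continuous_const.prodMk ?_)
        have h3 : ContinuousOn (Yf d) {x : ℂ | 1 ≤ x.re} := continuousOn_Yf d (fun n hn => by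
          have h1 := (hd1 n).1.2
          have h2 : 1 ≤ (d n).re := hn
          linarith)
        exact h3.comp_continuous (hzc i) (fun t => (hz12 i t).1)
      refine sym_not_dimLE w hwc ?_ ?_ not_dimLE_cube42
      · intro i s t hst
        have h1 : z i s = z i t := by rw [← hw i s, ← hw i t, hst]
        have h2 := congrArg Complex.re h1
        have h3 := congrArg Complex.im h1
        simp only [hz] at h2 h3
        funext m
        fin_cases m
        · apply Subtype.ext; show (s 0).1 = (t 0).1; linarith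
        · apply Subtype.ext; exact h3
      · intro i i' hii s t hst
        have h1 : z i s = z i' t := by rw [← hw i s, ← hw i' t, hst]
        have h2 := hz1 i s
        have h3 := hz1 i' t
        rw [h1] at h2
        have h4 : (i.1 : ℝ) ≠ i'.1 := by
          intro h; exact hii (Fin.ext (by exact_mod_cast h))
        rcases lt_or_gt_of_ne (fun h => hii (Fin.ext h) : i.1 ≠ i'.1) with h | h
        · have : (i.1 : ℝ) + 1 ≤ i'.1 := by exact_mod_cast h
          linarith
        · have : (i'.1 : ℝ) + 1 ≤ i.1 := by exact_mod_cast h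
          linarith

end SymCM
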